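import Mathlib

/-!
The definitions used in the statement of the theorem: weak solutions of the incompressible Euler
equations on `𝕋³ × [0,T]`, `𝕋³ = ℝ³/ℤ³`.  Functions on `𝕋³` are `ℤ³`-periodic functions on `ℝ³`,
integrals over `𝕋³` are integrals over the cell `[0,1)³`.
-/

open MeasureTheory Set

namespace EulerTimes

/-- `ℝ³`. -/
abbrev R3 := EuclideanSpace ℝ (Fin 3)

/-- `ℤ³`-periodic functions on `ℝ³`, i.e. functions on `𝕋³`. -/
def Periodic3 {α : Type*} (f : R3 → α) : Prop :=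
  ∀ (x : R3) (n : Fin 3 → ℤ), f (x + WithLp.toLp 2 fun i => (n i : ℝ)) = f x

/-- The cell `[0,1)³`. -/
def Cell : Set R3 := {x | ∀ i, x i ∈ Ico (0 : ℝ) 1}

/-- Partial derivative. -/
noncomputable def pd (i : Fin 3) (f : R3 → ℝ) (x : R3) : ℝ :=
  fderiv ℝ f x (EuclideanSpace.single i 1)

/-- Test fields: smooth, periodic in space, divergence free, compactly supported in `(0,T)`. -/
structure TestField (T : ℝ) (φ : R3 → ℝ → R3) : Prop where
  smooth : ∀ n : ℕ, ContDiff ℝ n (fun p : R3 × ℝ => φ p.1 p.2)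
  periodic : ∀ t, Periodic3 fun x => φ x t
  divfree : ∀ x t, ∑ i, pd i (fun y => φ y t i) x = 0
  support : ∃ a b, 0 < a ∧ b < T ∧ ∀ t, t ∉ Icc a b → ∀ x, φ x t = 0

/-- Weak solutions of the incompressible Euler equations on `𝕋³ × [0,T]`: square integrable,
divergence free (weakly, at every time), and satisfying the weak formulation. -/
structure WeakSolution (T : ℝ) (v : R3 → ℝ → R3) : Prop where
  periodic : ∀ t ∈ Icc 0 T, Periodic3 fun x => v x t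
  square : MemLp (fun p : R3 × ℝ => v p.1 p.2) 2 (volume.restrict (Cell ×ˢ Icc 0 T))
  divfree : ∀ t ∈ Icc 0 T, ∀ ψ : R3 → ℝ, (∀ n : ℕ, ContDiff ℝ n ψ) → Periodic3 ψ →
    ∫ x in Cell, ∑ i, v x t i * pd i ψ x = 0
  weak : ∀ φ : R3 → ℝ → R3, TestField T φ →
    ∫ t in (0)..T, ∫ x in Cell, ((∑ i, v x t i * deriv (fun s => φ x s i) t) +
      ∑ i, ∑ j, v x t i * v x t j * pd j (fun y => φ y t i) x) = 0

/-- Kinetic energy. -/
noncomputable def energy (v : R3 → ℝ → R3) (t : ℝ) : ℝ := 1 / 2 * ∫ x in Cell, ‖v x t‖ ^ 2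

/-- Non-conservative: the kinetic energy is not constant on `[0,T]`. -/
def NonConservative (T : ℝ) (v : R3 → ℝ → R3) : Prop :=
  ∃ s ∈ Icc 0 T, ∃ t ∈ Icc 0 T, energy v s ≠ energy v t

/-- `v ∈ C^β(𝕋³ × [0,T])`: continuous, and Hoelder with exponent `β` in space-time. -/
def HolderClass (β T : ℝ) (v : R3 → ℝ → R3) : Prop :=
  ContinuousOn (fun p : R3 × ℝ => v p.1 p.2) (univ ×ˢ Icc 0 T) ∧
    ∃ C : ℝ, ∀ x y, ∀ s ∈ Icc 0 T, ∀ t ∈ Icc 0 T,
      ‖v x s - v y t‖ ≤ C * (‖x - y‖ + |s - t|) ^ β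

/-- `v ∈ C^∞(𝕋³ × ([0,T] \ B))`. -/
def SmoothOff (T : ℝ) (B : Set ℝ) (v : R3 → ℝ → R3) : Prop :=
  ∀ n : ℕ, ContDiffOn ℝ n (fun p : R3 × ℝ => v p.1 p.2) (univ ×ˢ (Icc 0 T \ B))

end EulerTimes
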