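import Pool.Agent.H16.TSS.ES.Base

/-!
ES-LExp: the exponential in `WT`.
`texpc f ν = ∑' n, (f^n).co ν / n!`.  With `N_k(f) = ∑ (1+|ν|)^k ‖f_ν‖` one has
`N_k(f^n) ≤ N_k(f)^n`, so the family is rapidly decreasing for every `f`.
Useful device: for a bound `Bd k r f c` the partial sums of the exponential satisfy `Bd k r _ (exp c)`
and the series of differences is dominated by `c^n/n!`.
Additivity: Cauchy product (`tsum_mul_tsum_eq_tsum_sum_antidiagonal_of_summable_norm` in the complete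
ring `Ct`, after exchanging sums), or uniqueness.  Derivations: `∂ (f^n) = n f^(n-1) ∂ f`.
-/

open scoped BoundedContinuousFunction

namespace ES

/-! ### norms and absolutely convergent series -/

/-- weighted norm with constant weights -/
noncomputable def Nk (k : ℕ) (f : WT) : ℝ := ∑' ν, (1 + (len ν : ℝ)) ^ k * ‖f.co ν‖

theorem Nk_nonneg (k : ℕ) (f : WT) : 0 ≤ Nk k f := tsum_nonneg fun _ => by positivity

private theorem le_Nk (k : ℕ) (f : WT) (ν : Gx) :
    (1 + (len ν : ℝ)) ^ k * ‖f.co ν‖ ≤ Nk k f :=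
  (f.rapid k).le_tsum ν fun _ _ => by positivity

theorem norm_co_le (f : WT) (ν : Gx) : ‖f.co ν‖ ≤ Nk 0 f := by
  simpa using le_Nk 0 f ν

private theorem tsum_conv_real' {a b : Gx → ℝ} (ha : Summable a) (hb : Summable b)
    (ha0 : ∀ ν, 0 ≤ a ν) (hb0 : ∀ ν, 0 ≤ b ν) :
    ∑' ν, ∑' μ, a μ * b (ν - μ) = (∑' ν, a ν) * ∑' ν, b ν := by
  have hs := summable_prod_shift ha hb ha0 hb0
  have h := ha.mul_of_nonneg hb ha0 hb0
  let e : Gx × Gx ≃ Gx × Gx :=
    { toFun := fun p => (p.2, p.1 - p.2)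
      invFun := fun p => (p.1 + p.2, p.1)
      left_inv := fun p => by ext <;> simp
      right_inv := fun p => by ext <;> simp }
  have h1 : ∑' ν, ∑' μ, a μ * b (ν - μ) = ∑' p : Gx × Gx, a p.2 * b (p.1 - p.2) :=
    (hs.tsum_prod).symm
  have h2 : ∑' p : Gx × Gx, a p.2 * b (p.1 - p.2) = ∑' p : Gx × Gx, a p.1 * b p.2 :=
    e.tsum_eq (fun p : Gx × Gx => a p.1 * b p.2)
  rw [h1, h2]
  exact (ha.tsum_mul_tsum hb h).symm

theorem Nk_mul_le (k : ℕ) (f g : WT) : Nk k (f * g) ≤ Nk k f * Nk k g := by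
  have h := (summable_prod_shift (f.rapid k) (g.rapid k) (fun _ => by positivity)
    (fun _ => by positivity))
  unfold Nk
  rw [← tsum_conv_real' (f.rapid k) (g.rapid k) (fun _ => by positivity)
    (fun _ => by positivity)]
  refine Summable.tsum_le_tsum (fun ν => ?_) ((f * g).rapid k) h.prod
  have h2 : Summable fun μ => ‖f.co μ‖ * ‖g.co (ν - μ)‖ :=
    (summable_prod_shift (rapid_norm f.rapid) (rapid_norm g.rapid) (fun _ => norm_nonneg _)
      (fun _ => norm_nonneg _)).prod_factor ν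
  have h3 : ‖(f * g).co ν‖ ≤ ∑' μ, ‖f.co μ‖ * ‖g.co (ν - μ)‖ :=
    tsum_of_norm_bounded h2.hasSum fun μ => norm_mul_le _ _
  have h4 := h.prod_factor ν
  calc (1 + (len ν : ℝ)) ^ k * ‖(f * g).co ν‖
      ≤ (1 + (len ν : ℝ)) ^ k * ∑' μ, ‖f.co μ‖ * ‖g.co (ν - μ)‖ :=
        mul_le_mul_of_nonneg_left h3 (by positivity)
    _ = ∑' μ, (1 + (len ν : ℝ)) ^ k * (‖f.co μ‖ * ‖g.co (ν - μ)‖) := by rw [tsum_mul_left]
    _ ≤ _ := by
        refine Summable.tsum_le_tsum (fun μ => ?_) (h2.mul_left _) h4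
        have h5 : (1 + (len ν : ℝ)) ^ k ≤ ((1 + (len μ : ℝ)) * (1 + (len (ν - μ) : ℝ))) ^ k :=
          pow_le_pow_left₀ (by positivity) (one_add_len_le ν μ) k
        calc (1 + (len ν : ℝ)) ^ k * (‖f.co μ‖ * ‖g.co (ν - μ)‖)
            ≤ ((1 + (len μ : ℝ)) * (1 + (len (ν - μ) : ℝ))) ^ k *
                (‖f.co μ‖ * ‖g.co (ν - μ)‖) :=
              mul_le_mul_of_nonneg_right h5 (by positivity)
          _ = _ := by rw [mul_pow]; ring

private theorem Nk_one (k : ℕ) : Nk k 1 = 1 := by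
  unfold Nk
  rw [tsum_eq_single 0]
  · rw [WT.co_one]
    simp [len_zero]
  · intro ν hν
    rw [WT.co_one]
    simp [hν]

private theorem Nk_pow_le (k : ℕ) (f : WT) (n : ℕ) : Nk k (f ^ n) ≤ Nk k f ^ n := by
  induction n with
  | zero => simp [Nk_one]
  | succ n ih =>
    rw [pow_succ, pow_succ]
    exact (Nk_mul_le k _ _).trans (mul_le_mul_of_nonneg_right ih (Nk_nonneg k f))

private theorem Nk_smul (k : ℕ) (c : ℂ) (f : WT) : Nk k (c • f) = ‖c‖ * Nk k f := by
  unfold Nk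
  rw [← tsum_mul_left]
  refine tsum_congr fun ν => ?_
  rw [WT.co_smul, Pi.smul_apply, norm_smul]
  ring

/-- the terms of the exponential series -/
noncomputable def et (f : WT) (n : ℕ) : WT := ((n.factorial : ℂ)⁻¹) • f ^ n

theorem norm_fact (n : ℕ) : ‖((n.factorial : ℂ)⁻¹)‖ = (n.factorial : ℝ)⁻¹ := by
  rw [norm_inv, Complex.norm_natCast]

private theorem Nk_et_le (k : ℕ) (f : WT) (n : ℕ) :
    Nk k (et f n) ≤ Nk k f ^ n / n.factorial := by
  unfold et
  rw [Nk_smul, norm_fact, inv_mul_eq_div]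
  exact div_le_div_of_nonneg_right (Nk_pow_le k f n) (by positivity)

theorem summable_Nk_et (k : ℕ) (f : WT) : Summable fun n => Nk k (et f n) :=
  Summable.of_nonneg_of_le (fun n => Nk_nonneg k _) (Nk_et_le k f)
    (Real.summable_pow_div_factorial _)

theorem summable_co {a : ℕ → WT} (h : Summable fun n => Nk 0 (a n)) (ν : Gx) :
    Summable fun n => (a n).co ν :=
  Summable.of_norm_bounded h fun n => norm_co_le (a n) ν

private theorem summable_prod_Nk {k : ℕ} {a : ℕ → WT} (h : Summable fun n => Nk k (a n)) :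
    Summable fun p : ℕ × Gx => (1 + (len p.2 : ℝ)) ^ k * ‖(a p.1).co p.2‖ := by
  rw [summable_prod_of_nonneg (fun p => by positivity)]
  exact ⟨fun n => (a n).rapid k, h⟩

/-- coefficientwise sum of a series -/
def HS (a : ℕ → WT) (A : WT) : Prop := ∀ ν, HasSum (fun n => (a n).co ν) (A.co ν)

theorem rapid_tsum {a : ℕ → WT} (h : ∀ k, Summable fun n => Nk k (a n)) :
    Rapid fun ν => ∑' n, (a n).co ν := by
  intro k
  have h1 := summable_prod_Nk (h k)
  have h2 : Summable fun p : Gx × ℕ => (1 + (len p.1 : ℝ)) ^ k * ‖(a p.2).co p.1‖ :=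
    (Equiv.prodComm Gx ℕ).summable_iff.mpr h1
  refine Summable.of_nonneg_of_le (fun ν => by positivity) (fun ν => ?_) h2.prod
  have h3 : Summable fun n => ‖(a n).co ν‖ :=
    Summable.of_nonneg_of_le (fun _ => norm_nonneg _) (fun n => norm_co_le (a n) ν) (h 0)
  show (1 + (len ν : ℝ)) ^ k * ‖∑' n, (a n).co ν‖ ≤ ∑' n, (1 + (len ν : ℝ)) ^ k * ‖(a n).co ν‖
  rw [tsum_mul_left]
  exact mul_le_mul_of_nonneg_left (norm_tsum_le_tsum_norm h3) (by positivity)

theorem HS_apply {a : ℕ → WT} {A : WT} (h : HS a A) (ν : Gx) (t : ℝ) :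
    HasSum (fun n => (a n).co ν t) (A.co ν t) :=
  (h ν).map (BoundedContinuousFunction.evalCLM ℂ t)
    (BoundedContinuousFunction.evalCLM ℂ t).continuous

/-- multiplication by a fixed element -/
theorem HS_mul_left {a : ℕ → WT} {A : WT} (hA : HS a A)
    (h : Summable fun n => Nk 0 (a n)) (g : WT) : HS (fun n => g * a n) (g * A) := by
  intro ν
  have hS : Summable fun p : ℕ × Gx => g.co p.2 * (a p.1).co (ν - p.2) := by
    have h1 : Summable fun p : ℕ × Gx => ‖g.co p.2‖ * ‖(a p.1).co (ν - p.2)‖ := by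
      rw [summable_prod_of_nonneg (fun p => by positivity)]
      have h2 : ∀ n, Summable fun μ => ‖g.co μ‖ * ‖(a n).co (ν - μ)‖ := fun n =>
        (summable_prod_shift (rapid_norm g.rapid) (rapid_norm (a n).rapid)
          (fun _ => norm_nonneg _) (fun _ => norm_nonneg _)).prod_factor ν
      refine ⟨h2, ?_⟩
      refine Summable.of_nonneg_of_le (fun n => tsum_nonneg fun _ => by positivity)
        (fun n => ?_) (h.mul_left (Nk 0 g))
      have h3 : Nk 0 g * Nk 0 (a n) = ∑' μ, ‖g.co μ‖ * Nk 0 (a n) := by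
        rw [tsum_mul_right]
        unfold Nk
        simp
      rw [h3]
      refine Summable.tsum_le_tsum (fun μ => ?_) (h2 n) ((rapid_norm g.rapid).mul_right _)
      exact mul_le_mul_of_nonneg_left (norm_co_le _ _) (norm_nonneg _)
    exact Summable.of_norm_bounded h1 fun p => norm_mul_le _ _
  have e1 : HasSum (fun n => (g * a n).co ν)
      (∑' p : ℕ × Gx, g.co p.2 * (a p.1).co (ν - p.2)) :=
    hS.hasSum.prod_fiberwise fun n => (conv_summable g.rapid (a n).rapid ν).hasSum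
  have hS' : Summable fun p : Gx × ℕ => g.co p.1 * (a p.2).co (ν - p.1) :=
    (Equiv.prodComm Gx ℕ).summable_iff.mpr hS
  have e2 : ∑' p : ℕ × Gx, g.co p.2 * (a p.1).co (ν - p.2) = (g * A).co ν := by
    rw [← (Equiv.prodComm Gx ℕ).tsum_eq]
    show ∑' p : Gx × ℕ, g.co p.1 * (a p.2).co (ν - p.1) = (g * A).co ν
    rw [hS'.tsum_prod, WT.mul_co]
    refine tsum_congr fun μ => ?_
    exact ((hA (ν - μ)).mul_left (g.co μ)).tsum_eq
  rwa [e2] at e1

theorem tsum_antidiag (F : ℕ × ℕ → Ct) (hS : Summable F) :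
    ∑' p : ℕ × ℕ, F p = ∑' N : ℕ, ∑ p ∈ Finset.HasAntidiagonal.antidiagonal N, F p := by
  rw [← Finset.HasAntidiagonal.sigmaAntidiagonalEquivProd.tsum_eq]
  have hS2 : Summable fun q : (Σ n : ℕ, Finset.HasAntidiagonal.antidiagonal n) =>
      F (Finset.HasAntidiagonal.sigmaAntidiagonalEquivProd q) :=
    Finset.HasAntidiagonal.sigmaAntidiagonalEquivProd.summable_iff.mpr hS
  rw [hS2.tsum_sigma]
  refine tsum_congr fun N => ?_
  rw [← Finset.tsum_subtype (Finset.HasAntidiagonal.antidiagonal N) F]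
  rfl

/-- derivations -/
private theorem deriv_pow {δ : WT →ₗ[ℂ] WT} (hδ : ∀ f g, δ (f * g) = δ f * g + f * δ g)
    (h1 : δ 1 = 0) (f : WT) (n : ℕ) : δ (f ^ (n + 1)) = ((n + 1 : ℕ) : ℂ) • (δ f * f ^ n) := by
  induction n with
  | zero => simp
  | succ n ih =>
    rw [pow_succ f (n + 1), hδ, ih]
    rw [smul_mul_assoc]
    have e : δ f * f ^ n * f = δ f * f ^ (n + 1) := by rw [pow_succ]; ring
    have e' : f ^ (n + 1) * δ f = δ f * f ^ (n + 1) := mul_comm _ _
    rw [e, e']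
    push_cast
    rw [add_smul (((n : ℂ) + 1)) 1, one_smul]

theorem et_succ_deriv {δ : WT →ₗ[ℂ] WT} (hδ : ∀ f g, δ (f * g) = δ f * g + f * δ g)
    (h1 : δ 1 = 0) (f : WT) (n : ℕ) : δ (et f (n + 1)) = δ f * et f n := by
  unfold et
  rw [map_smul, deriv_pow hδ h1, smul_smul, mul_smul_comm]
  congr 1
  have n1 : ((n + 1 : ℕ) : ℂ) ≠ 0 := by exact_mod_cast Nat.succ_ne_zero n
  rw [Nat.factorial_succ]
  push_cast at n1 ⊢
  have n2 : (n.factorial : ℂ) ≠ 0 := by exact_mod_cast n.factorial_ne_zero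
  field_simp

theorem exp_tsum (c : ℝ) : Real.exp c = ∑' n : ℕ, c ^ n / n.factorial := by
  rw [Real.exp_eq_exp_ℝ, NormedSpace.exp_eq_tsum_div]

noncomputable def etd (f f' : WT) : ℕ → WT
  | 0 => 0
  | n + 1 => f' * et f n

end ES
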