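import Pool.Agent.H16.TSS.ES.LTime
import Pool.Agent.H16.TSS.M04
import Pool.Agent.H16.TSS.M05

/-!
ES-XAvg: averaging over a sub-block (EW 4, Lemma 4.3).
-/

open scoped BoundedContinuousFunction

namespace ES

/-- Rotated direction `k^⊥ = (-k_1, k_0)`. -/
def kp (k0 : Fin 2 → ℤ) : Fin 2 → ℂ := fun a => if a = 0 then -(k0 1 : ℂ) else (k0 0 : ℂ)

/-- `∫ χ²`. -/
noncomputable def om (P : SB) : ℝ := ∫ t in P.ta..P.tb, (trapR P.ta P.s1 P.s2 P.tb t) ^ 2

theorem om_eq (P : SB) (h1 : P.ta < P.s1) (h2 : P.s1 < P.s2) (h3 : P.s2 < P.tb) :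
    om P = (P.s2 - P.s1) + (P.s1 - P.ta) / 3 + (P.tb - P.s2) / 3 := by
  have hc : Continuous fun t => (trapR P.ta P.s1 P.s2 P.tb t) ^ 2 :=
    (trapR_continuous _ _ _ _).pow 2
  have hi : ∀ a b : ℝ, IntervalIntegrable (fun t => (trapR P.ta P.s1 P.s2 P.tb t) ^ 2)
      MeasureTheory.volume a b := fun a b => hc.intervalIntegrable a b
  have h01 : (0 : ℝ) < P.s1 - P.ta := by linarith
  have h03 : (0 : ℝ) < P.tb - P.s2 := by linarith
  unfold om
  rw [← intervalIntegral.integral_add_adjacent_intervals (hi P.ta P.s1) (hi P.s1 P.tb),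
    ← intervalIntegral.integral_add_adjacent_intervals (hi P.s1 P.s2) (hi P.s2 P.tb)]
  have e1 : ∫ t in P.ta..P.s1, (trapR P.ta P.s1 P.s2 P.tb t) ^ 2 = (P.s1 - P.ta) / 3 := by
    have e : ∫ t in P.ta..P.s1, (trapR P.ta P.s1 P.s2 P.tb t) ^ 2 =
        ∫ t in P.ta..P.s1, ((t - P.ta) / (P.s1 - P.ta)) ^ 2 := by
      refine intervalIntegral.integral_congr fun t ht => ?_
      rw [Set.uIcc_of_le h1.le] at ht
      have b1 : (t - P.ta) / (P.s1 - P.ta) ≤ 1 := by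
        rw [div_le_one h01]; linarith [ht.2]
      have b2 : 0 ≤ (t - P.ta) / (P.s1 - P.ta) := div_nonneg (by linarith [ht.1]) h01.le
      have b3 : 1 ≤ (P.tb - t) / (P.tb - P.s2) := by
        rw [le_div_iff₀ h03]; linarith [ht.2]
      unfold trapR
      rw [min_eq_left (b1.trans b3), min_eq_right b1, max_eq_right b2]
    rw [e]
    have hd : ∀ t ∈ Set.uIcc P.ta P.s1,
        HasDerivAt (fun t : ℝ => (t - P.ta) ^ 3 / (3 * (P.s1 - P.ta) ^ 2))
          (((t - P.ta) / (P.s1 - P.ta)) ^ 2) t := by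
      intro t _
      have h := (((hasDerivAt_id t).sub_const P.ta).pow 3).div_const (3 * (P.s1 - P.ta) ^ 2)
      refine h.congr_deriv ?_
      simp only [id]
      field_simp
      ring
    rw [intervalIntegral.integral_eq_sub_of_hasDerivAt hd
      (Continuous.intervalIntegrable (by fun_prop) _ _)]
    field_simp
    ring
  have e2 : ∫ t in P.s1..P.s2, (trapR P.ta P.s1 P.s2 P.tb t) ^ 2 = P.s2 - P.s1 := by
    have e : ∫ t in P.s1..P.s2, (trapR P.ta P.s1 P.s2 P.tb t) ^ 2 = ∫ _ in P.s1..P.s2, (1 : ℝ) := by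
      refine intervalIntegral.integral_congr fun t ht => ?_
      rw [Set.uIcc_of_le h2.le] at ht
      have b1 : 1 ≤ (t - P.ta) / (P.s1 - P.ta) := by
        rw [le_div_iff₀ h01]; linarith [ht.1]
      have b3 : 1 ≤ (P.tb - t) / (P.tb - P.s2) := by
        rw [le_div_iff₀ h03]; linarith [ht.2]
      unfold trapR
      rw [min_eq_left (le_min b1 b3), max_eq_right zero_le_one, one_pow]
    rw [e]
    simp
  have e3 : ∫ t in P.s2..P.tb, (trapR P.ta P.s1 P.s2 P.tb t) ^ 2 = (P.tb - P.s2) / 3 := by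
    have e : ∫ t in P.s2..P.tb, (trapR P.ta P.s1 P.s2 P.tb t) ^ 2 =
        ∫ t in P.s2..P.tb, ((P.tb - t) / (P.tb - P.s2)) ^ 2 := by
      refine intervalIntegral.integral_congr fun t ht => ?_
      rw [Set.uIcc_of_le h3.le] at ht
      have b1 : (P.tb - t) / (P.tb - P.s2) ≤ 1 := by
        rw [div_le_one h03]; linarith [ht.1]
      have b2 : 0 ≤ (P.tb - t) / (P.tb - P.s2) := div_nonneg (by linarith [ht.2]) h03.le
      have b3 : 1 ≤ (t - P.ta) / (P.s1 - P.ta) := by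
        rw [le_div_iff₀ h01]; linarith [ht.1]
      unfold trapR
      rw [min_eq_right (b1.trans b3), min_eq_right b1, max_eq_right b2]
    rw [e]
    have hd : ∀ t ∈ Set.uIcc P.s2 P.tb,
        HasDerivAt (fun t : ℝ => -((P.tb - t) ^ 3 / (3 * (P.tb - P.s2) ^ 2)))
          (((P.tb - t) / (P.tb - P.s2)) ^ 2) t := by
      intro t _
      have h := ((((hasDerivAt_id t).const_sub P.tb).pow 3).div_const
        (3 * (P.tb - P.s2) ^ 2)).neg
      refine h.congr_deriv ?_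
      simp only [id]
      field_simp
      ring
    rw [intervalIntegral.integral_eq_sub_of_hasDerivAt hd
      (Continuous.intervalIntegrable (by fun_prop) _ _)]
    field_simp
    ring
  rw [e1, e2, e3]
  ring

/-- Main part of the mean stress integrated over the sub-block, `F0` frozen:
`- ω b² (F0 k^⊥) ⊗ k^⊥ - (∫R) M0ᵀ`. -/
noncomputable def mainS (P : SB) (F0 : Mat) : Mat := fun a l =>
  -(((om P : ℂ) * kp P.k0 l) • (P.b * P.b * ∑ k, kp P.k0 k • F0 a k))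
    - mulT (fun a k => frz P.tb (intg P.ta P.tb (P.d.R a k))) (adj F0) a l

section
variable {P : SB} {lam g σ ρ c A ρ0 m w η : ℝ} {ζ E W a q : Vec}

theorem XAvg_dp_osc {i : ℕ} {κ : Kp} {f : WT} (hf : osc i f = 0) (a : Fin 2) :
    osc i (dp κ a f) = 0 := by
  unfold dp
  split_ifs
  · rw [LinearMap.neg_apply, map_neg, osc_D, hf, map_zero, neg_zero]
  · rw [osc_D, hf, map_zero]

/-! the averaging operator -/

noncomputable def XAvg_J (a b : ℝ) (f : WT) : WT := frz b (intg a b f)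

theorem XAvg_J_add (a b : ℝ) (f h : WT) :
    XAvg_J a b (f + h) = XAvg_J a b f + XAvg_J a b h := by
  unfold XAvg_J frz
  rw [map_add, tcomp_add]

theorem XAvg_J_neg (a b : ℝ) (f : WT) : XAvg_J a b (-f) = -XAvg_J a b f := by
  unfold XAvg_J frz
  rw [map_neg, tcomp_neg]

theorem XAvg_J_sum (a b : ℝ) {ι : Type*} (s : Finset ι) (f : ι → WT) :
    XAvg_J a b (∑ j ∈ s, f j) = ∑ j ∈ s, XAvg_J a b (f j) := by
  unfold XAvg_J frz
  rw [map_sum, tcomp_sum]

private theorem XAvg_J_D (a b : ℝ) (κ : Kp) (c : Fin 2) (f : WT) :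
    XAvg_J a b (D κ c f) = D κ c (XAvg_J a b f) := by
  unfold XAvg_J frz
  rw [intg_D, tcomp_D]

theorem XAvg_J_mul {f : WT} (hf : ∀ t₀, frz t₀ f = f) (a b : ℝ) (h : WT) :
    XAvg_J a b (f * h) = f * XAvg_J a b h := by
  have h1 : intg a b (f * h) = f * intg a b h := by
    have h2 := intg_frz_mul a b 0 f h
    rwa [hf] at h2
  unfold XAvg_J
  rw [h1]
  have h3 : frz b (f * intg a b h) = frz b f * frz b (intg a b h) := by
    unfold frz
    rw [tcomp_mul]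
  rw [h3, hf]

theorem XAvg_J_dvm (a b : ℝ) (κ : Kp) (X : Mat) (j : Fin 2) :
    XAvg_J a b (dvm κ X j) = dvm κ (fun k l => XAvg_J a b (X k l)) j := by
  unfold dvm
  rw [XAvg_J_sum]
  refine Finset.sum_congr rfl fun l _ => ?_
  rw [XAvg_J_D]

theorem XAvg_frz_Fm {κ : Kp} {ξ0 : Vec} (h : ∀ j t₀, frz t₀ (ξ0 j) = ξ0 j) (t₀ : ℝ)
    (a b : Fin 2) : frz t₀ (Fm κ ξ0 a b) = Fm κ ξ0 a b := by
  have h1 : frz t₀ (D κ b (ξ0 a)) = D κ b (ξ0 a) := by
    have h2 := tcomp_D ⟨fun _ => t₀, continuous_const⟩ κ b (ξ0 a)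
    have h3 : tcomp ⟨fun _ => t₀, continuous_const⟩ (ξ0 a) = ξ0 a := h a t₀
    rw [h3] at h2
    exact h2
  unfold Fm grad idm frz at *
  rw [tcomp_add, h1]
  split_ifs
  · rw [tcomp_one]
  · rw [tcomp_zero]

theorem XAvg_frz_adj {F : Mat} (h : ∀ t₀ a b, frz t₀ (F a b) = F a b) (t₀ : ℝ)
    (a b : Fin 2) : frz t₀ (adj F a b) = adj F a b := by
  have hn : ∀ f : WT, frz t₀ f = f → frz t₀ (-f) = -f := by
    intro f hf
    unfold frz at *
    rw [tcomp_neg, hf]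
  unfold adj
  split_ifs
  · exact h _ _ _
  · exact hn _ (h _ _ _)
  · exact hn _ (h _ _ _)
  · exact h _ _ _

theorem XAvg_adj_sub {F G : Mat} {r : ℝ → ℝ} {e : ℝ}
    (h : ∀ a b, Bd 0 r (F a b - G a b) e) (a b : Fin 2) :
    Bd 0 r (adj F a b - adj G a b) e := by
  unfold adj
  split_ifs
  · exact h _ _
  · have h1 := (h 0 1).neg
    have e1 : -F 0 1 - -G 0 1 = -(F 0 1 - G 0 1) := by ring
    rw [e1]
    exact h1
  · have h1 := (h 1 0).neg
    have e1 : -F 1 0 - -G 1 0 = -(F 1 0 - G 1 0) := by ring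
    rw [e1]
    exact h1
  · exact h _ _

theorem XAvg_om (P : SB) (h : P.ta ≤ P.tb) :
    XAvg_J P.ta P.tb (cst P.χ * cst P.χ) = (om P : ℂ) • (1 : WT) := by
  rw [← cst_mul]
  refine WT.ext (funext fun ν => ?_)
  ext t
  unfold XAvg_J
  rw [frz_right_intg h]
  have h1 : ∀ s, (cst (P.χ * P.χ)).co ν s = if ν = 0 then ((trapR P.ta P.s1 P.s2 P.tb s ^ 2 : ℝ) : ℂ)
      else 0 := by
    intro s
    change (Pi.single 0 (P.χ * P.χ) : Gx → Ct) ν s = _
    rw [Pi.single_apply]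
    split_ifs
    · rw [BoundedContinuousFunction.mul_apply]
      unfold SB.χ
      rw [trap_apply, ← Complex.ofReal_mul, sq]
    · rfl
  simp only [h1]
  have h2 : ((om P : ℂ) • (1 : WT)).co ν t = (om P : ℂ) * (if ν = 0 then 1 else 0) := by
    rw [WT.co_smul, WT.co_one, Pi.smul_apply, Pi.single_apply]
    split_ifs
    · rfl
    · simp
  rw [h2]
  split_ifs
  · rw [intervalIntegral.integral_ofReal, mul_one]
    rfl
  · simp

theorem XAvg_chi (P : SB) (t : ℝ) : ‖P.χ t‖ ≤ 1 := by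
  unfold SB.χ
  rw [trap_apply, Complex.norm_real, Real.norm_eq_abs, abs_of_nonneg (trapR_nonneg _ _ _ _ _)]
  exact trapR_le_one _ _ _ _ _

theorem XAvg_TA {κ : Kp} {r : ℝ → ℝ} (hr : ∀ t, 0 ≤ r t) {Ψ : WT} {y : Vec} {ψ e : ℝ}
    (hΨ : Bd 0 r Ψ ψ) {a : Fin 2} (hy : ∀ b, Bd 0 r (D κ b (y a)) e) (j : Fin 2) :
    Bd 0 r (TA κ Ψ y a j) (ψ * e) := by
  unfold TA
  split_ifs
  · exact Bd.mul hr hΨ (hy 1)
  · exact (Bd.mul hr hΨ (hy 0)).neg

theorem XAvg_near {F : Mat} {r : ℝ → ℝ} (h : ∀ a b, Bd 0 r (F a b - idm a b) (3 / 250))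
    (a b : Fin 2) : Bd 0 r (F a b) 2 := by
  have h1 : Bd 0 r (idm a b) 1 := by
    unfold idm
    split_ifs
    · exact Bd.one _ _
    · exact Bd.zero _ _ zero_le_one
  have h2 := (h a b).add h1
  rw [sub_add_cancel] at h2
  exact h2.mono (by norm_num)

theorem XAvg_kp (H : SBH P lam g σ ρ c A ρ0 m w η) (a : Fin 2) : ‖kp P.k0 a‖ ≤ 2 := by
  have h : ∀ n : ℤ, |n| ≤ 2 → ‖(n : ℂ)‖ ≤ 2 := by
    intro n hn
    rw [← Complex.ofReal_intCast, Complex.norm_real, Real.norm_eq_abs]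
    exact_mod_cast hn
  unfold kp
  split_ifs
  · rw [norm_neg]; exact h _ (H.hk 1)
  · exact h _ (H.hk 0)

end

end ES
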