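import Pool.Agent.H16.TSS.ES.LBd_4
import Pool.Agent.H16.TSS.M04
import Pool.Agent.H16.TSS.M05

/-!
ES-SDer: bounds of the functions derived from `ζ` (EW 2, Lemma 2.1).  `K = 1 + 1/m`.
Use `Bd.margin` (radius `r+2m -> r+m` gives one power, cost `K`), `comp_bd` with `z = m`
(`2 lam N(ζ) ≤ 1/(128 K) ≤ m`), `Bd.mul`, `Bd.D`.
`FF = comp F · P`, `F = idm + grad ξ` and `comp 1 = 1`, `comp 0 = 0`.
-/

open scoped BoundedContinuousFunction

namespace ES

/-! private helpers -/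

theorem SDer_sum2 {k : ℕ} {r : ℝ → ℝ} {f : Fin 2 → WT} {c c0 c1 : ℝ}
    (h0 : Bd k r (f 0) c0) (h1 : Bd k r (f 1) c1) (h : c0 + c1 ≤ c) :
    Bd k r (∑ j, f j) c := by
  rw [Fin.sum_univ_two]; exact (h0.add h1).mono h

/-- The entries of a matrix near the identity. -/
private theorem SDer_idm (k : ℕ) (r : ℝ → ℝ) (a b : Fin 2) :
    Bd k r (idm a b) (if a = b then 1 else 0) := by
  unfold idm
  split_ifs
  · exact Bd.one k r
  · exact Bd.zero k r le_rfl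

theorem SDer_idm1 (k : ℕ) (r : ℝ → ℝ) (a b : Fin 2) :
    Bd k r (idm a b) 1 := by
  refine (SDer_idm k r a b).mono ?_
  split_ifs <;> norm_num

/-- `∑ X a c * Y c b`, `Y` near the identity. -/
theorem SDer_mulI {k : ℕ} {r : ℝ → ℝ} (hr0 : ∀ t, 0 ≤ r t) {X : Fin 2 → WT}
    {Y : Fin 2 → WT} {x y : ℝ} (b : Fin 2) (hX : ∀ c, Bd k r (X c) x)
    (hY : ∀ c, Bd k r (Y c - idm c b) y) :
    Bd k r (∑ c, X c * Y c) (x + 2 * (x * y)) := by
  have h : (∑ c, X c * Y c) = X b + ∑ c, X c * (Y c - idm c b) := by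
    rw [Fin.sum_univ_two, Fin.sum_univ_two]
    fin_cases b <;> simp [idm] <;> ring
  rw [h]
  refine ((hX b).add (SDer_sum2 (((hX 0).mul hr0 (hY 0))) ((hX 1).mul hr0 (hY 1)) le_rfl)).mono ?_
  linarith

/-- `∑ X a c * Y c b`, `X` and `Y` near the identity. -/
theorem SDer_mulII {k : ℕ} {r : ℝ → ℝ} (hr0 : ∀ t, 0 ≤ r t) {X : Fin 2 → WT}
    {Y : Fin 2 → WT} {x y : ℝ} (a b : Fin 2) (hX : ∀ c, Bd k r (X c - idm a c) x)
    (hY : ∀ c, Bd k r (Y c - idm c b) y) :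
    Bd k r ((∑ c, X c * Y c) - idm a b) (x + y + 2 * (x * y)) := by
  have h : (∑ c, X c * Y c) - idm a b =
      (X b - idm a b) + (Y a - idm a b) + ∑ c, (X c - idm a c) * (Y c - idm c b) := by
    rw [Fin.sum_univ_two, Fin.sum_univ_two]
    fin_cases a <;> fin_cases b <;> simp [idm] <;> ring
  rw [h]
  refine (((hX b).add (hY a)).add
    (SDer_sum2 (((hX 0).mul hr0 (hY 0))) ((hX 1).mul hr0 (hY 1)) le_rfl)).mono ?_
  linarith

theorem SDer_mul2 {k : ℕ} {r : ℝ → ℝ} (hr0 : ∀ t, 0 ≤ r t) {X : Fin 2 → WT}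
    {Y : Fin 2 → WT} {x y : ℝ} (hX : ∀ c, Bd k r (X c) x)
    (hY : ∀ c, Bd k r (Y c) y) :
    Bd k r (∑ c, X c * Y c) (2 * (x * y)) :=
  SDer_sum2 (((hX 0).mul hr0 (hY 0))) ((hX 1).mul hr0 (hY 1)) (by linarith)

section
variable {d : Dat} {lam g σ c m r0 : ℝ} {r : ℝ → ℝ} {ζ : Vec}

theorem DH.r_nonneg (H : DH d lam g σ c m r0 r) (t : ℝ) : 0 ≤ r t :=
  H.r00.le.trans (H.hr t)

private theorem DH.lam_pos (H : DH d lam g σ c m r0 r) : 0 < lam := lt_of_lt_of_le one_pos H.hlam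

theorem DH.y_le (H : DH d lam g σ c m r0 r) :
    2 * lam * (1 / (256 * lam * (1 + 1 / m))) ≤ m := by
  have hm := H.hm
  have hl := H.lam_pos
  have e : 2 * lam * (1 / (256 * lam * (1 + 1 / m))) = m / (128 * (m + 1)) := by
    field_simp; ring
  rw [e, div_le_iff₀ (by positivity)]
  nlinarith

theorem DH.ch (H : DH d lam g σ c m r0 r) (hζ : ZH lam m r ζ) : CH d.κ lam r0 m r ζ where
  kb := H.kb
  lam0 := H.lam_pos.le
  r00 := H.r00
  hr := H.hr
  hζ := ⟨1 / (256 * lam * (1 + 1 / m)),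
    fun a => (hζ a).weaken (Nat.zero_le _) fun _ => le_rfl, H.y_le⟩

theorem DH.K2 (H : DH d lam g σ c m r0 r) : 2 ≤ 1 + 1 / m := by
  have : 1 ≤ 1 / m := by rw [le_div_iff₀ H.hm]; linarith [H.hm1]
  linarith

theorem DH.two (H : DH d lam g σ c m r0 r) {f : WT} {e : ℝ}
    (hf : Bd 0 (fun t => r t + 2 * m) f e) :
    Bd 2 (fun t => r t + m) f (4 * (1 + 1 / m) ^ 2 * e) := by
  have hm := H.hm
  have h1 : Bd 1 (fun t => r t + m + m / 2) f ((1 + 1 / (m / 2)) * e) :=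
    hf.margin (by linarith) (fun t => by linarith)
  have h2 : Bd 2 (fun t => r t + m) f ((1 + 1 / (m / 2)) * ((1 + 1 / (m / 2)) * e)) :=
    h1.margin (by linarith) (fun t => by linarith)
  refine h2.mono ?_
  have he := hf.nonneg
  have h3 : 1 + 1 / (m / 2) ≤ 2 * (1 + 1 / m) := by
    have : 1 / (m / 2) = 2 * (1 / m) := by field_simp
    rw [this]; linarith
  have h0 : 0 ≤ 1 + 1 / (m / 2) := by positivity
  calc (1 + 1 / (m / 2)) * ((1 + 1 / (m / 2)) * e) = (1 + 1 / (m / 2)) ^ 2 * e := by ring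
    _ ≤ (2 * (1 + 1 / m)) ^ 2 * e :=
        mul_le_mul_of_nonneg_right (pow_le_pow_left₀ h0 h3 2) he
    _ = _ := by ring

private theorem SDer_Pm (d : Dat) (ζ : Vec) (a b : Fin 2) :
    Pm d ζ a b - idm a b = ES.D d.κ b (ζ a) := by
  unfold Pm Fm grad; ring

theorem DH.lamy (H : DH d lam g σ c m r0 r) :
    lam * (1 / (256 * lam * (1 + 1 / m))) = 1 / (256 * (1 + 1 / m)) := by
  have := H.lam_pos; have := H.hm
  field_simp

theorem DH.small (H : DH d lam g σ c m r0 r) : 1 / (256 * (1 + 1 / m)) ≤ 1 / 512 := by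
  have := H.K2
  exact one_div_le_one_div_of_le (by norm_num) (by linarith)

theorem DH.small0 (H : DH d lam g σ c m r0 r) : 0 ≤ 1 / (256 * (1 + 1 / m)) := by
  have := H.K2
  positivity

theorem DH.bd_P (H : DH d lam g σ c m r0 r) (hζ : ZH lam m r ζ) (a b : Fin 2) :
    Bd 1 r (Pm d ζ a b - idm a b) (1 / (256 * (1 + 1 / m))) := by
  rw [SDer_Pm, ← H.lamy]
  exact (hζ a).D H.kb b

theorem DH.bd_P' (H : DH d lam g σ c m r0 r) {y : ℝ} (hζ : ∀ j, Bd 1 r (ζ j) y) (a b : Fin 2) :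
    Bd 0 r (Pm d ζ a b - idm a b) (lam * y) := by
  rw [SDer_Pm]
  exact (hζ a).D H.kb b

theorem DH.bd_P1 (H : DH d lam g σ c m r0 r) (hζ : ZH lam m r ζ) (a b : Fin 2) :
    Bd 1 r (Pm d ζ a b) (513 / 512) := by
  have h := (H.bd_P hζ a b).add (SDer_idm1 1 r a b)
  rw [sub_add_cancel] at h
  exact h.mono (by linarith [H.small])

/-! products with `P`, `F'`, `M'ᵀ` -/

/-- `∑ X b * x b - x a`. -/
theorem SDer_vI {k : ℕ} {r : ℝ → ℝ} (hr0 : ∀ t, 0 ≤ r t) {X : Fin 2 → WT}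
    {x : Vec} {y e : ℝ} (a : Fin 2) (hX : ∀ c, Bd k r (X c - idm a c) y)
    (hx : ∀ c, Bd k r (x c) e) :
    Bd k r ((∑ c, X c * x c) - x a) (2 * (y * e)) := by
  have h : (∑ c, X c * x c) - x a = ∑ c, (X c - idm a c) * x c := by
    rw [Fin.sum_univ_two, Fin.sum_univ_two]
    fin_cases a <;> simp [idm] <;> ring
  rw [h]
  exact SDer_mul2 hr0 hX hx

theorem DH.mulv_P (H : DH d lam g σ c m r0 r) (hζ : ZH lam m r ζ) {x : Vec} {e : ℝ}
    (hx : ∀ j, Bd 1 r (x j) e) (a : Fin 2) : Bd 1 r (mulv (Pm d ζ) x a) (101 / 100 * e) := by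
  have h := (SDer_vI H.r_nonneg a (fun c => H.bd_P hζ a c) hx).add (hx a)
  rw [sub_add_cancel] at h
  refine h.mono ?_
  nlinarith [mul_le_mul_of_nonneg_right H.small (hx 0).nonneg, (hx 0).nonneg]

end

/-- The hypotheses `SBH` give `DH` with the radius of the sub-block. -/
theorem SBH.dh {P : SB} {lam g σ ρ c A ρ0 m w η : ℝ} (H : SBH P lam g σ ρ c A ρ0 m w η) :
    DH P.d lam g σ c m m (P.r ρ0 m) where
  kb := H.good.kb
  hlam := H.hlam
  hm := H.hm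
  hm1 := H.hm1
  r00 := H.hm
  hr t := by
    have := le_rad (ρ := ρ0) (m := m) H.good.ht H.hm.le t
    show m ≤ rad ρ0 m P.ta P.tb t
    linarith [H.hρ0]
  hr2 t := by
    have := rad_le (ρ := ρ0) (m := m) H.good.ht H.hm.le t
    show rad ρ0 m P.ta P.tb t ≤ 2
    linarith [H.hρ1, H.hρ, H.hm]
  hc0 := (H.good.bF 0 0).nonneg
  hc := H.hc
  hg := (mul_nonneg (zero_le_one.trans H.hlam) H.hw.le).trans H.hlw
  hσ := H.hσ0
  bF a b := (H.good.bF a b).weaken le_rfl fun t => by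
    have := rad_le (ρ := ρ0) (m := m) H.good.ht H.hm.le t
    show rad ρ0 m P.ta P.tb t + 2 * m ≤ ρ
    linarith [H.hρ1]
  bB a := (H.good.bB a).weaken le_rfl fun t => by
    have := rad_le (ρ := ρ0) (m := m) H.good.ht H.hm.le t
    show rad ρ0 m P.ta P.tb t + 2 * m ≤ ρ
    linarith [H.hρ1]
  bG a b := (H.good.bG a b).weaken le_rfl fun t => by
    have := rad_le (ρ := ρ0) (m := m) H.good.ht H.hm.le t
    show rad ρ0 m P.ta P.tb t + 2 * m ≤ ρ
    linarith [H.hρ1]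
  bR a b := (H.good.bR a b).weaken le_rfl fun t => by
    have := rad_le (ρ := ρ0) (m := m) H.good.ht H.hm.le t
    show rad ρ0 m P.ta P.tb t + 2 * m ≤ ρ
    linarith [H.hρ1]

end ES
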