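import Pool.Agent.H16.TSS.ES.Defs_1
import Pool.Agent.H16.TSS.M01

/-!
ES-LMul: identities between multipliers (coefficientwise identities between symbols; recall that
`ksq κ ν = kap κ 0 ν ^ 2 + kap κ 1 ν ^ 2` and that the symbols vanish when `ksq κ ν = 0`, in which
case also `kap κ a ν = 0`), and the change of the frequencies `upd`.
-/

namespace ES

private theorem lm_D (κ : Kp) (a : Fin 2) (f : WT) (ν : Gx) :
    (D κ a f).co ν = (Complex.I * (kap κ a ν : ℂ)) • f.co ν := rfl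

private theorem lm_Pg (κ : Kp) (a b : Fin 2) (f : WT) (ν : Gx) :
    (Pg κ a b f).co ν = (((kap κ a ν : ℂ) * (kap κ b ν : ℂ)) / (ksq κ ν : ℂ)) • f.co ν := rfl

private theorem lm_Pnz (κ : Kp) (f : WT) (ν : Gx) :
    (Pnz κ f).co ν = (if ksq κ ν = 0 then (0 : ℂ) else 1) • f.co ν := rfl

private theorem lm_Lin (κ : Kp) (f : WT) (ν : Gx) :
    (Lin κ f).co ν = (-((ksq κ ν : ℂ))⁻¹) • f.co ν := rfl

private theorem lm_Ps (κ : Kp) (a b : Fin 2) (f : WT) (ν : Gx) :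
    (Ps κ a b f).co ν = ((if a = b then (if ksq κ ν = 0 then (0 : ℂ) else 1) else 0) -
      ((kap κ a ν : ℂ) * (kap κ b ν : ℂ)) / (ksq κ ν : ℂ)) • f.co ν := by
  unfold Ps
  rw [LinearMap.sub_apply, WT.co_sub, Pi.sub_apply, lm_Pg, sub_smul]
  congr 1
  by_cases h : a = b
  · rw [if_pos h, if_pos h, lm_Pnz]
  · rw [if_neg h, if_neg h]
    simp

private theorem lm_dth (i : ℕ) (f : WT) (ν : Gx) :
    (dth i f).co ν = (Complex.I * (ν i : ℂ)) • f.co ν := rfl

private theorem lm_dp0 (κ : Kp) (f : WT) (ν : Gx) :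
    (dp κ 0 f).co ν = (-(Complex.I * (kap κ 1 ν : ℂ))) • f.co ν := by
  unfold dp
  rw [if_pos rfl, LinearMap.neg_apply, WT.co_neg, Pi.neg_apply, lm_D, neg_smul]

private theorem lm_dp1 (κ : Kp) (f : WT) (ν : Gx) :
    (dp κ 1 f).co ν = (Complex.I * (kap κ 0 ν : ℂ)) • f.co ν := by
  unfold dp
  rw [if_neg (by decide), lm_D]

private theorem lm_ksq (κ : Kp) (ν : Gx) :
    (ksq κ ν : ℂ) = (kap κ 0 ν : ℂ) ^ 2 + (kap κ 1 ν : ℂ) ^ 2 := by
  unfold ksq
  push_cast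
  rfl

private theorem lm_kap_zero {κ : Kp} {ν : Gx} (h : ksq κ ν = 0) (a : Fin 2) :
    (kap κ a ν : ℂ) = 0 := by
  have h1 := kap_sq_le κ a ν
  rw [h] at h1
  have h2 : (kap κ a ν : ℝ) = 0 := by
    have := sq_nonneg (kap κ a ν : ℝ)
    exact pow_eq_zero_iff (two_ne_zero) |>.1 (le_antisymm h1 this)
  have h3 : kap κ a ν = 0 := by exact_mod_cast h2
  rw [h3]
  simp

/-- Coefficientwise comparison. -/
private theorem lm_ext {f g : WT} (h : ∀ ν, f.co ν = g.co ν) : f = g := WT.ext (funext h)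

/-- Divergence of `Ps` vanishes. -/
theorem div_Ps (κ : Kp) (b : Fin 2) (f : WT) : ∑ a, D κ a (Ps κ a b f) = 0 := by
  refine lm_ext fun ν => ?_
  rw [Fin.sum_univ_two, WT.co_add, Pi.add_apply, lm_D, lm_D, lm_Ps, lm_Ps, smul_smul, smul_smul,
    ← add_smul, WT.co_zero, Pi.zero_apply]
  by_cases h : ksq κ ν = 0
  · simp [lm_kap_zero h]
  · have hq : (ksq κ ν : ℂ) ≠ 0 := by exact_mod_cast h
    have hs : Complex.I * (kap κ 0 ν : ℂ) * ((if (0 : Fin 2) = b then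
        (if ksq κ ν = 0 then (0 : ℂ) else 1) else 0) -
        ((kap κ 0 ν : ℂ) * (kap κ b ν : ℂ)) / (ksq κ ν : ℂ)) +
        Complex.I * (kap κ 1 ν : ℂ) * ((if (1 : Fin 2) = b then
        (if ksq κ ν = 0 then (0 : ℂ) else 1) else 0) -
        ((kap κ 1 ν : ℂ) * (kap κ b ν : ℂ)) / (ksq κ ν : ℂ)) = 0 := by
      rw [if_neg h]
      fin_cases b
      · simp only [Fin.zero_eta, if_true]
        rw [if_neg (by decide)]
        field_simp
        rw [lm_ksq]
        ring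
      · simp only [Fin.mk_one, if_true]
        rw [if_neg (by decide)]
        field_simp
        rw [lm_ksq]
        ring
    rw [hs, zero_smul]

/-- `Pg` is a gradient. -/
theorem Pg_eq (κ : Kp) (a b : Fin 2) (f : WT) : Pg κ a b f = D κ a (D κ b (Lin κ f)) := by
  refine lm_ext fun ν => ?_
  rw [lm_D, lm_D, lm_Lin, lm_Pg, smul_smul, smul_smul]
  congr 1
  have := Complex.I_mul_I
  linear_combination (-((kap κ a ν : ℂ) * (kap κ b ν : ℂ)) * ((ksq κ ν : ℂ))⁻¹) * (-1) * this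

/-- `Ps` is a rotated gradient. -/
theorem Ps_eq (κ : Kp) (a b : Fin 2) (f : WT) : Ps κ a b f = dp κ a (dp κ b (Lin κ f)) := by
  refine lm_ext fun ν => ?_
  rw [lm_Ps]
  have hI := Complex.I_mul_I
  by_cases h : ksq κ ν = 0
  · rw [if_pos h, lm_kap_zero h a]
    fin_cases a <;> fin_cases b <;>
      simp [lm_dp0, lm_dp1, lm_Lin, h]
  · have hq : (ksq κ ν : ℂ) ≠ 0 := by exact_mod_cast h
    rw [if_neg h]
    have h2 := lm_ksq κ ν
    fin_cases a <;> fin_cases b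
    · simp only [Fin.zero_eta]
      rw [lm_dp0, lm_dp0, lm_Lin, smul_smul, smul_smul, if_pos trivial]
      congr 1
      field_simp
      rw [Complex.I_sq, h2]
      ring
    · simp only [Fin.zero_eta, Fin.mk_one]
      rw [lm_dp0, lm_dp1, lm_Lin, smul_smul, smul_smul, if_neg (by decide)]
      congr 1
      field_simp
      rw [Complex.I_sq]
      ring
    · simp only [Fin.zero_eta, Fin.mk_one]
      rw [lm_dp1, lm_dp0, lm_Lin, smul_smul, smul_smul, if_neg (by decide)]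
      congr 1
      field_simp
      rw [Complex.I_sq]
      ring
    · simp only [Fin.mk_one]
      rw [lm_dp1, lm_dp1, lm_Lin, smul_smul, smul_smul, if_pos trivial]
      congr 1
      field_simp
      rw [Complex.I_sq, h2]
      ring

theorem Ps_add_Pg (κ : Kp) (a b : Fin 2) (f : WT) :
    Ps κ a b f + Pg κ a b f = if a = b then Pnz κ f else 0 := by
  unfold Ps
  rw [LinearMap.sub_apply, sub_add_cancel]
  by_cases h : a = b
  · rw [if_pos h, if_pos h]
  · rw [if_neg h, if_neg h]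
    rfl

theorem Pnz_D (κ : Kp) (a : Fin 2) (f : WT) : Pnz κ (D κ a f) = D κ a f := by
  refine lm_ext fun ν => ?_
  rw [lm_Pnz, lm_D, smul_smul]
  by_cases h : ksq κ ν = 0
  · simp [lm_kap_zero h]
  · rw [if_neg h, one_mul]

theorem D_Pnz (κ : Kp) (a : Fin 2) (f : WT) : D κ a (Pnz κ f) = D κ a f := by
  refine lm_ext fun ν => ?_
  rw [lm_D, lm_D, lm_Pnz, smul_smul]
  by_cases h : ksq κ ν = 0
  · simp [lm_kap_zero h]
  · rw [if_neg h, mul_one]

theorem Pnz_Lin (κ : Kp) (f : WT) : Pnz κ (Lin κ f) = Lin κ f := by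
  refine lm_ext fun ν => ?_
  rw [lm_Pnz, lm_Lin, smul_smul]
  by_cases h : ksq κ ν = 0
  · rw [if_pos h, h]
    simp
  · rw [if_neg h, one_mul]

theorem Pnz_Pg (κ : Kp) (a b : Fin 2) (f : WT) : Pnz κ (Pg κ a b f) = Pg κ a b f := by
  refine lm_ext fun ν => ?_
  rw [lm_Pnz, lm_Pg, smul_smul]
  by_cases h : ksq κ ν = 0
  · rw [if_pos h, h]
    simp
  · rw [if_neg h, one_mul]

theorem Pnz_Ps (κ : Kp) (a b : Fin 2) (f : WT) : Pnz κ (Ps κ a b f) = Ps κ a b f := by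
  refine lm_ext fun ν => ?_
  rw [lm_Pnz, lm_Ps, smul_smul]
  by_cases h : ksq κ ν = 0
  · rw [if_pos h, h]
    simp
  · rw [if_neg h, one_mul]

theorem lap_Lin (κ : Kp) (f : WT) : ∑ a, D κ a (D κ a (Lin κ f)) = Pnz κ f := by
  refine lm_ext fun ν => ?_
  rw [Fin.sum_univ_two, WT.co_add, Pi.add_apply, ← Pg_eq, ← Pg_eq, lm_Pg, lm_Pg, lm_Pnz,
    ← add_smul]
  by_cases h : ksq κ ν = 0
  · rw [if_pos h, h]
    simp
  · rw [if_neg h]
    have hq : (ksq κ ν : ℂ) ≠ 0 := by exact_mod_cast h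
    congr 1
    rw [← add_div, ← sq, ← sq, ← lm_ksq, div_self hq]

/-- Multipliers commute. -/
private theorem lm_comm {s t : Gx → ℂ} (hs : PG s) (ht : PG t) (f : WT) :
    mlt s hs (mlt t ht f) = mlt t ht (mlt s hs f) := by
  refine lm_ext fun ν => ?_
  rw [mlt_co, mlt_co, mlt_co, mlt_co, smul_comm]

theorem Lin_D (κ κ' : Kp) (a : Fin 2) (f : WT) : Lin κ (D κ' a f) = D κ' a (Lin κ f) :=
  lm_comm _ _ f

private theorem lm_Ps_comm {s : Gx → ℂ} (hs : PG s) (κ : Kp) (a b : Fin 2) (f : WT) :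
    Ps κ a b (mlt s hs f) = mlt s hs (Ps κ a b f) := by
  refine lm_ext fun ν => ?_
  rw [lm_Ps, mlt_co, mlt_co, lm_Ps, smul_comm]

theorem mean_Pg (i : ℕ) (κ : Kp) (a b : Fin 2) (f : WT) :
    mean i (Pg κ a b f) = Pg κ a b (mean i f) := lm_comm _ _ f

theorem mean_Ps (i : ℕ) (κ : Kp) (a b : Fin 2) (f : WT) :
    mean i (Ps κ a b f) = Ps κ a b (mean i f) := (lm_Ps_comm _ κ a b f).symm

theorem mean_Pnz (i : ℕ) (κ : Kp) (f : WT) : mean i (Pnz κ f) = Pnz κ (mean i f) := lm_comm _ _ f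

theorem osc_Pnz (i : ℕ) (κ : Kp) (f : WT) : osc i (Pnz κ f) = Pnz κ (osc i f) := lm_comm _ _ f

private theorem lm_div {κ : Kp} {f : Fin 2 → WT} (hf : ∑ a, D κ a (f a) = 0) (ν : Gx) :
    (kap κ 0 ν : ℂ) • (f 0).co ν + (kap κ 1 ν : ℂ) • (f 1).co ν = 0 := by
  have h1 : (∑ a, D κ a (f a)).co ν = 0 := by
    rw [hf]
    rfl
  rw [Fin.sum_univ_two, WT.co_add, Pi.add_apply, lm_D, lm_D, mul_smul, mul_smul, ← smul_add] at h1
  exact (smul_eq_zero.1 h1).resolve_left Complex.I_ne_zero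

/-- Projection property: a divergence free field without zero frequency modes is fixed by `Ps`
and killed by `Pg`. -/
theorem Ps_of_div (κ : Kp) (f : Fin 2 → WT) (hf : ∑ a, D κ a (f a) = 0) (a : Fin 2) :
    ∑ b, Ps κ a b (f b) = Pnz κ (f a) := by
  have h1 : ∑ b, Pg κ a b (f b) = 0 := by
    refine lm_ext fun ν => ?_
    rw [Fin.sum_univ_two, WT.co_add, Pi.add_apply, lm_Pg, lm_Pg, WT.co_zero, Pi.zero_apply,
      mul_div_right_comm, mul_div_right_comm, mul_smul, mul_smul, ← smul_add, lm_div hf, smul_zero]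
  have h2 : ∑ b, (Ps κ a b (f b) + Pg κ a b (f b)) = Pnz κ (f a) := by
    simp only [Ps_add_Pg]
    rw [Finset.sum_ite_eq]
    simp
  rw [Finset.sum_add_distrib, h1, add_zero] at h2
  exact h2

/-! the rotated derivative -/

theorem dp_mul (κ : Kp) (a : Fin 2) (f g : WT) : dp κ a (f * g) = dp κ a f * g + f * dp κ a g := by
  unfold dp
  by_cases h : a = 0
  · rw [if_pos h]
    simp only [LinearMap.neg_apply, D_mul]
    ring
  · rw [if_neg h, D_mul]

theorem div_dp (κ : Kp) (f : WT) : ∑ a, D κ a (dp κ a f) = 0 := by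
  rw [Fin.sum_univ_two]
  unfold dp
  rw [if_pos rfl, if_neg (by decide), LinearMap.neg_apply, map_neg, D_comm κ κ 0 1,
    neg_add_cancel]

/-! change of frequencies -/

private theorem lm_kap_upd (κ : Kp) (i : ℕ) (k : Fin 2 → ℤ) (hκ : ∀ a, κ.k a i = 0) (a : Fin 2)
    (ν : Gx) : kap (upd κ i k) a ν = kap κ a ν + k a * ν i := by
  unfold kap
  have h1 : ∀ j n, n * (upd κ i k).k a j = n * κ.k a j + (if i = j then k a * n else 0) := by
    intro j n
    by_cases h : i = j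
    · subst h
      simp only [upd, Function.update_self, hκ a, if_true]
      ring
    · have : j ≠ i := fun hh => h hh.symm
      simp only [upd, Function.update_of_ne this, if_neg h, add_zero]
  simp only [h1]
  rw [Finsupp.sum_add]
  congr 1
  rw [Finsupp.sum_ite_eq]
  by_cases h : i ∈ ν.support
  · rw [if_pos h]
  · rw [if_neg h]
    have : ν i = 0 := by simpa using h
    rw [this, mul_zero]

theorem D_upd (κ : Kp) (i : ℕ) (k : Fin 2 → ℤ) (hκ : ∀ a, κ.k a i = 0) (a : Fin 2) (f : WT) :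
    D (upd κ i k) a f = D κ a f + (k a : ℂ) • dth i f := by
  refine lm_ext fun ν => ?_
  rw [WT.co_add, WT.co_smul, Pi.add_apply, Pi.smul_apply, lm_D, lm_D, lm_dth, smul_smul,
    ← add_smul, lm_kap_upd κ i k hκ]
  congr 1
  push_cast
  ring

/-- The coefficients agree if the multipliers do where `ν i = 0`. -/
private theorem lm_osc_ext {i : ℕ} {f : WT} (hf : osc i f = 0) {s t : Gx → ℂ}
    (h : ∀ ν : Gx, ν i = 0 → s ν = t ν) (ν : Gx) : s ν • f.co ν = t ν • f.co ν := by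
  by_cases h0 : ν i = 0
  · rw [h ν h0]
  · rw [(osc_eq_zero_iff i f).1 hf ν h0, smul_zero, smul_zero]

theorem D_upd_of_osc (κ : Kp) (i : ℕ) (k : Fin 2 → ℤ) (hκ : ∀ a, κ.k a i = 0) (a : Fin 2) {f : WT}
    (hf : osc i f = 0) : D (upd κ i k) a f = D κ a f := by
  rw [D_upd κ i k hκ, dth_of_osc hf, smul_zero, add_zero]

private theorem lm_kap_eq (κ : Kp) (i : ℕ) (k : Fin 2 → ℤ) (hκ : ∀ a, κ.k a i = 0) (a : Fin 2)
    {ν : Gx} (h : ν i = 0) : kap (upd κ i k) a ν = kap κ a ν := by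
  rw [lm_kap_upd κ i k hκ, h, mul_zero, add_zero]

private theorem lm_ksq_eq (κ : Kp) (i : ℕ) (k : Fin 2 → ℤ) (hκ : ∀ a, κ.k a i = 0)
    {ν : Gx} (h : ν i = 0) : ksq (upd κ i k) ν = ksq κ ν := by
  unfold ksq
  rw [lm_kap_eq κ i k hκ 0 h, lm_kap_eq κ i k hκ 1 h]

theorem Pnz_upd_of_osc (κ : Kp) (i : ℕ) (k : Fin 2 → ℤ) (hκ : ∀ a, κ.k a i = 0)
    {f : WT} (hf : osc i f = 0) : Pnz (upd κ i k) f = Pnz κ f := by
  refine lm_ext fun ν => ?_
  rw [lm_Pnz, lm_Pnz]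
  exact lm_osc_ext hf (s := fun ν => if ksq (upd κ i k) ν = 0 then (0 : ℂ) else 1)
    (t := fun ν => if ksq κ ν = 0 then (0 : ℂ) else 1) (fun ν h => by
      simp only [lm_ksq_eq κ i k hκ h]) ν

theorem kap_upd (κ : Kp) (i : ℕ) (k : Fin 2 → ℤ) (hκ : ∀ a, κ.k a i = 0) (a : Fin 2) (ν : Gx) :
    kap (upd κ i k) a ν = kap κ a ν + k a * ν i := lm_kap_upd κ i k hκ a ν

theorem KB_upd {κ : Kp} {lam lam' : ℝ} (h : KB κ lam) (i : ℕ) (k : Fin 2 → ℤ) (h1 : lam ≤ lam')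
    (h2 : ∀ a, |(k a : ℝ)| ≤ lam') : KB (upd κ i k) lam' := by
  intro a j
  by_cases hj : j = i
  · subst hj
    simpa only [upd, Function.update_self] using h2 a
  · simpa only [upd, Function.update_of_ne hj] using (h a j).trans h1

end ES
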