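import Pool.Agent.H16.TSS.ES.LBd_4
import Pool.Agent.H16.TSS.ES.LMul
import Pool.Agent.H16.TSS.M04
import Pool.Agent.H16.TSS.M05

/-!
ES-SW: the initial wave `W0` and `sin θ`, `cos θ` (EW 2, Lemma 2.1).
-/

open scoped BoundedContinuousFunction

namespace ES

/-! auxiliary facts on `e_ν` -/

private theorem sw_eb_co (ν : Gx) : (eb ν).co = Pi.single ν 1 := rfl

private theorem sw_mlt_eb {s : Gx → ℂ} (hs : PG s) (ν : Gx) : mlt s hs (eb ν) = s ν • eb ν := by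
  apply WT.ext
  funext μ
  rw [mlt_co, WT.co_smul, Pi.smul_apply, sw_eb_co]
  by_cases h : μ = ν
  · subst h; rfl
  · rw [Pi.single_eq_of_ne h, smul_zero, smul_zero]

private theorem sw_eb_mul (μ ν : Gx) : eb μ * eb ν = eb (μ + ν) := by
  apply WT.ext
  funext ρ
  rw [WT.mul_co, tsum_eq_single μ]
  · rw [sw_eb_co, sw_eb_co, sw_eb_co, Pi.single_eq_same, one_mul]
    by_cases h : ρ = μ + ν
    · subst h
      rw [add_sub_cancel_left, Pi.single_eq_same, Pi.single_eq_same]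
    · rw [Pi.single_eq_of_ne h, Pi.single_eq_of_ne]
      intro h2
      exact h (by rw [← h2]; abel)
  · intro σ hσ
    rw [sw_eb_co, Pi.single_eq_of_ne hσ, zero_mul]

private theorem sw_eb_zero : eb 0 = 1 := rfl

private theorem sw_single_neg (i : ℕ) :
    (Finsupp.single i (-1) : Gx) = -Finsupp.single i 1 := by
  rw [Finsupp.single_neg]

private theorem sw_len (i : ℕ) {n : ℤ} (hn : n.natAbs = 1) : len (Finsupp.single i n) = 1 := by
  unfold len
  rw [Finsupp.sum_single_index (by simp), hn]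

private theorem sw_eb_bd {k : ℕ} {r : ℝ → ℝ} (hr : ∀ t, r t ≤ 2) (i : ℕ) {n : ℤ}
    (hn : n.natAbs = 1) : Bd k r (eb (Finsupp.single i n)) (2 ^ k * (739 / 100)) := by
  have he : Real.exp 2 ≤ 739 / 100 := by
    have h1 : Real.exp 2 = Real.exp 1 * Real.exp 1 := by
      rw [← Real.exp_add]; norm_num
    have h2 := Real.exp_one_lt_d9
    have h3 := Real.exp_pos 1
    rw [h1]
    nlinarith
  refine ⟨Pi.single (Finsupp.single i n) (2 ^ k * (739 / 100)), ?_, ?_, ?_, ?_⟩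
  · intro ν
    by_cases h : ν = Finsupp.single i n
    · subst h; rw [Pi.single_eq_same]; positivity
    · rw [Pi.single_eq_of_ne h]
  · exact (hasSum_pi_single (Finsupp.single i n) ((2 : ℝ) ^ k * (739 / 100))).summable
  · exact (hasSum_pi_single (Finsupp.single i n) ((2 : ℝ) ^ k * (739 / 100))).tsum_eq.le
  · intro ν t
    by_cases h : ν = Finsupp.single i n
    · subst h
      rw [sw_eb_co, Pi.single_eq_same, Pi.single_eq_same, sw_len i hn]
      have h1 : Real.exp (r t * ((1 : ℕ) : ℝ)) ≤ 739 / 100 := by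
        refine (Real.exp_le_exp.2 ?_).trans he
        rw [Nat.cast_one, mul_one]; exact hr t
      have h2 : ‖(1 : Ct) t‖ = 1 := by simp
      rw [h2, mul_one]
      have h3 : (1 + ((1 : ℕ) : ℝ)) ^ k = 2 ^ k := by norm_num
      rw [h3]
      exact mul_le_mul_of_nonneg_left h1 (by positivity)
    · rw [sw_eb_co, Pi.single_eq_of_ne h, Pi.single_eq_of_ne h]
      simp

private theorem sw_inv_norm : ‖((2 * Complex.I)⁻¹ : ℂ)‖ = 1 / 2 := by
  rw [norm_inv, norm_mul, Complex.norm_I]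
  norm_num

private theorem sw_inv_norm' : ‖((2 : ℂ)⁻¹ : ℂ)‖ = 1 / 2 := by
  rw [norm_inv]
  norm_num

private theorem sw_sn_bd {k : ℕ} {r : ℝ → ℝ} (hr : ∀ t, r t ≤ 2) (i : ℕ) :
    Bd k r (sn i) (2 ^ k * (739 / 100)) := by
  unfold sn
  refine (Bd.smul _ ((sw_eb_bd (k := k) hr i (n := 1) rfl).sub
    (sw_eb_bd (k := k) hr i (n := -1) rfl))).mono ?_
  rw [sw_inv_norm]
  apply le_of_eq
  ring

private theorem sw_cs_bd {k : ℕ} {r : ℝ → ℝ} (hr : ∀ t, r t ≤ 2) (i : ℕ) :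
    Bd k r (cs i) (2 ^ k * (739 / 100)) := by
  unfold cs
  refine (Bd.smul _ ((sw_eb_bd (k := k) hr i (n := 1) rfl).add
    (sw_eb_bd (k := k) hr i (n := -1) rfl))).mono ?_
  rw [sw_inv_norm']
  apply le_of_eq
  ring

private theorem sw_dth_eb (i : ℕ) (n : ℤ) :
    dth i (eb (Finsupp.single i n)) = (Complex.I * (n : ℂ)) • eb (Finsupp.single i n) := by
  unfold dth
  rw [sw_mlt_eb]
  simp

private theorem sw_dth_sn (i : ℕ) : dth i (sn i) = cs i := by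
  unfold sn cs
  rw [map_smul, map_sub, sw_dth_eb, sw_dth_eb, smul_sub, smul_smul, smul_smul, smul_add]
  have hI : Complex.I ≠ 0 := Complex.I_ne_zero
  have h1 : (2 * Complex.I)⁻¹ * (Complex.I * ((1 : ℤ) : ℂ)) = 2⁻¹ := by
    push_cast; field_simp
  have h2 : (2 * Complex.I)⁻¹ * (Complex.I * ((-1 : ℤ) : ℂ)) = -2⁻¹ := by
    push_cast; field_simp
  rw [h1, h2, neg_smul, sub_neg_eq_add]

private theorem sw_dth_cs (i : ℕ) : dth i (cs i) = -sn i := by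
  unfold sn cs
  rw [map_smul, map_add, sw_dth_eb, sw_dth_eb, smul_add, smul_smul, smul_smul, smul_sub]
  have hI : Complex.I ≠ 0 := Complex.I_ne_zero
  have h1 : (2 : ℂ)⁻¹ * (Complex.I * ((1 : ℤ) : ℂ)) = -(2 * Complex.I)⁻¹ := by
    push_cast
    rw [mul_inv, Complex.inv_I]; ring
  have h2 : (2 : ℂ)⁻¹ * (Complex.I * ((-1 : ℤ) : ℂ)) = (2 * Complex.I)⁻¹ := by
    push_cast
    rw [mul_inv, Complex.inv_I]; ring
  rw [h1, h2, neg_smul]
  abel

private theorem sw_kap (κ : Kp) (a : Fin 2) (i : ℕ) (n : ℤ) :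
    kap κ a (Finsupp.single i n) = n * κ.k a i := by
  unfold kap
  rw [Finsupp.sum_single_index (by simp)]

private theorem sw_D_eb (κ : Kp) (a : Fin 2) (i : ℕ) (n : ℤ) (h : κ.k a i = 0) :
    D κ a (eb (Finsupp.single i n)) = 0 := by
  unfold D
  rw [sw_mlt_eb, sw_kap, h]
  simp

private theorem sw_D_sn (κ : Kp) (a : Fin 2) (i : ℕ) (h : κ.k a i = 0) : D κ a (sn i) = 0 := by
  unfold sn
  rw [map_smul, map_sub, sw_D_eb κ a i _ h, sw_D_eb κ a i _ h, sub_zero, smul_zero]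

/-! the initial wave -/

/-- `W0 = √2 b k^⊥ cos θ + L⁻¹ √2 (D^⊥ b) sin θ`. -/
theorem W0_eq (P : SB) (hk : ∀ a, P.d.κ.k a P.d.i = 0) (hb : osc P.d.i P.b = 0) (hL : 0 < P.L)
    (j : Fin 2) :
    P.W0 j = (((Real.sqrt 2 : ℝ) : ℂ) * (if j = 0 then -(P.k0 1 : ℂ) else (P.k0 0 : ℂ))) •
        (P.b * cs P.d.i) +
      ((P.L : ℂ)⁻¹ * ((Real.sqrt 2 : ℝ) : ℂ)) • (dp P.d.κ j P.b * sn P.d.i) := by
  have hLc : (P.L : ℂ) ≠ 0 := by exact_mod_cast hL.ne'
  have hDb : ∀ a, D P.κ' a P.b = D P.d.κ a P.b := fun a => D_upd_of_osc _ _ _ hk a hb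
  have hDs : ∀ a, D P.κ' a (sn P.d.i) = ((P.L : ℂ) * (P.k0 a : ℂ)) • cs P.d.i := by
    intro a
    unfold SB.κ'
    rw [D_upd _ _ _ hk, sw_D_sn _ _ _ (hk a), zero_add, sw_dth_sn]
    push_cast
    rfl
  have hdb : dp P.κ' j P.b = dp P.d.κ j P.b := by
    unfold dp
    split_ifs
    · rw [LinearMap.neg_apply, LinearMap.neg_apply, hDb]
    · rw [hDb]
  have hds : dp P.κ' j (sn P.d.i) =
      ((P.L : ℂ) * (if j = 0 then -(P.k0 1 : ℂ) else (P.k0 0 : ℂ))) • cs P.d.i := by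
    unfold dp
    split_ifs
    · rw [LinearMap.neg_apply, hDs, mul_neg, neg_smul]
    · rw [hDs]
  unfold SB.W0
  rw [map_smul, dp_mul, hdb, hds, smul_add, smul_add, mul_smul_comm, smul_smul, smul_smul,
    smul_smul, add_comm]
  congr 2
  field_simp

private theorem sw_mean_eb (i : ℕ) (n : ℤ) (hn : n ≠ 0) :
    mean i (eb (Finsupp.single i n)) = 0 := by
  unfold mean
  rw [sw_mlt_eb]
  simp [hn]

private theorem sw_mean_eb0 (i : ℕ) : mean i (eb 0) = 1 := by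
  unfold mean
  rw [sw_mlt_eb]
  simp [sw_eb_zero]

private theorem sw_mul_pp (i : ℕ) : eb (Finsupp.single i 1) * eb (Finsupp.single i 1) =
    eb (Finsupp.single i 2) := by
  rw [sw_eb_mul, ← Finsupp.single_add]; rfl

private theorem sw_mul_mm (i : ℕ) : eb (Finsupp.single i (-1)) * eb (Finsupp.single i (-1)) =
    eb (Finsupp.single i (-2)) := by
  rw [sw_eb_mul, ← Finsupp.single_add]; rfl

private theorem sw_mul_pm (i : ℕ) : eb (Finsupp.single i 1) * eb (Finsupp.single i (-1)) =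
    eb 0 := by
  rw [sw_eb_mul, ← Finsupp.single_add]; simp

private theorem sw_two_I : (2 * Complex.I)⁻¹ * (2 * Complex.I)⁻¹ = -(4 : ℂ)⁻¹ := by
  rw [← mul_inv]
  have : 2 * Complex.I * (2 * Complex.I) = -4 := by
    have := Complex.I_mul_I
    linear_combination 4 * this
  rw [this, inv_neg]

theorem cs_sq_mean (i : ℕ) : mean i (cs i * cs i) = (2⁻¹ : ℂ) • 1 := by
  have h : cs i * cs i = (4 : ℂ)⁻¹ • (eb (Finsupp.single i 2) + eb (Finsupp.single i (-2)) +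
      (2 : ℂ) • eb 0) := by
    unfold cs
    rw [smul_mul_smul_comm]
    have e : (eb (Finsupp.single i 1) + eb (Finsupp.single i (-1))) *
        (eb (Finsupp.single i 1) + eb (Finsupp.single i (-1))) =
        eb (Finsupp.single i 2) + eb (Finsupp.single i (-2)) + (2 : ℂ) • eb 0 := by
      rw [← sw_mul_pp, ← sw_mul_mm, ← sw_mul_pm i, two_smul]
      ring
    rw [e]
    congr 1
    norm_num
  rw [h, map_smul, map_add, map_add, map_smul, sw_mean_eb i 2 (by norm_num),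
    sw_mean_eb i (-2) (by norm_num), sw_mean_eb0, zero_add, zero_add, smul_smul]
  congr 1
  norm_num

theorem sn_sq_mean (i : ℕ) : mean i (sn i * sn i) = (2⁻¹ : ℂ) • 1 := by
  have h : sn i * sn i = (-(4 : ℂ)⁻¹) • (eb (Finsupp.single i 2) + eb (Finsupp.single i (-2)) -
      (2 : ℂ) • eb 0) := by
    unfold sn
    rw [smul_mul_smul_comm, sw_two_I]
    have e : (eb (Finsupp.single i 1) - eb (Finsupp.single i (-1))) *
        (eb (Finsupp.single i 1) - eb (Finsupp.single i (-1))) =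
        eb (Finsupp.single i 2) + eb (Finsupp.single i (-2)) - (2 : ℂ) • eb 0 := by
      rw [← sw_mul_pp, ← sw_mul_mm, ← sw_mul_pm i, two_smul]
      ring
    rw [e]
  rw [h, map_smul, map_sub, map_add, map_smul, sw_mean_eb i 2 (by norm_num),
    sw_mean_eb i (-2) (by norm_num), sw_mean_eb0, zero_add, zero_sub, smul_neg, smul_smul,
    ← neg_smul]
  congr 1
  norm_num

theorem cs_sn_mean (i : ℕ) : mean i (cs i * sn i) = 0 := by
  have h : cs i * sn i = ((2 : ℂ)⁻¹ * (2 * Complex.I)⁻¹) •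
      (eb (Finsupp.single i 2) - eb (Finsupp.single i (-2))) := by
    unfold sn cs
    rw [smul_mul_smul_comm]
    have e : (eb (Finsupp.single i 1) + eb (Finsupp.single i (-1))) *
        (eb (Finsupp.single i 1) - eb (Finsupp.single i (-1))) =
        eb (Finsupp.single i 2) - eb (Finsupp.single i (-2)) := by
      rw [← sw_mul_pp, ← sw_mul_mm]
      ring
    rw [e]
  rw [h, map_smul, map_sub, sw_mean_eb i 2 (by norm_num), sw_mean_eb i (-2) (by norm_num),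
    sub_zero, smul_zero]

private theorem sw_eb_lev (i : ℕ) (n : ℤ) : Lev (i + 1) (eb (Finsupp.single i n)) := by
  rintro ν ⟨j, hj, hν⟩
  rw [sw_eb_co, Pi.single_eq_of_ne]
  rintro rfl
  apply hν
  rw [Finsupp.single_apply, if_neg (by omega)]

theorem sn_lev (i : ℕ) : Lev (i + 1) (sn i) :=
  Lev.smul _ ((sw_eb_lev i 1).sub (sw_eb_lev i (-1)))

theorem sn_mean (i : ℕ) : mean i (sn i) = 0 := by
  unfold sn
  rw [map_smul, map_sub, sw_mean_eb i 1 (by norm_num), sw_mean_eb i (-1) (by norm_num),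
    sub_zero, smul_zero]

private theorem sw_eb_neg (ρ ν : Gx) (t : ℝ) : (eb ρ).co (-ν) t = (eb (-ρ)).co ν t := by
  rw [sw_eb_co, sw_eb_co]
  by_cases h : ν = -ρ
  · subst h
    rw [neg_neg, Pi.single_eq_same, Pi.single_eq_same]
  · rw [Pi.single_eq_of_ne h, Pi.single_eq_of_ne]
    intro h2
    exact h (by rw [← h2, neg_neg])

private theorem sw_eb_star (ρ ν : Gx) (t : ℝ) :
    (starRingEnd ℂ) ((eb ρ).co ν t) = (eb ρ).co ν t := by
  rw [sw_eb_co]
  by_cases h : ν = ρ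
  · subst h
    rw [Pi.single_eq_same]
    simp
  · rw [Pi.single_eq_of_ne h]
    simp

private theorem sw_sn_co (i : ℕ) (ν : Gx) (t : ℝ) : (sn i).co ν t = (2 * Complex.I)⁻¹ *
    ((eb (Finsupp.single i 1)).co ν t - (eb (Finsupp.single i (-1))).co ν t) := by
  unfold sn
  rw [WT.co_smul, WT.co_sub]
  rfl

theorem sn_real (i : ℕ) : IsR (sn i) := by
  intro ν t
  rw [sw_sn_co, sw_sn_co, map_mul, map_sub, sw_eb_star, sw_eb_star, sw_eb_neg, sw_eb_neg,
    sw_single_neg, neg_neg, map_inv₀, map_mul, Complex.conj_I]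
  have : (starRingEnd ℂ) 2 = 2 := map_ofNat (starRingEnd ℂ) 2
  rw [this, mul_neg, inv_neg]
  ring

/-! bounds -/

private theorem sw_sqrt2 : Real.sqrt 2 ≤ 14143 / 10000 := by
  rw [Real.sqrt_le_left (by norm_num)]
  norm_num

private theorem sw_r_le {P : SB} {lam g σ ρ c A ρ0 m w η : ℝ}
    (H : SBH P lam g σ ρ c A ρ0 m w η) (t : ℝ) : P.r ρ0 m t ≤ ρ0 := by
  unfold SB.r
  exact rad_le H.good.ht H.hm.le t

private theorem sw_r_le2 {P : SB} {lam g σ ρ c A ρ0 m w η : ℝ}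
    (H : SBH P lam g σ ρ c A ρ0 m w η) (t : ℝ) : P.r ρ0 m t ≤ 2 := by
  have h1 := sw_r_le H t
  have h2 := H.hρ
  have h3 := H.hρ1
  have h4 := H.hm
  linarith

private theorem sw_r_nonneg {P : SB} {lam g σ ρ c A ρ0 m w η : ℝ}
    (H : SBH P lam g σ ρ c A ρ0 m w η) (t : ℝ) : 0 ≤ P.r ρ0 m t := by
  unfold SB.r
  have h1 := le_rad (ρ := ρ0) (m := m) H.good.ht H.hm.le t
  have h2 := H.hρ0
  have h4 := H.hm
  linarith

private theorem sw_b0 {P : SB} {lam g σ ρ c A ρ0 m w η : ℝ}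
    (H : SBH P lam g σ ρ c A ρ0 m w η) : Bd 0 (P.r ρ0 m) P.b w :=
  H.bb.weaken le_rfl fun t => (sw_r_le H t).trans (by have := H.hm; simp only [cr]; linarith)

private theorem sw_b1 {P : SB} {lam g σ ρ c A ρ0 m w η : ℝ}
    (H : SBH P lam g σ ρ c A ρ0 m w η) : Bd 1 (P.r ρ0 m) P.b ((1 + 1 / m) * w) :=
  Bd.margin H.hm (fun t => by
    have := sw_r_le H t
    simp only [cr]; linarith) H.bb

private theorem sw_b2 {P : SB} {lam g σ ρ c A ρ0 m w η : ℝ}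
    (H : SBH P lam g σ ρ c A ρ0 m w η) :
    Bd 2 (P.r ρ0 m) P.b (4 * (1 + 1 / m) ^ 2 * w) := by
  have hm := H.hm
  have h1 : Bd 1 (cr (ρ0 + m / 2)) P.b ((1 + 1 / (m / 2)) * w) :=
    Bd.margin (by positivity) (fun t => by simp only [cr]; linarith) H.bb
  have h2 : Bd 2 (P.r ρ0 m) P.b ((1 + 1 / (m / 2)) * ((1 + 1 / (m / 2)) * w)) :=
    Bd.margin (by positivity : 0 < m / 2) (fun t => by
      have := sw_r_le H t
      simp only [cr]; linarith) h1
  refine h2.mono ?_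
  have hw := H.hw
  have h3 : 1 + 1 / (m / 2) ≤ 2 * (1 + 1 / m) := by
    have : 1 / (m / 2) = 2 * (1 / m) := by field_simp
    rw [this]; linarith
  have h4 : 0 ≤ 1 + 1 / (m / 2) := by positivity
  calc (1 + 1 / (m / 2)) * ((1 + 1 / (m / 2)) * w)
      = ((1 + 1 / (m / 2)) * (1 + 1 / (m / 2))) * w := by ring
    _ ≤ ((2 * (1 + 1 / m)) * (2 * (1 + 1 / m))) * w := by
        refine mul_le_mul_of_nonneg_right (mul_le_mul h3 h3 h4 (h4.trans h3)) hw.le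
    _ = 4 * (1 + 1 / m) ^ 2 * w := by ring

private theorem sw_kc {P : SB} {lam g σ ρ c A ρ0 m w η : ℝ}
    (H : SBH P lam g σ ρ c A ρ0 m w η) (j : Fin 2) :
    ‖(((Real.sqrt 2 : ℝ) : ℂ) * (if j = 0 then -(P.k0 1 : ℂ) else (P.k0 0 : ℂ)))‖ ≤
      14143 / 5000 := by
  have h : ∀ a, ‖(P.k0 a : ℂ)‖ ≤ 2 := by
    intro a
    rw [← Complex.ofReal_intCast, Complex.norm_real, Real.norm_eq_abs]
    exact_mod_cast H.hk a
  have h2 : ‖(if j = 0 then -(P.k0 1 : ℂ) else (P.k0 0 : ℂ))‖ ≤ 2 := by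
    split_ifs
    · rw [norm_neg]; exact h 1
    · exact h 0
  rw [norm_mul, Complex.norm_real, Real.norm_eq_abs, abs_of_nonneg (Real.sqrt_nonneg _)]
  calc Real.sqrt 2 * _ ≤ (14143 / 10000) * 2 :=
        mul_le_mul sw_sqrt2 h2 (norm_nonneg _) (by norm_num)
    _ = _ := by norm_num

private theorem sw_Lpos {P : SB} {lam g σ ρ c A ρ0 m w η : ℝ}
    (H : SBH P lam g σ ρ c A ρ0 m w η) : (0 : ℝ) < P.L := by
  have h1 := H.hlam
  have h2 := H.hm
  have h3 : 0 < lam * (1 + 1 / m) := by positivity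
  exact h3.trans_le H.hL

private theorem sw_lc {P : SB} {lam g σ ρ c A ρ0 m w η : ℝ}
    (H : SBH P lam g σ ρ c A ρ0 m w η) {x : ℝ} (hx : 0 ≤ x) :
    ‖((P.L : ℂ)⁻¹ * ((Real.sqrt 2 : ℝ) : ℂ))‖ * (lam * ((1 + 1 / m) * x)) ≤
      14143 / 10000 * x := by
  have hL := sw_Lpos H
  have hL2 := H.hL
  have h1 := H.hlam
  have h2 := H.hm
  rw [norm_mul, norm_inv, Complex.norm_natCast, Complex.norm_real, Real.norm_eq_abs,
    abs_of_nonneg (Real.sqrt_nonneg _)]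
  have h3 : (P.L : ℝ)⁻¹ * (lam * (1 + 1 / m)) ≤ 1 := by
    rw [inv_mul_le_iff₀ hL, mul_one]; exact hL2
  have h5 : 0 ≤ (P.L : ℝ)⁻¹ * (lam * (1 + 1 / m)) := by positivity
  calc (P.L : ℝ)⁻¹ * Real.sqrt 2 * (lam * ((1 + 1 / m) * x))
      = Real.sqrt 2 * (((P.L : ℝ)⁻¹ * (lam * (1 + 1 / m))) * x) := by ring
    _ ≤ 14143 / 10000 * (1 * x) := by
        refine mul_le_mul sw_sqrt2 (mul_le_mul_of_nonneg_right h3 hx) (by positivity)
          (by norm_num)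
    _ = _ := by ring

private theorem sw_K {P : SB} {lam g σ ρ c A ρ0 m w η : ℝ}
    (H : SBH P lam g σ ρ c A ρ0 m w η) (j : Fin 2) :
    P.W0 j = (((Real.sqrt 2 : ℝ) : ℂ) * (if j = 0 then -(P.k0 1 : ℂ) else (P.k0 0 : ℂ))) •
        (P.b * cs P.d.i) +
      ((P.L : ℂ)⁻¹ * ((Real.sqrt 2 : ℝ) : ℂ)) • (dp P.d.κ j P.b * sn P.d.i) :=
  W0_eq P (fun a => H.good.k0 a _ le_rfl) (H.bl.osc le_rfl)
    (by exact_mod_cast sw_Lpos H) j

private theorem sw_gen0 {P : SB} {lam g σ ρ c A ρ0 m w η : ℝ}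
    (H : SBH P lam g σ ρ c A ρ0 m w η) (j : Fin 2) {u v : WT}
    (hu : Bd 0 (P.r ρ0 m) u (739 / 100)) (hv : Bd 0 (P.r ρ0 m) v (739 / 100)) :
    Bd 0 (P.r ρ0 m) ((((Real.sqrt 2 : ℝ) : ℂ) *
        (if j = 0 then -(P.k0 1 : ℂ) else (P.k0 0 : ℂ))) • (P.b * u) +
      ((P.L : ℂ)⁻¹ * ((Real.sqrt 2 : ℝ) : ℂ)) • (dp P.d.κ j P.b * v)) (32 * w) := by
  have hr := sw_r_nonneg H
  have hw := H.hw
  have hm := H.hm
  have hlam := H.hlam
  have h1 : Bd 0 (P.r ρ0 m) (P.b * u) (w * (739 / 100)) := Bd.mul hr (sw_b0 H) hu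
  have h2 : Bd 0 (P.r ρ0 m) (dp P.d.κ j P.b) (lam * ((1 + 1 / m) * w)) :=
    Bd.dp H.good.kb j (sw_b1 H)
  have h3 : Bd 0 (P.r ρ0 m) (dp P.d.κ j P.b * v) (lam * ((1 + 1 / m) * w) * (739 / 100)) :=
    Bd.mul hr h2 hv
  refine ((Bd.smul _ h1).add (Bd.smul _ h3)).mono ?_
  have e1 := mul_le_mul_of_nonneg_right (sw_kc H j) (by positivity : 0 ≤ w * (739 / 100))
  have e2 := sw_lc H (x := w * (739 / 100)) (by positivity)
  have e3 : lam * ((1 + 1 / m) * w) * (739 / 100) = lam * ((1 + 1 / m) * (w * (739 / 100))) := by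
    ring
  rw [e3]
  refine (add_le_add e1 e2).trans ?_
  nlinarith

theorem W0_bd0 {P : SB} {lam g σ ρ c A ρ0 m w η : ℝ} (H : SBH P lam g σ ρ c A ρ0 m w η)
    (j : Fin 2) : Bd 0 (P.r ρ0 m) (P.W0 j) (32 * w) := by
  rw [sw_K H j]
  have h1 : Bd 0 (P.r ρ0 m) (cs P.d.i) (739 / 100) := by
    simpa using sw_cs_bd (k := 0) (sw_r_le2 H) P.d.i
  have h2 : Bd 0 (P.r ρ0 m) (sn P.d.i) (739 / 100) := by
    simpa using sw_sn_bd (k := 0) (sw_r_le2 H) P.d.i
  exact sw_gen0 H j h1 h2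

theorem W0_bd1 {P : SB} {lam g σ ρ c A ρ0 m w η : ℝ} (H : SBH P lam g σ ρ c A ρ0 m w η)
    (j : Fin 2) : Bd 1 (P.r ρ0 m) (P.W0 j) (128 * (1 + 1 / m) * w) := by
  rw [sw_K H j]
  have hr := sw_r_nonneg H
  have hw := H.hw
  have hm := H.hm
  have hlam := H.hlam
  have hu : Bd 1 (P.r ρ0 m) (cs P.d.i) (2 ^ 1 * (739 / 100)) := sw_cs_bd (k := 1) (sw_r_le2 H) P.d.i
  have hv : Bd 1 (P.r ρ0 m) (sn P.d.i) (2 ^ 1 * (739 / 100)) := sw_sn_bd (k := 1) (sw_r_le2 H) P.d.i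
  have h1 := Bd.mul hr (sw_b1 H) hu
  have h2 : Bd 1 (P.r ρ0 m) (dp P.d.κ j P.b) (lam * (4 * (1 + 1 / m) ^ 2 * w)) :=
    Bd.dp H.good.kb j (sw_b2 H)
  have h3 := Bd.mul hr h2 hv
  refine ((Bd.smul _ h1).add (Bd.smul _ h3)).mono ?_
  have hK : 0 < 1 + 1 / m := by positivity
  have e1 := mul_le_mul_of_nonneg_right (sw_kc H j)
    (by positivity : 0 ≤ (1 + 1 / m) * w * (2 ^ 1 * (739 / 100)))
  have e2 := sw_lc H (x := 4 * (1 + 1 / m) * w * (2 ^ 1 * (739 / 100))) (by positivity)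
  have e3 : lam * (4 * (1 + 1 / m) ^ 2 * w) * (2 ^ 1 * (739 / 100)) =
      lam * ((1 + 1 / m) * (4 * (1 + 1 / m) * w * (2 ^ 1 * (739 / 100)))) := by
    ring
  rw [e3]
  refine (add_le_add e1 e2).trans ?_
  have hKw : 0 < (1 + 1 / m) * w := by positivity
  nlinarith

theorem W0_bdt {P : SB} {lam g σ ρ c A ρ0 m w η : ℝ} (H : SBH P lam g σ ρ c A ρ0 m w η)
    (j : Fin 2) : Bd 0 (P.r ρ0 m) (dth P.d.i (P.W0 j)) (32 * w) := by
  have hb : osc P.d.i P.b = 0 := H.bl.osc le_rfl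
  have hb2 : osc P.d.i (dp P.d.κ j P.b) = 0 := by
    unfold dp
    split_ifs
    · rw [LinearMap.neg_apply, map_neg, osc_D, hb, map_zero, neg_zero]
    · rw [osc_D, hb, map_zero]
  rw [sw_K H j, map_add, map_smul, map_smul, dth_mul, dth_mul, dth_of_osc hb, dth_of_osc hb2,
    zero_mul, zero_mul, zero_add, zero_add, sw_dth_sn, sw_dth_cs]
  have h1 : Bd 0 (P.r ρ0 m) (cs P.d.i) (739 / 100) := by
    simpa using sw_cs_bd (k := 0) (sw_r_le2 H) P.d.i
  have h2 : Bd 0 (P.r ρ0 m) (sn P.d.i) (739 / 100) := by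
    simpa using sw_sn_bd (k := 0) (sw_r_le2 H) P.d.i
  exact sw_gen0 H j h2.neg h1

/-- `b = 0` gives `W0 = 0`. -/
theorem W0_zero (P : SB) (hb : P.b = 0) (j : Fin 2) : P.W0 j = 0 := by
  unfold SB.W0
  rw [hb, zero_mul, smul_zero, map_zero, smul_zero]

/-- Divergence free. -/
theorem W0_div (P : SB) : dvg P.κ' P.W0 = 0 := by
  unfold dvg SB.W0
  simp only [map_smul (D P.κ' _)]
  rw [← Finset.smul_sum]
  have := div_dp P.κ' (((Real.sqrt 2 : ℝ) : ℂ) • (P.b * sn P.d.i))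
  rw [this, smul_zero]

end ES
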