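import Pool.Agent.H16.TSS.ES.LBd_6
import Pool.Agent.H16.TSS.ES.SW
import Pool.Agent.H16.TSS.M11

/-!
ES-SPost: a posteriori bounds (EW 2, Lemma 2.4), from `SB0` (in particular `BH`).
`⟨a⟩ = ∑ Ps ⟨g⟩`, `⟨g⟩ = ⟨f⟩ - (F'-I)⟨a⟩ - (M'ᵀ-I)⟨q⟩`, hence with `e = N1(E)`:
`N0(⟨a⟩), N0(⟨q⟩) ≤ 3 (8 g e + 12 K lam e² + 10^5 K² lam w²)` (absorption, `Bd.absorbV`),
`e ≤ η + h K N0(⟨a⟩)`, `e ≤ 2w`, absorption again.
-/

open scoped BoundedContinuousFunction

namespace ES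

theorem SPost_r_le {P : SB} {lam g σ ρ c A ρ0 m w η : ℝ}
    (H : SBH P lam g σ ρ c A ρ0 m w η) (t : ℝ) : P.r ρ0 m t ≤ ρ0 :=
  rad_le H.good.ht H.hm.le t

theorem SPost_chi (P : SB) (t : ℝ) : ‖P.χ t‖ ≤ 1 := by
  unfold SB.χ
  rw [trap_apply, Complex.norm_real, Real.norm_eq_abs, abs_of_nonneg (trapR_nonneg _ _ _ _ _)]
  exact trapR_le_one _ _ _ _ _

theorem SB0.bh {P : SB} {lam g σ ρ c A ρ0 m w η : ℝ} (H : SBH P lam g σ ρ c A ρ0 m w η)
    {ζ E W a q : Vec} (S : SB0 P lam g ρ0 m w ζ E W a q) : BH lam m w (P.r ρ0 m) ζ E W := by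
  have hm := H.hm
  have hlam := H.hlam
  have hw := H.hw
  have hK : 0 < 1 + 1 / m := by positivity
  have hK1 : 1 ≤ 1 + 1 / m := by
    have : 0 < 1 / m := by positivity
    linarith
  have hlK : 0 < lam * (1 + 1 / m) := mul_pos (by linarith) hK
  refine ⟨fun j => ?_, fun j => ?_, fun j => ?_, fun j => ?_⟩
  · have h1 := (S.nζ j).add (Bd.of_cr (H.zb j) (SPost_r_le H))
    rw [sub_add_cancel] at h1
    refine h1.mono ?_
    have e1 : 1 / (512 * lam * (1 + 1 / m)) = 1 / 512 * (1 / (lam * (1 + 1 / m))) := by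
      rw [mul_assoc]; field_simp
    have e2 : 1 / (1024 * lam * (1 + 1 / m)) = 1 / 1024 * (1 / (lam * (1 + 1 / m))) := by
      rw [mul_assoc]; field_simp
    have e3 : 1 / (256 * lam * (1 + 1 / m)) = 1 / 256 * (1 / (lam * (1 + 1 / m))) := by
      rw [mul_assoc]; field_simp
    rw [e1, e2, e3]
    have h2 : 0 ≤ 1 / (lam * (1 + 1 / m)) := by positivity
    linarith
  · have h1 := (S.nE j).add (Bd.of_cr (H.eb' j) (SPost_r_le H))
    rw [sub_add_cancel] at h1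
    exact h1.mono (by linarith [H.hη])
  · have h1 := ((S.nW j).weaken (Nat.zero_le 1) fun _ => le_rfl).add
      (Bd.cst_mul (SPost_chi P) (W0_bd0 H j))
    rw [sub_add_cancel] at h1
    exact h1.mono (by linarith)
  · have h1 := (S.nW j).add (Bd.cst_mul (SPost_chi P) (W0_bd1 H j))
    rw [sub_add_cancel] at h1
    refine h1.mono ?_
    have h2 := mul_le_mul_of_nonneg_right hK1 hw.le
    nlinarith

theorem SPost_Fm {κ : Kp} {i : ℕ} {ξ : Vec} (h : ∀ a, Lev i (ξ a)) (a b : Fin 2) :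
    Lev i (Fm κ ξ a b) := by
  unfold Fm idm grad
  refine Lev.add ?_ (Lev.D κ b (h a))
  split_ifs
  · exact Lev.one i
  · exact Lev.zero i

theorem SPost_bFm {d : Dat} {lam g σ c m r0 : ℝ} {r : ℝ → ℝ}
    (H : DH d lam g σ c m r0 r) (a b : Fin 2) : Bd 0 (fun t => r t + m) (d.F a b) (1 + c) := by
  unfold Dat.F Fm idm
  refine Bd.add ?_ ((H.bF a b).weaken le_rfl fun t => by linarith [H.hm])
  split_ifs
  · exact Bd.one _ _
  · exact Bd.zero _ _ (by norm_num)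

end ES
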