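import Pool.Agent.H16.TSS.ES.LBd_6
import Pool.Agent.H16.TSS.M04
import Pool.Agent.H16.TSS.M11

/-!
ES-XNew: regularity and bounds of the new coordinates and velocities, common to gap, ramps and
final interval (EW 3, Prop. 3.5).  Constants are generous.  `K = 1 + 1/m`, radius `P.r ρ0 m`.
-/

open scoped BoundedContinuousFunction

namespace ES

/-- A class of elements closed under the operations used in the system. -/
structure XNewC (X : WT → Prop) (κ : Kp) (i : ℕ) : Prop where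
  zero : X 0
  one : X 1
  add : ∀ {f g : WT}, X f → X g → X (f + g)
  neg : ∀ {f : WT}, X f → X (-f)
  mul : ∀ {f g : WT}, X f → X g → X (f * g)
  D : ∀ (a : Fin 2) {f : WT}, X f → X (ES.D κ a f)
  dth : ∀ {f : WT}, X f → X (ES.dth i f)
  ith : ∀ {f : WT}, X f → X (ES.ith i f)

theorem XNewC.sub {X : WT → Prop} {κ : Kp} {i : ℕ} (C : XNewC X κ i) {f g : WT}
    (hf : X f) (hg : X g) : X (f - g) := by
  rw [sub_eq_add_neg]
  exact C.add hf (C.neg hg)

private theorem XNewC.sum {X : WT → Prop} {κ : Kp} {i : ℕ} (C : XNewC X κ i) {f : Fin 2 → WT}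
    (hf : ∀ j, X (f j)) : X (∑ j, f j) := by
  rw [Fin.sum_univ_two]
  exact C.add (hf 0) (hf 1)

theorem XNewC.mulv {X : WT → Prop} {κ : Kp} {i : ℕ} (C : XNewC X κ i) {F : Mat} {x : Vec}
    (hF : ∀ a b, X (F a b)) (hx : ∀ a, X (x a)) (a : Fin 2) : X (ES.mulv F x a) :=
  C.sum fun b => C.mul (hF a b) (hx b)

private theorem XNewC.adv {X : WT → Prop} {κ : Kp} {i : ℕ} (C : XNewC X κ i) {x y : Vec}
    (hx : ∀ a, X (x a)) (hy : ∀ a, X (y a)) (a : Fin 2) : X (ES.adv κ x y a) :=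
  C.sum fun b => C.mul (hx b) (C.D b (hy a))

theorem XNewC.mulT {X : WT → Prop} {κ : Kp} {i : ℕ} (C : XNewC X κ i) {R M : Mat}
    (hR : ∀ a b, X (R a b)) (hM : ∀ a b, X (M a b)) (a b : Fin 2) : X (ES.mulT R M a b) :=
  C.sum fun k => C.mul (hR a k) (hM b k)

theorem XNewC.dvm {X : WT → Prop} {κ : Kp} {i : ℕ} (C : XNewC X κ i) {R : Mat}
    (hR : ∀ a b, X (R a b)) (a : Fin 2) : X (ES.dvm κ R a) :=
  C.sum fun k => C.D k (hR a k)

theorem XNewC.Fm {X : WT → Prop} {κ : Kp} {i : ℕ} (C : XNewC X κ i) {ξ : Vec}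
    (h : ∀ a, X (ξ a)) (a b : Fin 2) : X (ES.Fm κ ξ a b) := by
  unfold ES.Fm idm grad
  refine C.add ?_ (C.D b (h a))
  split_ifs
  · exact C.one
  · exact C.zero

private theorem XNewC.adj {X : WT → Prop} {κ : Kp} {i : ℕ} (C : XNewC X κ i) {F : Mat}
    (hF : ∀ a b, X (F a b)) (a b : Fin 2) : X (ES.adj F a b) := by
  unfold ES.adj
  split_ifs
  · exact hF 1 1
  · exact C.neg (hF 0 1)
  · exact C.neg (hF 1 0)
  · exact hF 0 0

private theorem XNewC.bet {X : WT → Prop} {P : SB} (C : XNewC X P.d.κ P.d.i) {W : Vec}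
    (hW : ∀ a, X (W a)) : X (P.bet W) := by
  unfold SB.bet dvg
  exact C.neg (C.ith (C.sum fun b => C.D b (hW b)))

theorem XNewC.f {X : WT → Prop} {P : SB} (C : XNewC X P.d.κ P.d.i) {ζ E W : Vec}
    (hF : ∀ a b, X (FF P.d ζ a b)) (hM : ∀ a b, X (MM P.d ζ a b)) (hL : ∀ a b, X (LL P.d ζ a b))
    (hR : ∀ a b, X (RR P.d ζ a b)) (hE : ∀ a, X (E a)) (hW : ∀ a, X (W a)) (a : Fin 2) :
    X (P.f ζ E W a) := by
  have hEW : ∀ a, X ((E + W) a) := fun a => C.add (hE a) (hW a)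
  have h2 : X 2 := by
    rw [← one_add_one_eq_two]
    exact C.add C.one C.one
  unfold SB.f
  refine C.sub (C.sub (C.sub (C.neg (C.mul h2 (C.mulv hL hEW a))) (C.adv hEW (C.mulv hF hE) a))
    (C.add (C.adv hW (C.mulv hF hEW) a) (C.mul (C.bet hW) (C.mulv hF ?_ a))))
    (C.dvm (C.mulT hR hM) a)
  exact fun c => C.dth (C.add (hE c) (hW c))

theorem XNew_lev (κ : Kp) (i j : ℕ) : XNewC (Lev j) κ i :=
  ⟨Lev.zero j, Lev.one j, Lev.add, Lev.neg, Lev.mul, fun a _ h => Lev.D κ a h,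
    fun h => Lev.mlt _ h, fun h => Lev.mlt _ h⟩

section
variable {P : SB} {lam g σ ρ c A ρ0 m w η : ℝ} {ζ E W a q : Vec}

theorem XNew_fin (H : SBH P lam g σ ρ c A ρ0 m w η) {f : WT} {e : ℝ}
    (hf : Bd 0 (cr ρ) f e) : Bd 0 (fun t => P.r ρ0 m t + m) f e := by
  refine Bd.of_cr hf fun t => ?_
  have h1 : P.r ρ0 m t ≤ ρ0 := rad_le H.good.ht H.hm.le t
  linarith [H.hρ1, H.hm]

/-- everything about a class preserved by the composition -/
theorem XNew_all {X : WT → Prop} (C : XNewC X P.d.κ P.d.i)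
    (H : SBH P lam g σ ρ c A ρ0 m w η)
    (hcomp : ∀ {f : WT} {e : ℝ}, Bd 0 (cr ρ) f e → X f → X (comp P.d.κ ζ f))
    (hζ : ∀ j, X (ζ j)) (hE : ∀ j, X (E j)) (hξ : ∀ j, X (P.d.ξ j))
    (hv : ∀ j, X (P.d.v j)) (hp : X P.d.p) (hR : ∀ a b, X (P.d.R a b)) (j : Fin 2) :
    X (nX P.d ζ j) ∧ X (nV P.d ζ E j) ∧ X (comp P.d.κ ζ P.d.p) ∧
      (∀ k, X (FF P.d ζ j k) ∧ X (MM P.d ζ j k)) ∧
      (∀ k, X (LL P.d ζ j k)) ∧ (∀ k, X (RR P.d ζ j k)) := by
  have hPm : ∀ a b, X (Pm P.d ζ a b) := C.Fm hζ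
  have hF : ∀ a b, X (FF P.d ζ a b) := by
    intro a b
    unfold FF
    refine C.sum fun k => C.mul ?_ (hPm k b)
    have hb : Bd 0 (cr ρ) (P.d.F a k) (1 + c) := by
      unfold Dat.F ES.Fm idm
      refine Bd.add ?_ (H.good.bF a k)
      split_ifs
      · exact Bd.one _ _
      · exact Bd.zero _ _ (by norm_num)
    exact hcomp hb (C.Fm hξ a k)
  have hM : ∀ a b, X (MM P.d ζ a b) := C.adj hF
  have hL : ∀ a b, X (LL P.d ζ a b) := by
    intro a b
    unfold LL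
    refine C.sum fun k => C.mul ?_ (hPm k b)
    exact hcomp (H.good.bG a k) (C.D k (hv a))
  have hRR : ∀ a b, X (RR P.d ζ a b) := fun a b => hcomp (H.good.bR a b) (hR a b)
  obtain ⟨e1, he1⟩ := H.good.fξ j
  obtain ⟨e2, he2⟩ := H.good.fv j
  obtain ⟨e3, he3⟩ := H.good.fp
  exact ⟨C.add (hζ j) (hcomp he1 (hξ j)), C.add (hcomp he2 (hv j)) (C.mulv hF hE j),
    hcomp he3 hp, fun k => ⟨hF j k, hM j k⟩, fun k => hL j k, fun k => hRR j k⟩

end

/-! Clamping to a subinterval of data. -/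

private theorem XNew_tcl_co {s t : ℝ} (f : WT) (ν : Gx) {τ : ℝ} (hτ : τ ∈ Set.Ioo s t) :
    (ES.tcl s t f).co ν τ = f.co ν τ := by
  unfold ES.tcl
  rw [tcomp_co]
  change f.co ν (clp s t τ) = f.co ν τ
  rw [clp_of_mem (Set.Ioo_subset_Icc_self hτ)]

private theorem XNew_tcl_add (s t : ℝ) (f g : WT) :
    ES.tcl s t (f + g) = ES.tcl s t f + ES.tcl s t g := tcomp_add _ f g

private theorem XNew_tcl_sub (s t : ℝ) (f g : WT) :
    ES.tcl s t (f - g) = ES.tcl s t f - ES.tcl s t g := tcomp_sub _ f g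

private theorem XNew_tcl_neg (s t : ℝ) (f : WT) : ES.tcl s t (-f) = -ES.tcl s t f := tcomp_neg _ f

private theorem XNew_tcl_mul (s t : ℝ) (f g : WT) :
    ES.tcl s t (f * g) = ES.tcl s t f * ES.tcl s t g := tcomp_mul _ f g

private theorem XNew_tcl_one (s t : ℝ) : ES.tcl s t 1 = 1 := tcomp_one _

private theorem XNew_tcl_zero (s t : ℝ) : ES.tcl s t 0 = 0 := tcomp_zero _

private theorem XNew_tcl_D (s t : ℝ) (κ : Kp) (a : Fin 2) (f : WT) :
    ES.tcl s t (D κ a f) = D κ a (ES.tcl s t f) := tcomp_D _ κ a f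

private theorem XNew_tcl_grad (d : Dat) (s t : ℝ) (a b : Fin 2) :
    grad (Dat.tcl d s t).κ (Dat.tcl d s t).ξ a b = ES.tcl s t (grad d.κ d.ξ a b) :=
  (XNew_tcl_D s t d.κ b (d.ξ a)).symm

private theorem XNew_tcl_F (d : Dat) (s t : ℝ) (a b : Fin 2) :
    (Dat.tcl d s t).F a b = ES.tcl s t (d.F a b) := by
  unfold Dat.F Fm
  rw [XNew_tcl_add, XNew_tcl_grad]
  congr 1
  unfold idm
  split_ifs
  · exact (XNew_tcl_one s t).symm
  · exact (XNew_tcl_zero s t).symm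

private theorem XNew_tcl_M (d : Dat) (s t : ℝ) (a b : Fin 2) :
    (Dat.tcl d s t).M a b = ES.tcl s t (d.M a b) := by
  unfold Dat.M adj
  split_ifs
  · exact XNew_tcl_F d s t 1 1
  · rw [XNew_tcl_neg, XNew_tcl_F]
  · rw [XNew_tcl_neg, XNew_tcl_F]
  · exact XNew_tcl_F d s t 0 0

private theorem XNew_tcl_B (d : Dat) (s t : ℝ) (a : Fin 2) :
    (Dat.tcl d s t).B a = ES.tcl s t (d.B a) := by
  unfold Dat.B mulv
  rw [Fin.sum_univ_two, Fin.sum_univ_two, XNew_tcl_add, XNew_tcl_mul, XNew_tcl_mul, XNew_tcl_M,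
    XNew_tcl_M]
  have h : ∀ b, ((Dat.tcl d s t).v - (Dat.tcl d s t).U) b = ES.tcl s t ((d.v - d.U) b) := by
    intro b
    exact (XNew_tcl_sub s t (d.v b) (d.U b)).symm
  rw [h, h]

private theorem XNew_tcl_G (d : Dat) (s t : ℝ) (a b : Fin 2) :
    (Dat.tcl d s t).G a b = ES.tcl s t (d.G a b) :=
  (XNew_tcl_D s t d.κ b (d.v a)).symm

private theorem XNew_tcl_acc (d : Dat) (s t : ℝ) (a : Fin 2) :
    (Dat.tcl d s t).acc a = ES.tcl s t (d.acc a) := by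
  have hp : ∀ j, D (Dat.tcl d s t).κ j (Dat.tcl d s t).p = ES.tcl s t (D d.κ j d.p) :=
    fun j => (XNew_tcl_D s t d.κ j d.p).symm
  have hRM : ∀ a b, mulT (Dat.tcl d s t).R (Dat.tcl d s t).M a b =
      ES.tcl s t (mulT d.R d.M a b) := by
    intro a b
    unfold mulT
    rw [Fin.sum_univ_two, Fin.sum_univ_two, XNew_tcl_add, XNew_tcl_mul, XNew_tcl_mul,
      XNew_tcl_M, XNew_tcl_M]
    rfl
  unfold Dat.acc gradT mulvT dvm
  rw [Fin.sum_univ_two, Fin.sum_univ_two, Fin.sum_univ_two, Fin.sum_univ_two, XNew_tcl_add,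
    XNew_tcl_neg, XNew_tcl_add, XNew_tcl_add, XNew_tcl_mul, XNew_tcl_mul, XNew_tcl_M,
    XNew_tcl_M]
  beta_reduce
  rw [hp, hp, hRM, hRM, XNew_tcl_D, XNew_tcl_D]
  rfl

private theorem XNew_tcl_rhs (d : Dat) (s t : ℝ) (a : Fin 2) :
    (Dat.tcl d s t).rhs a = ES.tcl s t (d.rhs a) := by
  unfold Dat.rhs
  rw [XNew_tcl_sub, XNew_tcl_acc]
  congr 1
  unfold adv
  rw [Fin.sum_univ_two, Fin.sum_univ_two, XNew_tcl_add, XNew_tcl_mul, XNew_tcl_mul,
    XNew_tcl_B, XNew_tcl_B, XNew_tcl_D, XNew_tcl_D]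
  rfl

private theorem XNew_TD {s t : ℝ} {f g : WT} (h : TD s t f g) :
    TD s t (ES.tcl s t f) (ES.tcl s t g) :=
  TD.congr h (fun ν _ hτ => XNew_tcl_co f ν hτ) (fun ν _ hτ => XNew_tcl_co g ν hτ)

/-- Good data from unclamped data (all conditions of `Good` except clamping), then `tcl`
(a ring homomorphism commuting with all multipliers). -/
theorem XNew_of_big {d : Dat} {s t lam g σ ρ c A : ℝ} (h2 : s < t) (kb : KB d.κ lam) (k0 : ∀ a j, d.i ≤ j → d.κ.k a j = 0)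
    (levξ : ∀ a, Lev d.i (d.ξ a)) (levU : ∀ a, Lev d.i (d.U a)) (levv : ∀ a, Lev d.i (d.v a))
    (levp : Lev d.i d.p) (levR : ∀ a b, Lev d.i (d.R a b)) (rξ : ∀ a, IsR (d.ξ a))
    (rU : ∀ a, IsR (d.U a)) (rv : ∀ a, IsR (d.v a)) (rp : IsR d.p) (rR : ∀ a b, IsR (d.R a b))
    (fξ : ∀ a, Fin0 ρ (d.ξ a))
    (fU : ∀ a, Fin0 ρ (d.U a)) (fv : ∀ a, Fin0 ρ (d.v a)) (fp : Fin0 ρ d.p)
    (symm : ∀ a b, d.R a b = d.R b a) (tdξ : ∀ a, TD s t (d.ξ a) (d.U a))
    (tdv : ∀ a, TD s t (d.v a) (d.rhs a)) (det : det2 d.F = 1) (div : dvg d.κ d.B = 0)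
    (bF : ∀ a b, Bd 0 (cr ρ) (grad d.κ d.ξ a b) c) (bB : ∀ a, Bd 0 (cr ρ) (d.B a) (g / lam))
    (bG : ∀ a b, Bd 0 (cr ρ) (d.G a b) g) (bR : ∀ a b, Bd 0 (cr ρ) (d.R a b) σ)
    (bA : ∀ a, Bd 0 (cr ρ) (d.acc a) A) : Good (Dat.tcl d s t) s t lam g σ ρ c A := by
  have hF0 : ∀ {f : WT}, Fin0 ρ f → Fin0 ρ (ES.tcl s t f) := by
    rintro f ⟨e, he⟩
    exact ⟨e, Bd.tcomp _ he⟩
  exact
    { ht := h2
      kb := kb
      k0 := k0
      levξ := fun a => Lev.tcomp _ (levξ a)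
      levU := fun a => Lev.tcomp _ (levU a)
      levv := fun a => Lev.tcomp _ (levv a)
      levp := Lev.tcomp _ levp
      levR := fun a b => Lev.tcomp _ (levR a b)
      rξ := fun a => (rξ a).tcl
      rU := fun a => (rU a).tcl
      rv := fun a => (rv a).tcl
      rp := rp.tcl
      rR := fun a b => (rR a b).tcl
      cξ := fun a => Cl.tcl h2.le _
      cU := fun a => Cl.tcl h2.le _
      cv := fun a => Cl.tcl h2.le _
      cp := Cl.tcl h2.le _
      cR := fun a b => Cl.tcl h2.le _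
      fξ := fun a => hF0 (fξ a)
      fU := fun a => hF0 (fU a)
      fv := fun a => hF0 (fv a)
      fp := hF0 fp
      symm := fun a b => by
        change ES.tcl s t (d.R a b) = ES.tcl s t (d.R b a)
        rw [symm a b]
      tdξ := fun a => XNew_TD (tdξ a)
      tdv := fun a => by
        rw [XNew_tcl_rhs]
        exact XNew_TD (tdv a)
      det := by
        have h : det2 (Dat.tcl d s t).F = ES.tcl s t (det2 d.F) := by
          unfold det2
          rw [XNew_tcl_sub, XNew_tcl_mul, XNew_tcl_mul, XNew_tcl_F, XNew_tcl_F, XNew_tcl_F,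
            XNew_tcl_F]
        rw [h, det, XNew_tcl_one]
      div := by
        have h : dvg (Dat.tcl d s t).κ (Dat.tcl d s t).B = ES.tcl s t (dvg d.κ d.B) := by
          unfold dvg
          rw [Fin.sum_univ_two, Fin.sum_univ_two, XNew_tcl_add, XNew_tcl_B, XNew_tcl_B,
            XNew_tcl_D, XNew_tcl_D]
          rfl
        rw [h, div, XNew_tcl_zero]
      bF := fun a b => by
        rw [XNew_tcl_grad]
        exact Bd.tcomp _ (bF a b)
      bB := fun a => by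
        rw [XNew_tcl_B]
        exact Bd.tcomp _ (bB a)
      bG := fun a b => by
        rw [XNew_tcl_G]
        exact Bd.tcomp _ (bG a b)
      bR := fun a b => Bd.tcomp _ (bR a b)
      bA := fun a => by
        rw [XNew_tcl_acc]
        exact Bd.tcomp _ (bA a) }

/-- Clamping of good data to a subinterval. -/
theorem Good.tclX {d : Dat} {t0 t1 s t lam g σ ρ c A : ℝ} (H : Good d t0 t1 lam g σ ρ c A)
    (h1 : t0 ≤ s) (h2 : s < t) (h3 : t ≤ t1) : Good (Dat.tcl d s t) s t lam g σ ρ c A :=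
  XNew_of_big h2 H.kb H.k0 H.levξ H.levU H.levv H.levp H.levR H.rξ H.rU H.rv H.rp H.rR H.fξ H.fU
    H.fv H.fp H.symm (fun a => (H.tdξ a).mono h1 h3) (fun a => (H.tdv a).mono h1 h3) H.det H.div
    H.bF H.bB H.bG H.bR H.bA

end ES
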