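import Pool.Agent.H16.TSS.ES.LCompA
import Pool.Agent.H16.TSS.M04

/-!
ES-LCompA: composition with `id + ζ`:
`comp κ ζ f = ∑_ν f_ν e_ν exp(i κ_0(ν) ζ_0 + i κ_1(ν) ζ_1)`.
Hypotheses `CH κ lam r0 z r ζ` (see Defs): `|κ| ≤ lam`, `r ≥ r0 > 0`, `Bd 0 r (ζ a) y`, `2 lam y ≤ z`;
then `exp(ikz ν)` has norm `≤ exp(z |ν|)`, and `comp κ ζ f` is fine as soon as `f` has a finite norm
at the radius `r + z`.
The derivative rules need one more power: `Bd 1 (r+z) f c`.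
-/

open scoped BoundedContinuousFunction

namespace ES

/-! ### auxiliary results -/

theorem cA_G {κ : Kp} {lam z : ℝ} {r : ℝ → ℝ} {ζ : Fin 2 → WT} (hr0 : ∀ t, 0 ≤ r t)
    (hk : KB κ lam) {k : ℕ} {y : ℝ} (hζ : ∀ a, Bd k r (ζ a) y) (hy : 2 * lam * y ≤ z) (ν : Gx) :
    Bd k r (texp (ikz κ ζ ν)) (Real.exp (z * len ν)) := by
  apply Bd.texp hr0
  have hn : ∀ a, ‖Complex.I * (kap κ a ν : ℂ)‖ ≤ lam * len ν := by
    intro a
    have h1 : ‖Complex.I * (kap κ a ν : ℂ)‖ = |(kap κ a ν : ℝ)| := by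
      rw [norm_mul, Complex.norm_I, one_mul, ← Complex.ofReal_intCast, Complex.norm_real,
        Real.norm_eq_abs]
    rw [h1]
    exact kap_le hk a ν
  have hy0 : 0 ≤ y := (hζ 0).nonneg
  refine ((Bd.smul (Complex.I * (kap κ 0 ν : ℂ)) (hζ 0)).add
    (Bd.smul (Complex.I * (kap κ 1 ν : ℂ)) (hζ 1))).mono ?_
  have h0 := mul_le_mul_of_nonneg_right (hn 0) hy0
  have h1 := mul_le_mul_of_nonneg_right (hn 1) hy0
  have h2 : 2 * lam * y * (len ν : ℝ) ≤ z * len ν :=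
    mul_le_mul_of_nonneg_right hy (Nat.cast_nonneg _)
  nlinarith

/-- all facts about the composition at the order `k` -/
private theorem cA_main {κ : Kp} {lam r0 z : ℝ} {r : ℝ → ℝ} {ζ : Fin 2 → WT}
    (H : CH κ lam r0 z r ζ) {k : ℕ} {y : ℝ} (hζ : ∀ a, Bd k r (ζ a) y) (hy : 2 * lam * y ≤ z)
    {f : WT} {c : ℝ} (hf : Bd k (fun t => r t + z) f c) :
    (Summable fun p : Gx × Gx => ‖f.co p.2 * (texp (ikz κ ζ p.2)).co (p.1 - p.2)‖) ∧
      (comp κ ζ f).co = compc κ ζ f ∧ Bd k r (comp κ ζ f) c := by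
  obtain ⟨hs, g, hg, hgb⟩ := cA_super H.r00 H.hr hf (cA_G (fun t => H.r00.le.trans (H.hr t)) H.kb hζ hy)
  have hgc : g.co = compc κ ζ f := by
    rw [hg]
    rfl
  have hR : Rapid (compc κ ζ f) := by
    rw [← hgc]
    exact g.rapid
  have hco : (comp κ ζ f).co = compc κ ζ f := by
    unfold comp
    rw [dif_pos hR]
  have hgg : g = comp κ ζ f := WT.ext (hgc.trans hco.symm)
  exact ⟨hs, hco, hgg ▸ hgb⟩

theorem comp_co {κ : Kp} {lam r0 z : ℝ} {r : ℝ → ℝ} {ζ : Fin 2 → WT} (H : CH κ lam r0 z r ζ)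
    {f : WT} {c : ℝ} (hf : Bd 0 (fun t => r t + z) f c) :
    (comp κ ζ f).co = compc κ ζ f := by
  obtain ⟨y, hζ, hy⟩ := H.hζ
  exact (cA_main H hζ hy hf).2.1

theorem cA_sum {κ : Kp} {lam r0 z : ℝ} {r : ℝ → ℝ} {ζ : Fin 2 → WT} (H : CH κ lam r0 z r ζ)
    {f : WT} {c : ℝ} (hf : Bd 0 (fun t => r t + z) f c) :
    Summable fun p : Gx × Gx => ‖f.co p.2 * (texp (ikz κ ζ p.2)).co (p.1 - p.2)‖ := by
  obtain ⟨y, hζ, hy⟩ := H.hζ
  exact (cA_main H hζ hy hf).1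

/-- `comp` as a convergent sum, pointwise. -/
theorem comp_hasSum {κ : Kp} {lam r0 z : ℝ} {r : ℝ → ℝ} {ζ : Fin 2 → WT} (H : CH κ lam r0 z r ζ)
    {f : WT} {c : ℝ} (hf : Bd 0 (fun t => r t + z) f c) (μ : Gx) :
    HasSum (fun ν => f.co ν * (texp (ikz κ ζ ν)).co (μ - ν)) ((comp κ ζ f).co μ) := by
  rw [comp_co H hf]
  have h : Summable fun ν => f.co ν * (texp (ikz κ ζ ν)).co (μ - ν) :=
    ((cA_sum H hf).prod_factor μ).of_norm
  exact h.hasSum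

theorem comp_bd {κ : Kp} {lam r0 z : ℝ} {r : ℝ → ℝ} {ζ : Fin 2 → WT} (H : CH κ lam r0 z r ζ)
    {k : ℕ} {y : ℝ} (hζ : ∀ a, Bd k r (ζ a) y) (hy : 2 * lam * y ≤ z)
    {f : WT} {c : ℝ} (hf : Bd k (fun t => r t + z) f c) : Bd k r (comp κ ζ f) c :=
  (cA_main H hζ hy hf).2.2

theorem comp_add {κ : Kp} {lam r0 z : ℝ} {r : ℝ → ℝ} {ζ : Fin 2 → WT} (H : CH κ lam r0 z r ζ)
    {f g : WT} {c d : ℝ} (hf : Bd 0 (fun t => r t + z) f c) (hg : Bd 0 (fun t => r t + z) g d) :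
    comp κ ζ (f + g) = comp κ ζ f + comp κ ζ g := by
  apply WT.ext
  funext μ
  have h1 := comp_hasSum H (hf.add hg) μ
  have h2 := (comp_hasSum H hf μ).add (comp_hasSum H hg μ)
  have e : (fun ν => (f + g).co ν * (texp (ikz κ ζ ν)).co (μ - ν)) =
      fun ν => f.co ν * (texp (ikz κ ζ ν)).co (μ - ν) + g.co ν * (texp (ikz κ ζ ν)).co (μ - ν) := by
    funext ν
    rw [WT.co_add, Pi.add_apply, add_mul]
  rw [e] at h1
  exact h1.unique h2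

theorem cA_zero {κ : Kp} {lam r0 z : ℝ} {r : ℝ → ℝ} {ζ : Fin 2 → WT}
    (H : CH κ lam r0 z r ζ) : comp κ ζ 0 = 0 := by
  apply WT.ext
  funext μ
  have h1 := comp_hasSum H (Bd.zero 0 (fun t => r t + z) le_rfl) μ
  have e : (fun ν => (0 : WT).co ν * (texp (ikz κ ζ ν)).co (μ - ν)) = fun _ => 0 := by
    funext ν
    rw [WT.co_zero, Pi.zero_apply, zero_mul]
  rw [e] at h1
  exact h1.unique hasSum_zero

private theorem cA_cst {κ : Kp} {lam r0 z : ℝ} {r : ℝ → ℝ} {ζ : Fin 2 → WT} (H : CH κ lam r0 z r ζ)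
    (φ : Ct) : comp κ ζ (cst φ) = cst φ := by
  apply WT.ext
  funext μ
  have h1 := comp_hasSum H (Bd.cst 0 (fun t => r t + z) (c := ‖φ‖)
    (fun t => φ.norm_coe_le_norm t)) μ
  have h2 : HasSum (fun ν => (cst φ).co ν * (texp (ikz κ ζ ν)).co (μ - ν))
      ((cst φ).co 0 * (texp (ikz κ ζ 0)).co (μ - 0)) := by
    apply hasSum_single
    intro ν hν
    have : (cst φ).co ν = 0 := by
      change (Pi.single 0 φ : Gx → Ct) ν = 0
      rw [Pi.single_eq_of_ne hν]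
    rw [this, zero_mul]
  rw [h1.unique h2, cA_ikz_zero, texp_zero, sub_zero, WT.co_one]
  change (Pi.single 0 φ : Gx → Ct) 0 * (Pi.single 0 1 : Gx → Ct) μ = (Pi.single 0 φ : Gx → Ct) μ
  rw [Pi.single_eq_same]
  by_cases hμ : μ = 0
  · subst hμ
    rw [Pi.single_eq_same, Pi.single_eq_same, mul_one]
  · rw [Pi.single_eq_of_ne hμ, Pi.single_eq_of_ne hμ, mul_zero]

theorem comp_one {κ : Kp} {lam r0 z : ℝ} {r : ℝ → ℝ} {ζ : Fin 2 → WT} (H : CH κ lam r0 z r ζ) :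
    comp κ ζ 1 = 1 := by
  rw [← cA_cst_one]
  exact cA_cst H 1

theorem comp_zero {κ : Kp} {lam r0 z : ℝ} {r : ℝ → ℝ} {ζ : Fin 2 → WT} (H : CH κ lam r0 z r ζ) :
    comp κ ζ 0 = 0 := cA_zero H

/-! product -/

end ES
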