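import Pool.Agent.H16.TSS.ES.LExp_3
import Pool.Agent.H16.TSS.ES.LTime
import Pool.Agent.H16.TSS.M01

/-!
ES-LExp: the exponential in `WT`.
`texpc f ν = ∑' n, (f^n).co ν / n!`.  With `N_k(f) = ∑ (1+|ν|)^k ‖f_ν‖` one has
`N_k(f^n) ≤ N_k(f)^n`, so the family is rapidly decreasing for every `f`.
Useful device: for a bound `Bd k r f c` the partial sums of the exponential satisfy `Bd k r _ (exp c)`
and the series of differences is dominated by `c^n/n!`.
Additivity: Cauchy product (`tsum_mul_tsum_eq_tsum_sum_antidiagonal_of_summable_norm` in the complete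
ring `Ct`, after exchanging sums), or uniqueness.  Derivations: `∂ (f^n) = n f^(n-1) ∂ f`.
-/

open scoped BoundedContinuousFunction

namespace ES

/-! ### norms and absolutely convergent series -/

theorem D_texp (κ : Kp) (a : Fin 2) (f : WT) : D κ a (texp f) = D κ a f * texp f :=
  mlt_texp (kap_pg κ a) (fun f g => D_mul κ a f g) (D_one κ a) f

private theorem TD_et {a b : ℝ} {f f' : WT} (hf : TD a b f f') (n : ℕ) :
    TD a b (et f n) (etd f f' n) := by
  cases n with
  | zero =>
    unfold et etd
    rw [pow_zero]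
    have h := TD.smul ((Nat.factorial 0 : ℂ)⁻¹) (TD.one a b)
    rwa [smul_zero] at h
  | succ n =>
    have h1 : ∀ m : ℕ, TD a b (f ^ (m + 1)) (((m + 1 : ℕ) : ℂ) • (f' * f ^ m)) := by
      intro m
      induction m with
      | zero => simpa using hf
      | succ m ih =>
        have h2 := TD.mul ih hf
        rw [pow_succ f (m + 1)]
        have e : ((m + 1 : ℕ) : ℂ) • (f' * f ^ m) * f + f ^ (m + 1) * f'
            = ((m + 1 + 1 : ℕ) : ℂ) • (f' * f ^ (m + 1)) := by
          rw [smul_mul_assoc]
          have e1 : f' * f ^ m * f = f' * f ^ (m + 1) := by rw [pow_succ]; ring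
          have e2 : f ^ (m + 1) * f' = f' * f ^ (m + 1) := mul_comm _ _
          rw [e1, e2]
          push_cast
          rw [add_smul ((m : ℂ) + 1) 1, one_smul]
        rwa [e] at h2
    have h3 := TD.smul (((n + 1).factorial : ℂ)⁻¹) (h1 n)
    have e : (((n + 1).factorial : ℂ)⁻¹) • (((n + 1 : ℕ) : ℂ) • (f' * f ^ n))
        = etd f f' (n + 1) := by
      show _ = f' * et f n
      unfold et
      rw [smul_smul, mul_smul_comm]
      congr 1
      have n1 : ((n + 1 : ℕ) : ℂ) ≠ 0 := by exact_mod_cast Nat.succ_ne_zero n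
      rw [Nat.factorial_succ]
      push_cast at n1 ⊢
      have n2 : (n.factorial : ℂ) ≠ 0 := by exact_mod_cast n.factorial_ne_zero
      field_simp
    rw [e] at h3
    exact h3

theorem TD.texp {a b : ℝ} {f f' : WT} (hf : TD a b f f') :
    TD a b (ES.texp f) (f' * ES.texp f) := by
  intro ν t ht
  have h1 : (fun s => (ES.texp f).co ν s) = fun s => ∑' n, (et f n).co ν s := by
    funext s
    exact (HS_apply (texp_HS f) ν s).tsum_eq.symm
  have hsum : Summable fun n => Nk 0 (etd f f' n) := by
    rw [← summable_nat_add_iff 1]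
    refine Summable.of_nonneg_of_le (fun n => Nk_nonneg _ _) (fun n => ?_)
      ((summable_Nk_et 0 f).mul_left (Nk 0 f'))
    exact Nk_mul_le 0 _ _
  have h2 : (f' * ES.texp f).co ν t = ∑' n, (etd f f' n).co ν t := by
    have h3 : HasSum (fun n => (etd f f' (n + 1)).co ν t) ((f' * ES.texp f).co ν t) :=
      HS_apply (HS_mul_left (texp_HS f) (summable_Nk_et 0 f) f') ν t
    rw [hasSum_nat_add_iff (f := fun n => (etd f f' n).co ν t) 1] at h3
    have h0 : (etd f f' 0).co ν t = 0 := rfl
    rw [Finset.sum_range_one, h0, add_zero] at h3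
    exact h3.tsum_eq.symm
  rw [h1, h2]
  refine hasDerivAt_tsum_of_isPreconnected (u := fun n => Nk 0 (etd f f' n)) hsum isOpen_Ioo
    isPreconnected_Ioo (fun n y hy => TD_et hf n ν y hy) (fun n y hy => ?_) ht
    (HS_apply (texp_HS f) ν t).summable ht
  exact ((etd f f' n).co ν).norm_coe_le_norm y |>.trans (norm_co_le _ _)

theorem Lev.texp {i : ℕ} {f : WT} (hf : Lev i f) : Lev i (ES.texp f) := by
  intro ν hν
  have h1 : ∀ n : ℕ, Lev i (f ^ n) := by
    intro n
    induction n with
    | zero => rw [pow_zero]; exact Lev.one i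
    | succ n ih => rw [pow_succ]; exact Lev.mul ih hf
  refine (texp_hasSum f ν).unique ?_
  have : (fun n : ℕ => ((n.factorial : ℂ)⁻¹) • (f ^ n).co ν) = fun _ => 0 := by
    funext n
    rw [h1 n ν hν, smul_zero]
  rw [this]
  exact hasSum_zero

end ES
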