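import Pool.Agent.H16.TSS.ES.LExp_3

/-!
ES-LExp: the exponential in `WT`.
`texpc f ν = ∑' n, (f^n).co ν / n!`.  With `N_k(f) = ∑ (1+|ν|)^k ‖f_ν‖` one has
`N_k(f^n) ≤ N_k(f)^n`, so the family is rapidly decreasing for every `f`.
Useful device: for a bound `Bd k r f c` the partial sums of the exponential satisfy `Bd k r _ (exp c)`
and the series of differences is dominated by `c^n/n!`.
Additivity: Cauchy product (`tsum_mul_tsum_eq_tsum_sum_antidiagonal_of_summable_norm` in the complete
ring `Ct`, after exchanging sums), or uniqueness.  Derivations: `∂ (f^n) = n f^(n-1) ∂ f`.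
-/

open scoped BoundedContinuousFunction

namespace ES

/-! ### norms and absolutely convergent series -/

theorem texp_co (f : WT) (ν : Gx) (t : ℝ) :
    (texp f).co ν t = ∑' n : ℕ, ((n.factorial : ℂ)⁻¹) * (f ^ n).co ν t :=
  (HS_apply (texp_HS f) ν t).tsum_eq.symm

theorem texp_add (f g : WT) : texp (f + g) = texp f * texp g := by
  apply WT.ext
  funext ν
  -- double series
  have h1 : HS (fun m => texp g * et f m) (texp g * texp f) :=
    HS_mul_left (texp_HS f) (summable_Nk_et 0 f) _
  have h2 : ∀ m, HS (fun n => et f m * et g n) (et f m * texp g) := fun m =>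
    HS_mul_left (texp_HS g) (summable_Nk_et 0 g) _
  have hS : Summable fun p : ℕ × ℕ => (et f p.1 * et g p.2).co ν := by
    have h3 : Summable fun p : ℕ × ℕ => Nk 0 (et f p.1) * Nk 0 (et g p.2) :=
      (summable_Nk_et 0 f).mul_of_nonneg (summable_Nk_et 0 g) (fun _ => Nk_nonneg _ _)
        (fun _ => Nk_nonneg _ _)
    refine Summable.of_norm_bounded h3 fun p => ?_
    exact (norm_co_le _ _).trans (Nk_mul_le 0 _ _)
  have e1 : (texp f * texp g).co ν = ∑' p : ℕ × ℕ, (et f p.1 * et g p.2).co ν := by
    rw [hS.tsum_prod, mul_comm (texp f), ← (h1 ν).tsum_eq]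
    refine tsum_congr fun m => ?_
    show (texp g * et f m).co ν = ∑' n, (et f m * et g n).co ν
    rw [mul_comm (texp g)]
    exact ((h2 m) ν).tsum_eq.symm
  have e2 := tsum_antidiag (fun p : ℕ × ℕ => (et f p.1 * et g p.2).co ν) hS
  have e3 : ∀ N : ℕ, ∑ p ∈ Finset.HasAntidiagonal.antidiagonal N, (et f p.1 * et g p.2).co ν
      = (et (f + g) N).co ν := by
    intro N
    have hco : ∑ p ∈ Finset.HasAntidiagonal.antidiagonal N, (et f p.1 * et g p.2).co ν
        = (∑ p ∈ Finset.HasAntidiagonal.antidiagonal N, et f p.1 * et g p.2).co ν := by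
      classical
      have : ∀ s : Finset (ℕ × ℕ), ∑ p ∈ s, (et f p.1 * et g p.2).co ν
          = (∑ p ∈ s, et f p.1 * et g p.2).co ν := by
        intro s
        induction s using Finset.induction_on with
        | empty => simp
        | insert p s hp ih => rw [Finset.sum_insert hp, Finset.sum_insert hp, WT.co_add, ih]; rfl
      exact this _
    rw [hco]
    congr 2
    unfold et
    rw [(Commute.all f g).add_pow', Finset.smul_sum]
    refine Finset.sum_congr rfl fun p hp => ?_
    have hp' : p.1 + p.2 = N := Finset.HasAntidiagonal.mem_antidiagonal.mp hp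
    rw [smul_mul_smul_comm, ← Nat.cast_smul_eq_nsmul ℂ, smul_smul]
    congr 1
    have h5 : (N.choose p.1 : ℂ) * (p.1.factorial * p.2.factorial) = N.factorial := by
      have h6 := Nat.choose_mul_factorial_mul_factorial (n := N) (k := p.1) (by omega)
      have h7 : N - p.1 = p.2 := by omega
      rw [h7] at h6
      rw [← mul_assoc]
      exact_mod_cast h6
    have n1 : (p.1.factorial : ℂ) ≠ 0 := by exact_mod_cast p.1.factorial_ne_zero
    have n2 : (p.2.factorial : ℂ) ≠ 0 := by exact_mod_cast p.2.factorial_ne_zero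
    have n3 : (N.factorial : ℂ) ≠ 0 := by exact_mod_cast N.factorial_ne_zero
    rw [← h5] at n3 ⊢
    have n4 : (N.choose p.1 : ℂ) ≠ 0 := left_ne_zero_of_mul n3
    field_simp
  rw [e1, e2]
  exact ((texp_HS (f + g) ν).tsum_eq.symm.trans (tsum_congr fun N => (e3 N).symm))

end ES
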