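import Pool.Agent.H16.TSS.ES.SDer
import Pool.Agent.H16.TSS.ES.SPost
import Pool.Agent.H16.TSS.M12

/-!
ES-SPost: a posteriori bounds (EW 2, Lemma 2.4), from `SB0` (in particular `BH`).
`⟨a⟩ = ∑ Ps ⟨g⟩`, `⟨g⟩ = ⟨f⟩ - (F'-I)⟨a⟩ - (M'ᵀ-I)⟨q⟩`, hence with `e = N1(E)`:
`N0(⟨a⟩), N0(⟨q⟩) ≤ 3 (8 g e + 12 K lam e² + 10^5 K² lam w²)` (absorption, `Bd.absorbV`),
`e ≤ η + h K N0(⟨a⟩)`, `e ≤ 2w`, absorption again.
-/

open scoped BoundedContinuousFunction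

namespace ES

/-- The coefficient functions have no oscillating part. -/
theorem SB0.lev {P : SB} {lam g σ ρ c A ρ0 m w η : ℝ} (H : SBH P lam g σ ρ c A ρ0 m w η)
    {ζ E W a q : Vec} (S : SB0 P lam g ρ0 m w ζ E W a q) :
    (∀ a b, Lev P.d.i (FF P.d ζ a b)) ∧ (∀ a b, Lev P.d.i (MM P.d ζ a b)) ∧
      (∀ a b, Lev P.d.i (LL P.d ζ a b)) ∧ (∀ a b, Lev P.d.i (RR P.d ζ a b)) ∧
      (∀ a, Lev P.d.i (vz P.d ζ a)) := by
  have HD := H.dh
  have HC := HD.ch (SB0.bh H S).z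
  have hm := H.hm
  have hP : ∀ a b, Lev P.d.i (Pm P.d ζ a b) := SPost_Fm S.lζ
  have hF : ∀ a b, Lev P.d.i (FF P.d ζ a b) := by
    intro a b
    unfold FF
    refine Lev.sum _ fun c _ => Lev.mul ?_ (hP c b)
    exact Lev.comp HC S.lζ (SPost_bFm HD a c) (SPost_Fm H.good.levξ a c)
  refine ⟨hF, fun a b => ?_, fun a b => ?_, fun a b => ?_, fun a => ?_⟩
  · unfold MM adj
    split_ifs
    · exact hF 1 1
    · exact (hF 0 1).neg
    · exact (hF 1 0).neg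
    · exact hF 0 0
  · unfold LL
    refine Lev.sum _ fun c _ => Lev.mul ?_ (hP c b)
    refine Lev.comp HC S.lζ ((HD.bG a c).weaken le_rfl fun t => by linarith) ?_
    exact Lev.D _ _ (H.good.levv a)
  · unfold RR
    exact Lev.comp HC S.lζ ((HD.bR a b).weaken le_rfl fun t => by linarith) (H.good.levR a b)
  · unfold vz
    obtain ⟨e, he⟩ := H.good.fv a
    refine Lev.comp HC S.lζ (c := e) (Bd.of_cr he fun t => ?_) (H.good.levv a)
    have := SPost_r_le H t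
    linarith [H.hρ1]

end ES
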