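import Pool.Agent.H16.TSS.ES.SF_2
import Pool.Agent.H16.TSS.ES.SPost_2
import Pool.Agent.H16.TSS.M27

/-!
ES-SPost: a posteriori bounds (EW 2, Lemma 2.4), from `SB0` (in particular `BH`).
`⟨a⟩ = ∑ Ps ⟨g⟩`, `⟨g⟩ = ⟨f⟩ - (F'-I)⟨a⟩ - (M'ᵀ-I)⟨q⟩`, hence with `e = N1(E)`:
`N0(⟨a⟩), N0(⟨q⟩) ≤ 3 (8 g e + 12 K lam e² + 10^5 K² lam w²)` (absorption, `Bd.absorbV`),
`e ≤ η + h K N0(⟨a⟩)`, `e ≤ 2w`, absorption again.
-/

open scoped BoundedContinuousFunction

namespace ES

private theorem SPost_mean_mulv {i : ℕ} {F : Mat} (hF : ∀ a b, osc i (F a b) = 0) (x : Vec)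
    (a : Fin 2) : mean i (mulv F x a) = mulv F (fun j => mean i (x j)) a := by
  unfold mulv
  rw [map_sum]
  exact Finset.sum_congr rfl fun b _ => mean_mul_left i (hF a b) _

private theorem SPost_mean_mulvT {i : ℕ} {F : Mat} (hF : ∀ a b, osc i (F a b) = 0) (x : Vec)
    (a : Fin 2) : mean i (mulvT F x a) = mulvT F (fun j => mean i (x j)) a := by
  unfold mulvT
  rw [map_sum]
  exact Finset.sum_congr rfl fun b _ => mean_mul_left i (hF b a) _

/-- minimum of two bounds -/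
private theorem SPost_min {k : ℕ} {r : ℝ → ℝ} {f : Vec} {x y : ℝ} (hx : ∀ j, Bd k r (f j) x)
    (hy : ∀ j, Bd k r (f j) y) (j : Fin 2) : Bd k r (f j) (min x y) := by
  rcases le_total x y with h | h
  · rw [min_eq_left h]; exact hx j
  · rw [min_eq_right h]; exact hy j

/-- bound of the means of `a`, `q` -/
private theorem SPost_mean (P : SB) {lam g σ ρ c A ρ0 m w η : ℝ}
    (H : SBH P lam g σ ρ c A ρ0 m w η)
    (hh : 10 ^ 8 * (1 + 1 / m) ^ 5 * (P.tb - P.ta) * g ≤ 1)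
    {ζ E W a q : Vec} (S : SB0 P lam g ρ0 m w ζ E W a q) (x : Fin 2 ⊕ Fin 2) :
    Bd 0 (P.r ρ0 m) (Sum.elim (fun j => mean P.d.i (a j)) (fun j => mean P.d.i (q j)) x)
      (2 * (16 * g * η + 2 * (10 ^ 5 + 48) * (1 + 1 / m) ^ 2 * lam * w ^ 2)) := by
  obtain ⟨lF, lM, lL, lR, -⟩ := SB0.lev H S
  have HB := SB0.bh H S
  have HD := H.dh
  have hm := H.hm
  have hw := H.hw
  have hg : 0 ≤ g := HD.hg
  have hη := H.hη0
  have hlam : 0 < lam := by linarith [H.hlam]
  obtain ⟨K, hK⟩ : ∃ K, K = 1 + 1 / m := ⟨_, rfl⟩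
  have hK2 : 2 ≤ K := by rw [hK]; exact HD.K2
  obtain ⟨h, hhd⟩ : ∃ h, h = P.tb - P.ta := ⟨_, rfl⟩
  have hh0 : 0 < h := by rw [hhd]; linarith [H.good.ht]
  rw [← hK] at hh ⊢
  rw [← hhd] at hh
  have oF : ∀ a b, osc P.d.i (FF P.d ζ a b) = 0 := fun a b => (lF a b).osc le_rfl
  have oM : ∀ a b, osc P.d.i (MM P.d ζ a b) = 0 := fun a b => (lM a b).osc le_rfl
  have oL : ∀ a b, osc P.d.i (LL P.d ζ a b) = 0 := fun a b => (lL a b).osc le_rfl
  have oR : ∀ a b, osc P.d.i (RR P.d ζ a b) = 0 := fun a b => (lR a b).osc le_rfl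
  refine Bd.absorbV (c0 := 10 ^ 6 * K ^ 2 * g * w)
    (f := Sum.elim (fun j => mean P.d.i (a j)) (fun j => mean P.d.i (q j))) ?_ ?_ x
  · rintro (j | j)
    · rw [hK]; exact Bd.mean _ (S.na j)
    · rw [hK]; exact Bd.mean _ (S.nq j)
  · intro y hy hyb
    have ha : ∀ j, Bd 0 (P.r ρ0 m) (mean P.d.i (a j)) y := fun j => hyb (Sum.inl j)
    have hq : ∀ j, Bd 0 (P.r ρ0 m) (mean P.d.i (q j)) y := fun j => hyb (Sum.inr j)
    have hE : ∀ j, Bd 1 (P.r ρ0 m) (E j) (η + h * K * y) := by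
      intro j
      have h1 : Bd (0 + 1) (rad ρ0 m P.ta P.tb) (intg P.ta P.tb (mean P.d.i (a j)))
          ((P.tb - P.ta) * (1 + 1 / m) * y) :=
        Bd.intg_gain le_rfl H.good.ht.le le_rfl H.good.ht hm (ha j)
      rw [zero_add, ← hhd, ← hK] at h1
      rw [S.sol.hE j]
      exact (Bd.of_cr (H.eb' j) (SPost_r_le H)).add h1
    have hE2 := SPost_min hE HB.e
    obtain ⟨e, he⟩ : ∃ e, e = min (η + h * K * y) (2 * w) := ⟨_, rfl⟩
    rw [← he] at hE2
    have he0 : 0 ≤ e := (hE2 0).nonneg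
    have he1 : e ≤ η + h * K * y := by rw [he]; exact min_le_left _ _
    have he2 : e ≤ 2 * w := by rw [he]; exact min_le_right _ _
    have hf : ∀ j, Bd 0 (P.r ρ0 m) (mean P.d.i (P.f ζ E W j))
        (8 * g * e + 12 * K * lam * e ^ 2 + 10 ^ 5 * K ^ 2 * lam * w ^ 2) := by
      intro j
      rw [hK]
      exact f_mean_bd HD hw.le H.hlw H.hσ HB ⟨fun j => (S.lζ j).osc le_rfl,
        fun j => (S.lE j).osc le_rfl, S.mW, oF, oL, oR⟩ hE2 j
    have hgm : ∀ j, Bd 0 (P.r ρ0 m) (mean P.d.i (P.g ζ E W a q j))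
        (8 * g * e + 12 * K * lam * e ^ 2 + 10 ^ 5 * K ^ 2 * lam * w ^ 2 + 6 / 250 * y
          + 6 / 250 * y) := by
      intro j
      unfold SB.g
      rw [map_sub, map_sub, map_sub, map_sub, SPost_mean_mulv oF, SPost_mean_mulvT oM]
      exact ((hf j).sub (HD.mulv_FI HB.z ha j)).sub (HD.mulvT_MI HB.z hq j)
    have hfin : 2 * (8 * g * e + 12 * K * lam * e ^ 2 + 10 ^ 5 * K ^ 2 * lam * w ^ 2
          + 6 / 250 * y + 6 / 250 * y) ≤
        16 * g * η + 2 * (10 ^ 5 + 48) * K ^ 2 * lam * w ^ 2 + y / 2 := by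
      have e1 : g * e ≤ g * η + g * (h * K * y) := by
        have := mul_le_mul_of_nonneg_left he1 hg
        linarith
      have e2 : g * (h * K) ≤ 1 / 10 ^ 8 := by
        have e3 : K ≤ K ^ 5 := by
          calc K = K ^ 1 := (pow_one K).symm
            _ ≤ K ^ 5 := pow_le_pow_right₀ (by linarith) (by norm_num)
        have e4 : h * g * K ≤ h * g * K ^ 5 := mul_le_mul_of_nonneg_left e3 (by positivity)
        linarith
      have e3 : g * (h * K * y) ≤ 1 / 10 ^ 8 * y := by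
        have := mul_le_mul_of_nonneg_right e2 hy
        linarith
      have e4 : e ^ 2 ≤ 4 * w ^ 2 := by nlinarith
      have e5 : K * lam * e ^ 2 ≤ K * lam * (4 * w ^ 2) :=
        mul_le_mul_of_nonneg_left e4 (by positivity)
      have e6 : 2 * (K * lam * w ^ 2) ≤ K ^ 2 * lam * w ^ 2 := by
        have e7 : 0 ≤ lam * w ^ 2 := by positivity
        have e8 : 2 * K ≤ K ^ 2 := by nlinarith
        have := mul_le_mul_of_nonneg_right e8 e7
        linarith
      have e9 : 0 ≤ K ^ 2 * lam * w ^ 2 := by positivity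
      linarith
    rintro (j | j)
    · change Bd 0 (P.r ρ0 m) (mean P.d.i (a j)) _
      have h1 : mean P.d.i (a j) = ∑ b, Ps P.κ' j b (mean P.d.i (P.g ζ E W a q b)) := by
        conv_lhs => rw [S.sol.ha j]
        rw [map_sum]
        exact Finset.sum_congr rfl fun b _ => mean_Ps _ _ _ _ _
      rw [h1]
      refine (Bd.sum Finset.univ fun b _ => Bd.Ps P.κ' j b (hgm b)).mono ?_
      rw [Finset.sum_const, Finset.card_univ, Fintype.card_fin, nsmul_eq_mul]
      push_cast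
      exact hfin
    · change Bd 0 (P.r ρ0 m) (mean P.d.i (q j)) _
      have h1 : mean P.d.i (q j) = ∑ b, Pg P.κ' j b (mean P.d.i (P.g ζ E W a q b)) := by
        conv_lhs => rw [S.sol.hq j]
        rw [map_sum]
        exact Finset.sum_congr rfl fun b _ => mean_Pg _ _ _ _ _
      rw [h1]
      refine (Bd.sum Finset.univ fun b _ => Bd.Pg P.κ' j b (hgm b)).mono ?_
      rw [Finset.sum_const, Finset.card_univ, Fintype.card_fin, nsmul_eq_mul]
      push_cast
      exact hfin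

theorem sb_post (P : SB) {lam g σ ρ c A ρ0 m w η : ℝ} (H : SBH P lam g σ ρ c A ρ0 m w η)
    (hh : 10 ^ 8 * (1 + 1 / m) ^ 5 * (P.tb - P.ta) * g ≤ 1)
    {ζ E W a q : Vec} (S : SB0 P lam g ρ0 m w ζ E W a q) :
    SBR P (10 ^ 7) lam g ρ0 m w η ζ E W a q := by
  have HB := SB0.bh H S
  have HD := H.dh
  have hm := H.hm
  have hw := H.hw
  have hg : 0 ≤ g := HD.hg
  have hη := H.hη0
  have hlam : 0 < lam := by linarith [H.hlam]
  have hlw := H.hlw
  have hmean := SPost_mean P H hh S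
  obtain ⟨K, hK⟩ : ∃ K, K = 1 + 1 / m := ⟨_, rfl⟩
  have hK2 : 2 ≤ K := by rw [hK]; exact HD.K2
  obtain ⟨h, hhd⟩ : ∃ h, h = P.tb - P.ta := ⟨_, rfl⟩
  have hh0 : 0 < h := by rw [hhd]; linarith [H.good.ht]
  have hht := H.good.ht
  rw [← hK] at hh hmean
  rw [← hhd] at hh
  have p12 : K ≤ K ^ 2 := by nlinarith
  have p23 : K ^ 2 ≤ K ^ 3 := pow_le_pow_right₀ (by linarith) (by norm_num)
  have p24 : K ^ 2 ≤ K ^ 4 := pow_le_pow_right₀ (by linarith) (by norm_num)
  have p34 : K ^ 3 ≤ K ^ 4 := pow_le_pow_right₀ (by linarith) (by norm_num)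
  have p15 : K ≤ K ^ 5 := by
    calc K = K ^ 1 := (pow_one K).symm
      _ ≤ K ^ 5 := pow_le_pow_right₀ (by linarith) (by norm_num)
  have hK0 : 0 < K := by linarith
  have hgw : 0 ≤ g * w := by positivity
  have hlw2 : 0 ≤ lam * w ^ 2 := by positivity
  have hKhg : g * (h * K) ≤ 1 / 10 ^ 8 := by
    have e4 : h * g * K ≤ h * g * K ^ 5 := mul_le_mul_of_nonneg_left p15 (by positivity)
    linarith
  have ha : ∀ j, Bd 0 (P.r ρ0 m) (mean P.d.i (a j))
      (2 * (16 * g * η + 2 * (10 ^ 5 + 48) * K ^ 2 * lam * w ^ 2)) := fun j => hmean (Sum.inl j)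
  have hq : ∀ j, Bd 0 (P.r ρ0 m) (mean P.d.i (q j))
      (2 * (16 * g * η + 2 * (10 ^ 5 + 48) * K ^ 2 * lam * w ^ 2)) := fun j => hmean (Sum.inr j)
  have q24 : K ^ 2 * (lam * w ^ 2) ≤ K ^ 4 * (lam * w ^ 2) :=
    mul_le_mul_of_nonneg_right p24 hlw2
  have hgη : 0 ≤ g * η := mul_nonneg hg hη
  have hchiW : ∀ j, W j - cst P.χ * P.W0 j = cst P.χ * intg P.s1 P.s2 (osc P.d.i (a j)) := by
    intro j
    rw [S.sol.hW j]
    ring
  exact
    { sol := S.sol
      lζ := S.lζ
      lE := S.lE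
      lW := S.lW
      la := S.la
      lq := S.lq
      mW := S.mW
      rζ := S.rζ
      rE := S.rE
      rW := S.rW
      ra := S.ra
      rq := S.rq
      cζ := S.cζ
      cE := S.cE
      cW := S.cW
      ca := S.ca
      cq := S.cq
      b0 := S.b0
      nζ := fun j => by
        have e1 : ζ j - P.ζa j = intg P.ta P.tb (comp P.d.κ ζ (P.d.B j) + mulv (Pm P.d ζ) E j) := by
          have := S.sol.hζ j
          rw [sub_eq_iff_eq_add, add_comm]
          exact this
        rw [e1]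
        have h1 := (HD.bd_B1 HB.z j).add (HD.mulv_P HB.z HB.e j)
        have h2 : Bd (1 + 1) (rad ρ0 m P.ta P.tb)
            (intg P.ta P.tb (comp P.d.κ ζ (P.d.B j) + mulv (Pm P.d ζ) E j)) _ :=
          Bd.intg_gain le_rfl hht.le le_rfl hht hm h1
        refine h2.mono ?_
        rw [← hK, ← hhd]
        have e2 : w ≤ g / lam := by
          rw [le_div_iff₀ hlam]
          linarith
        have e3 : 0 ≤ g / lam := by positivity
        have e4 : K * (g / lam) + 101 / 100 * (2 * w) ≤ 3 * K * (g / lam) := by nlinarith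
        have e5 := mul_le_mul_of_nonneg_left e4 (by positivity : 0 ≤ h * K)
        refine e5.trans ?_
        have e6 : 0 ≤ K ^ 2 * h * (g / lam) := by positivity
        have e7 : (10 : ℝ) ^ 7 * K ^ 2 * h * g / lam = 10 ^ 7 * (K ^ 2 * h * (g / lam)) := by ring
        rw [e7]
        linarith
      nζ' := HB.z
      nE := fun j => by
        have h1 : Bd (0 + 1) (rad ρ0 m P.ta P.tb) (intg P.ta P.tb (mean P.d.i (a j))) _ :=
          Bd.intg_gain le_rfl hht.le le_rfl hht hm (ha j)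
        rw [S.sol.hE j]
        refine ((Bd.of_cr (H.eb' j) (SPost_r_le H)).add h1).mono ?_
        rw [← hK, ← hhd]
        have e1 : g * (h * K) * η ≤ 1 / 10 ^ 8 * η := mul_le_mul_of_nonneg_right hKhg hη
        have e2 : h * (K ^ 3 * (lam * w ^ 2)) ≤ h * (K ^ 4 * (lam * w ^ 2)) :=
          mul_le_mul_of_nonneg_left (mul_le_mul_of_nonneg_right p34 hlw2) hh0.le
        have e3 : 0 ≤ h * (K ^ 4 * (lam * w ^ 2)) := by positivity
        have e4 : h * K * (2 * (16 * g * η + 2 * (10 ^ 5 + 48) * K ^ 2 * lam * w ^ 2)) =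
          32 * (g * (h * K) * η) + 4 * (10 ^ 5 + 48) * (h * (K ^ 3 * (lam * w ^ 2))) := by ring
        have e5 : 10 ^ 7 * K ^ 4 * h * lam * w ^ 2 = 10 ^ 7 * (h * (K ^ 4 * (lam * w ^ 2))) := by
          ring
        rw [e4, e5]
        linarith
      nE' := HB.e
      nW1 := fun j => (HB.w1 j).mono (by
        rw [← hK]
        have : 0 ≤ K * w := by positivity
        linarith)
      nW0 := fun j => (HB.w0 j).mono (by linarith)
      nWW := fun j => by
        rw [hchiW j]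
        have h1 : Bd (0 + 1) (rad ρ0 m P.ta P.tb) (intg P.s1 P.s2 (osc P.d.i (a j))) _ :=
          Bd.intg_gain H.h1.le H.h2.le H.h3.le hht hm (Bd.osc P.d.i (S.na j))
        refine (Bd.cst_mul (SPost_chi P) h1).mono ?_
        rw [← hK, ← hhd]
        have e1 : h * (K ^ 3 * (g * w)) ≤ h * (K ^ 4 * (g * w)) :=
          mul_le_mul_of_nonneg_left (mul_le_mul_of_nonneg_right p34 hgw) hh0.le
        have e2 : 0 ≤ h * (K ^ 4 * (g * w)) := by positivity
        have e3 : 1 * (h * K * (10 ^ 6 * K ^ 2 * g * w)) = 10 ^ 6 * (h * (K ^ 3 * (g * w))) := by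
          ring
        have e4 : 10 ^ 7 * K ^ 4 * h * g * w = 10 ^ 7 * (h * (K ^ 4 * (g * w))) := by ring
        rw [e3, e4]
        linarith
      nWt := fun j => by
        have h1 : Bd 0 (P.r ρ0 m) (dth P.d.i (W j - cst P.χ * P.W0 j)) w :=
          Bd.dth P.d.i (S.nW j)
        have h2 : dth P.d.i (cst P.χ * P.W0 j) = cst P.χ * dth P.d.i (P.W0 j) := by
          rw [dth_mul, dth_cst, zero_mul, zero_add]
        have h3 : Bd 0 (P.r ρ0 m) (dth P.d.i (cst P.χ * P.W0 j)) (1 * (32 * w)) := by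
          rw [h2]
          exact Bd.cst_mul (SPost_chi P) (W0_bdt H j)
        have h4 := h1.add h3
        rw [← map_add, sub_add_cancel] at h4
        exact h4.mono (by linarith)
      na := fun j => (S.na j).mono (by
        rw [← hK]
        have e1 := mul_le_mul_of_nonneg_right p24 hgw
        have e2 : 0 ≤ K ^ 4 * (g * w) := by positivity
        linarith)
      nq := fun j => (S.nq j).mono (by
        rw [← hK]
        have e1 := mul_le_mul_of_nonneg_right p24 hgw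
        have e2 : 0 ≤ K ^ 4 * (g * w) := by positivity
        linarith)
      nam := fun j => (ha j).mono (by
        rw [← hK]
        have e2 : 0 ≤ K ^ 4 * (lam * w ^ 2) := by positivity
        linarith)
      nqm := fun j => (hq j).mono (by
        rw [← hK]
        have e2 : 0 ≤ K ^ 4 * (lam * w ^ 2) := by positivity
        linarith) }

end ES
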