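import Pool.Agent.H16.TSS.ES.XComp
import Pool.Agent.H16.TSS.M32

/-!
ES-XAvg: averaging over a sub-block (EW 4, Lemma 4.3).
-/

open scoped BoundedContinuousFunction

namespace ES

section
variable {P : SB} {lam g σ ρ c A ρ0 m w η : ℝ} {ζ E W a q : Vec}

/-! the averaging operator -/

/-- The wave part of the stress. -/
private theorem XAvg_wave (H : SBH P lam g σ ρ c A ρ0 m w η)
    (S : SB0 P lam g ρ0 m w ζ E W a q) (hρ1 : 0 ≤ ρ0 - m) {F0 : Mat} {e1 d K : ℝ}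
    (hK : K = 1 + 1 / m)
    (hFF : ∀ k l, Bd 0 (cr (ρ0 - m)) (FF P.d ζ k l) 2)
    (hδ : ∀ k l, Bd 0 (cr (ρ0 - m)) (FF P.d ζ k l - F0 k l) e1)
    (hW : ∀ j, Bd 0 (cr (ρ0 - m)) (W j) (33 * w))
    (hW0 : ∀ j, Bd 0 (cr (ρ0 - m)) (P.W0 j) (32 * w))
    (hd : ∀ j, Bd 0 (cr (ρ0 - m)) (W j - cst P.χ * P.W0 j) d) (k l : Fin 2) :
    Bd 0 (cr (ρ0 - m)) (mean P.d.i (mulv (FF P.d ζ) W k * W l) -
      cst P.χ * cst P.χ * (kp P.k0 l • (P.b * P.b * ∑ b, kp P.k0 b • F0 k b)))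
      (2 * (e1 * (4 * w ^ 2) + 2 * ((lam / P.L) ^ 2 * (K * w) ^ 2) + 2 * (65 * w * d))) := by
  have hm := H.hm
  have hw := H.hw
  have he1 : 0 ≤ e1 := (hδ 0 0).nonneg
  have hr : ∀ t, 0 ≤ cr (ρ0 - m) t := fun t => hρ1
  have hoF : ∀ a b, osc P.d.i (FF P.d ζ a b) = 0 := fun a b =>
    Lev.osc le_rfl ((new_lev H S a).2.2.2.2.1 b).1
  have hb0 : Bd 0 (cr (ρ0 - m)) P.b w := H.bb.weaken le_rfl (fun _ => by simp [cr]; linarith)
  have hdp : ∀ a, Bd 0 (cr (ρ0 - m)) (dp P.d.κ a P.b) (lam * (K * w)) := by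
    intro a
    have h1 : Bd 1 (cr ρ0) P.b (K * w) := by
      rw [hK]
      exact Bd.margin hm (fun _ => le_rfl) H.bb
    exact (Bd.dp H.good.kb a h1).weaken le_rfl (fun _ => by simp [cr]; linarith)
  have hχ : ∀ {f : WT} {c : ℝ}, Bd 0 (cr (ρ0 - m)) f c → Bd 0 (cr (ρ0 - m)) (cst P.χ * f) c := by
    intro f c hf
    have h1 := Bd.cst_mul (XAvg_chi P) hf
    rwa [one_mul] at h1
  have hmean : ∀ a, mean P.d.i (W a * W l) =
      cst P.χ * (cst P.χ * ((kp P.k0 a * kp P.k0 l) • (P.b * P.b))) +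
      cst P.χ * (cst P.χ * (((P.L : ℂ)⁻¹ ^ 2) • (dp P.d.κ a P.b * dp P.d.κ l P.b))) +
      mean P.d.i (W a * (W l - cst P.χ * P.W0 l) + (W a - cst P.χ * P.W0 a) *
        (cst P.χ * P.W0 l)) := by
    intro a
    have e : W a * W l = cst P.χ * cst P.χ * (P.W0 a * P.W0 l) +
        (W a * (W l - cst P.χ * P.W0 l) + (W a - cst P.χ * P.W0 a) * (cst P.χ * P.W0 l)) := by
      ring
    have h1 : mean P.d.i (cst P.χ * cst P.χ * (P.W0 a * P.W0 l)) =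
        cst P.χ * cst P.χ * mean P.d.i (P.W0 a * P.W0 l) :=
      mean_mul_left _ (osc_mul_zero _ (osc_cst _ _) (osc_cst _ _)) _
    rw [e, map_add, h1, W0_W0 H a l]
    ring
  have hsum : mean P.d.i (mulv (FF P.d ζ) W k * W l) -
      cst P.χ * cst P.χ * (kp P.k0 l • (P.b * P.b * ∑ b, kp P.k0 b • F0 k b)) =
      ∑ b, ((FF P.d ζ k b - F0 k b) *
          (cst P.χ * (cst P.χ * ((kp P.k0 b * kp P.k0 l) • (P.b * P.b)))) +
        FF P.d ζ k b *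
          (cst P.χ * (cst P.χ * (((P.L : ℂ)⁻¹ ^ 2) • (dp P.d.κ b P.b * dp P.d.κ l P.b)))) +
        FF P.d ζ k b * mean P.d.i (W b * (W l - cst P.χ * P.W0 l) +
          (W b - cst P.χ * P.W0 b) * (cst P.χ * P.W0 l))) := by
    have h1 : mulv (FF P.d ζ) W k * W l = ∑ b, FF P.d ζ k b * (W b * W l) := by
      unfold mulv
      rw [Finset.sum_mul]
      exact Finset.sum_congr rfl fun b _ => by ring
    rw [h1, map_sum]
    have h2 : ∀ b, mean P.d.i (FF P.d ζ k b * (W b * W l)) =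
        FF P.d ζ k b * mean P.d.i (W b * W l) := fun b => mean_mul_left _ (hoF k b) _
    simp only [h2, hmean]
    rw [Fin.sum_univ_two, Fin.sum_univ_two, Fin.sum_univ_two]
    simp only [Algebra.smul_def, map_mul, map_pow]
    ring
  rw [hsum]
  have hterm : ∀ b ∈ (Finset.univ : Finset (Fin 2)), Bd 0 (cr (ρ0 - m)) ((FF P.d ζ k b - F0 k b) *
          (cst P.χ * (cst P.χ * ((kp P.k0 b * kp P.k0 l) • (P.b * P.b)))) +
        FF P.d ζ k b *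
          (cst P.χ * (cst P.χ * (((P.L : ℂ)⁻¹ ^ 2) • (dp P.d.κ b P.b * dp P.d.κ l P.b)))) +
        FF P.d ζ k b * mean P.d.i (W b * (W l - cst P.χ * P.W0 l) +
          (W b - cst P.χ * P.W0 b) * (cst P.χ * P.W0 l)))
      (e1 * (4 * w ^ 2) + 2 * ((lam / P.L) ^ 2 * (K * w) ^ 2) + 2 * (65 * w * d)) := by
    intro b _
    refine Bd.add (Bd.add ?_ ?_) ?_
    · refine Bd.mul hr (hδ k b) (hχ (hχ ?_))
      refine (Bd.smul _ (Bd.mul hr hb0 hb0)).mono ?_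
      rw [norm_mul]
      have h1 := XAvg_kp H b
      have h2 := XAvg_kp H l
      have h3 : ‖kp P.k0 b‖ * ‖kp P.k0 l‖ ≤ 2 * 2 :=
        mul_le_mul h1 h2 (norm_nonneg _) (by norm_num)
      nlinarith [sq_nonneg w]
    · refine Bd.mul hr (hFF k b) (hχ (hχ ?_))
      refine (Bd.smul _ (Bd.mul hr (hdp b) (hdp l))).mono (le_of_eq ?_)
      rw [norm_pow, norm_inv, Complex.norm_natCast, div_pow]
      ring
    · refine Bd.mul hr (hFF k b) (Bd.mean _ ?_)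
      refine (Bd.add (Bd.mul hr (hW b) (hd l)) (Bd.mul hr (hd b) (hχ (hW0 l)))).mono
        (le_of_eq ?_)
      ring
  refine (Bd.sum _ hterm).mono (le_of_eq ?_)
  rw [Fin.sum_univ_two]
  ring

/-- The old stress. -/
private theorem XAvg_stress (H : SBH P lam g σ ρ c A ρ0 m w η) (hρ1 : 0 ≤ ρ0 - m) {M0 : Mat}
    {e1 K y : ℝ} (hK : K = 1 + 1 / m) (hZ : ZH lam m (P.r ρ0 m) ζ)
    (hy : ∀ j, Bd 1 (P.r ρ0 m) (ζ j) y)
    (hMM : ∀ k l, Bd 0 (cr (ρ0 - m)) (MM P.d ζ k l) 2)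
    (hδ : ∀ k l, Bd 0 (cr (ρ0 - m)) (MM P.d ζ k l - M0 k l) e1) (k l : Fin 2) :
    Bd 0 (cr (ρ0 - m)) (mulT (RR P.d ζ) (MM P.d ζ) k l - ∑ b, P.d.R k b * M0 l b)
      (2 * (2 * lam * y * (K * σ) * 2 + σ * e1)) := by
  have hm := H.hm
  have DHH := H.dh
  have hrr : ∀ t, ρ0 - m ≤ P.r ρ0 m t := fun t =>
    le_rad (by linarith [H.h1, H.h2, H.h3]) hm.le t
  have hr : ∀ t, 0 ≤ cr (ρ0 - m) t := fun t => hρ1
  have hch := DHH.ch hZ
  have hch0 : CH P.d.κ lam m m (P.r ρ0 m) 0 :=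
    { kb := hch.kb, lam0 := hch.lam0, r00 := hch.r00, hr := hch.hr
      hζ := ⟨0, fun a => Bd.zero _ _ le_rfl, by simpa using hm.le⟩ }
  have hK1 : 0 < 1 + 1 / m := by positivity
  have hlam := H.hlam
  have hRd : ∀ b, Bd 0 (cr (ρ0 - m)) (RR P.d ζ k b - P.d.R k b) (2 * lam * y * (K * σ)) := by
    intro b
    have h1 : ∀ j, Bd 0 (P.r ρ0 m) (ζ j) (1 / (256 * lam * (1 + 1 / m))) := fun j =>
      (hZ j).weaken (by norm_num) (fun _ => le_rfl)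
    have h2 : Bd 1 (fun t => P.r ρ0 m t + m) (P.d.R k b) (K * σ) := by
      rw [hK]
      exact Bd.margin hm (fun t => by linarith) (DHH.bR k b)
    have h3 := comp_sub_bd (k := 0) (ζ' := 0) hch hch0 h1
      (fun a => Bd.zero _ _ (by positivity)) (by
        have e : 2 * lam * (1 / (256 * lam * (1 + 1 / m))) = 1 / (128 * (1 + 1 / m)) := by
          field_simp
          norm_num
        rw [e, div_le_iff₀ (by positivity)]
        have e2 : m * (128 * (1 + 1 / m)) = 128 * m + 128 := by field_simp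
        rw [e2]
        linarith)
      (e := y) (fun a => by
        have h4 := (hy a).weaken (k' := 0) (by norm_num) (fun _ => le_rfl)
        simpa using h4)
      (f := P.d.R k b) (c := K * σ) (by simpa using h2)
    rw [comp_id] at h3
    exact h3.to_cr hrr
  have hR0 : ∀ b, Bd 0 (cr (ρ0 - m)) (P.d.R k b) σ := fun b =>
    (DHH.bR k b).weaken le_rfl (fun t => by
      have := hrr t
      simp only [cr]
      linarith)
  have hsum : mulT (RR P.d ζ) (MM P.d ζ) k l - ∑ b, P.d.R k b * M0 l b =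
      ∑ b, ((RR P.d ζ k b - P.d.R k b) * MM P.d ζ l b +
        P.d.R k b * (MM P.d ζ l b - M0 l b)) := by
    unfold mulT
    rw [← Finset.sum_sub_distrib]
    exact Finset.sum_congr rfl fun b _ => by ring
  rw [hsum]
  have hterm : ∀ b ∈ (Finset.univ : Finset (Fin 2)), Bd 0 (cr (ρ0 - m))
      ((RR P.d ζ k b - P.d.R k b) * MM P.d ζ l b + P.d.R k b * (MM P.d ζ l b - M0 l b))
      (2 * lam * y * (K * σ) * 2 + σ * e1) := fun b _ =>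
    Bd.add (Bd.mul hr (hRd b) (hMM l b)) (Bd.mul hr (hR0 b) (hδ l b))
  refine (Bd.sum _ hterm).mono (le_of_eq ?_)
  rw [Fin.sum_univ_two]
  ring

/-- Averaged identity.  `Hb` is the length of the block containing the sub-block. -/
theorem avg_id (H : SBH P lam g σ ρ c A ρ0 m w η)
    (S : SB0 P lam g ρ0 m w ζ E W a q) (R : SBR P (10 ^ 7) lam g ρ0 m w η ζ E W a q)
    {Hb : ℝ} (hHb : P.tb - P.ta ≤ Hb) (hh : 10 ^ 12 * (1 + 1 / m) ^ 5 * Hb * g ≤ 1)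
    {Ψa φ π : WT} {ψa y : ℝ}
    (hφ : Bd 0 (P.r ρ0 m) φ (256 * (1 + 1 / m) * g * ψa + 10 ^ 4 * w ^ 2))
    (hπ : Bd 0 (P.r ρ0 m) π (256 * (1 + 1 / m) * g * ψa + 10 ^ 4 * w ^ 2))
    (hΨ : Bd 0 (P.r ρ0 m) (Ψa + intg P.ta P.tb φ) (2 * ψa + 18000 * (P.tb - P.ta) * w ^ 2))
    (hid : ∀ j, mulv (FF P.d ζ) (fun k => dp P.d.κ k φ) j + gradT P.d.κ (MM P.d ζ) π j =
        dvm P.d.κ (Sm P ζ E W (Ψa + intg P.ta P.tb φ)) j)
    (hψa : ψa ≤ 10 ^ 6 * Hb * w ^ 2) (hy : ∀ j, Bd 1 (P.r ρ0 m) (ζ j) y)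
    (hy' : lam * y ≤ 10 ^ 9 * (1 + 1 / m) ^ 2 * Hb * g)
    {ξ0 : Vec} (tξ : ∀ j t₀, frz t₀ (ξ0 j) = ξ0 j)
    (hF0 : ∀ k l, Bd 0 (cr (ρ0 - m)) (Fm P.d.κ ξ0 k l - idm k l) (1 / 50))
    (hδ : ∀ k l, Bd 0 (cr (ρ0 - m)) (FF P.d ζ k l - Fm P.d.κ ξ0 k l)
      (200 * (1 + 1 / m) * Hb * g)) :
    ∃ Er : Mat, (∀ k l, Bd 0 (cr (ρ0 - m)) (Er k l) ((P.tb - P.ta) * w ^ 2 *
        (10 ^ 11 * (1 + 1 / m) ^ 4 * Hb * g + 10 * (1 + 1 / m) ^ 2 * (lam / P.L) ^ 2))) ∧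
      ∀ j, mulv (Fm P.d.κ ξ0) (fun k => dp P.d.κ k (frz P.tb (intg P.ta P.tb φ))) j +
          gradT P.d.κ (adj (Fm P.d.κ ξ0)) (frz P.tb (intg P.ta P.tb π)) j =
        dvm P.d.κ (fun k l => mainS P (Fm P.d.κ ξ0) k l + Er k l) j := by
  have hm := H.hm
  have hm1 := H.hm1
  have hw := H.hw
  have DHH := H.dh
  have hZ : ZH lam m (P.r ρ0 m) ζ := R.nζ'
  have hab : P.ta < P.tb := by linarith [H.h1, H.h2, H.h3]
  obtain ⟨K, hK⟩ : ∃ K, K = 1 + 1 / m := ⟨_, rfl⟩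
  have hK2 : 2 ≤ K := by rw [hK]; exact DHH.K2
  have hK1 : 1 ≤ K := by linarith
  obtain ⟨h, hh'⟩ : ∃ h, h = P.tb - P.ta := ⟨_, rfl⟩
  have hh0 : 0 < h := by rw [hh']; linarith
  rw [← hh'] at hHb
  have hHb0 : 0 < Hb := by linarith
  have hg0 : 0 ≤ g := DHH.hg
  have hlam := H.hlam
  have hlam0 : 0 < lam := by linarith
  have hσ0 := H.hσ0
  have hσ := H.hσ
  have hlw := H.hlw
  have hρ1 : 0 ≤ ρ0 - m := by linarith [H.hρ0]
  have hrr : ∀ t, ρ0 - m ≤ P.r ρ0 m t := fun t => le_rad hab hm.le t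
  have hr : ∀ t, 0 ≤ cr (ρ0 - m) t := fun t => hρ1
  have cv : ∀ {f : WT} {c : ℝ} {k : ℕ}, Bd k (P.r ρ0 m) f c → Bd 0 (cr (ρ0 - m)) f c :=
    fun hf => (hf.weaken (Nat.zero_le _) (fun _ => le_rfl)).to_cr hrr
  have hL0 : (0 : ℝ) < P.L := lt_of_lt_of_le (by positivity) H.hL
  -- bounds
  have hFFi : ∀ a b, Bd 0 (cr (ρ0 - m)) (FF P.d ζ a b - idm a b) (3 / 250) := fun a b =>
    cv (DHH.bd_FF0 hZ a b)
  have hMMi : ∀ a b, Bd 0 (cr (ρ0 - m)) (MM P.d ζ a b - idm a b) (3 / 250) := fun a b =>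
    cv (DHH.bd_MM0 hZ a b)
  have hFF2 := XAvg_near hFFi
  have hMM2 := XAvg_near hMMi
  have hy0 : 0 ≤ y := (hy 0).nonneg
  set δF : ℝ := 200 * K * Hb * g with hδF
  have hδF0 : 0 ≤ δF := by positivity
  have hδ' : ∀ k l, Bd 0 (cr (ρ0 - m)) (FF P.d ζ k l - Fm P.d.κ ξ0 k l) δF := by
    rw [hδF, hK]; exact hδ
  have hδM : ∀ k l, Bd 0 (cr (ρ0 - m)) (MM P.d ζ k l - adj (Fm P.d.κ ξ0) k l) δF := fun k l =>
    XAvg_adj_sub hδ' k l
  obtain ⟨d, hd'⟩ : ∃ d, d = 10 ^ 7 * K ^ 4 * h * g * w := ⟨_, rfl⟩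
  have hdW : ∀ j, Bd 0 (cr (ρ0 - m)) (W j - cst P.χ * P.W0 j) d := fun j => by
    have h1 := cv (R.nWW j)
    rw [hd', hK, hh']
    exact h1
  have hW0 : ∀ j, Bd 0 (cr (ρ0 - m)) (P.W0 j) (32 * w) := fun j => cv (W0_bd0 H j)
  have hW : ∀ j, Bd 0 (cr (ρ0 - m)) (W j) (33 * w) := by
    intro j
    have h1 := cv (S.nW j)
    have h2 := Bd.cst_mul (XAvg_chi P) (hW0 j)
    have h3 := h1.add h2
    rw [sub_add_cancel] at h3
    exact h3.mono (by linarith)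
  have hwave := XAvg_wave H S hρ1 hK hFF2 hδ' hW hW0 hdW
  have hstress := XAvg_stress H hρ1 hK hZ hy hMM2 hδM
  -- size of the potentials
  obtain ⟨u, hu⟩ : ∃ u, u = Hb * g * w ^ 2 := ⟨_, rfl⟩
  have hu0 : 0 ≤ u := by rw [hu]; positivity
  have hKHg : 256 * K * g * ψa ≤ w ^ 2 := by
    have h1 : 10 ^ 12 * K ^ 5 * Hb * g ≤ 1 := by rw [hK]; exact hh
    have h2 : K ≤ K ^ 5 := by
      calc K = K ^ 1 := (pow_one K).symm
        _ ≤ K ^ 5 := pow_le_pow_right₀ hK1 (by norm_num)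
    have h3 : K * (Hb * g) ≤ K ^ 5 * (Hb * g) := mul_le_mul_of_nonneg_right h2 (by positivity)
    have h4 : 256 * K * g * ψa ≤ 256 * K * g * (10 ^ 6 * Hb * w ^ 2) :=
      mul_le_mul_of_nonneg_left hψa (by positivity)
    have h5 : 256 * K * g * (10 ^ 6 * Hb * w ^ 2) = 256 * 10 ^ 6 * (K * (Hb * g)) * w ^ 2 := by
      ring
    have h6 : 256 * 10 ^ 6 * (K * (Hb * g)) ≤ 1 := by nlinarith
    rw [h5] at h4
    nlinarith [sq_nonneg w]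
  have bφ : Bd 0 (cr (ρ0 - m)) φ (20000 * w ^ 2) := by
    refine (cv hφ).mono ?_
    rw [← hK]
    nlinarith [sq_nonneg w]
  have bπ : Bd 0 (cr (ρ0 - m)) π (20000 * w ^ 2) := by
    refine (cv hπ).mono ?_
    rw [← hK]
    nlinarith [sq_nonneg w]
  have bΨ : Bd 0 (cr (ρ0 - m)) (Ψa + intg P.ta P.tb φ) (3 * 10 ^ 6 * Hb * w ^ 2) := by
    refine (cv hΨ).mono ?_
    rw [← hh']
    have h1 : h * w ^ 2 ≤ Hb * w ^ 2 := mul_le_mul_of_nonneg_right hHb (sq_nonneg w)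
    nlinarith
  obtain ⟨Ψ, hΨdef⟩ : ∃ Ψ, Ψ = Ψa + intg P.ta P.tb φ := ⟨_, rfl⟩
  rw [← hΨdef] at bΨ hid
  have hTA1 : ∀ k l, Bd 0 (cr (ρ0 - m)) (TA P.d.κ Ψ (vz P.d ζ) k l)
      (3 * 10 ^ 6 * Hb * w ^ 2 * (2 * g)) := fun k l =>
    XAvg_TA hr bΨ (fun b => by rw [grad_vz H S k b]; exact cv (DHH.bd_LL0 hZ k b)) l
  have hTA2 : ∀ k l, Bd 0 (cr (ρ0 - m)) (TA P.d.κ Ψ (mulv (FF P.d ζ) E) k l)
      (3 * 10 ^ 6 * Hb * w ^ 2 * (lam * (6 * K * (2 * w)))) := fun k l =>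
    XAvg_TA hr bΨ (fun b => by
      have h1 := DHH.mulv_F1 hZ (x := E) (e := 2 * w) (fun j => R.nE' j) k
      rw [← hK] at h1
      exact cv (Bd.D DHH.kb b h1)) l
  have hTF : ∀ k l, Bd 0 (cr (ρ0 - m))
      (TF (fun a b => FF P.d ζ a b - Fm P.d.κ ξ0 a b) φ k l) (δF * (20000 * w ^ 2)) := by
    intro k l
    unfold TF
    split_ifs
    · exact Bd.mul hr (hδ' k 1) bφ
    · exact (Bd.mul hr (hδ' k 0) bφ).neg
  have hTM : ∀ k l, Bd 0 (cr (ρ0 - m))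
      (TM (fun a b => MM P.d ζ a b - adj (Fm P.d.κ ξ0) a b) π k l) (δF * (20000 * w ^ 2)) := by
    intro k l
    unfold TM
    exact Bd.mul hr (hδM l k) bπ
  -- frozen objects
  have fF : ∀ t₀ a b, frz t₀ (Fm P.d.κ ξ0 a b) = Fm P.d.κ ξ0 a b := fun t₀ a b =>
    XAvg_frz_Fm tξ t₀ a b
  have fM : ∀ t₀ a b, frz t₀ (adj (Fm P.d.κ ξ0) a b) = adj (Fm P.d.κ ξ0) a b := fun t₀ a b =>
    XAvg_frz_adj fF t₀ a b
  have fG : ∀ k l t₀, frz t₀ (kp P.k0 l • (P.b * P.b * ∑ b, kp P.k0 b • Fm P.d.κ ξ0 k b)) =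
      kp P.k0 l • (P.b * P.b * ∑ b, kp P.k0 b • Fm P.d.κ ξ0 k b) := by
    intro k l t₀
    have h1 := H.bt t₀
    have h2 := fF t₀
    unfold frz at h1 h2 ⊢
    rw [tcomp_smul, tcomp_mul, tcomp_mul, tcomp_sum, h1]
    congr 2
    refine Finset.sum_congr rfl fun b _ => ?_
    rw [tcomp_smul, h2]
  have hmain : ∀ k l, mainS P (Fm P.d.κ ξ0) k l = -XAvg_J P.ta P.tb (cst P.χ * cst P.χ *
      (kp P.k0 l • (P.b * P.b * ∑ b, kp P.k0 b • Fm P.d.κ ξ0 k b))) -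
      XAvg_J P.ta P.tb (∑ b, P.d.R k b * adj (Fm P.d.κ ξ0) l b) := by
    intro k l
    unfold mainS mulT
    rw [mul_comm (cst P.χ * cst P.χ), XAvg_J_mul (fG k l), XAvg_om P hab.le, XAvg_J_sum]
    have h1 : ∀ b, XAvg_J P.ta P.tb (P.d.R k b * adj (Fm P.d.κ ξ0) l b) =
        frz P.tb (intg P.ta P.tb (P.d.R k b)) * adj (Fm P.d.κ ξ0) l b := by
      intro b
      rw [mul_comm, XAvg_J_mul (fun t₀ => fM t₀ l b), mul_comm]
      rfl
    simp only [h1]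
    rw [mul_smul_comm, mul_one, smul_smul]
  -- the error
  obtain ⟨X, hX⟩ : ∃ X : Mat, X = fun k l => Sm P ζ E W Ψ k l -
      TF (fun a b => FF P.d ζ a b - Fm P.d.κ ξ0 a b) φ k l -
      TM (fun a b => MM P.d ζ a b - adj (Fm P.d.κ ξ0) a b) π k l := ⟨_, rfl⟩
  refine ⟨fun k l => XAvg_J P.ta P.tb (X k l) - mainS P (Fm P.d.κ ξ0) k l, fun k l => ?_,
    fun j => ?_⟩
  · have hEr : XAvg_J P.ta P.tb (X k l) - mainS P (Fm P.d.κ ξ0) k l = XAvg_J P.ta P.tb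
        (-(TA P.d.κ Ψ (vz P.d ζ) k l + TA P.d.κ Ψ (vz P.d ζ) k l) -
          TA P.d.κ Ψ (mulv (FF P.d ζ) E) k l -
          (mean P.d.i (mulv (FF P.d ζ) W k * W l) - cst P.χ * cst P.χ *
            (kp P.k0 l • (P.b * P.b * ∑ b, kp P.k0 b • Fm P.d.κ ξ0 k b))) -
          (mulT (RR P.d ζ) (MM P.d ζ) k l - ∑ b, P.d.R k b * adj (Fm P.d.κ ξ0) l b) -
          TF (fun a b => FF P.d ζ a b - Fm P.d.κ ξ0 a b) φ k l -
          TM (fun a b => MM P.d ζ a b - adj (Fm P.d.κ ξ0) a b) π k l) := by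
      have e : -(TA P.d.κ Ψ (vz P.d ζ) k l + TA P.d.κ Ψ (vz P.d ζ) k l) -
          TA P.d.κ Ψ (mulv (FF P.d ζ) E) k l -
          (mean P.d.i (mulv (FF P.d ζ) W k * W l) - cst P.χ * cst P.χ *
            (kp P.k0 l • (P.b * P.b * ∑ b, kp P.k0 b • Fm P.d.κ ξ0 k b))) -
          (mulT (RR P.d ζ) (MM P.d ζ) k l - ∑ b, P.d.R k b * adj (Fm P.d.κ ξ0) l b) -
          TF (fun a b => FF P.d ζ a b - Fm P.d.κ ξ0 a b) φ k l -
          TM (fun a b => MM P.d ζ a b - adj (Fm P.d.κ ξ0) a b) π k l =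
          X k l + cst P.χ * cst P.χ *
            (kp P.k0 l • (P.b * P.b * ∑ b, kp P.k0 b • Fm P.d.κ ξ0 k b)) +
            ∑ b, P.d.R k b * adj (Fm P.d.κ ξ0) l b := by
        rw [hX]
        unfold Sm
        ring
      rw [e, XAvg_J_add, XAvg_J_add, hmain]
      ring
    change Bd 0 (cr (ρ0 - m)) (XAvg_J P.ta P.tb (X k l) - mainS P (Fm P.d.κ ξ0) k l) _
    rw [hEr]
    have hb := ((((((hTA1 k l).add (hTA1 k l)).neg.sub (hTA2 k l)).sub (hwave k l)).sub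
      (hstress k l)).sub (hTF k l)).sub (hTM k l)
    refine (XAvg_J_bd hab.le hb).mono ?_
    rw [mul_assoc (P.tb - P.ta)]
    refine mul_le_mul_of_nonneg_left ?_ (by linarith)
    rw [← hK]
    have p1 : K ≤ K ^ 4 := by
      calc K = K ^ 1 := (pow_one K).symm
        _ ≤ K ^ 4 := pow_le_pow_right₀ hK1 (by norm_num)
    have p3 : K ^ 3 ≤ K ^ 4 := pow_le_pow_right₀ hK1 (by norm_num)
    have p0 : 1 ≤ K ^ 4 := one_le_pow₀ hK1
    have q1 : K * u ≤ K ^ 4 * u := mul_le_mul_of_nonneg_right p1 hu0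
    have q0 : 1 * u ≤ K ^ 4 * u := mul_le_mul_of_nonneg_right p0 hu0
    have q3 : K ^ 3 * u ≤ K ^ 4 * u := mul_le_mul_of_nonneg_right p3 hu0
    have hHg : 0 ≤ Hb * g := by positivity
    -- the terms
    have t1 : 3 * 10 ^ 6 * Hb * w ^ 2 * (2 * g) = 6 * 10 ^ 6 * u := by rw [hu]; ring
    have t2 : 3 * 10 ^ 6 * Hb * w ^ 2 * (lam * (6 * K * (2 * w))) ≤ 36 * 10 ^ 6 * (K * u) := by
      have h1 : lam * (6 * K * (2 * w)) = 12 * K * (lam * w) := by ring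
      have h2 : 12 * K * (lam * w) ≤ 12 * K * g := mul_le_mul_of_nonneg_left hlw (by positivity)
      rw [h1]
      refine (mul_le_mul_of_nonneg_left h2 (by positivity)).trans (le_of_eq ?_)
      rw [hu]; ring
    have t3 : δF * (4 * w ^ 2) = 800 * (K * u) := by rw [hδF, hu]; ring
    have t4 : 65 * w * d ≤ 65 * 10 ^ 7 * (K ^ 4 * u) := by
      have h1 : h * (g * w ^ 2) ≤ Hb * (g * w ^ 2) := mul_le_mul_of_nonneg_right hHb (by positivity)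
      have h2 : 65 * w * d = 65 * 10 ^ 7 * (K ^ 4 * (h * (g * w ^ 2))) := by rw [hd']; ring
      have h3 : u = Hb * (g * w ^ 2) := by rw [hu]; ring
      rw [h2, h3]
      exact mul_le_mul_of_nonneg_left (mul_le_mul_of_nonneg_left h1 (by positivity))
        (by norm_num)
    have t5 : 2 * lam * y * (K * σ) * 2 ≤ 4 * 10 ^ 9 * (K ^ 3 * u) := by
      have h1 : 2 * lam * y * (K * σ) * 2 = 4 * K * ((lam * y) * σ) := by ring
      have hy'' : lam * y ≤ 10 ^ 9 * K ^ 2 * Hb * g := by rw [hK]; exact hy'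
      have h2 : (lam * y) * σ ≤ (10 ^ 9 * K ^ 2 * Hb * g) * w ^ 2 :=
        mul_le_mul hy'' hσ hσ0 (by positivity)
      rw [h1]
      refine (mul_le_mul_of_nonneg_left h2 (by positivity)).trans (le_of_eq ?_)
      rw [hu]; ring
    have t6 : σ * δF ≤ 200 * (K * u) := by
      have h1 : σ * δF ≤ w ^ 2 * δF := mul_le_mul_of_nonneg_right hσ hδF0
      refine h1.trans (le_of_eq ?_)
      rw [hδF, hu]; ring
    have t7 : δF * (20000 * w ^ 2) = 4 * 10 ^ 6 * (K * u) := by rw [hδF, hu]; ring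
    have t8 : 0 ≤ (lam / P.L) ^ 2 * (K * w) ^ 2 := by positivity
    have t9 : w ^ 2 * (10 ^ 11 * K ^ 4 * Hb * g + 10 * K ^ 2 * (lam / P.L) ^ 2) =
        10 ^ 11 * (K ^ 4 * u) + 10 * ((lam / P.L) ^ 2 * (K * w) ^ 2) := by rw [hu]; ring
    rw [t9, t1, t3, t7]
    linarith
  · have hR : dvm P.d.κ (fun k l => mainS P (Fm P.d.κ ξ0) k l +
        (XAvg_J P.ta P.tb (X k l) - mainS P (Fm P.d.κ ξ0) k l)) j =
        XAvg_J P.ta P.tb (dvm P.d.κ X j) := by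
      rw [XAvg_J_dvm]
      congr 1
      funext k l
      ring
    rw [hR]
    have hφJ : frz P.tb (intg P.ta P.tb φ) = XAvg_J P.ta P.tb φ := rfl
    have hπJ : frz P.tb (intg P.ta P.tb π) = XAvg_J P.ta P.tb π := rfl
    rw [hφJ, hπJ, mulv_dp, gradT_eq_dvm]
    have h1 : TF (Fm P.d.κ ξ0) (XAvg_J P.ta P.tb φ) =
        fun k l => XAvg_J P.ta P.tb (TF (Fm P.d.κ ξ0) φ k l) := by
      funext k l
      unfold TF
      split_ifs
      · rw [XAvg_J_mul (fun t₀ => fF t₀ k 1)]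
      · rw [XAvg_J_neg, XAvg_J_mul (fun t₀ => fF t₀ k 0)]
    have h2 : TM (adj (Fm P.d.κ ξ0)) (XAvg_J P.ta P.tb π) =
        fun k l => XAvg_J P.ta P.tb (TM (adj (Fm P.d.κ ξ0)) π k l) := by
      funext k l
      unfold TM
      rw [XAvg_J_mul (fun t₀ => fM t₀ l k)]
    rw [h1, h2, ← XAvg_J_dvm, ← XAvg_J_dvm, ← XAvg_J_add]
    congr 1
    have h3 := hid j
    have h4 : MM P.d ζ = adj (FF P.d ζ) := rfl
    rw [h4, FF_eq H S, mulv_dp, gradT_eq_dvm, ← FF_eq H S, ← h4] at h3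
    rw [hX, dvm_sub P.d.κ (fun k l => Sm P ζ E W Ψ k l -
        TF (fun a b => FF P.d ζ a b - Fm P.d.κ ξ0 a b) φ k l)
        (TM (fun a b => MM P.d ζ a b - adj (Fm P.d.κ ξ0) a b) π),
      dvm_sub P.d.κ (Sm P ζ E W Ψ) (TF (fun a b => FF P.d ζ a b - Fm P.d.κ ξ0 a b) φ),
      TF_sub, TM_sub, dvm_sub, dvm_sub, ← h3]
    ring

end

end ES
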