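import Pool.Agent.H16.TSS.ES.LCompA_2
import Pool.Agent.H16.TSS.ES.LExp_6
import Pool.Agent.H16.TSS.ES.LTime

/-!
ES-LCompA: composition with `id + ζ`:
`comp κ ζ f = ∑_ν f_ν e_ν exp(i κ_0(ν) ζ_0 + i κ_1(ν) ζ_1)`.
Hypotheses `CH κ lam r0 z r ζ` (see Defs): `|κ| ≤ lam`, `r ≥ r0 > 0`, `Bd 0 r (ζ a) y`, `2 lam y ≤ z`;
then `exp(ikz ν)` has norm `≤ exp(z |ν|)`, and `comp κ ζ f` is fine as soon as `f` has a finite norm
at the radius `r + z`.
The derivative rules need one more power: `Bd 1 (r+z) f c`.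
-/

open scoped BoundedContinuousFunction

namespace ES

/-! ### auxiliary results -/

private theorem cA_smul {κ : Kp} {lam r0 z : ℝ} {r : ℝ → ℝ} {ζ : Fin 2 → WT} (H : CH κ lam r0 z r ζ)
    {f : WT} {c : ℝ} (a : ℂ) (hf : Bd 0 (fun t => r t + z) f c) :
    comp κ ζ (a • f) = a • comp κ ζ f := by
  apply WT.ext
  funext μ
  have h1 := comp_hasSum H (Bd.smul a hf) μ
  have h2 := (comp_hasSum H hf μ).const_smul a
  have e : (fun ν => (a • f).co ν * (texp (ikz κ ζ ν)).co (μ - ν)) =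
      fun ν => a • (f.co ν * (texp (ikz κ ζ ν)).co (μ - ν)) := by
    funext ν
    rw [WT.co_smul, Pi.smul_apply, smul_mul_assoc]
  rw [e] at h1
  exact h1.unique h2

theorem comp_sub {κ : Kp} {lam r0 z : ℝ} {r : ℝ → ℝ} {ζ : Fin 2 → WT} (H : CH κ lam r0 z r ζ)
    {f g : WT} {c d : ℝ} (hf : Bd 0 (fun t => r t + z) f c) (hg : Bd 0 (fun t => r t + z) g d) :
    comp κ ζ (f - g) = comp κ ζ f - comp κ ζ g := by
  apply WT.ext
  funext μ
  have h1 := comp_hasSum H (hf.sub hg) μ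
  have h2 := (comp_hasSum H hf μ).sub (comp_hasSum H hg μ)
  have e : (fun ν => (f - g).co ν * (texp (ikz κ ζ ν)).co (μ - ν)) =
      fun ν => f.co ν * (texp (ikz κ ζ ν)).co (μ - ν) - g.co ν * (texp (ikz κ ζ ν)).co (μ - ν) := by
    funext ν
    rw [WT.co_sub, Pi.sub_apply, sub_mul]
  rw [e] at h1
  rw [WT.co_sub, Pi.sub_apply]
  exact h1.unique h2

theorem comp_neg {κ : Kp} {lam r0 z : ℝ} {r : ℝ → ℝ} {ζ : Fin 2 → WT} (H : CH κ lam r0 z r ζ)
    {f : WT} {c : ℝ} (hf : Bd 0 (fun t => r t + z) f c) :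
    comp κ ζ (-f) = -comp κ ζ f := by
  have h := cA_smul H (-1) hf
  rwa [neg_one_smul, neg_one_smul] at h

theorem comp_sum {κ : Kp} {lam r0 z : ℝ} {r : ℝ → ℝ} {ζ : Fin 2 → WT} (H : CH κ lam r0 z r ζ)
    {ι : Type*} (s : Finset ι) {f : ι → WT}
    (hf : ∀ j ∈ s, ∃ c, Bd 0 (fun t => r t + z) (f j) c) :
    comp κ ζ (∑ j ∈ s, f j) = ∑ j ∈ s, comp κ ζ (f j) := by
  classical
  suffices h : (∃ c, Bd 0 (fun t => r t + z) (∑ j ∈ s, f j) c) ∧
      comp κ ζ (∑ j ∈ s, f j) = ∑ j ∈ s, comp κ ζ (f j) from h.2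
  induction s using Finset.induction_on with
  | empty =>
    rw [Finset.sum_empty, Finset.sum_empty]
    exact ⟨⟨0, Bd.zero 0 _ le_rfl⟩, cA_zero H⟩
  | insert i s hi ih =>
    obtain ⟨⟨c, hc⟩, h2⟩ := ih (fun j hj => hf j (Finset.mem_insert_of_mem hj))
    obtain ⟨d, hd⟩ := hf i (Finset.mem_insert_self i s)
    rw [Finset.sum_insert hi, Finset.sum_insert hi]
    exact ⟨⟨d + c, hd.add hc⟩, by rw [comp_add H hd hc, h2]⟩

/-! product -/

private theorem cA_eb_mul_co (ν : Gx) (g : WT) (μ : Gx) : (eb ν * g).co μ = g.co (μ - ν) := by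
  rw [WT.mul_co, tsum_eq_single ν]
  · change (Pi.single ν 1 : Gx → Ct) ν * g.co (μ - ν) = _
    rw [Pi.single_eq_same, one_mul]
  · intro lam hlam
    change (Pi.single ν 1 : Gx → Ct) lam * g.co (μ - lam) = 0
    rw [Pi.single_eq_of_ne hlam, zero_mul]

private theorem cA_eb_add (α β : Gx) : eb (α + β) = eb α * eb β := by
  apply WT.ext
  funext μ
  rw [cA_eb_mul_co]
  change (Pi.single (α + β) 1 : Gx → Ct) μ = (Pi.single β 1 : Gx → Ct) (μ - α)
  by_cases h : μ = α + β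
  · subst h
    rw [Pi.single_eq_same, add_sub_cancel_left, Pi.single_eq_same]
  · rw [Pi.single_eq_of_ne h, Pi.single_eq_of_ne]
    intro h'
    apply h
    rw [← h']
    abel

private theorem cA_ikz_add (κ : Kp) (ζ : Fin 2 → WT) (α β : Gx) :
    ikz κ ζ (α + β) = ikz κ ζ α + ikz κ ζ β := by
  unfold ikz
  rw [kap_add, kap_add]
  push_cast
  rw [mul_add, mul_add, add_smul, add_smul]
  abel

/-- the image of the term with the index `ν` -/
private noncomputable def cA_term (κ : Kp) (ζ : Fin 2 → WT) (f : WT) (ν : Gx) : WT :=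
  cst (f.co ν) * (eb ν * texp (ikz κ ζ ν))

private theorem cA_term_co (κ : Kp) (ζ : Fin 2 → WT) (f : WT) (ν μ : Gx) :
    (cA_term κ ζ f ν).co μ = f.co ν * (texp (ikz κ ζ ν)).co (μ - ν) := by
  unfold cA_term
  rw [cst_mul_co, cA_eb_mul_co]

private theorem cA_term_mul (κ : Kp) (ζ : Fin 2 → WT) (f g : WT) (α β μ : Gx) :
    (cA_term κ ζ f α * cA_term κ ζ g β).co μ =
      f.co α * g.co β * (texp (ikz κ ζ (α + β))).co (μ - (α + β)) := by
  have e : cA_term κ ζ f α * cA_term κ ζ g β =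
      cst (f.co α * g.co β) * (eb (α + β) * texp (ikz κ ζ (α + β))) := by
    unfold cA_term
    rw [cst_mul, cA_eb_add, cA_ikz_add, texp_add]
    ring
  rw [e, cst_mul_co, cA_eb_mul_co]

/-- termwise multiplication of a sum -/
private theorem cA_mul_hasSum {x : Gx → WT} {X : WT}
    (hs : Summable fun p : Gx × Gx => ‖(x p.2).co p.1‖)
    (hX : ∀ lam, HasSum (fun ν => (x ν).co lam) (X.co lam)) (y : WT) (μ : Gx) :
    HasSum (fun ν => (x ν * y).co μ) ((X * y).co μ) := by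
  obtain ⟨C, hC⟩ : ∃ C, ∀ lam, ‖y.co lam‖ ≤ C := by
    refine ⟨∑' lam, ‖y.co lam‖, fun lam => ?_⟩
    exact (rapid_norm y.rapid).le_tsum lam (fun _ _ => norm_nonneg _)
  have hΦ : Summable fun p : Gx × Gx => (x p.2).co p.1 * y.co (μ - p.1) := by
    refine Summable.of_norm_bounded (hs.mul_right C) fun p => ?_
    exact (norm_mul_le _ _).trans (mul_le_mul_of_nonneg_left (hC _) (norm_nonneg _))
  have hΦ' : Summable fun p : Gx × Gx => (x p.1).co p.2 * y.co (μ - p.2) :=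
    (Equiv.prodComm Gx Gx).summable_iff.1 hΦ
  have h1 : HasSum (fun ν => ∑' lam, (x ν).co lam * y.co (μ - lam))
      (∑' p : Gx × Gx, (x p.1).co p.2 * y.co (μ - p.2)) :=
    hΦ'.hasSum.prod_fiberwise fun ν => (hΦ'.prod_factor ν).hasSum
  have h2 : ∑' p : Gx × Gx, (x p.1).co p.2 * y.co (μ - p.2) =
      ∑' p : Gx × Gx, (x p.2).co p.1 * y.co (μ - p.1) :=
    (Equiv.prodComm Gx Gx).tsum_eq (fun p : Gx × Gx => (x p.2).co p.1 * y.co (μ - p.1))
  have h3 : ∑' p : Gx × Gx, (x p.2).co p.1 * y.co (μ - p.1) = (X * y).co μ := by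
    rw [hΦ.tsum_prod, WT.mul_co]
    refine tsum_congr fun lam => ?_
    rw [← (hX lam).tsum_eq]
    exact (hX lam).summable.tsum_mul_right (y.co (μ - lam))
  rw [h2, h3] at h1
  exact h1

theorem comp_mul {κ : Kp} {lam r0 z : ℝ} {r : ℝ → ℝ} {ζ : Fin 2 → WT} (H : CH κ lam r0 z r ζ)
    {f g : WT} {c d : ℝ} (hf : Bd 0 (fun t => r t + z) f c) (hg : Bd 0 (fun t => r t + z) g d) :
    comp κ ζ (f * g) = comp κ ζ f * comp κ ζ g := by
  apply WT.ext
  funext μ
  have hsf : Summable fun p : Gx × Gx => ‖(cA_term κ ζ f p.2).co p.1‖ := by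
    simp only [cA_term_co]
    exact cA_sum H hf
  have hsg : Summable fun p : Gx × Gx => ‖(cA_term κ ζ g p.2).co p.1‖ := by
    simp only [cA_term_co]
    exact cA_sum H hg
  have hXf : ∀ lam, HasSum (fun ν => (cA_term κ ζ f ν).co lam) ((comp κ ζ f).co lam) := by
    intro lam
    simp only [cA_term_co]
    exact comp_hasSum H hf lam
  have hXg : ∀ lam, HasSum (fun ν => (cA_term κ ζ g ν).co lam) ((comp κ ζ g).co lam) := by
    intro lam
    simp only [cA_term_co]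
    exact comp_hasSum H hg lam
  have h1 := (cA_mul_hasSum hsf hXf (comp κ ζ g) μ).tsum_eq
  have h2 : ∀ α, (cA_term κ ζ f α * comp κ ζ g).co μ =
      ∑' β, f.co α * g.co β * (texp (ikz κ ζ (α + β))).co (μ - (α + β)) := by
    intro α
    have h3 := (cA_mul_hasSum hsg hXg (cA_term κ ζ f α) μ).tsum_eq
    rw [mul_comm (cA_term κ ζ f α), ← h3]
    refine tsum_congr fun β => ?_
    rw [mul_comm (cA_term κ ζ g β), cA_term_mul]
  -- the other side
  obtain ⟨y, hζ, hy⟩ := H.hζ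
  obtain ⟨m, hm0, hms, -, hmb⟩ := hf
  obtain ⟨m', hm0', hms', -, hmb'⟩ := hg
  have hEb : ∀ ν lam, ‖(texp (ikz κ ζ ν)).co lam‖ ≤ Real.exp (z * len ν) := by
    intro ν lam
    obtain ⟨n, hn0, hns, hnc, hnb⟩ := cA_G (k := 0) (fun t => H.r00.le.trans (H.hr t)) H.kb hζ hy ν
    have h3 : ‖(texp (ikz κ ζ ν)).co lam‖ ≤ n lam := by
      rw [BoundedContinuousFunction.norm_le (hn0 _)]
      intro t
      have hrt : 0 ≤ r t := H.r00.le.trans (H.hr t)
      exact (le_mul_of_one_le_left (norm_nonneg _) (cA_one_le (k := 0) hrt lam)).trans (hnb lam t)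
    exact h3.trans ((hns.le_tsum lam fun _ _ => hn0 _).trans hnc)
  have hz : 0 ≤ z := by
    have := (hζ 0).nonneg
    have := H.lam0
    nlinarith [mul_nonneg (mul_nonneg (by norm_num : (0 : ℝ) ≤ 2) H.lam0) ((hζ 0).nonneg)]
  have hfb : ∀ {f : WT} {m : Gx → ℝ}, (∀ ν, 0 ≤ m ν) → (∀ ν t, (1 + (len ν : ℝ)) ^ 0 *
      Real.exp ((fun t => r t + z) t * len ν) * ‖f.co ν t‖ ≤ m ν) →
      ∀ ν, ‖f.co ν‖ * Real.exp (z * len ν) ≤ m ν := by
    intro f m hm0 hmb ν
    have h3 : ‖f.co ν‖ ≤ m ν * Real.exp (-(z * len ν)) := by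
      rw [BoundedContinuousFunction.norm_le (mul_nonneg (hm0 _) (Real.exp_nonneg _))]
      intro t
      have hrt : 0 ≤ r t := H.r00.le.trans (H.hr t)
      have h4 := hmb ν t
      have h5 : Real.exp (z * len ν) ≤ Real.exp ((r t + z) * len ν) := by
        apply Real.exp_le_exp.2
        have : 0 ≤ r t * (len ν : ℝ) := by positivity
        linarith
      rw [Real.exp_neg, ← div_eq_mul_inv, le_div_iff₀ (Real.exp_pos _)]
      calc ‖f.co ν t‖ * Real.exp (z * len ν) ≤ ‖f.co ν t‖ * Real.exp ((r t + z) * len ν) :=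
            mul_le_mul_of_nonneg_left h5 (norm_nonneg _)
        _ = (1 + (len ν : ℝ)) ^ 0 * Real.exp ((fun t => r t + z) t * len ν) * ‖f.co ν t‖ := by
            simp only [pow_zero, one_mul]
            ring
        _ ≤ m ν := h4
    calc ‖f.co ν‖ * Real.exp (z * len ν) ≤ m ν * Real.exp (-(z * len ν)) * Real.exp (z * len ν) :=
          mul_le_mul_of_nonneg_right h3 (Real.exp_nonneg _)
      _ = m ν := by rw [mul_assoc, ← Real.exp_add, neg_add_cancel, Real.exp_zero, mul_one]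
  have hΘ : Summable fun p : Gx × Gx =>
      f.co p.2 * g.co (p.1 - p.2) * (texp (ikz κ ζ p.1)).co (μ - p.1) := by
    refine Summable.of_norm_bounded (summable_prod_shift hms hms' hm0 hm0') fun p => ?_
    have h3 := hfb hm0 hmb p.2
    have h4 := hfb hm0' hmb' (p.1 - p.2)
    have h5 := hEb p.1 (μ - p.1)
    have h6 : Real.exp (z * len p.1) ≤ Real.exp (z * len p.2) * Real.exp (z * len (p.1 - p.2)) := by
      rw [← Real.exp_add]
      apply Real.exp_le_exp.2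
      nlinarith [cA_le_nat p.1 p.2]
    calc ‖f.co p.2 * g.co (p.1 - p.2) * (texp (ikz κ ζ p.1)).co (μ - p.1)‖
        ≤ ‖f.co p.2‖ * ‖g.co (p.1 - p.2)‖ * ‖(texp (ikz κ ζ p.1)).co (μ - p.1)‖ :=
          (norm_mul_le _ _).trans (mul_le_mul_of_nonneg_right (norm_mul_le _ _) (norm_nonneg _))
      _ ≤ ‖f.co p.2‖ * ‖g.co (p.1 - p.2)‖ *
          (Real.exp (z * len p.2) * Real.exp (z * len (p.1 - p.2))) :=
          mul_le_mul_of_nonneg_left (h5.trans h6) (by positivity)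
      _ = (‖f.co p.2‖ * Real.exp (z * len p.2)) *
          (‖g.co (p.1 - p.2)‖ * Real.exp (z * len (p.1 - p.2))) := by ring
      _ ≤ m p.2 * m' (p.1 - p.2) := mul_le_mul h3 h4 (by positivity) (hm0 _)
  have hΘ' : Summable fun p : Gx × Gx =>
      f.co p.1 * g.co (p.2 - p.1) * (texp (ikz κ ζ p.2)).co (μ - p.2) :=
    (Equiv.prodComm Gx Gx).summable_iff.1 hΘ
  have h4 : (comp κ ζ (f * g)).co μ = ∑' ν, (f * g).co ν * (texp (ikz κ ζ ν)).co (μ - ν) :=
    (comp_hasSum H (Bd.mul (fun t => add_nonneg (H.r00.le.trans (H.hr t)) hz)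
      ⟨m, hm0, hms, le_rfl, hmb⟩ ⟨m', hm0', hms', le_rfl, hmb'⟩) μ).tsum_eq.symm
  have h5 : ∑' ν, (f * g).co ν * (texp (ikz κ ζ ν)).co (μ - ν) =
      ∑' p : Gx × Gx, f.co p.2 * g.co (p.1 - p.2) * (texp (ikz κ ζ p.1)).co (μ - p.1) := by
    rw [hΘ.tsum_prod]
    refine tsum_congr fun ν => ?_
    rw [WT.mul_co]
    exact ((conv_summable f.rapid g.rapid ν).tsum_mul_right _).symm
  have h6 : ∑' p : Gx × Gx, f.co p.2 * g.co (p.1 - p.2) * (texp (ikz κ ζ p.1)).co (μ - p.1) =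
      ∑' p : Gx × Gx, f.co p.1 * g.co (p.2 - p.1) * (texp (ikz κ ζ p.2)).co (μ - p.2) :=
    (Equiv.prodComm Gx Gx).tsum_eq (fun p : Gx × Gx =>
      f.co p.1 * g.co (p.2 - p.1) * (texp (ikz κ ζ p.2)).co (μ - p.2))
  rw [h4, h5, h6, hΘ'.tsum_prod, ← h1]
  refine tsum_congr fun α => ?_
  rw [h2 α, ← (Equiv.addLeft α).tsum_eq
    (fun ν => f.co α * g.co (ν - α) * (texp (ikz κ ζ ν)).co (μ - ν))]
  refine tsum_congr fun β => ?_
  rw [Equiv.coe_addLeft, add_sub_cancel_left]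

/-- Composition with the identity. -/
theorem comp_id (κ : Kp) (f : WT) : comp κ 0 f = f := by
  have h1 : ∀ ν, ikz κ 0 ν = 0 := by
    intro ν
    unfold ikz
    simp
  have h2 : compc κ 0 f = f.co := by
    funext μ
    unfold compc
    rw [tsum_eq_single μ]
    · rw [h1, texp_zero, sub_self, WT.co_one, Pi.single_eq_same, mul_one]
    · intro ν hν
      rw [h1, texp_zero, WT.co_one, Pi.single_eq_of_ne (sub_ne_zero.2 (Ne.symm hν)), mul_zero]
  have hR : Rapid (compc κ 0 f) := by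
    rw [h2]
    exact f.rapid
  unfold comp
  rw [dif_pos hR]
  exact WT.ext h2

end ES
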