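import Pool.Agent.H16.TSS.ES.LTime
import Pool.Agent.H16.TSS.M04

/-!
ES-LCompB: composition with `id + ζ`:
`comp κ ζ f = ∑_ν f_ν e_ν exp(i κ_0(ν) ζ_0 + i κ_1(ν) ζ_1)`.
Hypotheses `CH κ lam r0 z r ζ` (see Defs): `|κ| ≤ lam`, `r ≥ r0 > 0`, `Bd 0 r (ζ a) y`, `2 lam y ≤ z`;
then `exp(ikz ν)` has norm `≤ exp(z |ν|)`, and `comp κ ζ f` is fine as soon as `f` has a finite norm
at the radius `r + z`.
The derivative rules need one more power: `Bd 1 (r+z) f c`.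
-/

open scoped BoundedContinuousFunction

namespace ES

lemma norm_Ik (κ : Kp) (a : Fin 2) (ν : Gx) :
    ‖Complex.I * (kap κ a ν : ℂ)‖ = |(kap κ a ν : ℝ)| := by
  rw [norm_mul, Complex.norm_I, one_mul, ← Complex.ofReal_intCast, Complex.norm_real,
    Real.norm_eq_abs]

lemma ikz_bd {κ : Kp} {lam : ℝ} (hκ : KB κ lam) {k : ℕ} {r : ℝ → ℝ} {ζ : Fin 2 → WT}
    {y : ℝ} (hζ : ∀ a, Bd k r (ζ a) y) (ν : Gx) :
    Bd k r (ikz κ ζ ν) (2 * lam * y * len ν) := by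
  have hy : 0 ≤ y := (hζ 0).nonneg
  have h := ((hζ 0).smul (Complex.I * (kap κ 0 ν : ℂ))).add
    ((hζ 1).smul (Complex.I * (kap κ 1 ν : ℂ)))
  refine Bd.mono h ?_
  rw [norm_Ik, norm_Ik]
  have h0 := kap_le hκ 0 ν
  have h1 := kap_le hκ 1 ν
  nlinarith [mul_le_mul_of_nonneg_right h0 hy, mul_le_mul_of_nonneg_right h1 hy]

/-- Weighted norms of the coefficients. -/
lemma expz_norm {k : ℕ} {r : ℝ → ℝ} {z : ℝ} (hr : ∀ t, 0 ≤ r t) {f : WT} {c : ℝ}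
    (hf : Bd k (fun t => r t + z) f c) :
    Summable fun ν => (1 + (len ν : ℝ)) ^ k * ‖f.co ν‖ * Real.exp (z * len ν) := by
  obtain ⟨m, hm0, hms, -, hm⟩ := hf
  refine Summable.of_nonneg_of_le (fun ν => by positivity) (fun ν => ?_) hms
  have hw : 0 < (1 + (len ν : ℝ)) ^ k * Real.exp (z * len ν) := by positivity
  have h1 : ‖f.co ν‖ ≤ m ν / ((1 + (len ν : ℝ)) ^ k * Real.exp (z * len ν)) := by
    refine (BoundedContinuousFunction.norm_le (div_nonneg (hm0 ν) hw.le)).2 fun t => ?_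
    rw [le_div_iff₀ hw]
    refine le_trans ?_ (hm ν t)
    have h2 : Real.exp (z * len ν) ≤ Real.exp ((r t + z) * len ν) := by
      refine Real.exp_le_exp.2 (mul_le_mul_of_nonneg_right ?_ (Nat.cast_nonneg _))
      linarith [hr t]
    calc ‖f.co ν t‖ * ((1 + (len ν : ℝ)) ^ k * Real.exp (z * len ν))
        = (1 + (len ν : ℝ)) ^ k * Real.exp (z * len ν) * ‖f.co ν t‖ := by ring
      _ ≤ _ := by gcongr
  rw [le_div_iff₀ hw] at h1
  calc (1 + (len ν : ℝ)) ^ k * ‖f.co ν‖ * Real.exp (z * len ν)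
      = ‖f.co ν‖ * ((1 + (len ν : ℝ)) ^ k * Real.exp (z * len ν)) := by ring
    _ ≤ m ν := h1

lemma norm_sum_le {r : ℝ → ℝ} (hr : ∀ t, 0 ≤ r t) {g : WT} {c : ℝ}
    (hg : Bd 0 r g c) : ∑' μ, ‖g.co μ‖ ≤ c := by
  obtain ⟨m, hm0, hms, hmc, hm⟩ := hg
  refine le_trans ((rapid_norm g.rapid).tsum_le_tsum (fun μ => ?_) hms) hmc
  refine (BoundedContinuousFunction.norm_le (hm0 μ)).2 fun t => ?_
  refine le_trans ?_ (hm μ t)
  rw [pow_zero, one_mul]
  have : (1 : ℝ) ≤ Real.exp (r t * len μ) :=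
    Real.one_le_exp (mul_nonneg (hr t) (Nat.cast_nonneg _))
  exact le_mul_of_one_le_left (norm_nonneg _) this

/-- Summability of a twisted double series. -/
private lemma summable_twist {A : Gx → ℝ} {d : Gx → Gx → ℝ} {D : Gx → ℝ} (hA : ∀ ν, 0 ≤ A ν)
    (hd : ∀ ν μ, 0 ≤ d ν μ) (hds : ∀ ν, Summable (d ν)) (hdD : ∀ ν, ∑' μ, d ν μ ≤ D ν)
    (hAD : Summable fun ν => A ν * D ν) :
    Summable (fun p : Gx × Gx => A p.1 * d p.1 p.2) ∧
      ∑' p : Gx × Gx, A p.1 * d p.1 p.2 ≤ ∑' ν, A ν * D ν := by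
  have h1 : ∀ ν, Summable fun μ => A ν * d ν μ := fun ν => (hds ν).mul_left _
  have h2 : ∀ ν, ∑' μ, A ν * d ν μ ≤ A ν * D ν := fun ν => by
    rw [tsum_mul_left]; exact mul_le_mul_of_nonneg_left (hdD ν) (hA ν)
  have h3 : Summable fun ν => ∑' μ, A ν * d ν μ :=
    Summable.of_nonneg_of_le (fun ν => tsum_nonneg fun μ => mul_nonneg (hA ν) (hd ν μ)) h2 hAD
  have h4 : Summable (fun p : Gx × Gx => A p.1 * d p.1 p.2) :=
    (summable_prod_of_nonneg (fun p => mul_nonneg (hA p.1) (hd p.1 p.2))).2 ⟨h1, h3⟩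
  refine ⟨h4, ?_⟩
  rw [h4.tsum_prod]
  exact h3.tsum_le_tsum h2 hAD

/-- The shear `(μ, ν) ↦ (ν, μ - ν)`. -/
private noncomputable def shr : Gx × Gx ≃ Gx × Gx :=
  { toFun := fun p => (p.2, p.1 - p.2)
    invFun := fun p => (p.1 + p.2, p.1)
    left_inv := fun p => by ext <;> simp
    right_inv := fun p => by ext <;> simp }

/-- Multiplication by `h` inside the twisted sum. -/
lemma twist_mul {f F h : WT} {T : Gx → WT} {z : ℝ}
    (hf : Summable fun ν => ‖f.co ν‖ * Real.exp (z * len ν))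
    (hT : ∀ ν, ∑' μ, ‖(T ν).co μ‖ ≤ Real.exp (z * len ν))
    (hF : ∀ μ, HasSum (fun ν => f.co ν * (T ν).co (μ - ν)) (F.co μ)) (μ : Gx) :
    HasSum (fun ν => f.co ν * (h * T ν).co (μ - ν)) ((F * h).co μ) := by
  obtain ⟨C, hC⟩ : ∃ C, ∀ μ, ‖h.co μ‖ ≤ C := by
    refine ⟨∑' μ, ‖h.co μ‖, fun μ => ?_⟩
    exact (rapid_norm h.rapid).le_tsum μ (fun _ _ => norm_nonneg _)
  have h1 := (summable_twist (A := fun ν => ‖f.co ν‖) (d := fun ν μ => ‖(T ν).co μ‖)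
    (D := fun ν => Real.exp (z * len ν)) (fun _ => norm_nonneg _) (fun _ _ => norm_nonneg _)
    (fun ν => rapid_norm (T ν).rapid) hT hf).1
  -- the double series, indexed by `(lam, ν)`
  have h2 : Summable fun p : Gx × Gx => f.co p.2 * (T p.2).co (p.1 - p.2) * h.co (μ - p.1) := by
    have h3 : Summable fun p : Gx × Gx => ‖f.co p.2‖ * ‖(T p.2).co (p.1 - p.2)‖ :=
      (shr.summable_iff (f := fun p : Gx × Gx => ‖f.co p.1‖ * ‖(T p.1).co p.2‖)).2 h1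
    refine Summable.of_norm_bounded (h3.mul_right C) fun p => ?_
    calc ‖f.co p.2 * (T p.2).co (p.1 - p.2) * h.co (μ - p.1)‖
        ≤ ‖f.co p.2 * (T p.2).co (p.1 - p.2)‖ * ‖h.co (μ - p.1)‖ := norm_mul_le _ _
      _ ≤ (‖f.co p.2‖ * ‖(T p.2).co (p.1 - p.2)‖) * C :=
          mul_le_mul (norm_mul_le _ _) (hC _) (norm_nonneg _) (by positivity)
  have e1 : ∑' p : Gx × Gx, f.co p.2 * (T p.2).co (p.1 - p.2) * h.co (μ - p.1) =
      (F * h).co μ := by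
    rw [h2.tsum_prod, WT.mul_co]
    refine tsum_congr fun lam => ?_
    exact ((hF lam).mul_right (h.co (μ - lam))).tsum_eq
  have h4 : HasSum (fun p : Gx × Gx => f.co p.2 * (T p.2).co (p.1 - p.2) * h.co (μ - p.1))
      ((F * h).co μ) := by rw [← e1]; exact h2.hasSum
  have h5 : HasSum (fun p : Gx × Gx => f.co p.1 * (T p.1).co (p.2 - p.1) * h.co (μ - p.2))
      ((F * h).co μ) := ((Equiv.prodComm Gx Gx).hasSum_iff
        (f := fun p : Gx × Gx => f.co p.2 * (T p.2).co (p.1 - p.2) * h.co (μ - p.1))).2 h4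
  refine h5.prod_fiberwise fun ν => ?_
  have h6 : HasSum (fun lam => (T ν).co lam * h.co (μ - ν - lam)) ((h * T ν).co (μ - ν)) := by
    rw [mul_comm h (T ν), WT.mul_co]
    exact (conv_summable (T ν).rapid h.rapid (μ - ν)).hasSum
  have h7 := h6.mul_left (f.co ν)
  have h8 := ((Equiv.subRight ν).hasSum_iff
    (f := fun lam => f.co ν * ((T ν).co lam * h.co (μ - ν - lam)))).2 h7
  convert h8 using 1
  funext lam
  simp only [Function.comp_apply, Equiv.subRight_apply]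
  rw [mul_assoc]
  congr 3
  abel

lemma conv_norm_le {h T : WT} {C : ℝ} (hC : ∀ μ, ‖h.co μ‖ ≤ C) (μ : Gx) :
    ‖(h * T).co μ‖ ≤ C * ∑' lam, ‖T.co lam‖ := by
  rw [mul_comm h T, WT.mul_co, ← tsum_mul_left]
  refine tsum_of_norm_bounded ((rapid_norm T.rapid).mul_left C).hasSum fun lam => ?_
  refine (norm_mul_le _ _).trans ?_
  rw [mul_comm]
  exact mul_le_mul_of_nonneg_right (hC _) (norm_nonneg _)

lemma exists_norm_bound (h : WT) : ∃ C, 0 ≤ C ∧ ∀ μ, ‖h.co μ‖ ≤ C :=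
  ⟨∑' μ, ‖h.co μ‖, tsum_nonneg fun _ => norm_nonneg _, fun μ =>
    (rapid_norm h.rapid).le_tsum μ (fun _ _ => norm_nonneg _)⟩

/-- Majorant of a twisted sum. -/
lemma twist_bd {k : ℕ} {r : ℝ → ℝ} {f F : WT} {T : Gx → WT} {A : Gx → ℝ}
    {d : Gx → Gx → ℝ} {D : Gx → ℝ} {c : ℝ} (hr : ∀ t, 0 ≤ r t)
    (hA : ∀ ν, 0 ≤ A ν)
    (hfA : ∀ ν t, (1 + (len ν : ℝ)) ^ k * Real.exp (r t * len ν) * ‖f.co ν t‖ ≤ A ν)
    (hd : ∀ ν μ, 0 ≤ d ν μ) (hds : ∀ ν, Summable (d ν)) (hdD : ∀ ν, ∑' μ, d ν μ ≤ D ν)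
    (hTd : ∀ ν μ t, (1 + (len μ : ℝ)) ^ k * Real.exp (r t * len μ) * ‖(T ν).co μ t‖ ≤ d ν μ)
    (hAD : Summable fun ν => A ν * D ν) (hc : ∑' ν, A ν * D ν ≤ c)
    (hF : ∀ μ, HasSum (fun ν => f.co ν * (T ν).co (μ - ν)) (F.co μ)) : Bd k r F c := by
  obtain ⟨h1, h2⟩ := summable_twist hA hd hds hdD hAD
  have h3 : Summable fun p : Gx × Gx => A p.2 * d p.2 (p.1 - p.2) :=
    (shr.summable_iff (f := fun p : Gx × Gx => A p.1 * d p.1 p.2)).2 h1
  have e3 : ∑' p : Gx × Gx, A p.2 * d p.2 (p.1 - p.2) = ∑' p : Gx × Gx, A p.1 * d p.1 p.2 :=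
    shr.tsum_eq (fun p : Gx × Gx => A p.1 * d p.1 p.2)
  refine ⟨fun μ => ∑' ν, A ν * d ν (μ - ν), fun μ => tsum_nonneg fun ν =>
    mul_nonneg (hA ν) (hd _ _), h3.prod, ?_, fun μ t => ?_⟩
  · rw [← h3.tsum_prod, e3]
    exact h2.trans hc
  · have h4 : Summable fun ν => A ν * d ν (μ - ν) := h3.prod_factor μ
    have h5 : HasSum (fun ν => f.co ν t * (T ν).co (μ - ν) t) (F.co μ t) := by
      have := (hF μ).map (BoundedContinuousFunction.evalCLM ℂ t)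
        (BoundedContinuousFunction.evalCLM ℂ t).continuous
      simpa [Function.comp_def] using this
    have hw : 0 < (1 + (len μ : ℝ)) ^ k * Real.exp (r t * len μ) := by positivity
    have h6 : ‖F.co μ t‖ ≤ ((1 + (len μ : ℝ)) ^ k * Real.exp (r t * len μ))⁻¹ *
        ∑' ν, A ν * d ν (μ - ν) := by
      rw [← h5.tsum_eq, ← tsum_mul_left]
      refine tsum_of_norm_bounded (h4.mul_left _).hasSum fun ν => ?_
      rw [inv_mul_eq_div, le_div_iff₀ hw]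
      have a1 : (1 + (len μ : ℝ)) ^ k ≤ (1 + (len ν : ℝ)) ^ k * (1 + (len (μ - ν) : ℝ)) ^ k := by
        rw [← mul_pow]
        exact pow_le_pow_left₀ (by positivity) (one_add_len_le μ ν) k
      have a2 : Real.exp (r t * len μ) ≤
          Real.exp (r t * len ν) * Real.exp (r t * len (μ - ν)) := by
        rw [← Real.exp_add, ← mul_add]
        refine Real.exp_le_exp.2 (mul_le_mul_of_nonneg_left ?_ (hr t))
        have := len_add ν (μ - ν)
        rw [add_sub_cancel] at this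
        exact_mod_cast this
      calc ‖f.co ν t * (T ν).co (μ - ν) t‖ * ((1 + (len μ : ℝ)) ^ k * Real.exp (r t * len μ))
          = ((1 + (len μ : ℝ)) ^ k * Real.exp (r t * len μ)) *
            (‖f.co ν t‖ * ‖(T ν).co (μ - ν) t‖) := by rw [norm_mul]; ring
        _ ≤ (((1 + (len ν : ℝ)) ^ k * (1 + (len (μ - ν) : ℝ)) ^ k) *
            (Real.exp (r t * len ν) * Real.exp (r t * len (μ - ν)))) *
            (‖f.co ν t‖ * ‖(T ν).co (μ - ν) t‖) := by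
              refine mul_le_mul_of_nonneg_right ?_ (by positivity)
              exact mul_le_mul a1 a2 (by positivity) (by positivity)
        _ = ((1 + (len ν : ℝ)) ^ k * Real.exp (r t * len ν) * ‖f.co ν t‖) *
            ((1 + (len (μ - ν) : ℝ)) ^ k * Real.exp (r t * len (μ - ν)) *
              ‖(T ν).co (μ - ν) t‖) := by ring
        _ ≤ A ν * d ν (μ - ν) := by
              exact mul_le_mul (hfA ν t) (hTd ν (μ - ν) t) (by positivity) (hA ν)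
    rw [inv_mul_eq_div, le_div_iff₀ hw] at h6
    rw [mul_comm]
    exact h6

lemma CH.r0 {κ : Kp} {lam r0 z : ℝ} {r : ℝ → ℝ} {ζ : Fin 2 → WT} (H : CH κ lam r0 z r ζ)
    (t : ℝ) : 0 ≤ r t := H.r00.le.trans (H.hr t)

lemma ikz_TD (κ : Kp) {a b : ℝ} {ζ ζ' : Fin 2 → WT} (hζ : ∀ j, TD a b (ζ j) (ζ' j))
    (ν : Gx) : TD a b (ikz κ ζ ν) (ikz κ ζ' ν) := by
  unfold ikz
  exact TD.add (TD.smul _ (hζ 0)) (TD.smul _ (hζ 1))

end ES
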