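import Pool.Agent.H16.TSS.ES.LCompA_2
import Pool.Agent.H16.TSS.ES.SDer

/-!
ES-SDer: bounds of the functions derived from `ζ` (EW 2, Lemma 2.1).  `K = 1 + 1/m`.
Use `Bd.margin` (radius `r+2m -> r+m` gives one power, cost `K`), `comp_bd` with `z = m`
(`2 lam N(ζ) ≤ 1/(128 K) ≤ m`), `Bd.mul`, `Bd.D`.
`FF = comp F · P`, `F = idm + grad ξ` and `comp 1 = 1`, `comp 0 = 0`.
-/

open scoped BoundedContinuousFunction

namespace ES

/-! private helpers -/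

section
variable {d : Dat} {lam g σ c m r0 : ℝ} {r : ℝ → ℝ} {ζ : Vec}

/-- Composition of order 0, with one power, with two powers. -/
theorem DH.comp0 (H : DH d lam g σ c m r0 r) (hζ : ZH lam m r ζ) {f : WT} {e : ℝ}
    (hf : Bd 0 (fun t => r t + 2 * m) f e) : Bd 0 r (comp d.κ ζ f) e :=
  comp_bd (H.ch hζ) (fun a => (hζ a).weaken (Nat.zero_le _) fun _ => le_rfl) H.y_le
    (hf.weaken le_rfl fun t => by linarith [H.hm])

theorem DH.comp1 (H : DH d lam g σ c m r0 r) (hζ : ZH lam m r ζ) {f : WT} {e : ℝ}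
    (hf : Bd 0 (fun t => r t + 2 * m) f e) : Bd 1 r (comp d.κ ζ f) ((1 + 1 / m) * e) := by
  have h1 : Bd 1 (fun t => r t + m) f ((1 + 1 / m) * e) :=
    hf.margin H.hm (fun t => by linarith)
  exact comp_bd (H.ch hζ) (fun a => (hζ a).weaken (by norm_num) fun _ => le_rfl) H.y_le h1

/-- `comp F a b - idm a b = comp (grad ξ a b)`. -/
theorem DH.comp_F (H : DH d lam g σ c m r0 r) (hζ : ZH lam m r ζ) (a b : Fin 2) :
    comp d.κ ζ (d.F a b) - idm a b = comp d.κ ζ (grad d.κ d.ξ a b) := by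
  have hF : d.F a b = idm a b + grad d.κ d.ξ a b := rfl
  have h1 : comp d.κ ζ (idm a b) = idm a b := by
    unfold idm
    split_ifs
    · exact comp_one (H.ch hζ)
    · exact comp_zero (H.ch hζ)
  rw [hF, comp_add (H.ch hζ) (SDer_idm1 0 _ a b)
    ((H.bF a b).weaken le_rfl fun t => by linarith [H.hm]), h1]
  ring

theorem DH.bd_compF0 (H : DH d lam g σ c m r0 r) (hζ : ZH lam m r ζ) (a b : Fin 2) :
    Bd 0 r (comp d.κ ζ (d.F a b) - idm a b) c := by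
  rw [H.comp_F hζ]; exact H.comp0 hζ (H.bF a b)

theorem DH.bd_compF1 (H : DH d lam g σ c m r0 r) (hζ : ZH lam m r ζ) (a b : Fin 2) :
    Bd 1 r (comp d.κ ζ (d.F a b)) (1 + 1 / m) := by
  have h := (H.comp1 hζ (H.bF a b)).add (SDer_idm1 1 r a b)
  rw [← H.comp_F hζ, sub_add_cancel] at h
  refine h.mono ?_
  have h1 := H.K2
  have h2 := H.hc
  nlinarith [mul_le_mul_of_nonneg_left h2 (by linarith : 0 ≤ 1 + 1 / m)]

private theorem DH.bd_FFp (H : DH d lam g σ c m r0 r) (hζ : ZH lam m r ζ) {y : ℝ}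
    (hy : ∀ j, Bd 1 r (ζ j) y) (a b : Fin 2) :
    Bd 0 r (FF d ζ a b - idm a b) (c + lam * y * (1 + 2 * c)) := by
  have h := SDer_mulII (X := fun c => comp d.κ ζ (d.F a c)) (Y := fun c => Pm d ζ c b)
    H.r_nonneg a b (fun c => H.bd_compF0 hζ a c) (fun c => H.bd_P' hy c b)
  exact h.mono (by linarith)

theorem DH.bd_FF0 (H : DH d lam g σ c m r0 r) (hζ : ZH lam m r ζ) (a b : Fin 2) :
    Bd 0 r (FF d ζ a b - idm a b) (3 / 250) := by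
  have h := H.bd_FFp hζ (fun j => (hζ j).weaken (by norm_num) fun _ => le_rfl) a b
  refine h.mono ?_
  rw [H.lamy]
  have h1 := H.small
  have h2 := H.small0
  have h3 := H.hc
  have h4 := H.hc0
  nlinarith [mul_le_mul h1 h3 h4 (by norm_num : (0:ℝ) ≤ 1 / 512)]

/-- Sharper form. -/
theorem DH.bd_FF' (H : DH d lam g σ c m r0 r) (hζ : ZH lam m r ζ) {y : ℝ}
    (hy : ∀ j, Bd 1 r (ζ j) y) (a b : Fin 2) :
    Bd 0 r (FF d ζ a b - idm a b) (c + lam * y * (1 + 2 * c)) := H.bd_FFp hζ hy a b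

theorem DH.bd_FF1 (H : DH d lam g σ c m r0 r) (hζ : ZH lam m r ζ) (a b : Fin 2) :
    Bd 1 r (FF d ζ a b) (3 * (1 + 1 / m)) := by
  have h := SDer_mul2 (X := fun c => comp d.κ ζ (d.F a c)) (Y := fun c => Pm d ζ c b)
    H.r_nonneg (fun c => H.bd_compF1 hζ a c) (fun c => H.bd_P1 hζ c b)
  exact h.mono (by linarith [H.K2])

theorem DH.bd_MM0 (H : DH d lam g σ c m r0 r) (hζ : ZH lam m r ζ) (a b : Fin 2) :
    Bd 0 r (MM d ζ a b - idm a b) (3 / 250) := by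
  have e00 : MM d ζ 0 0 - idm 0 0 = FF d ζ 1 1 - idm 1 1 := by simp [MM, adj, idm]
  have e01 : MM d ζ 0 1 - idm 0 1 = -(FF d ζ 0 1 - idm 0 1) := by simp [MM, adj, idm]
  have e10 : MM d ζ 1 0 - idm 1 0 = -(FF d ζ 1 0 - idm 1 0) := by simp [MM, adj, idm]
  have e11 : MM d ζ 1 1 - idm 1 1 = FF d ζ 0 0 - idm 0 0 := by simp [MM, adj, idm]
  fin_cases a <;> fin_cases b
  · exact e00 ▸ H.bd_FF0 hζ 1 1
  · exact e01 ▸ (H.bd_FF0 hζ 0 1).neg
  · exact e10 ▸ (H.bd_FF0 hζ 1 0).neg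
  · exact e11 ▸ H.bd_FF0 hζ 0 0

theorem DH.bd_MM1 (H : DH d lam g σ c m r0 r) (hζ : ZH lam m r ζ) (a b : Fin 2) :
    Bd 1 r (MM d ζ a b) (3 * (1 + 1 / m)) := by
  have e00 : MM d ζ 0 0 = FF d ζ 1 1 := by simp [MM, adj]
  have e01 : MM d ζ 0 1 = -(FF d ζ 0 1) := by simp [MM, adj]
  have e10 : MM d ζ 1 0 = -(FF d ζ 1 0) := by simp [MM, adj]
  have e11 : MM d ζ 1 1 = FF d ζ 0 0 := by simp [MM, adj]
  fin_cases a <;> fin_cases b
  · exact e00 ▸ H.bd_FF1 hζ 1 1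
  · exact e01 ▸ (H.bd_FF1 hζ 0 1).neg
  · exact e10 ▸ (H.bd_FF1 hζ 1 0).neg
  · exact e11 ▸ H.bd_FF1 hζ 0 0

private theorem DH.bd_LLp (H : DH d lam g σ c m r0 r) (hζ : ZH lam m r ζ) {y : ℝ}
    (hy : ∀ j, Bd 1 r (ζ j) y) (a b : Fin 2) :
    Bd 0 r (LL d ζ a b) (g * (1 + 2 * (lam * y))) := by
  have h := SDer_mulI (X := fun c => comp d.κ ζ (d.G a c)) (Y := fun c => Pm d ζ c b)
    H.r_nonneg b (fun c => H.comp0 hζ (H.bG a c)) (fun c => H.bd_P' hy c b)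
  exact h.mono (by linarith)

theorem DH.bd_LL0 (H : DH d lam g σ c m r0 r) (hζ : ZH lam m r ζ) (a b : Fin 2) :
    Bd 0 r (LL d ζ a b) (2 * g) := by
  have h := H.bd_LLp hζ (fun j => (hζ j).weaken (by norm_num) fun _ => le_rfl) a b
  refine h.mono ?_
  rw [H.lamy]
  nlinarith [mul_le_mul_of_nonneg_left H.small H.hg, H.hg]

/-- Sharper form. -/
theorem DH.bd_LL' (H : DH d lam g σ c m r0 r) (hζ : ZH lam m r ζ) {y : ℝ}
    (hy : ∀ j, Bd 1 r (ζ j) y) (a b : Fin 2) :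
    Bd 0 r (LL d ζ a b) (g * (1 + 2 * (lam * y))) := H.bd_LLp hζ hy a b

theorem DH.bd_RR0 (H : DH d lam g σ c m r0 r) (hζ : ZH lam m r ζ) (a b : Fin 2) :
    Bd 0 r (RR d ζ a b) σ := H.comp0 hζ (H.bR a b)

theorem DH.bd_RR1 (H : DH d lam g σ c m r0 r) (hζ : ZH lam m r ζ) (a b : Fin 2) :
    Bd 1 r (RR d ζ a b) ((1 + 1 / m) * σ) := H.comp1 hζ (H.bR a b)

theorem DH.bd_RM0 (H : DH d lam g σ c m r0 r) (hζ : ZH lam m r ζ) (a b : Fin 2) :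
    Bd 0 r (mulT (RR d ζ) (MM d ζ) a b) (2 * σ) := by
  have hs : ∀ c, idm c b = idm b c := fun c => by unfold idm; simp only [eq_comm]
  have h := SDer_mulI (X := fun c => RR d ζ a c) (Y := fun c => MM d ζ b c)
    H.r_nonneg b (fun c => H.bd_RR0 hζ a c) (fun c => by rw [hs]; exact H.bd_MM0 hζ b c)
  exact h.mono (by nlinarith [H.hσ])

theorem DH.bd_RM1 (H : DH d lam g σ c m r0 r) (hζ : ZH lam m r ζ) (a b : Fin 2) :
    Bd 1 r (mulT (RR d ζ) (MM d ζ) a b) (6 * (1 + 1 / m) ^ 2 * σ) := by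
  have h := SDer_mul2 (X := fun c => RR d ζ a c) (Y := fun c => MM d ζ b c)
    H.r_nonneg (fun c => H.bd_RR1 hζ a c) (fun c => H.bd_MM1 hζ b c)
  exact h.mono (le_of_eq (by ring))

theorem DH.bd_dvm (H : DH d lam g σ c m r0 r) (hζ : ZH lam m r ζ) (a : Fin 2) :
    Bd 0 r (dvm d.κ (mulT (RR d ζ) (MM d ζ)) a) (12 * (1 + 1 / m) ^ 2 * lam * σ) :=
  SDer_sum2 ((H.bd_RM1 hζ a 0).D H.kb 0) ((H.bd_RM1 hζ a 1).D H.kb 1) (le_of_eq (by ring))

theorem DH.bd_B1 (H : DH d lam g σ c m r0 r) (hζ : ZH lam m r ζ) (a : Fin 2) :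
    Bd 1 r (comp d.κ ζ (d.B a)) ((1 + 1 / m) * (g / lam)) := H.comp1 hζ (H.bB a)

/-! products with `P`, `F'`, `M'ᵀ` -/

private theorem DH.mulv_FIp (H : DH d lam g σ c m r0 r) (hζ : ZH lam m r ζ) {x : Vec} {e : ℝ}
    (hx : ∀ j, Bd 0 r (x j) e) (a : Fin 2) :
    Bd 0 r (mulv (FF d ζ) x a - x a) (6 / 250 * e) :=
  (SDer_vI H.r_nonneg a (fun c => H.bd_FF0 hζ a c) hx).mono (le_of_eq (by ring))

theorem DH.mulv_F0 (H : DH d lam g σ c m r0 r) (hζ : ZH lam m r ζ) {x : Vec} {e : ℝ}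
    (hx : ∀ j, Bd 0 r (x j) e) (a : Fin 2) : Bd 0 r (mulv (FF d ζ) x a) (103 / 100 * e) := by
  have h := (H.mulv_FIp hζ hx a).add (hx a)
  rw [sub_add_cancel] at h
  exact h.mono (by linarith [(hx 0).nonneg])

theorem DH.mulv_F1 (H : DH d lam g σ c m r0 r) (hζ : ZH lam m r ζ) {x : Vec} {e : ℝ}
    (hx : ∀ j, Bd 1 r (x j) e) (a : Fin 2) :
    Bd 1 r (mulv (FF d ζ) x a) (6 * (1 + 1 / m) * e) :=
  (SDer_mul2 (X := fun c => FF d ζ a c) (Y := x) H.r_nonneg (fun c => H.bd_FF1 hζ a c) hx).mono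
    (le_of_eq (by ring))

theorem DH.mulv_FI (H : DH d lam g σ c m r0 r) (hζ : ZH lam m r ζ) {x : Vec} {e : ℝ}
    (hx : ∀ j, Bd 0 r (x j) e) (a : Fin 2) :
    Bd 0 r (mulv (FF d ζ) x a - x a) (6 / 250 * e) := H.mulv_FIp hζ hx a

theorem DH.mulvT_MI (H : DH d lam g σ c m r0 r) (hζ : ZH lam m r ζ) {x : Vec} {e : ℝ}
    (hx : ∀ j, Bd 0 r (x j) e) (a : Fin 2) :
    Bd 0 r (mulvT (MM d ζ) x a - x a) (6 / 250 * e) := by
  have hs : ∀ c, idm a c = idm c a := fun c => by unfold idm; simp only [eq_comm]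
  exact (SDer_vI (X := fun c => MM d ζ c a) H.r_nonneg a
    (fun c => by rw [hs]; exact H.bd_MM0 hζ c a) hx).mono (le_of_eq (by ring))

end

end ES
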