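import Pool.Agent.H16.TSS.ES.LMul
import Pool.Agent.H16.TSS.ES.LTime
import Pool.Agent.H16.TSS.M05

/-!
ES-XCal: calculus of vectors and matrices with entries in `WT` (EW 1, EW 3): adjugates, Piola
identities, rotated gradients.  Everything follows from `D_mul`, `D_comm`, `map_add`, ... and
`Fin.sum_univ_two`, `ring`.
-/

namespace ES

/-- The projection on the divergence free fields as a rotated gradient. -/
private theorem XCal_Ps_sum (κ : Kp) (g : Vec) (a : Fin 2) :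
    ∑ b, Ps κ a b (g b) = dp κ a (strm κ g) := by
  have h : ∀ b, Lin κ (dp κ b (g b)) = dp κ b (Lin κ (g b)) := by
    intro b
    unfold dp
    by_cases h : b = 0
    · rw [if_pos h, LinearMap.neg_apply, LinearMap.neg_apply, map_neg, Lin_D]
    · rw [if_neg h, Lin_D]
  unfold strm
  rw [map_sum]
  simp only [h, map_sum, Ps_eq]

theorem mulv_adj {F : Mat} (h : det2 F = 1) (x : Vec) (a : Fin 2) :
    mulv F (mulv (adj F) x) a = x a := by
  unfold det2 at h
  fin_cases a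
  · simp [mulv, Fin.sum_univ_two, adj]
    linear_combination x 0 * h
  · simp [mulv, Fin.sum_univ_two, adj]
    linear_combination x 1 * h

theorem mulv_adj' {F : Mat} (h : det2 F = 1) (x : Vec) (a : Fin 2) :
    mulv (adj F) (mulv F x) a = x a := by
  unfold det2 at h
  fin_cases a
  · simp [mulv, Fin.sum_univ_two, adj]
    linear_combination x 0 * h
  · simp [mulv, Fin.sum_univ_two, adj]
    linear_combination x 1 * h

theorem det2_mulM (F P : Mat) : det2 (mulM F P) = det2 F * det2 P := by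
  simp only [det2, mulM, Fin.sum_univ_two]
  ring

theorem adj_mulM (F P : Mat) : adj (mulM F P) = mulM (adj P) (adj F) := by
  funext a b
  fin_cases a <;> fin_cases b <;> simp [mulM, adj, Fin.sum_univ_two] <;> ring

theorem adj_sub_idm (F : Mat) : (adj F 0 0 - idm 0 0 = F 1 1 - idm 1 1) ∧
    (adj F 0 1 - idm 0 1 = -(F 0 1 - idm 0 1)) ∧ (adj F 1 0 - idm 1 0 = -(F 1 0 - idm 1 0)) ∧
    (adj F 1 1 - idm 1 1 = F 0 0 - idm 0 0) := by
  refine ⟨?_, ?_, ?_, ?_⟩ <;> simp [adj, idm]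

/-- Piola identity. -/
theorem piola (κ : Kp) (ξ : Vec) (a : Fin 2) : ∑ j, D κ j (adj (Fm κ ξ) j a) = 0 := by
  fin_cases a
  · simp only [Fin.sum_univ_two, adj, Fm, idm, grad]
    simp [map_add, D_one]
    rw [D_comm κ κ 1 0]
    ring
  · simp only [Fin.sum_univ_two, adj, Fm, idm, grad]
    simp [map_add, D_one]
    rw [D_comm κ κ 1 0]
    ring

theorem gradT_eq_dvm (κ : Kp) (ξ : Vec) (p : WT) (a : Fin 2) :
    gradT κ (adj (Fm κ ξ)) p a = dvm κ (TM (adj (Fm κ ξ)) p) a := by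
  have h := piola κ ξ a
  rw [Fin.sum_univ_two] at h
  simp only [gradT, mulvT, dvm, TM, Fin.sum_univ_two, D_mul]
  linear_combination (-p) * h

/-- Transport term in divergence form. -/
theorem adv_eq_dvm (κ : Kp) {x : Vec} (hx : dvg κ x = 0) (y : Vec) (a : Fin 2) :
    adv κ x y a = dvm κ (fun a j => x j * y a) a := by
  unfold dvg at hx
  rw [Fin.sum_univ_two] at hx
  simp only [adv, dvm, Fin.sum_univ_two, D_mul]
  linear_combination (-(y a)) * hx

theorem mulv_dp (κ : Kp) (ξ : Vec) (Ψ : WT) (a : Fin 2) :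
    mulv (Fm κ ξ) (fun c => dp κ c Ψ) a = dvm κ (TF (Fm κ ξ) Ψ) a := by
  have h := D_comm κ κ 0 1 (ξ a)
  fin_cases a
  · simp [mulv, dp, dvm, TF, Fm, idm, grad, Fin.sum_univ_two, D_mul, D_one] at h ⊢
    linear_combination (-Ψ) * h
  · simp [mulv, dp, dvm, TF, Fm, idm, grad, Fin.sum_univ_two, D_mul, D_one] at h ⊢
    linear_combination (-Ψ) * h

theorem adv_dp (κ : Kp) (Ψ : WT) (y : Vec) (a : Fin 2) :
    adv κ (fun c => dp κ c Ψ) y a = dvm κ (TA κ Ψ y) a := by
  have h := D_comm κ κ 0 1 (y a)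
  simp [adv, dp, dvm, TA, Fin.sum_univ_two, D_mul] at h ⊢
  linear_combination (-Ψ) * h

theorem dp_eq_dvm (κ : Kp) (Ψ : WT) (a : Fin 2) : dp κ a Ψ = dvm κ (TF idm Ψ) a := by
  fin_cases a <;> simp [dp, dvm, TF, idm, Fin.sum_univ_two]

theorem D_eq_dvm (κ : Kp) (p : WT) (a : Fin 2) : D κ a p = dvm κ (TM idm p) a := by
  fin_cases a <;> simp [dvm, TM, idm, Fin.sum_univ_two]

theorem dvm_add (κ : Kp) (X Y : Mat) (a : Fin 2) :
    dvm κ (fun a j => X a j + Y a j) a = dvm κ X a + dvm κ Y a := by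
  simp only [dvm, Fin.sum_univ_two, map_add]
  ring

theorem dvm_sub (κ : Kp) (X Y : Mat) (a : Fin 2) :
    dvm κ (fun a j => X a j - Y a j) a = dvm κ X a - dvm κ Y a := by
  simp only [dvm, Fin.sum_univ_two, map_sub]
  ring

theorem TF_sub (F G : Mat) (Ψ : WT) : TF (fun a b => F a b - G a b) Ψ =
    fun a j => TF F Ψ a j - TF G Ψ a j := by
  funext a j
  by_cases h : j = 0
  · simp only [TF, h, if_true]
    ring
  · simp only [TF, h, if_false]
    ring

theorem TM_sub (F G : Mat) (Ψ : WT) : TM (fun a b => F a b - G a b) Ψ =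
    fun a j => TM F Ψ a j - TM G Ψ a j := by
  funext a j
  simp only [TM]
  ring

theorem Pnz_dvm (κ : Kp) (X : Mat) (a : Fin 2) : Pnz κ (dvm κ X a) = dvm κ X a := by
  simp only [dvm, map_sum, Pnz_D]

/-- Fields without divergence and without zero frequency modes are rotated gradients. -/
theorem eq_dp_strm (κ : Kp) {x : Vec} (hx : dvg κ x = 0) (hz : ∀ a, Pnz κ (x a) = x a)
    (a : Fin 2) : x a = dp κ a (strm κ x) := by
  have h1 := Ps_of_div κ x hx a
  rw [hz a] at h1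
  rw [← h1, XCal_Ps_sum]

theorem Pnz_strm (κ : Kp) (x : Vec) : Pnz κ (strm κ x) = strm κ x := by
  unfold strm
  exact Pnz_Lin κ _

theorem Pnz_pot (κ : Kp) (x : Vec) : Pnz κ (pot κ x) = pot κ x := by
  unfold pot
  exact Pnz_Lin κ _

/-- `F' x` has no zero frequency modes if `x` is divergence free without zero frequency modes. -/
theorem Pnz_mulv (κ : Kp) (ξ : Vec) {x : Vec} (hx : dvg κ x = 0) (hz : ∀ a, Pnz κ (x a) = x a)
    (a : Fin 2) : Pnz κ (mulv (Fm κ ξ) x a) = mulv (Fm κ ξ) x a := by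
  have h1 : x = fun c => dp κ c (strm κ x) := by
    funext c
    exact eq_dp_strm κ hx hz c
  have h2 : mulv (Fm κ ξ) x a = dvm κ (TF (Fm κ ξ) (strm κ x)) a := by
    rw [← mulv_dp κ ξ (strm κ x) a, ← h1]
  rw [h2, Pnz_dvm]

theorem Pnz_adv (κ : Kp) {x : Vec} (hx : dvg κ x = 0) (y : Vec) (a : Fin 2) :
    Pnz κ (adv κ x y a) = adv κ x y a := by
  rw [adv_eq_dvm κ hx y a, Pnz_dvm]

theorem Pg_eq_D_pot (κ : Kp) (g : Vec) (a : Fin 2) :
    ∑ b, Pg κ a b (g b) = D κ a (pot κ g) := by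
  simp only [Pg_eq, pot, dvg, Fin.sum_univ_two, Lin_D, map_add]

/-- `pot` recovers the potential. -/
theorem pot_D (κ : Kp) (p : WT) : pot κ (fun a => D κ a p) = Pnz κ p := by
  have h := lap_Lin κ p
  unfold pot dvg
  rw [map_sum]
  simp only [Lin_D]
  exact h

theorem strm_dp (κ : Kp) (p : WT) : strm κ (fun a => dp κ a p) = Pnz κ p := by
  have h := lap_Lin κ p
  rw [Fin.sum_univ_two] at h
  simp [strm, dp, Fin.sum_univ_two, Lin_D]
  linear_combination h

theorem strm_D (κ : Kp) (p : WT) : strm κ (fun a => D κ a p) = 0 := by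
  have h := D_comm κ κ 0 1 (Lin κ p)
  simp [strm, dp, Fin.sum_univ_two, Lin_D] at h ⊢
  linear_combination h

theorem pot_dp (κ : Kp) (p : WT) : pot κ (fun a => dp κ a p) = 0 := by
  have h := D_comm κ κ 0 1 (Lin κ p)
  simp [pot, dvg, dp, Fin.sum_univ_two, Lin_D] at h ⊢
  linear_combination (-1 : WT) * h

/-- `a = Ps g`, `q = Pg g` and `g = Pnz g` give `a + q = g`. -/
theorem Ps_add_Pg_vec (κ : Kp) (g : Vec) (a : Fin 2) :
    ∑ b, Ps κ a b (g b) + ∑ b, Pg κ a b (g b) = Pnz κ (g a) := by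
  rw [← Finset.sum_add_distrib]
  simp only [Ps_add_Pg]
  rw [Finset.sum_ite_eq]
  simp

theorem TD_det2 {s t : ℝ} {F F' : Mat} (h : ∀ a b, TD s t (F a b) (F' a b)) :
    TD s t (det2 F) (∑ a, ∑ b, adj F b a * F' a b) := by
  have h1 := TD.sub (TD.mul (h 0 0) (h 1 1)) (TD.mul (h 0 1) (h 1 0))
  have h2 : (∑ a, ∑ b, adj F b a * F' a b) =
      F' 0 0 * F 1 1 + F 0 0 * F' 1 1 - (F' 0 1 * F 1 0 + F 0 1 * F' 1 0) := by
    simp [Fin.sum_univ_two, adj]
    ring
  rw [h2]
  exact h1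

end ES
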