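import Pool.Agent.H16.TSS.ES.LBd_6
import Pool.Agent.H16.TSS.ES.LCompA_1
import Pool.Agent.H16.TSS.ES.LCompB_1
import Pool.Agent.H16.TSS.ES.SDer_1
import Pool.Agent.H16.TSS.ES.XCal
import Pool.Agent.H16.TSS.M12

/-!
ES-XComp: identities under the change of coordinates `id + ζ` (EW 1, 1.3).  `CH` from `DH.ch`,
`DH` from `SBH.dh`; finite norms at the radius `ρ ≥ r + 2m` from `good` (`Fin0 ρ`), and
`Bd.margin_all` for powers.
-/

open scoped BoundedContinuousFunction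

namespace ES

section
variable {P : SB} {lam g σ ρ c A ρ0 m w η : ℝ} {ζ E W a q : Vec}

/-! ### finite norms -/

/-- finite norm at the radius `r + m` -/
def XComp_Q (P : SB) (ρ0 m : ℝ) (f : WT) : Prop :=
  ∃ c, Bd 0 (fun t => P.r ρ0 m t + m) f c

private theorem XComp_r_le (H : SBH P lam g σ ρ c A ρ0 m w η) (t : ℝ) : P.r ρ0 m t ≤ ρ0 :=
  rad_le H.good.ht H.hm.le t

private theorem XComp_r_nonneg (H : SBH P lam g σ ρ c A ρ0 m w η) (t : ℝ) :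
    0 ≤ P.r ρ0 m t + m := by
  have h1 : ρ0 - m ≤ P.r ρ0 m t := le_rad H.good.ht H.hm.le t
  have h2 := H.hρ0
  have h3 := H.hm
  linarith

private theorem XComp_ZH (H : SBH P lam g σ ρ c A ρ0 m w η)
    (S : SB0 P lam g ρ0 m w ζ E W a q) : ZH lam m (P.r ρ0 m) ζ := by
  intro j
  have h1 := S.nζ j
  have h2 : Bd 2 (P.r ρ0 m) (P.ζa j) (1 / (1024 * lam * (1 + 1 / m))) :=
    (H.zb j).weaken le_rfl (fun t => XComp_r_le H t)
  have h3 := h1.add h2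
  rw [sub_add_cancel] at h3
  refine h3.mono ?_
  have hm := H.hm
  have hl : 0 < lam := lt_of_lt_of_le one_pos H.hlam
  have hK : 0 < lam * (1 + 1 / m) := by positivity
  have e1 : 1 / (512 * lam * (1 + 1 / m)) = 1 / 512 * (1 / (lam * (1 + 1 / m))) := by
    field_simp
  have e2 : 1 / (1024 * lam * (1 + 1 / m)) = 1 / 1024 * (1 / (lam * (1 + 1 / m))) := by
    field_simp
  have e3 : 1 / (256 * lam * (1 + 1 / m)) = 1 / 256 * (1 / (lam * (1 + 1 / m))) := by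
    field_simp
  rw [e1, e2, e3]
  have h4 : 0 < 1 / (lam * (1 + 1 / m)) := by positivity
  linarith

theorem XComp_CH (H : SBH P lam g σ ρ c A ρ0 m w η)
    (S : SB0 P lam g ρ0 m w ζ E W a q) : CH P.d.κ lam m m (P.r ρ0 m) ζ :=
  DH.ch H.dh (XComp_ZH H S)

/-- finite norms of all orders at the radius `r + m` -/
private theorem XComp_all (H : SBH P lam g σ ρ c A ρ0 m w η) {f : WT} (hf : Fin0 ρ f) (n : ℕ) :
    ∃ c', Bd n (fun t => P.r ρ0 m t + m) f c' := by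
  obtain ⟨e, he⟩ := hf
  refine Bd.margin_all (r₁ := cr ρ) H.hm (fun t => ?_) he
  have h1 := XComp_r_le H t
  have h2 := H.hρ1
  show P.r ρ0 m t + m + m ≤ ρ
  linarith

theorem XComp_QF (H : SBH P lam g σ ρ c A ρ0 m w η) {f : WT} (hf : Fin0 ρ f) :
    XComp_Q P ρ0 m f := XComp_all H hf 0

theorem XComp_QD (H : SBH P lam g σ ρ c A ρ0 m w η) {f : WT} (hf : Fin0 ρ f)
    (b : Fin 2) : XComp_Q P ρ0 m (D P.d.κ b f) := by
  obtain ⟨e, he⟩ := XComp_all H hf 1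
  exact ⟨_, Bd.D H.good.kb b he⟩

theorem XComp_Qmul (H : SBH P lam g σ ρ c A ρ0 m w η) {f h : WT}
    (hf : XComp_Q P ρ0 m f) (hh : XComp_Q P ρ0 m h) : XComp_Q P ρ0 m (f * h) := by
  obtain ⟨e, he⟩ := hf
  obtain ⟨e', he'⟩ := hh
  exact ⟨_, he.mul (fun t => XComp_r_nonneg H t) he'⟩

theorem XComp_add (H : SBH P lam g σ ρ c A ρ0 m w η)
    (S : SB0 P lam g ρ0 m w ζ E W a q) {f h : WT} (hf : XComp_Q P ρ0 m f)
    (hh : XComp_Q P ρ0 m h) : comp P.d.κ ζ (f + h) = comp P.d.κ ζ f + comp P.d.κ ζ h := by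
  obtain ⟨e, he⟩ := hf
  obtain ⟨e', he'⟩ := hh
  exact comp_add (XComp_CH H S) he he'

theorem XComp_sub (H : SBH P lam g σ ρ c A ρ0 m w η)
    (S : SB0 P lam g ρ0 m w ζ E W a q) {f h : WT} (hf : XComp_Q P ρ0 m f)
    (hh : XComp_Q P ρ0 m h) : comp P.d.κ ζ (f - h) = comp P.d.κ ζ f - comp P.d.κ ζ h := by
  obtain ⟨e, he⟩ := hf
  obtain ⟨e', he'⟩ := hh
  exact comp_sub (XComp_CH H S) he he'

theorem XComp_mul (H : SBH P lam g σ ρ c A ρ0 m w η)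
    (S : SB0 P lam g ρ0 m w ζ E W a q) {f h : WT} (hf : XComp_Q P ρ0 m f)
    (hh : XComp_Q P ρ0 m h) : comp P.d.κ ζ (f * h) = comp P.d.κ ζ f * comp P.d.κ ζ h := by
  obtain ⟨e, he⟩ := hf
  obtain ⟨e', he'⟩ := hh
  exact comp_mul (XComp_CH H S) he he'

theorem XComp_finF (H : SBH P lam g σ ρ c A ρ0 m w η) (i j : Fin 2) :
    Fin0 ρ (P.d.F i j) := by
  have h1 : Bd 0 (cr ρ) (idm i j) 1 := by
    unfold idm
    split_ifs
    · exact Bd.one _ _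
    · exact Bd.zero _ _ zero_le_one
  exact ⟨_, h1.add (H.good.bF i j)⟩

/-- Chain rule in matrix form, for every `f` with finite norm at radius `ρ`. -/
theorem D_compF (H : SBH P lam g σ ρ c A ρ0 m w η) (S : SB0 P lam g ρ0 m w ζ E W a q) {f : WT}
    (hf : Fin0 ρ f) (b : Fin 2) :
    D P.d.κ b (comp P.d.κ ζ f) = ∑ k, comp P.d.κ ζ (D P.d.κ k f) * Pm P.d ζ k b := by
  obtain ⟨e, he⟩ := XComp_all H hf 1
  rw [D_comp (XComp_CH H S) he b]
  have h1 : ∀ k, comp P.d.κ ζ (D P.d.κ k f) * Pm P.d ζ k b =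
      comp P.d.κ ζ (D P.d.κ k f) * idm k b + comp P.d.κ ζ (D P.d.κ k f) * D P.d.κ b (ζ k) := by
    intro k
    unfold Pm Fm grad
    ring
  rw [Finset.sum_congr rfl (fun k _ => h1 k), Finset.sum_add_distrib]
  congr 1
  unfold idm
  simp

theorem grad_vz (H : SBH P lam g σ ρ c A ρ0 m w η) (S : SB0 P lam g ρ0 m w ζ E W a q)
    (i b : Fin 2) : D P.d.κ b (vz P.d ζ i) = LL P.d ζ i b := by
  unfold vz LL
  rw [D_compF H S (H.good.fv i) b]
  rfl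

private theorem XComp_compF (H : SBH P lam g σ ρ c A ρ0 m w η)
    (S : SB0 P lam g ρ0 m w ζ E W a q) (i j : Fin 2) :
    comp P.d.κ ζ (P.d.F i j) = idm i j + comp P.d.κ ζ (D P.d.κ j (P.d.ξ i)) := by
  have h := DH.comp_F H.dh (XComp_ZH H S) i j
  have h2 : comp P.d.κ ζ (grad P.d.κ P.d.ξ i j) = comp P.d.κ ζ (D P.d.κ j (P.d.ξ i)) := rfl
  rw [← h2, ← h]
  ring

/-- `FF` is the deformation of the new coordinates. -/
theorem FF_eq (H : SBH P lam g σ ρ c A ρ0 m w η) (S : SB0 P lam g ρ0 m w ζ E W a q) :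
    FF P.d ζ = Fm P.d.κ (nX P.d ζ) := by
  funext i b
  have h1 : FF P.d ζ i b = ∑ k, comp P.d.κ ζ (P.d.F i k) * Pm P.d ζ k b := rfl
  have h2 : Fm P.d.κ (nX P.d ζ) i b = idm i b + D P.d.κ b (ζ i + comp P.d.κ ζ (P.d.ξ i)) := rfl
  rw [h1, h2, map_add, D_compF H S (H.good.fξ i) b]
  have h3 : ∀ k, comp P.d.κ ζ (P.d.F i k) * Pm P.d ζ k b =
      idm i k * Pm P.d ζ k b + comp P.d.κ ζ (D P.d.κ k (P.d.ξ i)) * Pm P.d ζ k b := by
    intro k
    rw [XComp_compF H S i k]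
    ring
  rw [Finset.sum_congr rfl (fun k _ => h3 k), Finset.sum_add_distrib, ← add_assoc]
  congr 1
  have h4 : ∑ k, idm i k * Pm P.d ζ k b = Pm P.d ζ i b := by
    unfold idm
    simp
  rw [h4]
  rfl

private theorem XComp_oscX (H : SBH P lam g σ ρ c A ρ0 m w η)
    (S : SB0 P lam g ρ0 m w ζ E W a q) (i : Fin 2) : osc P.d.i (nX P.d ζ i) = 0 := by
  refine Lev.osc le_rfl ?_
  unfold nX
  obtain ⟨e, he⟩ := XComp_QF H (H.good.fξ i)
  exact (S.lζ i).add (Lev.comp (XComp_CH H S) S.lζ he (H.good.levξ i))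

/-- The same with the frequencies of the next level. -/
theorem FF_eq' (H : SBH P lam g σ ρ c A ρ0 m w η) (S : SB0 P lam g ρ0 m w ζ E W a q) :
    FF P.d ζ = Fm P.κ' (nX P.d ζ) := by
  rw [FF_eq H S]
  funext i b
  show idm i b + D P.d.κ b (nX P.d ζ i) = idm i b + D P.κ' b (nX P.d ζ i)
  congr 1
  unfold SB.κ'
  exact (D_upd_of_osc P.d.κ P.d.i _ (fun a => H.good.k0 a P.d.i le_rfl) b
    (XComp_oscX H S i)).symm

/-- `F^ζ B^ζ = v^ζ - U^ζ`. -/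
theorem comp_FB (H : SBH P lam g σ ρ c A ρ0 m w η) (S : SB0 P lam g ρ0 m w ζ E W a q)
    (j : Fin 2) :
    ∑ k, comp P.d.κ ζ (P.d.F j k) * comp P.d.κ ζ (P.d.B k) =
      comp P.d.κ ζ (P.d.v j) - comp P.d.κ ζ (P.d.U j) := by
  have hF := fun i j => XComp_QF H (XComp_finF H i j)
  have hB : ∀ k, XComp_Q P ρ0 m (P.d.B k) := fun k => XComp_QF H ⟨_, H.good.bB k⟩
  have h1 : mulv P.d.F P.d.B j = P.d.v j - P.d.U j := by
    have h := mulv_adj H.good.det (P.d.v - P.d.U) j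
    exact h
  rw [Fin.sum_univ_two, ← XComp_mul H S (hF j 0) (hB 0), ← XComp_mul H S (hF j 1) (hB 1),
    ← XComp_add H S (XComp_Qmul H (hF j 0) (hB 0)) (XComp_Qmul H (hF j 1) (hB 1)),
    ← XComp_sub H S (XComp_QF H (H.good.fv j)) (XComp_QF H (H.good.fU j)), ← h1]
  unfold mulv
  rw [Fin.sum_univ_two]

/-- `(∑ k, G_jk B_k)^ζ`. -/
theorem comp_adv (H : SBH P lam g σ ρ c A ρ0 m w η) (S : SB0 P lam g ρ0 m w ζ E W a q)
    (j : Fin 2) :
    comp P.d.κ ζ (adv P.d.κ P.d.B P.d.v j) =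
      ∑ k, comp P.d.κ ζ (P.d.G j k) * comp P.d.κ ζ (P.d.B k) := by
  have hB : ∀ k, XComp_Q P ρ0 m (P.d.B k) := fun k => XComp_QF H ⟨_, H.good.bB k⟩
  have hv := fun k => XComp_QD H (H.good.fv j) k
  have h1 : adv P.d.κ P.d.B P.d.v j = P.d.B 0 * D P.d.κ 0 (P.d.v j) +
      P.d.B 1 * D P.d.κ 1 (P.d.v j) := by
    unfold adv
    rw [Fin.sum_univ_two]
  have h2 : ∀ k, P.d.G j k = D P.d.κ k (P.d.v j) := fun _ => rfl
  rw [h1, XComp_add H S (XComp_Qmul H (hB 0) (hv 0)) (XComp_Qmul H (hB 1) (hv 1)),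
    XComp_mul H S (hB 0) (hv 0), XComp_mul H S (hB 1) (hv 1), Fin.sum_univ_two, h2, h2]
  ring

end

end ES
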