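import Pool.Agent.H16.TSS.ES.SPost
import Pool.Agent.H16.TSS.ES.XComp

/-! ES-XDet: the new coordinates are volume preserving (EW 2, Lemma 2.5 (ii)). -/

open scoped BoundedContinuousFunction

namespace ES

section
variable {P : SB} {lam g σ ρ c A ρ0 m w η : ℝ} {ζ E W a q : Vec}

private theorem XDet_alg {R : Type*} [CommRing R] (p00 p01 p10 p11 c00 c01 c10 c11 e0 e1
    x000 x001 x010 x011 x100 x101 x110 x111 d00 d01 d10 d11 : R)
    (hB : c00 + c11 = 0) (hE : d00 + d11 = 0) (s0 : x001 = x010) (s1 : x101 = x110) :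
    (p11 * ((c00 * p00 + c10 * p10) + ((x000 * e0 + p00 * d00) + (x001 * e1 + p01 * d01))) +
        (-p10) * ((c00 * p01 + c10 * p11) + ((x010 * e0 + p00 * d10) + (x011 * e1 + p01 * d11)))) +
      ((-p01) * ((c01 * p00 + c11 * p10) + ((x100 * e0 + p10 * d00) + (x101 * e1 + p11 * d01))) +
        p00 * ((c01 * p01 + c11 * p11) + ((x110 * e0 + p10 * d10) + (x111 * e1 + p11 * d11)))) =
    e0 * ((p11 * x000 + (-p10) * x001) + ((-p01) * x100 + p00 * x101)) +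
      e1 * ((p11 * x010 + (-p10) * x011) + ((-p01) * x110 + p00 * x111)) := by
  linear_combination (p00 * p11 - p01 * p10) * hB + (p00 * p11 - p01 * p10) * hE +
    (p11 * e1 + p10 * e0) * s0 - (p01 * e1 + p00 * e0) * s1

private theorem XDet_D_idm (κ : Kp) (a b c : Fin 2) : D κ c (idm a b) = 0 := by
  unfold idm
  split_ifs
  · exact D_one κ c
  · exact map_zero _

private theorem XDet_frz_idm (t₀ : ℝ) (a b : Fin 2) : frz t₀ (idm a b) = idm a b := by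
  unfold idm frz
  split_ifs
  · exact tcomp_one _
  · exact tcomp_zero _

private theorem XDet_Cl_idm (s t : ℝ) (a b : Fin 2) : Cl s t (idm a b) := by
  unfold idm
  split_ifs
  · exact Cl.one s t
  · exact Cl.zero s t

private theorem XDet_TD_idm (s t : ℝ) (a b : Fin 2) : TD s t (idm a b) 0 := by
  unfold idm
  split_ifs
  · exact TD.one s t
  · exact TD.zero s t

private theorem XDet_Bd_idm (k : ℕ) (r : ℝ → ℝ) (a b : Fin 2) : Bd k r (idm a b) 1 := by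
  unfold idm
  split_ifs
  · exact Bd.one k r
  · exact Bd.zero k r zero_le_one

/-- Determinant of `P` is one: `δ_t = (E·D) δ`, `δ(ta) = 1`; contraction with the gain norm:
`N1(δ-1) ≤ h K · 2·2w·lam N1(δ-1) ≤ N1(δ-1)/2` (`Bd.absorb0`, `Bd.intg_gain`, `TD.eq_intg`). -/
theorem det_P (H : SBH P lam g σ ρ c A ρ0 m w η)
    (hh : 10 ^ 8 * (1 + 1 / m) ^ 5 * (P.tb - P.ta) * g ≤ 1)
    (S : SB0 P lam g ρ0 m w ζ E W a q) (hE : dvg P.d.κ E = 0) : det2 (Pm P.d ζ) = 1 := by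
  have hB := SB0.bh H S
  have hD := H.dh
  have hC := hD.ch hB.z
  have hab : P.ta < P.tb := H.h1.trans (H.h2.trans H.h3)
  have hr0 : ∀ t, 0 ≤ P.r ρ0 m t := fun t => hD.r00.le.trans (hD.hr t)
  have hm := H.hm
  -- the derivative of `ζ`
  have hTDζ : ∀ j, TD P.ta P.tb (ζ j) (comp P.d.κ ζ (P.d.B j) + mulv (Pm P.d ζ) E j) := by
    intro j
    have h1 := (TD.frz P.ta P.tb P.ta (P.ζa j)).add
      (TD.intg (a := P.ta) (b := P.tb) (comp P.d.κ ζ (P.d.B j) + mulv (Pm P.d ζ) E j))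
    rw [H.zt j P.ta, ← S.sol.hζ j, zero_add] at h1
    exact h1
  have hTDP : ∀ i j, TD P.ta P.tb (Pm P.d ζ i j)
      (D P.d.κ j (comp P.d.κ ζ (P.d.B i) + mulv (Pm P.d ζ) E i)) := by
    intro i j
    have h2 := (XDet_TD_idm P.ta P.tb i j).add ((hTDζ i).D P.d.κ j)
    rw [zero_add] at h2
    exact h2
  have hTDd := TD_det2 hTDP
  -- the divergence of `B`
  have hBd : ∀ k, ∃ c', Bd 1 (fun t => P.r ρ0 m t + m) (P.d.B k) c' := by
    intro k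
    refine Bd.margin_all (n := 1) hm (fun t => ?_) (H.good.bB k)
    have h1 : P.r ρ0 m t ≤ ρ0 := rad_le hab hm.le t
    show P.r ρ0 m t + m + m ≤ ρ
    linarith [H.hρ1]
  have hdivB : comp P.d.κ ζ (D P.d.κ 0 (P.d.B 0)) + comp P.d.κ ζ (D P.d.κ 1 (P.d.B 1)) = 0 := by
    have h1 := comp_sum hC (Finset.univ : Finset (Fin 2)) (f := fun k => D P.d.κ k (P.d.B k))
      (fun k _ => by
        obtain ⟨c', hc'⟩ := hBd k
        exact ⟨lam * c', hc'.D H.good.kb k⟩)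
    have h2 : ∑ k, D P.d.κ k (P.d.B k) = 0 := H.good.div
    rw [h2, comp_zero hC, Fin.sum_univ_two] at h1
    exact h1.symm
  have hdivE : D P.d.κ 0 (E 0) + D P.d.κ 1 (E 1) = 0 := by
    have h1 : ∑ k, D P.d.κ k (E k) = 0 := hE
    rwa [Fin.sum_univ_two] at h1
  -- symmetry of second derivatives
  have hDP : ∀ i j c, D P.d.κ c (Pm P.d ζ i j) = D P.d.κ c (D P.d.κ j (ζ i)) := by
    intro i j c
    show D P.d.κ c (idm i j + D P.d.κ j (ζ i)) = _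
    rw [map_add, XDet_D_idm, zero_add]
  have hsym : ∀ i, D P.d.κ 0 (Pm P.d ζ i 1) = D P.d.κ 1 (Pm P.d ζ i 0) := by
    intro i
    rw [hDP, hDP]
    exact D_comm _ _ _ _ _
  -- the derivative of the determinant
  set f : WT := det2 (Pm P.d ζ) - 1 with hf
  have hG : ∑ i, ∑ j, adj (Pm P.d ζ) j i *
      D P.d.κ j (comp P.d.κ ζ (P.d.B i) + mulv (Pm P.d ζ) E i) = ∑ c, E c * D P.d.κ c f := by
    have e1 : ∀ i j, D P.d.κ j (comp P.d.κ ζ (P.d.B i) + mulv (Pm P.d ζ) E i) =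
        (comp P.d.κ ζ (D P.d.κ 0 (P.d.B i)) * Pm P.d ζ 0 j +
          comp P.d.κ ζ (D P.d.κ 1 (P.d.B i)) * Pm P.d ζ 1 j) +
        ((D P.d.κ j (Pm P.d ζ i 0) * E 0 + Pm P.d ζ i 0 * D P.d.κ j (E 0)) +
          (D P.d.κ j (Pm P.d ζ i 1) * E 1 + Pm P.d ζ i 1 * D P.d.κ j (E 1))) := by
      intro i j
      have e2 : mulv (Pm P.d ζ) E i = Pm P.d ζ i 0 * E 0 + Pm P.d ζ i 1 * E 1 := by
        show ∑ b, Pm P.d ζ i b * E b = _
        rw [Fin.sum_univ_two]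
      rw [map_add, D_compF H S ⟨_, H.good.bB i⟩ j, Fin.sum_univ_two, e2, map_add, D_mul, D_mul]
    have e3 : ∀ c, D P.d.κ c f =
        (Pm P.d ζ 1 1 * D P.d.κ c (Pm P.d ζ 0 0) + (-Pm P.d ζ 1 0) * D P.d.κ c (Pm P.d ζ 0 1)) +
        ((-Pm P.d ζ 0 1) * D P.d.κ c (Pm P.d ζ 1 0) + Pm P.d ζ 0 0 * D P.d.κ c (Pm P.d ζ 1 1)) := by
      intro c
      rw [hf, map_sub, D_one, sub_zero]
      unfold det2
      rw [map_sub, D_mul, D_mul]
      ring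
    have a00 : adj (Pm P.d ζ) 0 0 = Pm P.d ζ 1 1 := by simp [adj]
    have a01 : adj (Pm P.d ζ) 0 1 = -Pm P.d ζ 0 1 := by simp [adj]
    have a10 : adj (Pm P.d ζ) 1 0 = -Pm P.d ζ 1 0 := by simp [adj]
    have a11 : adj (Pm P.d ζ) 1 1 = Pm P.d ζ 0 0 := by simp [adj]
    rw [Fin.sum_univ_two, Fin.sum_univ_two, Fin.sum_univ_two, Fin.sum_univ_two, a00, a01, a10, a11,
      e1, e1, e1, e1, e3, e3]
    have h3 := XDet_alg (Pm P.d ζ 0 0) (Pm P.d ζ 0 1) (Pm P.d ζ 1 0) (Pm P.d ζ 1 1)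
      (comp P.d.κ ζ (D P.d.κ 0 (P.d.B 0))) (comp P.d.κ ζ (D P.d.κ 0 (P.d.B 1)))
      (comp P.d.κ ζ (D P.d.κ 1 (P.d.B 0))) (comp P.d.κ ζ (D P.d.κ 1 (P.d.B 1))) (E 0) (E 1)
      (D P.d.κ 0 (Pm P.d ζ 0 0)) (D P.d.κ 0 (Pm P.d ζ 0 1))
      (D P.d.κ 1 (Pm P.d ζ 0 0)) (D P.d.κ 1 (Pm P.d ζ 0 1))
      (D P.d.κ 0 (Pm P.d ζ 1 0)) (D P.d.κ 0 (Pm P.d ζ 1 1))
      (D P.d.κ 1 (Pm P.d ζ 1 0)) (D P.d.κ 1 (Pm P.d ζ 1 1))
      (D P.d.κ 0 (E 0)) (D P.d.κ 0 (E 1)) (D P.d.κ 1 (E 0)) (D P.d.κ 1 (E 1))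
      hdivB hdivE (hsym 0) (hsym 1)
    exact h3
  have hTDf : TD P.ta P.tb f (∑ c, E c * D P.d.κ c f) := by
    have h1 := hTDd.sub (TD.one P.ta P.tb)
    rw [hG, sub_zero] at h1
    exact h1
  -- clamping and the value at the left end
  have hClP : ∀ i j, Cl P.ta P.tb (Pm P.d ζ i j) := fun i j =>
    (XDet_Cl_idm P.ta P.tb i j).add ((S.cζ i).D P.d.κ j)
  have hClf : Cl P.ta P.tb f :=
    (((hClP 0 0).mul (hClP 1 1)).sub ((hClP 0 1).mul (hClP 1 0))).sub (Cl.one _ _)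
  have hfζ : ∀ j, frz P.ta (ζ j) = P.ζa j := by
    intro j
    have h1 : frz P.ta (ζ j) = frz P.ta (P.ζa j + intg P.ta P.tb
        (comp P.d.κ ζ (P.d.B j) + mulv (Pm P.d ζ) E j)) := congrArg _ (S.sol.hζ j)
    rw [h1]
    have h2 : frz P.ta (P.ζa j + intg P.ta P.tb
        (comp P.d.κ ζ (P.d.B j) + mulv (Pm P.d ζ) E j)) = frz P.ta (P.ζa j) +
        frz P.ta (intg P.ta P.tb (comp P.d.κ ζ (P.d.B j) + mulv (Pm P.d ζ) E j)) :=
      tcomp_add _ _ _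
    rw [h2, H.zt j P.ta, intg_at_left hab.le, add_zero]
  have hfP : ∀ i j, frz P.ta (Pm P.d ζ i j) = Fm P.d.κ P.ζa i j := by
    intro i j
    have h1 : frz P.ta (Pm P.d ζ i j) = frz P.ta (idm i j) + frz P.ta (D P.d.κ j (ζ i)) :=
      tcomp_add _ _ _
    have h2 : frz P.ta (D P.d.κ j (ζ i)) = D P.d.κ j (frz P.ta (ζ i)) := tcomp_D _ _ _ _
    rw [h1, h2, XDet_frz_idm, hfζ]
    rfl
  have hff : frz P.ta f = 0 := by
    have h1 : frz P.ta f = frz P.ta (Pm P.d ζ 0 0) * frz P.ta (Pm P.d ζ 1 1) -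
        frz P.ta (Pm P.d ζ 0 1) * frz P.ta (Pm P.d ζ 1 0) - 1 := by
      show tcomp _ (Pm P.d ζ 0 0 * Pm P.d ζ 1 1 - Pm P.d ζ 0 1 * Pm P.d ζ 1 0 - 1) = _
      rw [tcomp_sub, tcomp_sub, tcomp_mul, tcomp_mul, tcomp_one]
      rfl
    rw [h1, hfP, hfP, hfP, hfP]
    have h2 : Fm P.d.κ P.ζa 0 0 * Fm P.d.κ P.ζa 1 1 - Fm P.d.κ P.ζa 0 1 * Fm P.d.κ P.ζa 1 0 = 1 :=
      H.zd
    rw [h2, sub_self]
  have hfi : f = intg P.ta P.tb (∑ c, E c * D P.d.κ c f) := by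
    have h1 := hTDf.eq_intg hab.le hClf
    rw [hff, zero_add] at h1
    exact h1
  -- a bound
  have hBdP : ∀ i j, Bd 1 (P.r ρ0 m) (Pm P.d ζ i j) (1 / (256 * (1 + 1 / m)) + 1) := by
    intro i j
    have h1 := (hD.bd_P hB.z i j).add (XDet_Bd_idm 1 (P.r ρ0 m) i j)
    rw [sub_add_cancel] at h1
    exact h1
  have hBdf := (((hBdP 0 0).mul hr0 (hBdP 1 1)).sub ((hBdP 0 1).mul hr0 (hBdP 1 0))).sub
    (Bd.one 1 (P.r ρ0 m))
  have hcontr : ∀ c, Bd 1 (P.r ρ0 m) f c → Bd 1 (P.r ρ0 m) f (1 / 2 * c) := by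
    intro c hc
    have hc0 := hc.nonneg
    have h1 : ∀ k ∈ (Finset.univ : Finset (Fin 2)),
        Bd 0 (P.r ρ0 m) (E k * D P.d.κ k f) (2 * w * (lam * c)) := by
      intro k _
      have h2 : Bd 0 (P.r ρ0 m) (E k) (2 * w) :=
        (hB.e k).weaken (Nat.zero_le 1) (fun t => le_refl _)
      have h3 : Bd 0 (P.r ρ0 m) (D P.d.κ k f) (lam * c) := Bd.D H.good.kb k hc
      exact h2.mul hr0 h3
    have h4 := Bd.sum (Finset.univ : Finset (Fin 2)) h1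
    rw [Fin.sum_univ_two (fun _ => 2 * w * (lam * c))] at h4
    have h5 : Bd (0 + 1) (P.r ρ0 m) (intg P.ta P.tb (∑ c, E c * D P.d.κ c f))
        ((P.tb - P.ta) * (1 + 1 / m) * (2 * w * (lam * c) + 2 * w * (lam * c))) :=
      Bd.intg_gain (le_refl _) hab.le (le_refl _) hab hm h4
    rw [← hfi] at h5
    refine h5.mono ?_
    have hK : 1 ≤ 1 + 1 / m := by
      have : 0 < 1 / m := by positivity
      linarith
    have hh0 : 0 < P.tb - P.ta := by linarith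
    have hg0 : 0 ≤ g := hD.hg
    have hK5 : (1 + 1 / m) ≤ (1 + 1 / m) ^ 5 := by
      calc (1 + 1 / m) = (1 + 1 / m) ^ 1 := (pow_one _).symm
        _ ≤ (1 + 1 / m) ^ 5 := pow_le_pow_right₀ hK (by norm_num)
    calc (P.tb - P.ta) * (1 + 1 / m) * (2 * w * (lam * c) + 2 * w * (lam * c))
        = 4 * c * ((P.tb - P.ta) * (1 + 1 / m)) * (lam * w) := by ring
      _ ≤ 4 * c * ((P.tb - P.ta) * (1 + 1 / m)) * g :=
          mul_le_mul_of_nonneg_left H.hlw (by positivity)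
      _ = 4 * c * ((P.tb - P.ta) * g) * (1 + 1 / m) := by ring
      _ ≤ 4 * c * ((P.tb - P.ta) * g) * (1 + 1 / m) ^ 5 :=
          mul_le_mul_of_nonneg_left hK5 (by positivity)
      _ = 4 * c / 10 ^ 8 * (10 ^ 8 * (1 + 1 / m) ^ 5 * (P.tb - P.ta) * g) := by ring
      _ ≤ 4 * c / 10 ^ 8 * 1 := mul_le_mul_of_nonneg_left hh (by positivity)
      _ ≤ 1 / 2 * c := by linarith
  have h0 : f = 0 := Bd.eq_zero' (q := 1 / 2) (by norm_num) hBdf hcontr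
  rw [hf] at h0
  exact sub_eq_zero.1 h0

end

end ES
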