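import Pool.Agent.H16.TSS.ES.XComp

/-!
ES-XComp: identities under the change of coordinates `id + ζ` (EW 1, 1.3).  `CH` from `DH.ch`,
`DH` from `SBH.dh`; finite norms at the radius `ρ ≥ r + 2m` from `good` (`Fin0 ρ`), and
`Bd.margin_all` for powers.
-/

open scoped BoundedContinuousFunction

namespace ES

section
variable {P : SB} {lam g σ ρ c A ρ0 m w η : ℝ} {ζ E W a q : Vec}

/-! ### finite norms -/

private theorem XComp_rho (H : SBH P lam g σ ρ c A ρ0 m w η) : ∀ t, 0 ≤ cr ρ t := by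
  intro t
  show 0 ≤ ρ
  have h1 := H.hρ0
  have h2 := H.hρ1
  have h3 := H.hm
  linarith

private theorem XComp_Qadd {f h : WT} (hf : XComp_Q P ρ0 m f) (hh : XComp_Q P ρ0 m h) :
    XComp_Q P ρ0 m (f + h) := by
  obtain ⟨e, he⟩ := hf
  obtain ⟨e', he'⟩ := hh
  exact ⟨_, he.add he'⟩

private theorem XComp_Qneg {f : WT} (hf : XComp_Q P ρ0 m f) : XComp_Q P ρ0 m (-f) := by
  obtain ⟨e, he⟩ := hf
  exact ⟨_, he.neg⟩

private theorem XComp_neg (H : SBH P lam g σ ρ c A ρ0 m w η)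
    (S : SB0 P lam g ρ0 m w ζ E W a q) {f : WT} (hf : XComp_Q P ρ0 m f) :
    comp P.d.κ ζ (-f) = -comp P.d.κ ζ f := by
  obtain ⟨e, he⟩ := hf
  exact comp_neg (XComp_CH H S) he

private theorem XComp_finM (H : SBH P lam g σ ρ c A ρ0 m w η) (i j : Fin 2) :
    Fin0 ρ (P.d.M i j) := by
  have hF := fun i j => XComp_finF H i j
  have hn : ∀ i j, Fin0 ρ (-P.d.F i j) := fun i j => by
    obtain ⟨e, he⟩ := hF i j
    exact ⟨e, he.neg⟩
  unfold Dat.M adj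
  split_ifs
  · exact hF 1 1
  · exact hn 0 1
  · exact hn 1 0
  · exact hF 0 0

private theorem XComp_FFmul :
    FF P.d ζ = mulM (fun i j => comp P.d.κ ζ (P.d.F i j)) (Pm P.d ζ) := rfl

theorem comp_det (H : SBH P lam g σ ρ c A ρ0 m w η) (S : SB0 P lam g ρ0 m w ζ E W a q)
    (hP : det2 (Pm P.d ζ) = 1) : det2 (FF P.d ζ) = 1 := by
  rw [XComp_FFmul, det2_mulM, hP, mul_one]
  have hQ := fun i j => XComp_QF H (XComp_finF H i j)
  unfold det2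
  rw [← XComp_mul H S (hQ 0 0) (hQ 1 1), ← XComp_mul H S (hQ 0 1) (hQ 1 0),
    ← XComp_sub H S (XComp_Qmul H (hQ 0 0) (hQ 1 1)) (XComp_Qmul H (hQ 0 1) (hQ 1 0))]
  have h1 : P.d.F 0 0 * P.d.F 1 1 - P.d.F 0 1 * P.d.F 1 0 = 1 := H.good.det
  rw [h1, comp_one (XComp_CH H S)]

/-- `M' = adj P · M^ζ`. -/
theorem MM_eq (H : SBH P lam g σ ρ c A ρ0 m w η) (S : SB0 P lam g ρ0 m w ζ E W a q) :
    MM P.d ζ = mulM (adj (Pm P.d ζ)) (fun i j => comp P.d.κ ζ (P.d.M i j)) := by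
  unfold MM
  rw [XComp_FFmul, adj_mulM]
  congr 1
  have hQ := fun i j => XComp_QF H (XComp_finF H i j)
  funext i j
  unfold Dat.M adj
  fin_cases i <;> fin_cases j
  · simp
  · simp [XComp_neg H S (hQ 0 1)]
  · simp [XComp_neg H S (hQ 1 0)]
  · simp

/-- inversion of the matrix `P` -/
private theorem XComp_inv (hP : det2 (Pm P.d ζ) = 1) (x y : Vec) :
    ∑ k, (∑ i, adj (Pm P.d ζ) k i * x i) * (∑ l, y l * Pm P.d ζ l k) = ∑ i, x i * y i := by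
  have h1 : Pm P.d ζ 0 0 * Pm P.d ζ 1 1 - Pm P.d ζ 0 1 * Pm P.d ζ 1 0 = 1 := hP
  simp only [Fin.sum_univ_two, adj, if_true, if_false, one_ne_zero, reduceIte]
  linear_combination (x 0 * y 0 + x 1 * y 1) * h1

/-- `(Mᵀ D p)^ζ = M'ᵀ D(p^ζ)`. -/
theorem comp_gradT (H : SBH P lam g σ ρ c A ρ0 m w η) (S : SB0 P lam g ρ0 m w ζ E W a q)
    (hP : det2 (Pm P.d ζ) = 1) (j : Fin 2) :
    comp P.d.κ ζ (gradT P.d.κ P.d.M P.d.p j) =
      gradT P.d.κ (MM P.d ζ) (comp P.d.κ ζ P.d.p) j := by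
  have hM := fun i j => XComp_QF H (XComp_finM H i j)
  have hp := fun k => XComp_QD H H.good.fp k
  have h1 : gradT P.d.κ P.d.M P.d.p j = ∑ k, P.d.M k j * D P.d.κ k P.d.p := rfl
  have h2 : gradT P.d.κ (MM P.d ζ) (comp P.d.κ ζ P.d.p) j =
      ∑ k, MM P.d ζ k j * D P.d.κ k (comp P.d.κ ζ P.d.p) := rfl
  have h3 : comp P.d.κ ζ (∑ k, P.d.M k j * D P.d.κ k P.d.p) =
      ∑ k, comp P.d.κ ζ (P.d.M k j) * comp P.d.κ ζ (D P.d.κ k P.d.p) := by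
    rw [Fin.sum_univ_two, Fin.sum_univ_two,
      XComp_add H S (XComp_Qmul H (hM 0 j) (hp 0)) (XComp_Qmul H (hM 1 j) (hp 1)),
      XComp_mul H S (hM 0 j) (hp 0), XComp_mul H S (hM 1 j) (hp 1)]
  rw [h1, h2, h3, ← XComp_inv hP (fun i => comp P.d.κ ζ (P.d.M i j))
    (fun l => comp P.d.κ ζ (D P.d.κ l P.d.p))]
  refine Finset.sum_congr rfl fun k _ => ?_
  rw [D_compF H S H.good.fp k, MM_eq H S]
  rfl

private theorem XComp_finY (H : SBH P lam g σ ρ c A ρ0 m w η) (j l : Fin 2) :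
    Fin0 ρ (mulT P.d.R P.d.M j l) := by
  have h1 : mulT P.d.R P.d.M j l = P.d.R j 0 * P.d.M l 0 + P.d.R j 1 * P.d.M l 1 := by
    unfold mulT
    rw [Fin.sum_univ_two]
  rw [h1]
  obtain ⟨e, he⟩ := XComp_finM H l 0
  obtain ⟨e', he'⟩ := XComp_finM H l 1
  exact ⟨_, ((H.good.bR j 0).mul (XComp_rho H) he).add ((H.good.bR j 1).mul (XComp_rho H) he')⟩

/-- `(D·(R Mᵀ))^ζ = D·(R^ζ M'ᵀ)`. -/
theorem comp_dvm (H : SBH P lam g σ ρ c A ρ0 m w η) (S : SB0 P lam g ρ0 m w ζ E W a q)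
    (hP : det2 (Pm P.d ζ) = 1) (j : Fin 2) :
    comp P.d.κ ζ (dvm P.d.κ (mulT P.d.R P.d.M) j) =
      dvm P.d.κ (mulT (RR P.d ζ) (MM P.d ζ)) j := by
  have hY := fun l => XComp_finY H j l
  have hQR : ∀ k, XComp_Q P ρ0 m (P.d.R j k) := fun k => XComp_QF H ⟨_, H.good.bR j k⟩
  have hQM := fun i j => XComp_QF H (XComp_finM H i j)
  have h1 : comp P.d.κ ζ (dvm P.d.κ (mulT P.d.R P.d.M) j) =
      ∑ l, comp P.d.κ ζ (D P.d.κ l (mulT P.d.R P.d.M j l)) := by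
    unfold dvm
    rw [Fin.sum_univ_two, Fin.sum_univ_two,
      XComp_add H S (XComp_QD H (hY 0) 0) (XComp_QD H (hY 1) 1)]
  have h2 : ∀ l, mulT (RR P.d ζ) (MM P.d ζ) j l =
      ∑ i, adj (Pm P.d ζ) l i * comp P.d.κ ζ (mulT P.d.R P.d.M j i) := by
    intro l
    have e1 : ∀ i, comp P.d.κ ζ (mulT P.d.R P.d.M j i) =
        ∑ k, comp P.d.κ ζ (P.d.R j k) * comp P.d.κ ζ (P.d.M i k) := by
      intro i
      unfold mulT
      rw [Fin.sum_univ_two, Fin.sum_univ_two,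
        XComp_add H S (XComp_Qmul H (hQR 0) (hQM i 0)) (XComp_Qmul H (hQR 1) (hQM i 1)),
        XComp_mul H S (hQR 0) (hQM i 0), XComp_mul H S (hQR 1) (hQM i 1)]
    have e2 : mulT (RR P.d ζ) (MM P.d ζ) j l = ∑ k, comp P.d.κ ζ (P.d.R j k) * MM P.d ζ l k := rfl
    have e3 : ∀ k, MM P.d ζ l k = ∑ i, adj (Pm P.d ζ) l i * comp P.d.κ ζ (P.d.M i k) := by
      intro k
      rw [MM_eq H S]
      rfl
    rw [e2]
    simp only [e1, e3, Fin.sum_univ_two]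
    ring
  have h3 : dvm P.d.κ (mulT (RR P.d ζ) (MM P.d ζ)) j =
      ∑ l, D P.d.κ l (∑ i, adj (Pm P.d ζ) l i * comp P.d.κ ζ (mulT P.d.R P.d.M j i)) := by
    unfold dvm
    exact Finset.sum_congr rfl fun l _ => by rw [h2 l]
  have hpi : ∀ i, ∑ l, D P.d.κ l (adj (Pm P.d ζ) l i) = 0 := fun i => piola P.d.κ ζ i
  rw [h1, h3]
  have h4 : ∀ l, D P.d.κ l (∑ i, adj (Pm P.d ζ) l i * comp P.d.κ ζ (mulT P.d.R P.d.M j i)) =
      ∑ i, (D P.d.κ l (adj (Pm P.d ζ) l i) * comp P.d.κ ζ (mulT P.d.R P.d.M j i) +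
        adj (Pm P.d ζ) l i *
          ∑ k, comp P.d.κ ζ (D P.d.κ k (mulT P.d.R P.d.M j i)) * Pm P.d ζ k l) := by
    intro l
    rw [map_sum]
    refine Finset.sum_congr rfl fun i _ => ?_
    rw [D_mul, D_compF H S (hY i) l]
  rw [Finset.sum_congr rfl (fun l _ => h4 l), Finset.sum_comm]
  have hdet : Pm P.d ζ 0 0 * Pm P.d ζ 1 1 - Pm P.d ζ 0 1 * Pm P.d ζ 1 0 = 1 := hP
  have h5 : ∀ i, ∑ l, (D P.d.κ l (adj (Pm P.d ζ) l i) * comp P.d.κ ζ (mulT P.d.R P.d.M j i) +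
        adj (Pm P.d ζ) l i *
          ∑ k, comp P.d.κ ζ (D P.d.κ k (mulT P.d.R P.d.M j i)) * Pm P.d ζ k l) =
      comp P.d.κ ζ (D P.d.κ i (mulT P.d.R P.d.M j i)) := by
    intro i
    rw [Finset.sum_add_distrib, ← Finset.sum_mul, hpi i, zero_mul, zero_add]
    fin_cases i
    · simp only [Fin.zero_eta, Fin.isValue, Fin.sum_univ_two, adj, if_true, if_false, one_ne_zero,
        reduceIte]
      linear_combination (comp P.d.κ ζ (D P.d.κ 0 (mulT P.d.R P.d.M j 0))) * hdet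
    · simp only [Fin.mk_one, Fin.isValue, Fin.sum_univ_two, adj, if_true, if_false, one_ne_zero,
        reduceIte]
      linear_combination (comp P.d.κ ζ (D P.d.κ 1 (mulT P.d.R P.d.M j 1))) * hdet
  rw [Finset.sum_congr rfl (fun i _ => h5 i)]

theorem comp_acc (H : SBH P lam g σ ρ c A ρ0 m w η) (S : SB0 P lam g ρ0 m w ζ E W a q)
    (hP : det2 (Pm P.d ζ) = 1) (j : Fin 2) :
    comp P.d.κ ζ (P.d.acc j) = -gradT P.d.κ (MM P.d ζ) (comp P.d.κ ζ P.d.p) j +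
      dvm P.d.κ (mulT (RR P.d ζ) (MM P.d ζ)) j := by
  have hQM := fun i j => XComp_QF H (XComp_finM H i j)
  have hp := fun k => XComp_QD H H.good.fp k
  have h1 : XComp_Q P ρ0 m (gradT P.d.κ P.d.M P.d.p j) := by
    have e : gradT P.d.κ P.d.M P.d.p j =
        P.d.M 0 j * D P.d.κ 0 P.d.p + P.d.M 1 j * D P.d.κ 1 P.d.p := by
      unfold gradT mulvT
      rw [Fin.sum_univ_two]
    rw [e]
    exact XComp_Qadd (XComp_Qmul H (hQM 0 j) (hp 0)) (XComp_Qmul H (hQM 1 j) (hp 1))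
  have h2 : XComp_Q P ρ0 m (dvm P.d.κ (mulT P.d.R P.d.M) j) := by
    unfold dvm
    rw [Fin.sum_univ_two]
    exact XComp_Qadd (XComp_QD H (XComp_finY H j 0) 0) (XComp_QD H (XComp_finY H j 1) 1)
  unfold Dat.acc
  rw [XComp_add H S (XComp_Qneg h1) h2, XComp_neg H S h1, comp_gradT H S hP, comp_dvm H S hP]

end

end ES
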