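import Pool.Agent.H16.TSS.ES.SPost_2
import Pool.Agent.H16.TSS.ES.XComp_1
import Pool.Agent.H16.TSS.M28
import Pool.Agent.H16.TSS.M32

/-!
ES-XNew: regularity and bounds of the new coordinates and velocities, common to gap, ramps and
final interval (EW 3, Prop. 3.5).  Constants are generous.  `K = 1 + 1/m`, radius `P.r ρ0 m`.
-/

open scoped BoundedContinuousFunction

namespace ES

private theorem XNew_real (κ : Kp) (i : ℕ) : XNewC IsR κ i :=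
  ⟨IsR.zero, IsR.one, IsR.add, IsR.neg, IsR.mul, fun _ _ h => IsR.D h, IsR.dth, IsR.ith⟩

private theorem XNew_cl (κ : Kp) (i : ℕ) (a b : ℝ) : XNewC (Cl a b) κ i :=
  ⟨Cl.zero a b, Cl.one a b, Cl.add, Cl.neg, Cl.mul, fun c _ h => Cl.D κ c h,
    fun h => Cl.mlt _ h, fun h => Cl.mlt _ h⟩

section
variable {P : SB} {lam g σ ρ c A ρ0 m w η : ℝ} {ζ E W a q : Vec}

theorem new_real (H : SBH P lam g σ ρ c A ρ0 m w η) (S : SB0 P lam g ρ0 m w ζ E W a q)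
    (j : Fin 2) : IsR (nX P.d ζ j) ∧ IsR (nV P.d ζ E j) ∧ IsR (nu' P.d ζ E W j) ∧
      IsR (comp P.d.κ ζ P.d.p) ∧ (∀ k, IsR (FF P.d ζ j k) ∧ IsR (MM P.d ζ j k)) ∧
      IsR (P.f ζ E W j) := by
  have C := XNew_real P.d.κ P.d.i
  have HA := fun j => XNew_all (E := E) C H
    (fun hf hX => IsR.comp (XNew_ch H S) S.rζ (XNew_fin H hf) hX) S.rζ S.rE H.good.rξ
    H.good.rv H.good.rp H.good.rR j
  obtain ⟨h1, h2, h3, h4, h5, h6⟩ := HA j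
  refine ⟨h1, h2, ?_, h3, h4, ?_⟩
  · exact C.add h2 (C.mulv (fun a b => ((HA a).2.2.2.1 b).1) S.rW j)
  · exact C.f (fun a b => ((HA a).2.2.2.1 b).1) (fun a b => ((HA a).2.2.2.1 b).2)
      (fun a b => (HA a).2.2.2.2.1 b) (fun a b => (HA a).2.2.2.2.2 b) S.rE S.rW j

theorem new_cl (H : SBH P lam g σ ρ c A ρ0 m w η) (S : SB0 P lam g ρ0 m w ζ E W a q)
    (j : Fin 2) : Cl P.ta P.tb (nX P.d ζ j) ∧ Cl P.ta P.tb (nV P.d ζ E j) ∧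
      Cl P.ta P.tb (nu' P.d ζ E W j) ∧ Cl P.ta P.tb (comp P.d.κ ζ P.d.p) ∧
      (∀ k, Cl P.ta P.tb (FF P.d ζ j k) ∧ Cl P.ta P.tb (MM P.d ζ j k)) ∧
      Cl P.ta P.tb (P.f ζ E W j) := by
  have C := XNew_cl P.d.κ P.d.i P.ta P.tb
  have HA := fun j => XNew_all (E := E) C H
    (fun hf hX => Cl.comp (XNew_ch H S) S.cζ (XNew_fin H hf) hX) S.cζ S.cE H.good.cξ
    H.good.cv H.good.cp H.good.cR j
  obtain ⟨h1, h2, h3, h4, h5, h6⟩ := HA j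
  refine ⟨h1, h2, ?_, h3, h4, ?_⟩
  · exact C.add h2 (C.mulv (fun a b => ((HA a).2.2.2.1 b).1) S.cW j)
  · exact C.f (fun a b => ((HA a).2.2.2.1 b).1) (fun a b => ((HA a).2.2.2.1 b).2)
      (fun a b => (HA a).2.2.2.2.1 b) (fun a b => (HA a).2.2.2.2.2 b) S.cE S.cW j

private theorem XNew_tocr (H : SBH P lam g σ ρ c A ρ0 m w η) {k : ℕ} {f : WT} {e : ℝ}
    (hf : Bd k (P.r ρ0 m) f e) : Bd k (cr (ρ0 - m)) f e :=
  Bd.to_cr hf fun t => le_rad H.good.ht H.hm.le t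

private theorem XNew_mulv_bd {k : ℕ} {r : ℝ → ℝ} (hr : ∀ t, 0 ≤ r t) {F : Mat} {x : Vec}
    {e1 e2 : ℝ} (hF : ∀ a b, Bd k r (F a b) e1) (hx : ∀ a, Bd k r (x a) e2) (a : Fin 2) :
    Bd k r (mulv F x a) (2 * (e1 * e2)) := by
  unfold mulv
  rw [Fin.sum_univ_two, two_mul]
  exact (Bd.mul hr (hF a 0) (hx 0)).add (Bd.mul hr (hF a 1) (hx 1))

private theorem XNew_pot {κ : Kp} {r : ℝ → ℝ} {x : Vec} {e : ℝ} (hx : ∀ j, Bd 0 r (x j) e) :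
    Bd 0 r (pot κ x) (e + e) := by
  have h : pot κ x = D κ 0 (Lin κ (x 0)) + D κ 1 (Lin κ (x 1)) := by
    unfold pot dvg
    rw [Fin.sum_univ_two, map_add, Lin_D, Lin_D]
  rw [h]
  exact (Bd.D_Lin κ 0 (hx 0)).add (Bd.D_Lin κ 1 (hx 1))

private theorem XNew_comp (H : SBH P lam g σ ρ c A ρ0 m w η)
    (S : SB0 P lam g ρ0 m w ζ E W a q) {f : WT} {e : ℝ} (hf : Bd 0 (cr ρ) f e) :
    Bd 0 (P.r ρ0 m) (comp P.d.κ ζ f) e := by
  refine H.dh.comp0 (SB0.bh H S).z (Bd.of_cr hf fun t => ?_)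
  have h1 : P.r ρ0 m t ≤ ρ0 := rad_le H.good.ht H.hm.le t
  linarith [H.hρ1]

/-- Finite norms at the radius `ρ0 - m` (`≤ P.r ρ0 m`). -/
theorem new_fin (H : SBH P lam g σ ρ c A ρ0 m w η) (S : SB0 P lam g ρ0 m w ζ E W a q)
    (j : Fin 2) : Fin0 (ρ0 - m) (nX P.d ζ j) ∧ Fin0 (ρ0 - m) (nV P.d ζ E j) ∧
      Fin0 (ρ0 - m) (nu' P.d ζ E W j) ∧ Fin0 (ρ0 - m) (comp P.d.κ ζ P.d.p) ∧
      Fin0 (ρ0 - m) (pot P.κ' q) ∧ Fin0 (ρ0 - m) (pot P.d.κ (fun k => mean P.d.i (q k))) := by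
  have HB := SB0.bh H S
  obtain ⟨e1, he1⟩ := H.good.fξ j
  obtain ⟨e2, he2⟩ := H.good.fv j
  obtain ⟨e3, he3⟩ := H.good.fp
  have hX : Bd 0 (P.r ρ0 m) (nX P.d ζ j) _ :=
    ((HB.z j).weaken (Nat.zero_le 2) fun _ => le_rfl).add (XNew_comp H S he1)
  have hV : Bd 0 (P.r ρ0 m) (nV P.d ζ E j) _ :=
    (XNew_comp H S he2).add
      (H.dh.mulv_F0 HB.z (fun j => (HB.e j).weaken (Nat.zero_le 1) fun _ => le_rfl) j)
  have hU : Bd 0 (P.r ρ0 m) (nu' P.d ζ E W j) _ :=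
    hV.add (H.dh.mulv_F0 HB.z HB.w0 j)
  exact ⟨⟨_, XNew_tocr H hX⟩, ⟨_, XNew_tocr H hV⟩, ⟨_, XNew_tocr H hU⟩,
    ⟨_, XNew_tocr H (XNew_comp H S he3)⟩, ⟨_, XNew_tocr H (XNew_pot S.nq)⟩,
    ⟨_, XNew_tocr H (XNew_pot fun j => Bd.mean P.d.i (S.nq j))⟩⟩

/-- Deformation of the new coordinates. -/
theorem new_bF (H : SBH P lam g σ ρ c A ρ0 m w η) (S : SB0 P lam g ρ0 m w ζ E W a q) {y : ℝ}
    (hy : ∀ j, Bd 1 (P.r ρ0 m) (ζ j) y) (i j : Fin 2) :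
    Bd 0 (P.r ρ0 m) (grad P.d.κ (nX P.d ζ) i j) (c + lam * y * (1 + 2 * c)) ∧
    Bd 0 (P.r ρ0 m) (grad P.κ' (nX P.d ζ) i j) (c + lam * y * (1 + 2 * c)) := by
  have HB := SB0.bh H S
  have h1 := H.dh.bd_FF' HB.z hy i j
  constructor
  · have e : FF P.d ζ i j - idm i j = grad P.d.κ (nX P.d ζ) i j := by
      rw [FF_eq H S]
      unfold Fm
      ring
    rw [← e]
    exact h1
  · have e : FF P.d ζ i j - idm i j = grad P.κ' (nX P.d ζ) i j := by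
      rw [FF_eq' H S]
      unfold Fm
      ring
    rw [← e]
    exact h1

/-- `D V`: sharp form and crude form. -/
theorem new_DV (H : SBH P lam g σ ρ c A ρ0 m w η) (S : SB0 P lam g ρ0 m w ζ E W a q) {y e : ℝ}
    (hy : ∀ j, Bd 1 (P.r ρ0 m) (ζ j) y) (he : ∀ j, Bd 1 (P.r ρ0 m) (E j) e) (i j : Fin 2) :
    Bd 0 (P.r ρ0 m) (D P.d.κ j (nV P.d ζ E i))
      (g * (1 + 2 * (lam * y)) + 6 * (1 + 1 / m) * lam * e) := by
  have HB := SB0.bh H S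
  have h1 : D P.d.κ j (nV P.d ζ E i) = LL P.d ζ i j + D P.d.κ j (mulv (FF P.d ζ) E i) := by
    unfold nV
    rw [map_add, grad_vz H S]
  rw [h1]
  have h2 := Bd.D (k := 0) H.good.kb j (H.dh.mulv_F1 HB.z he i)
  refine ((H.dh.bd_LL' HB.z hy i j).add h2).mono (le_of_eq ?_)
  ring

theorem new_DV' (H : SBH P lam g σ ρ c A ρ0 m w η) (S : SB0 P lam g ρ0 m w ζ E W a q)
    (i j : Fin 2) : Bd 0 (P.r ρ0 m) (D P.d.κ j (nV P.d ζ E i)) (14 * (1 + 1 / m) * g) := by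
  have HB := SB0.bh H S
  have hK2 := H.dh.K2
  have hg := H.dh.hg
  have hlam : 0 < lam := by linarith [H.hlam]
  have h1 := new_DV H S (fun j => (HB.z j).weaken (by norm_num : 1 ≤ 2) fun _ => le_rfl) HB.e i j
  refine h1.mono ?_
  obtain ⟨K, hK⟩ : ∃ K, K = 1 + 1 / m := ⟨_, rfl⟩
  rw [← hK] at hK2 ⊢
  have e1 : lam * (1 / (256 * lam * K)) = 1 / (256 * K) := by field_simp
  have e2 : 1 / (256 * K) ≤ 1 / 512 := by
    apply one_div_le_one_div_of_le (by norm_num)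
    linarith
  rw [e1]
  have e3 := mul_le_mul_of_nonneg_left e2 hg
  have e4 : K * (lam * w) ≤ K * g := mul_le_mul_of_nonneg_left H.hlw (by linarith)
  have e5 : 2 * g ≤ K * g := mul_le_mul_of_nonneg_right hK2 hg
  linarith

/-- Gradient of the new velocity (needs `N0(dth W) ≤ C1 w`, from `SBR.nWt`). -/
theorem new_Du (H : SBH P lam g σ ρ c A ρ0 m w η) (S : SB0 P lam g ρ0 m w ζ E W a q) {C1 : ℝ}
    (hC : 0 ≤ C1) (hW : ∀ j, Bd 0 (P.r ρ0 m) (dth P.d.i (W j)) (C1 * w)) (i j : Fin 2) :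
    Bd 0 (P.r ρ0 m) (D P.κ' j (nu' P.d ζ E W i))
      (10 ^ 3 * (1 + 1 / m) ^ 2 * g + 5 * C1 * P.L * w) := by
  have HB := SB0.bh H S
  have hK2 := H.dh.K2
  have hg := H.dh.hg
  have hw := H.hw
  have hlam : 0 < lam := by linarith [H.hlam]
  have hk0 : ∀ a, P.d.κ.k a P.d.i = 0 := fun a => H.good.k0 a _ le_rfl
  obtain ⟨-, lV, -⟩ := new_lev H S i
  obtain ⟨lF, -⟩ := SB0.lev H S
  have oF : ∀ a b, osc P.d.i (FF P.d ζ a b) = 0 := fun a b => (lF a b).osc le_rfl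
  have h1 : D P.κ' j (nV P.d ζ E i) = D P.d.κ j (nV P.d ζ E i) :=
    D_upd_of_osc _ _ _ hk0 j (lV.osc le_rfl)
  have h2 : D P.κ' j (mulv (FF P.d ζ) W i) = D P.d.κ j (mulv (FF P.d ζ) W i) +
      (((P.L : ℤ) * P.k0 j : ℤ) : ℂ) • mulv (FF P.d ζ) (fun k => dth P.d.i (W k)) i := by
    have h3 : dth P.d.i (mulv (FF P.d ζ) W i) = mulv (FF P.d ζ) (fun k => dth P.d.i (W k)) i := by
      unfold mulv
      rw [map_sum]
      refine Finset.sum_congr rfl fun b _ => ?_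
      rw [dth_mul, dth_of_osc (oF i b), zero_mul, zero_add]
    rw [← h3]
    exact D_upd _ _ _ hk0 j _
  have h4 : D P.κ' j (nu' P.d ζ E W i) = D P.d.κ j (nV P.d ζ E i) +
      (D P.d.κ j (mulv (FF P.d ζ) W i) +
      (((P.L : ℤ) * P.k0 j : ℤ) : ℂ) • mulv (FF P.d ζ) (fun k => dth P.d.i (W k)) i) := by
    unfold nu'
    rw [map_add, h1, h2]
  rw [h4]
  have b1 := new_DV' H S i j
  have b2 := Bd.D (k := 0) H.good.kb j (H.dh.mulv_F1 HB.z HB.w1 i)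
  have b3 := Bd.smul (((P.L : ℤ) * P.k0 j : ℤ) : ℂ) (H.dh.mulv_F0 HB.z hW i)
  refine (b1.add (b2.add b3)).mono ?_
  have hn : ‖(((P.L : ℤ) * P.k0 j : ℤ) : ℂ)‖ ≤ 2 * P.L := by
    rw [← Complex.ofReal_intCast, Complex.norm_real, Real.norm_eq_abs]
    push_cast
    rw [abs_mul, abs_of_nonneg (Nat.cast_nonneg P.L : (0 : ℝ) ≤ P.L)]
    have h5 : |(P.k0 j : ℝ)| ≤ 2 := by exact_mod_cast H.hk j
    have h6 : (0 : ℝ) ≤ P.L := Nat.cast_nonneg _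
    nlinarith
  obtain ⟨K, hK⟩ : ∃ K, K = 1 + 1 / m := ⟨_, rfl⟩
  rw [← hK] at hK2 ⊢
  have e1 : ‖(((P.L : ℤ) * P.k0 j : ℤ) : ℂ)‖ * (103 / 100 * (C1 * w)) ≤
      2 * P.L * (103 / 100 * (C1 * w)) := mul_le_mul_of_nonneg_right hn (by positivity)
  have e2 : (0 : ℝ) ≤ P.L * (C1 * w) := by positivity
  have e3 : K ^ 2 * (lam * w) ≤ K ^ 2 * g := mul_le_mul_of_nonneg_left H.hlw (by positivity)
  have e4 : K * g ≤ K ^ 2 * g := mul_le_mul_of_nonneg_right (by nlinarith) hg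
  have e5 : 0 ≤ K ^ 2 * g := by positivity
  linarith

/-- New acceleration without the stress: `acc^ζ - D·(R^ζ M'ᵀ) - M'ᵀ q`. -/
theorem new_acc (H : SBH P lam g σ ρ c A ρ0 m w η) (S : SB0 P lam g ρ0 m w ζ E W a q)
    (hP : det2 (Pm P.d ζ) = 1) {q' : Vec} {α : ℝ} (hq : ∀ j, Bd 0 (P.r ρ0 m) (q' j) α)
    (j : Fin 2) :
    Bd 0 (P.r ρ0 m) (-gradT P.d.κ (MM P.d ζ) (comp P.d.κ ζ P.d.p) j - mulvT (MM P.d ζ) q' j)
      (A + 12 * (1 + 1 / m) ^ 2 * lam * σ + 103 / 100 * α) := by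
  have HB := SB0.bh H S
  have hα : 0 ≤ α := (hq 0).nonneg
  have e1 : -gradT P.d.κ (MM P.d ζ) (comp P.d.κ ζ P.d.p) j - mulvT (MM P.d ζ) q' j =
      comp P.d.κ ζ (P.d.acc j) - dvm P.d.κ (mulT (RR P.d ζ) (MM P.d ζ)) j -
        ((mulvT (MM P.d ζ) q' j - q' j) + q' j) := by
    rw [comp_acc H S hP j]
    ring
  rw [e1]
  refine (((XNew_comp H S (H.good.bA j)).sub (H.dh.bd_dvm HB.z j)).sub
    ((H.dh.mulvT_MI HB.z hq j).add (hq j))).mono ?_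
  linarith

/-- Bound of the force on a ramp, `N0(Wt) ≤ α`, at the constant radius `ρ0 - m ≤ P.r ρ0 m`
(use `Bd.to_cr`). -/
theorem force_bd (H : SBH P lam g σ ρ c A ρ0 m w η) (S : SB0 P lam g ρ0 m w ζ E W a q)
    {Wt : Vec} {α : ℝ} (hW : ∀ j, Bd 0 (cr (ρ0 - m)) (Wt j) α) (j : Fin 2) :
    Bd 0 (cr (ρ0 - m)) (P.force ζ E W Wt j)
      (103 / 100 * α + 10 ^ 5 * (1 + 1 / m) ^ 2 * g * w) := by
  have HB := SB0.bh H S
  have hα : 0 ≤ α := (hW 0).nonneg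
  have hr : ∀ t : ℝ, 0 ≤ cr (ρ0 - m) t := fun t => by
    change 0 ≤ ρ0 - m
    linarith [H.hρ0, H.hm]
  have h1 : mulv (FF P.d ζ) Wt j = mulv (fun a b => FF P.d ζ a b - idm a b) Wt j + Wt j := by
    unfold mulv idm
    rw [Fin.sum_univ_two, Fin.sum_univ_two]
    fin_cases j
    · simp; ring
    · simp; ring
  have h2 : Bd 0 (cr (ρ0 - m)) (mulv (fun a b => FF P.d ζ a b - idm a b) Wt j)
      (2 * (3 / 250 * α)) :=
    XNew_mulv_bd hr (fun a b => XNew_tocr H (H.dh.bd_FF0 HB.z a b)) hW j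
  have h3 : Bd 0 (cr (ρ0 - m)) (osc P.d.i (P.f ζ E W j)) (10 ^ 5 * (1 + 1 / m) ^ 2 * g * w) :=
    Bd.osc _ (XNew_tocr H (f_bd H.dh H.hw.le H.hlw H.hσ HB j))
  unfold SB.force
  rw [h1]
  refine ((h2.add (hW j)).sub h3).mono ?_
  linarith

/-- The force has zero mean in the new angle and no zero frequency modes. -/
theorem force_mean (H : SBH P lam g σ ρ c A ρ0 m w η) (S : SB0 P lam g ρ0 m w ζ E W a q)
    {Wt : Vec} (hm : ∀ j, mean P.d.i (Wt j) = 0) (j : Fin 2) :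
    mean P.d.i (P.force ζ E W Wt j) = 0 := by
  obtain ⟨lF, -⟩ := SB0.lev H S
  have oF : ∀ a b, osc P.d.i (FF P.d ζ a b) = 0 := fun a b => (lF a b).osc le_rfl
  unfold SB.force
  rw [map_sub, mean_osc, sub_zero]
  unfold mulv
  rw [map_sum]
  refine Finset.sum_eq_zero fun b _ => ?_
  rw [mean_mul_left _ (oF j b), hm b, mul_zero]

end

/-! Clamping to a subinterval of data. -/

/-- Good data from unclamped data (all conditions of `Good` except clamping), then `tcl`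
(a ring homomorphism commuting with all multipliers). -/
theorem Good.of_big {d : Dat} {s t lam g σ ρ c A : ℝ} (h2 : s < t) (kb : KB d.κ lam) (k0 : ∀ a j, d.i ≤ j → d.κ.k a j = 0)
    (levξ : ∀ a, Lev d.i (d.ξ a)) (levU : ∀ a, Lev d.i (d.U a)) (levv : ∀ a, Lev d.i (d.v a))
    (levp : Lev d.i d.p) (levR : ∀ a b, Lev d.i (d.R a b)) (rξ : ∀ a, IsR (d.ξ a))
    (rU : ∀ a, IsR (d.U a)) (rv : ∀ a, IsR (d.v a)) (rp : IsR d.p) (rR : ∀ a b, IsR (d.R a b))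
    (fξ : ∀ a, Fin0 ρ (d.ξ a))
    (fU : ∀ a, Fin0 ρ (d.U a)) (fv : ∀ a, Fin0 ρ (d.v a)) (fp : Fin0 ρ d.p)
    (symm : ∀ a b, d.R a b = d.R b a) (tdξ : ∀ a, TD s t (d.ξ a) (d.U a))
    (tdv : ∀ a, TD s t (d.v a) (d.rhs a)) (det : det2 d.F = 1) (div : dvg d.κ d.B = 0)
    (bF : ∀ a b, Bd 0 (cr ρ) (grad d.κ d.ξ a b) c) (bB : ∀ a, Bd 0 (cr ρ) (d.B a) (g / lam))
    (bG : ∀ a b, Bd 0 (cr ρ) (d.G a b) g) (bR : ∀ a b, Bd 0 (cr ρ) (d.R a b) σ)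
    (bA : ∀ a, Bd 0 (cr ρ) (d.acc a) A) : Good (Dat.tcl d s t) s t lam g σ ρ c A :=
  XNew_of_big h2 kb k0 levξ levU levv levp levR rξ rU rv rp rR fξ fU fv fp symm tdξ tdv det div bF
    bB bG bR bA

end ES
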