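import Pool.Agent.H16.TSS.M29
import Pool.Agent.H16.TSS.M30

/-!
ES-XPsi: potentials on a sub-block (EW 4, Lemma 4.2).
`φ = strm ⟨a⟩`, `π = pot ⟨q⟩`, `Ψ = Ψa + ∫φ`.
`N0(Sm) ≤ 16 K g N0(Ψ) + 1125 w²`; `pot_bd`: `N0(φ), N0(π) ≤ 8 (16 K g ψ + 1125 w²)`;
`ψ ≤ ψa + h N0(φ)`, absorption.
-/

open scoped BoundedContinuousFunction

namespace ES

section
variable {P : SB} {lam g σ ρ c A ρ0 m w η : ℝ} {ζ E W a q : Vec}

/-- the identity of the potentials -/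
private theorem XPsi_id (H : SBH P lam g σ ρ c A ρ0 m w η)
    (S : SB0 P lam g ρ0 m w ζ E W a q) {Ψ φ π : WT} (hE : ∀ j, E j = dp P.d.κ j Ψ)
    (ha : ∀ j, mean P.d.i (a j) = dp P.d.κ j φ) (hq : ∀ j, mean P.d.i (q j) = D P.d.κ j π)
    (j : Fin 2) : mulv (FF P.d ζ) (fun k => dp P.d.κ k φ) j + gradT P.d.κ (MM P.d ζ) π j =
        dvm P.d.κ (Sm P ζ E W Ψ) j := by
  have h1 := F_a_M_q_mean H S j
  have h2 := mean_f H S j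
  have e1 : gradT P.d.κ (MM P.d ζ) π j =
      mulvT (MM P.d ζ) (fun k => mean P.d.i (q k)) j := by
    unfold gradT
    simp only [hq]
  have e2 : mulv (FF P.d ζ) (fun k => dp P.d.κ k φ) j =
      mulv (FF P.d ζ) (fun k => mean P.d.i (a k)) j := by
    simp only [ha]
  have key : ∀ y : Vec, adv P.d.κ E y j = dvm P.d.κ (TA P.d.κ Ψ y) j := by
    intro y
    have hEf : E = fun c => dp P.d.κ c Ψ := funext hE
    rw [hEf]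
    exact adv_dp P.d.κ Ψ y j
  rw [e1, e2, h1, h2, key, key]
  unfold dvm Sm
  simp only [map_sub, map_neg, two_mul, map_add, Fin.sum_univ_two]
  ring

/-- bound of the mean stress -/
private theorem XPsi_Sm (H : SBH P lam g σ ρ c A ρ0 m w η)
    (S : SB0 P lam g ρ0 m w ζ E W a q) {Ψ : WT} {ψ : ℝ} (bΨ : Bd 0 (P.r ρ0 m) Ψ ψ)
    (k l : Fin 2) : Bd 0 (P.r ρ0 m) (Sm P ζ E W Ψ k l)
      (16 * (1 + 1 / m) * g * ψ + 1125 * w ^ 2) := by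
  have hB := S.bh H
  have hdh := H.dh
  have hK := hdh.K2
  have hψ := bΨ.nonneg
  have hg := hdh.hg
  have hw := H.hw
  have hlw := H.hlw
  have hσ := H.hσ
  have hr : ∀ t, 0 ≤ P.r ρ0 m t := fun t => hdh.r00.le.trans (hdh.hr t)
  have hTA : ∀ (y : Vec) (e : ℝ), (∀ b, Bd 0 (P.r ρ0 m) (D P.d.κ b (y k)) e) →
      Bd 0 (P.r ρ0 m) (TA P.d.κ Ψ y k l) (ψ * e) := by
    intro y e hy
    unfold TA
    split_ifs
    · exact Bd.mul hr bΨ (hy 1)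
    · exact (Bd.mul hr bΨ (hy 0)).neg
  have b1 := hTA (vz P.d ζ) (2 * g) (fun b => by
    rw [grad_vz H S k b]; exact hdh.bd_LL0 hB.z k b)
  have b2 := hTA (mulv (FF P.d ζ) E) (lam * (6 * (1 + 1 / m) * (2 * w))) (fun b =>
    Bd.D hdh.kb b (hdh.mulv_F1 hB.z hB.e k))
  have b3 : Bd 0 (P.r ρ0 m) (mean P.d.i (mulv (FF P.d ζ) W k * W l))
      (103 / 100 * (33 * w) * (33 * w)) :=
    Bd.mean P.d.i (Bd.mul hr (hdh.mulv_F0 hB.z hB.w0 k) (hB.w0 l))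
  have b4 := hdh.bd_RM0 hB.z k l
  have b5 := (((b1.add b1).neg.sub b2).sub b3).sub b4
  have e : Sm P ζ E W Ψ k l = -(TA P.d.κ Ψ (vz P.d ζ) k l + TA P.d.κ Ψ (vz P.d ζ) k l)
      - TA P.d.κ Ψ (mulv (FF P.d ζ) E) k l
      - mean P.d.i (mulv (FF P.d ζ) W k * W l) - mulT (RR P.d ζ) (MM P.d ζ) k l := by
    unfold Sm
    rw [two_mul]
  rw [e]
  refine b5.mono ?_
  have m1 : ψ * (lam * (6 * (1 + 1 / m) * (2 * w))) ≤ 12 * (1 + 1 / m) * g * ψ := by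
    have h1 : 0 ≤ 12 * (1 + 1 / m) * ψ := by positivity
    have h2 := mul_le_mul_of_nonneg_left hlw h1
    linarith
  have m2 : ψ * (2 * g) + ψ * (2 * g) ≤ 2 * (1 + 1 / m) * g * ψ := by
    have h1 : 0 ≤ 2 * g * ψ := by positivity
    have h2 := mul_le_mul_of_nonneg_left hK h1
    linarith
  have m3 : 0 ≤ 2 * (1 + 1 / m) * g * ψ := by positivity
  have m4 : 0 ≤ w ^ 2 := by positivity
  linarith

theorem psi_exists (H : SBH P lam g σ ρ c A ρ0 m w η)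
    (hh : 10 ^ 8 * (1 + 1 / m) ^ 5 * (P.tb - P.ta) * g ≤ 1)
    (S : SB0 P lam g ρ0 m w ζ E W a q) (R : SBR P (10 ^ 7) lam g ρ0 m w η ζ E W a q)
    {Ψa : WT} {ψa : ℝ} (hΨa : ∀ j, P.Ea j = dp P.d.κ j Ψa) (zΨ : Pnz P.d.κ Ψa = Ψa)
    (bΨ : Bd 0 (cr ρ0) Ψa ψa) (lΨ : Lev P.d.i Ψa) (rΨ : IsR Ψa) (tΨ : ∀ t₀, frz t₀ Ψa = Ψa) :
    ∃ φ π : WT, (∀ j, mean P.d.i (a j) = dp P.d.κ j φ) ∧ (∀ j, mean P.d.i (q j) = D P.d.κ j π) ∧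
      (∀ j, E j = dp P.d.κ j (Ψa + intg P.ta P.tb φ)) ∧ Pnz P.d.κ φ = φ ∧ Pnz P.d.κ π = π ∧
      Lev P.d.i φ ∧ Lev P.d.i π ∧ IsR φ ∧ IsR π ∧ Cl P.ta P.tb φ ∧ Cl P.ta P.tb π ∧
      Bd 0 (P.r ρ0 m) (Ψa + intg P.ta P.tb φ) (2 * ψa + 18000 * (P.tb - P.ta) * w ^ 2) ∧
      Bd 0 (P.r ρ0 m) φ (256 * (1 + 1 / m) * g * ψa + 10 ^ 4 * w ^ 2) ∧
      Bd 0 (P.r ρ0 m) π (256 * (1 + 1 / m) * g * ψa + 10 ^ 4 * w ^ 2) ∧
      (∀ j, mulv (FF P.d ζ) (fun k => dp P.d.κ k φ) j + gradT P.d.κ (MM P.d ζ) π j =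
        dvm P.d.κ (Sm P ζ E W (Ψa + intg P.ta P.tb φ)) j) := by
  have hB := S.bh H
  have hdh := H.dh
  have hK := hdh.K2
  have hg := hdh.hg
  have hw := H.hw
  have hr : ∀ t, 0 ≤ P.r ρ0 m t := fun t => hdh.r00.le.trans (hdh.hr t)
  have htab : P.ta < P.tb := H.h1.trans (H.h2.trans H.h3)
  obtain ⟨φ, hφ⟩ : ∃ φ, φ = strm P.d.κ (fun k => mean P.d.i (a k)) := ⟨_, rfl⟩
  obtain ⟨π, hπ⟩ : ∃ π, π = pot P.d.κ (fun k => mean P.d.i (q k)) := ⟨_, rfl⟩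
  have ha : ∀ j, mean P.d.i (a j) = dp P.d.κ j φ := by
    rw [hφ]; exact mean_a_eq H S
  have hq : ∀ j, mean P.d.i (q j) = D P.d.κ j π := by
    rw [hπ]; exact mean_q_eq H S
  have pφ : Pnz P.d.κ φ = φ := by rw [hφ]; exact Pnz_strm _ _
  have pπ : Pnz P.d.κ π = π := by rw [hπ]; exact Pnz_pot _ _
  obtain ⟨Ψ, hΨ⟩ : ∃ Ψ, Ψ = Ψa + intg P.ta P.tb φ := ⟨_, rfl⟩
  have hE : ∀ j, E j = dp P.d.κ j Ψ := by
    intro j
    rw [hΨ, map_add, ← XPsi_intg_dp, ← ha, ← hΨa]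
    exact S.sol.hE j
  have hid := XPsi_id H S hE ha hq
  have hF : ∀ k l, Bd 0 (P.r ρ0 m) (Fm P.d.κ (nX P.d ζ) k l - idm k l) (3 / 250) := by
    intro k l
    rw [← FF_eq H S]
    exact hdh.bd_FF0 hB.z k l
  have bφ0 := Bd.strm P.d.κ (fun k => R.nam k)
  have bπ0 := Bd.pot P.d.κ (fun k => R.nqm k)
  rw [← hφ] at bφ0
  rw [← hπ] at bπ0
  have hid' : ∀ j, mulv (Fm P.d.κ (nX P.d ζ)) (fun k => dp P.d.κ k φ) j +
      gradT P.d.κ (adj (Fm P.d.κ (nX P.d ζ))) π j = dvm P.d.κ (Sm P ζ E W Ψ) j := by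
    intro j
    rw [← FF_eq H S]
    exact hid j
  have step : ∀ c', Bd 0 (P.r ρ0 m) Ψ c' →
      Bd 0 (P.r ρ0 m) φ (8 * (16 * (1 + 1 / m) * g * c' + 1125 * w ^ 2)) ∧
      Bd 0 (P.r ρ0 m) π (8 * (16 * (1 + 1 / m) * g * c' + 1125 * w ^ 2)) := by
    intro c' hc'
    exact pot_bd P.d.κ (nX P.d ζ) hr hF pφ pπ bφ0 bπ0 (XPsi_Sm H S hc') hid'
  -- smallness
  have hsmall : (1 + 1 / m) * g * (P.tb - P.ta) ≤ 1 / 10 ^ 8 := by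
    have h1 : (1 + 1 / m) ≤ (1 + 1 / m) ^ 5 := by
      have : (1 + 1 / m) ^ 1 ≤ (1 + 1 / m) ^ 5 := pow_le_pow_right₀ (by linarith) (by norm_num)
      simpa using this
    have h2 : 0 ≤ (P.tb - P.ta) * g := mul_nonneg (by linarith) hg
    have h3 := mul_le_mul_of_nonneg_right h1 h2
    linarith
  have hh0 : 0 < P.tb - P.ta := by linarith
  have bΨa : Bd 0 (P.r ρ0 m) Ψa ψa := Bd.of_cr bΨ (fun t => rad_le htab H.hm.le t)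
  have hanti : ∀ s t, s ≤ t → P.r ρ0 m t ≤ P.r ρ0 m s := rad_anti htab H.hm.le
  have bΨ0 : Bd 0 (P.r ρ0 m) Ψ (ψa + (P.tb - P.ta) *
      (2 * (10 ^ 7 * (g * η + (1 + 1 / m) ^ 4 * lam * w ^ 2)))) := by
    rw [hΨ]
    exact bΨa.add (Bd.intg htab.le hanti bφ0)
  have bΨ1 : Bd 0 (P.r ρ0 m) Ψ (2 * (ψa + 9000 * (P.tb - P.ta) * w ^ 2)) := by
    refine Bd.absorbV (ι := Unit) (f := fun _ => Ψ) (fun _ => bΨ0) (fun c' hc0 hc' _ => ?_) ()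
    obtain ⟨h1, -⟩ := step c' (hc' ())
    have h2 := bΨa.add (Bd.intg htab.le hanti h1)
    rw [← hΨ] at h2
    refine h2.mono ?_
    have h3 : (1 + 1 / m) * g * (P.tb - P.ta) * c' ≤ 1 / 10 ^ 8 * c' :=
      mul_le_mul_of_nonneg_right hsmall hc0
    have e : ψa + (P.tb - P.ta) * (8 * (16 * (1 + 1 / m) * g * c' + 1125 * w ^ 2)) =
        ψa + 9000 * (P.tb - P.ta) * w ^ 2 + 128 * ((1 + 1 / m) * g * (P.tb - P.ta) * c') := by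
      ring
    rw [e]
    linarith
  have hψa := bΨa.nonneg
  have hfinal : 8 * (16 * (1 + 1 / m) * g * (2 * (ψa + 9000 * (P.tb - P.ta) * w ^ 2)) +
      1125 * w ^ 2) ≤ 256 * (1 + 1 / m) * g * ψa + 10 ^ 4 * w ^ 2 := by
    have h3 := mul_le_mul_of_nonneg_right hsmall (by positivity : 0 ≤ w ^ 2)
    have h4 : 0 ≤ w ^ 2 := by positivity
    have e : 8 * (16 * (1 + 1 / m) * g * (2 * (ψa + 9000 * (P.tb - P.ta) * w ^ 2)) +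
      1125 * w ^ 2) = 256 * (1 + 1 / m) * g * ψa +
        2304000 * ((1 + 1 / m) * g * (P.tb - P.ta) * w ^ 2) + 9000 * w ^ 2 := by ring
    rw [e]
    linarith
  obtain ⟨bφ1, bπ1⟩ := step _ bΨ1
  have hma : ∀ k, Lev P.d.i (mean P.d.i (a k)) := fun k => Lev.mean (S.la k)
  have hmq : ∀ k, Lev P.d.i (mean P.d.i (q k)) := fun k => Lev.mean (S.lq k)
  refine ⟨φ, π, ha, hq, ?_, pφ, pπ, ?_, ?_, ?_, ?_, ?_, ?_, ?_, bφ1.mono hfinal,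
    bπ1.mono hfinal, ?_⟩
  · intro j; rw [← hΨ]; exact hE j
  · rw [hφ]
    exact Lev.mlt _ (Lev.sum _ (fun b _ => XPsi_lev_dp _ _ (hma b)))
  · rw [hπ]
    exact Lev.mlt _ (Lev.sum _ (fun b _ => Lev.D _ _ (hmq b)))
  · rw [hφ]
    exact IsR.Lin (IsR.sum _ (fun b _ => IsR.dp (IsR.mean (S.ra b))))
  · rw [hπ]
    exact IsR.Lin (IsR.sum _ (fun b _ => IsR.D (IsR.mean (S.rq b))))
  · rw [hφ]
    exact Cl.mlt _ (Cl.sum _ (fun b _ => XPsi_cl_dp _ _ (Cl.mlt _ (S.ca b))))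
  · rw [hπ]
    exact Cl.mlt _ (Cl.sum _ (fun b _ => Cl.D _ _ (Cl.mlt _ (S.cq b))))
  · rw [← hΨ]
    refine bΨ1.mono (le_of_eq ?_)
    ring
  · intro j
    rw [← hΨ]
    exact hid j

end

end ES
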