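import Pool.Agent.H16.TSS.ES.XComp_1
import Pool.Agent.H16.TSS.ES.XEq
import Pool.Agent.H16.TSS.M29

/-!
ES-XEq: time derivatives and the momentum equation in the new coordinates (EW 2, Lemma 2.6).
-/

open scoped BoundedContinuousFunction

namespace ES

section
variable {P : SB} {lam g σ ρ c A ρ0 m w η : ℝ} {ζ E W a q : Vec}

/-- Momentum equation on a piece `[s,t]` where `∂_t W = Wt`:
`∂_t u = -(W·D')u - M'ᵀ D p^ζ - f + F'(⟨a⟩ + Wt)`. -/
theorem td_u (H : SBH P lam g σ ρ c A ρ0 m w η) (S : SB0 P lam g ρ0 m w ζ E W a q)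
    (hP : det2 (Pm P.d ζ) = 1) {s t : ℝ} (hs : P.ta ≤ s) (ht : t ≤ P.tb) {Wt : Vec}
    (hW : ∀ j, TD s t (W j) (Wt j)) (j : Fin 2) :
    TD s t (nu' P.d ζ E W j)
      (-adv P.κ' W (nu' P.d ζ E W) j - gradT P.d.κ (MM P.d ζ) (comp P.d.κ ζ P.d.p) j
        - P.f ζ E W j + mulv (FF P.d ζ) (fun k => mean P.d.i (a k) + Wt k) j) := by
  have t1 := (td_vz H S j).mono hs ht
  have tF : ∀ b, TD s t (FF P.d ζ j b) (D P.d.κ b (nV P.d ζ E j)) :=
    fun b => (td_FF H S j b).mono hs ht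
  have tE : ∀ b, TD s t (E b) (mean P.d.i (a b)) := fun b => (td_E S H b).mono hs ht
  have t2 : TD s t (mulv (FF P.d ζ) E j)
      (∑ b, (D P.d.κ b (nV P.d ζ E j) * E b + FF P.d ζ j b * mean P.d.i (a b))) :=
    TD.sum Finset.univ (fun b _ => (tF b).mul (tE b))
  have t3 : TD s t (mulv (FF P.d ζ) W j)
      (∑ b, (D P.d.κ b (nV P.d ζ E j) * W b + FF P.d ζ j b * Wt b)) :=
    TD.sum Finset.univ (fun b _ => (tF b).mul (hW b))
  have t4 := (t1.add t2).add t3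
  have hf := f_eq H S j
  have hacc := comp_acc H S hP j
  have hlev := (S.lev H).2.2.2.2 j
  have hdth : dth P.d.i (vz P.d ζ j) = 0 := dth_of_osc (Lev.osc le_rfl hlev)
  have hadv := adv_W H S (vz P.d ζ) j
  rw [hdth, mul_zero, add_zero] at hadv
  have hgr : ∀ b, D P.d.κ b (vz P.d ζ j) = LL P.d ζ j b := fun b => grad_vz H S j b
  -- the derivative of `V`
  have hDV : ∀ b, D P.d.κ b (nV P.d ζ E j) =
      LL P.d ζ j b + D P.d.κ b (mulv (FF P.d ζ) E j) := by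
    intro b
    have : nV P.d ζ E j = vz P.d ζ j + mulv (FF P.d ζ) E j := rfl
    rw [this, map_add, hgr]
  have hnu : ∀ k, nu' P.d ζ E W k = vz P.d ζ k + mulv (FF P.d ζ) (fun l => E l + W l) k := by
    intro k
    have h1 : nu' P.d ζ E W k = vz P.d ζ k + mulv (FF P.d ζ) E k + mulv (FF P.d ζ) W k := rfl
    rw [h1]
    unfold mulv
    simp only [Fin.sum_univ_two]
    ring
  have hadv2 : adv P.κ' W (nu' P.d ζ E W) j = adv P.κ' W (vz P.d ζ) j +
      adv P.κ' W (mulv (FF P.d ζ) (fun l => E l + W l)) j := by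
    unfold adv
    simp only [hnu, map_add, Fin.sum_univ_two]
    ring
  have hadv3 : adv P.d.κ W (vz P.d ζ) j = mulv (LL P.d ζ) W j := by
    unfold adv mulv
    simp only [hgr, Fin.sum_univ_two]
    ring
  have hadv4 : adv P.d.κ (fun k => E k + W k) (mulv (FF P.d ζ) E) j =
      ∑ b, (E b + W b) * D P.d.κ b (mulv (FF P.d ζ) E j) := rfl
  have e : comp P.d.κ ζ (P.d.acc j) + mulv (LL P.d ζ) E j +
      ∑ b, (D P.d.κ b (nV P.d ζ E j) * E b + FF P.d ζ j b * mean P.d.i (a b)) +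
      ∑ b, (D P.d.κ b (nV P.d ζ E j) * W b + FF P.d ζ j b * Wt b) =
      -adv P.κ' W (nu' P.d ζ E W) j - gradT P.d.κ (MM P.d ζ) (comp P.d.κ ζ P.d.p) j
        - P.f ζ E W j + mulv (FF P.d ζ) (fun k => mean P.d.i (a k) + Wt k) j := by
    rw [hadv2, hadv, hadv3, hf, hacc, hadv4]
    have m1 : ∀ x : Vec, mulv (LL P.d ζ) x j = LL P.d ζ j 0 * x 0 + LL P.d ζ j 1 * x 1 :=
      fun x => Fin.sum_univ_two _
    have m2 : ∀ x : Vec, mulv (FF P.d ζ) x j = FF P.d ζ j 0 * x 0 + FF P.d ζ j 1 * x 1 :=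
      fun x => Fin.sum_univ_two _
    simp only [hDV, Fin.sum_univ_two]
    rw [m1 E, m1 W, m1 (fun k => E k + W k), m2 (fun k => mean P.d.i (a k) + Wt k)]
    ring
  rw [e] at t4
  exact t4

end

end ES
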