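import Pool.Agent.H16.TSS.ES.XDet
import Pool.Agent.H16.TSS.ES.XEq_1
import Pool.Agent.H16.TSS.ES.XNew_1
import Pool.Agent.H16.TSS.M30

/-!
ES-XGap: the new data on the gap and on the ramps are good (EW 3, Prop. 3.5).
Use `Good.of_big`; `F` of the new data is `FF` (`FF_eq'`), `B = W` (`rel_vel`), the equation is
`td_u` with `F_a_M_q` (gap), resp. `F_a_M_q_mean` and the definition of `SB.force` (ramps).
-/

open scoped BoundedContinuousFunction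

namespace ES

section
variable {P : SB} {lam g σ ρ c A ρ0 m w η C0 : ℝ} {ζ E W a q : Vec}

private theorem XGap_main (H : SBH P lam g σ ρ c A ρ0 m w η)
    (hh : 10 ^ 8 * (1 + 1 / m) ^ 5 * (P.tb - P.ta) * g ≤ 1)
    (S : SB0 P lam g ρ0 m w ζ E W a q) (R : SBR P (10 ^ 7) lam g ρ0 m w η ζ E W a q) {y : ℝ}
    (hy : ∀ j, Bd 1 (P.r ρ0 m) (ζ j) y) {s t : ℝ} (h1 : P.ta ≤ s) (h2 : s < t) (h3 : t ≤ P.tb)
    {p1 : WT} {q1 F1 : Vec} {Q : Mat} {α1 σ1 φ1 : ℝ}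
    (lp : Lev (P.d.i + 1) p1) (rp : IsR p1) (fp : Fin0 (ρ0 - 2 * m) p1)
    (hq1 : ∀ j, D P.κ' j p1 = q1 j) (bq : ∀ j, Bd 0 (P.r ρ0 m) (q1 j) α1)
    (sQ : ∀ a b, Q a b = Q b a) (lQ : ∀ a b, Lev (P.d.i + 1) (Q a b)) (rQ : ∀ a b, IsR (Q a b))
    (bQ : ∀ a b, Bd 0 (cr (ρ0 - 2 * m)) (Q a b) σ1)
    (hF : ∀ j, dvm P.κ' (mulT Q (MM P.d ζ)) j = F1 j)
    (bF1 : ∀ j, Bd 0 (cr (ρ0 - 2 * m)) (F1 j) φ1)
    (hTD : ∀ j, TD s t (nu' P.d ζ E W j) (-adv P.κ' W (nu' P.d ζ E W) j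
      - gradT P.d.κ (MM P.d ζ) (comp P.d.κ ζ P.d.p) j - mulvT (MM P.d ζ) q1 j + F1 j)) :
    Good (Dat.tcl (XGap_D P ζ E W (comp P.d.κ ζ P.d.p + p1) Q) s t) s t (2 * P.L)
      (10 ^ 8 * (P.L * w + (1 + 1 / m) ^ 2 * g)) σ1 (ρ0 - 2 * m) (c + lam * y * (1 + 2 * c))
      (A + 12 * (1 + 1 / m) ^ 2 * lam * σ + 103 / 100 * α1 + φ1) := by
  have hP : det2 (Pm P.d ζ) = 1 := det_P H hh S (div_E H S)
  have hdF : det2 (FF P.d ζ) = 1 := comp_det H S hP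
  have hm := H.hm
  have hFF := FF_eq' H S
  have hB : (XGap_D P ζ E W (comp P.d.κ ζ P.d.p + p1) Q).B = W := by
    funext j
    change mulv (adj (Fm P.κ' (nX P.d ζ))) (nu' P.d ζ E W - nV P.d ζ E) j = W j
    rw [← hFF]
    exact rel_vel H S hdF j
  have hM : (XGap_D P ζ E W (comp P.d.κ ζ P.d.p + p1) Q).M = MM P.d ζ := by
    change adj (Fm P.κ' (nX P.d ζ)) = adj (FF P.d ζ)
    rw [← hFF]
  have hosc : osc P.d.i (comp P.d.κ ζ P.d.p) = 0 := ((new_lev H S 0).2.2.2.1).osc le_rfl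
  have hgrad : ∀ j, gradT P.κ' (MM P.d ζ) (comp P.d.κ ζ P.d.p + p1) j =
      gradT P.d.κ (MM P.d ζ) (comp P.d.κ ζ P.d.p) j + mulvT (MM P.d ζ) q1 j := by
    intro j
    unfold gradT mulvT
    rw [← Finset.sum_add_distrib]
    refine Finset.sum_congr rfl fun k _ => ?_
    beta_reduce
    rw [map_add, hq1 k, XGap_D' H k hosc, mul_add]
  have hacc : ∀ j, (XGap_D P ζ E W (comp P.d.κ ζ P.d.p + p1) Q).acc j =
      -gradT P.d.κ (MM P.d ζ) (comp P.d.κ ζ P.d.p) j - mulvT (MM P.d ζ) q1 j + F1 j := by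
    intro j
    have e1 : (XGap_D P ζ E W (comp P.d.κ ζ P.d.p + p1) Q).acc j =
        -gradT P.κ' (XGap_D P ζ E W (comp P.d.κ ζ P.d.p + p1) Q).M
          (comp P.d.κ ζ P.d.p + p1) j +
        dvm P.κ' (mulT Q (XGap_D P ζ E W (comp P.d.κ ζ P.d.p + p1) Q).M) j := rfl
    rw [e1, hM, hgrad, hF]
    ring
  have hw := H.hw
  have hL := XGap_L H
  have hg := XGap_g0 H
  have hK := XGap_K H
  refine Good.of_big h2 (XGap_kb H) (XGap_kk H)
    (fun j => (new_lev H S j).1.mono (Nat.le_succ _))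
    (fun j => (new_lev H S j).2.1.mono (Nat.le_succ _))
    (fun j => (new_lev H S j).2.2.1)
    (((new_lev H S 0).2.2.2.1.mono (Nat.le_succ _)).add lp) lQ
    (fun j => (new_real H S j).1) (fun j => (new_real H S j).2.1)
    (fun j => (new_real H S j).2.2.1) (((new_real H S 0).2.2.2.1).add rp) rQ
    (fun j => XGap_Fin0 (new_fin H S j).1 (by linarith))
    (fun j => XGap_Fin0 (new_fin H S j).2.1 (by linarith))
    (fun j => XGap_Fin0 (new_fin H S j).2.2.1 (by linarith)) ?_ sQ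
    (fun j => (td_nX H S j).mono h1 h3) ?_ ?_ ?_ ?_ ?_ ?_ bQ ?_
  · obtain ⟨c1, hc1⟩ := XGap_Fin0 (new_fin H S 0).2.2.2.1 (by linarith : ρ0 - 2 * m ≤ ρ0 - m)
    obtain ⟨c2, hc2⟩ := fp
    exact ⟨c1 + c2, hc1.add hc2⟩
  · intro j
    have e1 : (XGap_D P ζ E W (comp P.d.κ ζ P.d.p + p1) Q).rhs j =
        (XGap_D P ζ E W (comp P.d.κ ζ P.d.p + p1) Q).acc j -
        adv P.κ' (XGap_D P ζ E W (comp P.d.κ ζ P.d.p + p1) Q).B (nu' P.d ζ E W) j := rfl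
    rw [e1, hacc, hB]
    have e2 : -gradT P.d.κ (MM P.d ζ) (comp P.d.κ ζ P.d.p) j - mulvT (MM P.d ζ) q1 j + F1 j -
        adv P.κ' W (nu' P.d ζ E W) j = -adv P.κ' W (nu' P.d ζ E W) j
      - gradT P.d.κ (MM P.d ζ) (comp P.d.κ ζ P.d.p) j - mulvT (MM P.d ζ) q1 j + F1 j := by ring
    rw [e2]
    exact hTD j
  · change det2 (Fm P.κ' (nX P.d ζ)) = 1
    rw [← hFF]
    exact hdF
  · rw [hB]
    exact div_W H S
  · intro i j
    exact ((new_bF H S hy i j).2).to_cr (XGap_r2 H)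
  · intro j
    rw [hB]
    refine ((R.nW0 j).to_cr (XGap_r2 H)).mono ?_
    rw [le_div_iff₀ (by positivity)]
    have e3 : 0 ≤ (1 + 1 / m) ^ 2 * g := by positivity
    nlinarith [mul_pos hw (by linarith : (0 : ℝ) < P.L)]
  · intro i j
    refine ((new_Du H S (by norm_num : (0 : ℝ) ≤ 10 ^ 7) R.nWt i j).to_cr (XGap_r2 H)).mono ?_
    have e3 : 0 ≤ (1 + 1 / m) ^ 2 * g := by positivity
    have e4 : 0 ≤ (P.L : ℝ) * w := by positivity
    nlinarith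
  · intro j
    rw [hacc]
    exact ((new_acc H S hP bq j).to_cr (XGap_r2 H)).add (bF1 j)

theorem gap_good (H : SBH P lam g σ ρ c A ρ0 m w η)
    (hh : 10 ^ 8 * (1 + 1 / m) ^ 5 * (P.tb - P.ta) * g ≤ 1)
    (S : SB0 P lam g ρ0 m w ζ E W a q) (R : SBR P (10 ^ 7) lam g ρ0 m w η ζ E W a q) {y : ℝ}
    (hy : ∀ j, Bd 1 (P.r ρ0 m) (ζ j) y) :
    Good (P.gapD ζ E W q) P.s1 P.s2 (2 * P.L) (10 ^ 8 * (P.L * w + (1 + 1 / m) ^ 2 * g)) 0
      (ρ0 - 2 * m) (c + lam * y * (1 + 2 * c)) (A + 10 ^ 8 * (1 + 1 / m) ^ 4 * g * w) := by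
  have hP : det2 (Pm P.d ζ) = 1 := det_P H hh S (div_E H S)
  have hm := H.hm
  have key := XGap_main H hh S R hy (s := P.s1) (t := P.s2) H.h1.le H.h2 H.h3.le
    (p1 := pot P.κ' q) (q1 := q) (F1 := fun _ => 0) (Q := fun _ _ => 0)
    (α1 := 10 ^ 6 * (1 + 1 / m) ^ 2 * g * w) (σ1 := 0) (φ1 := 0)
    (XGap_pot_lev S.lq) (XGap_pot_real S.rq)
    (XGap_Fin0 (new_fin H S 0).2.2.2.2.1 (by linarith))
    (fun j => (q_eq_D_pot S j).symm) S.nq (fun _ _ => rfl) (fun _ _ => Lev.zero _)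
    (fun _ _ => IsR.zero) (fun _ _ => Bd.zero _ _ le_rfl)
    (fun j => by
      unfold dvm mulT
      simp)
    (fun _ => Bd.zero _ _ le_rfl)
    (fun j => by
      have h1 := td_u H S hP H.h1.le H.h3.le (fun k => td_W_gap S H k) j
      have h2 : mulv (FF P.d ζ) (fun k => mean P.d.i (a k) + osc P.d.i (a k)) j =
          P.f ζ E W j - mulvT (MM P.d ζ) q j := by
        have h3 : (fun k => mean P.d.i (a k) + osc P.d.i (a k)) = a :=
          funext fun k => mean_add_osc _ _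
        rw [h3, ← F_a_M_q H S j]
        ring
      rw [h2] at h1
      have h4 : -adv P.κ' W (nu' P.d ζ E W) j -
          gradT P.d.κ (MM P.d ζ) (comp P.d.κ ζ P.d.p) j - P.f ζ E W j +
          (P.f ζ E W j - mulvT (MM P.d ζ) q j) = -adv P.κ' W (nu' P.d ζ E W) j
          - gradT P.d.κ (MM P.d ζ) (comp P.d.κ ζ P.d.p) j - mulvT (MM P.d ζ) q j + 0 := by ring
      rw [h4] at h1
      exact h1)
  refine XGap_mono key le_rfl ?_
  have hw := H.hw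
  have hg := XGap_g0 H
  have hK := XGap_K H
  have e0 : 0 ≤ (1 + 1 / m) ^ 2 * g * w := by positivity
  have e1 := XGap_Amono H (x := 10 ^ 6 * (1 + 1 / m) ^ 2 * g * w) (by nlinarith)
  have e2 : 0 ≤ (1 + 1 / m) ^ 4 * g * w := by positivity
  nlinarith

/-- Ramps: for a subinterval `[s,t]` of `[ta,tb]` with `∂_t W = Wt`, `Wt` of mean zero, divergence
free without zero frequency modes, `N0(Wt) ≤ α`. -/
theorem ramp_good (H : SBH P lam g σ ρ c A ρ0 m w η)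
    (hh : 10 ^ 8 * (1 + 1 / m) ^ 5 * (P.tb - P.ta) * g ≤ 1)
    (h3m : 3 * m ≤ ρ0) (hk0 : P.k0 0 ≠ 0 ∨ P.k0 1 ≠ 0) (hexp : Real.exp (-(m * P.L / (4 * lam))) ≤ 1 / P.L)
    (S : SB0 P lam g ρ0 m w ζ E W a q) (R : SBR P (10 ^ 7) lam g ρ0 m w η ζ E W a q) {y : ℝ}
    (hy : ∀ j, Bd 1 (P.r ρ0 m) (ζ j) y) {s t : ℝ} (h1 : P.ta ≤ s) (h2 : s < t) (h3 : t ≤ P.tb)
    {Wt : Vec} {α : ℝ} (hTD : ∀ j, TD s t (W j) (Wt j)) (hα : ∀ j, Bd 0 (cr (ρ0 - m)) (Wt j) α)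
    (hm : ∀ j, mean P.d.i (Wt j) = 0) (hd : dvg P.κ' Wt = 0)
    (hz : ∀ j, Pnz P.κ' (Wt j) = Wt j) (hl : ∀ j, Lev (P.d.i + 1) (Wt j))
    (hr : ∀ j, IsR (Wt j)) (hc : ∀ j, Cl P.ta P.tb (Wt j)) :
    ∃ Q : Mat, Good (P.rampD ζ E W q Q s t) s t (2 * P.L)
      (10 ^ 8 * (P.L * w + (1 + 1 / m) ^ 2 * g))
      (24 / P.L * (103 / 100 * α + 10 ^ 5 * (1 + 1 / m) ^ 2 * g * w))
      (ρ0 - 2 * m) (c + lam * y * (1 + 2 * c))
      (A + 10 ^ 8 * (1 + 1 / m) ^ 4 * g * w + 2 * α) := by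
  have hP : det2 (Pm P.d ζ) = 1 := det_P H hh S (div_E H S)
  have hmm := H.hm
  have hL := XGap_L H
  have hw := H.hw
  have hg := XGap_g0 H
  have hK := XGap_K H
  have hLN : 0 < P.L := by
    rcases Nat.eq_zero_or_pos P.L with h0 | h0
    · rw [h0] at hL
      norm_num at hL
    · exact h0
  have hα0 : 0 ≤ α := (hα 0).nonneg
  -- the force
  have bh : ∀ j, Bd 0 (cr (ρ0 - m)) (P.force ζ E W Wt j)
      (103 / 100 * α + 10 ^ 5 * (1 + 1 / m) ^ 2 * g * w) := fun j => force_bd H S hα j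
  have lh : ∀ j, Lev (P.d.i + 1) (P.force ζ E W Wt j) := by
    intro j
    unfold SB.force
    refine Lev.sub ?_ (Lev.mlt _ (new_lev H S j).2.2.2.2.2)
    exact XGap_osc_mulv_lev
      (fun a b => ((new_lev H S a).2.2.2.2.1 b).1.mono (Nat.le_succ _)) hl j
  have rh : ∀ j, IsR (P.force ζ E W Wt j) := by
    intro j
    unfold SB.force mulv
    exact IsR.sub (IsR.sum _ fun b _ => ((new_real H S j).2.2.2.2.1 b).1.mul (hr b))
      (new_real H S j).2.2.2.2.2.osc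
  have ch : ∀ j, Cl P.ta P.tb (P.force ζ E W Wt j) := by
    intro j
    unfold SB.force mulv
    exact Cl.sub (Cl.sum _ fun b _ => ((new_cl H S j).2.2.2.2.1 b).1.mul (hc b))
      (Cl.mlt _ (new_cl H S j).2.2.2.2.2)
  have bQ0 : ∀ a b, Bd 0 (cr (ρ0 - 2 * m)) (ADm P.κ' (P.force ζ E W Wt) a b)
      (12 / P.L * (103 / 100 * α + 10 ^ 5 * (1 + 1 / m) ^ 2 * g * w)) := by
    intro a b
    have h5 : ∀ e ∈ (Finset.univ : Finset (Fin 2)), Bd 0 (cr (ρ0 - 2 * m))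
        (AD P.κ' a b e (P.force ζ E W Wt e))
        (6 / P.L * (103 / 100 * α + 10 ^ 5 * (1 + 1 / m) ^ 2 * g * w)) := fun e _ =>
      Bd.AD_gain P.d.κ P.d.i P.k0 H.good.kb (XGap_k0 H) hk0 H.hlam hLN hmm hexp
        (fun _ => by change ρ0 - 2 * m + m ≤ ρ0 - m; linarith) (bh e) (force_mean H S hm e) a b e
    refine (Bd.sum Finset.univ h5).mono (le_of_eq ?_)
    rw [Finset.sum_const, Finset.card_univ, Fintype.card_fin, nsmul_eq_mul]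
    push_cast
    ring
  have bMM : ∀ a b, Bd 0 (cr (ρ0 - 2 * m)) (MM P.d ζ a b - idm a b) (3 / 250) := fun a b =>
    (DH.bd_MM0 H.dh (SB0.bh H S).z a b).to_cr (XGap_r2 H)
  obtain ⟨Q, sQ, dQ, bQ, lQ, rQ, cQ⟩ := solveQ P.κ' (r := cr (ρ0 - 2 * m)) hmm
    (fun _ => by change m ≤ ρ0 - 2 * m; linarith) bMM (force_Pnz H S hd hz) bQ0
    (fun a b => ((new_lev H S a).2.2.2.2.1 b).2.mono (Nat.le_succ _)) lh
    (fun a b => ((new_real H S a).2.2.2.2.1 b).2) rh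
    (fun a b => ((new_cl H S a).2.2.2.2.1 b).2) ch
  refine ⟨Q, ?_⟩
  -- the pressure
  have lmq : ∀ j, Lev P.d.i (mean P.d.i (q j)) := fun j => (S.lq j).mean
  have hosc : osc P.d.i (pot P.d.κ (fun k => mean P.d.i (q k))) = 0 :=
    (XGap_pot_lev lmq).osc le_rfl
  have key := XGap_main H hh S R hy h1 h2 h3
    (p1 := pot P.d.κ (fun k => mean P.d.i (q k))) (q1 := fun k => mean P.d.i (q k))
    (F1 := P.force ζ E W Wt) (Q := Q)
    (α1 := 10 ^ 6 * (1 + 1 / m) ^ 2 * g * w)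
    (σ1 := 2 * (12 / P.L * (103 / 100 * α + 10 ^ 5 * (1 + 1 / m) ^ 2 * g * w)))
    (φ1 := 103 / 100 * α + 10 ^ 5 * (1 + 1 / m) ^ 2 * g * w)
    ((XGap_pot_lev lmq).mono (Nat.le_succ _)) (XGap_pot_real fun j => (S.rq j).mean)
    (XGap_Fin0 (new_fin H S 0).2.2.2.2.2 (by linarith))
    (fun j => by rw [XGap_D' H j hosc, ← mean_q_eq H S j])
    (fun j => (S.nq j).mean P.d.i) sQ lQ rQ bQ dQ
    (fun j => (bh j).weaken le_rfl fun _ => by change ρ0 - 2 * m ≤ ρ0 - m; linarith)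
    (fun j => by
      have e1 := td_u H S hP h1 h3 hTD j
      have e2 : mulv (FF P.d ζ) (fun k => mean P.d.i (a k) + Wt k) j =
          mulv (FF P.d ζ) (fun k => mean P.d.i (a k)) j + mulv (FF P.d ζ) Wt j := by
        unfold mulv
        rw [← Finset.sum_add_distrib]
        exact Finset.sum_congr rfl fun b _ => mul_add _ _ _
      have e3 := F_a_M_q_mean H S j
      have e4 := mean_add_osc P.d.i (P.f ζ E W j)
      have e5 : P.force ζ E W Wt j = mulv (FF P.d ζ) Wt j - osc P.d.i (P.f ζ E W j) := rfl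
      have e6 : -adv P.κ' W (nu' P.d ζ E W) j -
          gradT P.d.κ (MM P.d ζ) (comp P.d.κ ζ P.d.p) j - P.f ζ E W j +
          mulv (FF P.d ζ) (fun k => mean P.d.i (a k) + Wt k) j =
          -adv P.κ' W (nu' P.d ζ E W) j - gradT P.d.κ (MM P.d ζ) (comp P.d.κ ζ P.d.p) j -
          mulvT (MM P.d ζ) (fun k => mean P.d.i (q k)) j + P.force ζ E W Wt j := by
        rw [e2, e5]
        linear_combination e3 + e4
      rw [e6] at e1
      exact e1)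
  refine XGap_mono key (le_of_eq ?_) ?_
  · ring
  · have e0 : 0 ≤ (1 + 1 / m) ^ 2 * g * w := by positivity
    have e1 := XGap_Amono H (x := 10 ^ 6 * (1 + 1 / m) ^ 2 * g * w) (by nlinarith)
    have e2 : (1 + 1 / m) ^ 2 * g * w ≤ (1 + 1 / m) ^ 4 * g * w := by
      have h5 : (1 + 1 / m) ^ 2 ≤ (1 + 1 / m) ^ 4 := pow_le_pow_right₀ hK (by norm_num)
      have h6 : 0 ≤ g * w := by positivity
      calc (1 + 1 / m) ^ 2 * g * w = (1 + 1 / m) ^ 2 * (g * w) := by ring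
        _ ≤ (1 + 1 / m) ^ 4 * (g * w) := mul_le_mul_of_nonneg_right h5 h6
        _ = (1 + 1 / m) ^ 4 * g * w := by ring
    have e3 : 10 ^ 5 * (1 + 1 / m) ^ 2 * g * w = 10 ^ 5 * ((1 + 1 / m) ^ 2 * g * w) := by ring
    have e4 : 10 ^ 8 * (1 + 1 / m) ^ 4 * g * w = 10 ^ 8 * ((1 + 1 / m) ^ 4 * g * w) := by ring
    have e5 : 9 * 10 ^ 7 * (1 + 1 / m) ^ 4 * g * w = 9 * 10 ^ 7 * ((1 + 1 / m) ^ 4 * g * w) := by
      ring
    rw [e5] at e1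
    rw [e3, e4]
    linarith

/-! the initial wave -/

/-- First ramp. -/
theorem ramp_left (H : SBH P lam g σ ρ c A ρ0 m w η)
    (hh : 10 ^ 8 * (1 + 1 / m) ^ 5 * (P.tb - P.ta) * g ≤ 1)
    (h3m : 3 * m ≤ ρ0) (hk0 : P.k0 0 ≠ 0 ∨ P.k0 1 ≠ 0) (hexp : Real.exp (-(m * P.L / (4 * lam))) ≤ 1 / P.L)
    (S : SB0 P lam g ρ0 m w ζ E W a q) (R : SBR P (10 ^ 7) lam g ρ0 m w η ζ E W a q) {y : ℝ}
    (hy : ∀ j, Bd 1 (P.r ρ0 m) (ζ j) y) :
    ∃ Q : Mat, Good (P.rampD ζ E W q Q P.ta P.s1) P.ta P.s1 (2 * P.L)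
      (10 ^ 8 * (P.L * w + (1 + 1 / m) ^ 2 * g))
      (10 ^ 8 / P.L * (w / (P.s1 - P.ta) + (1 + 1 / m) ^ 2 * g * w))
      (ρ0 - 2 * m) (c + lam * y * (1 + 2 * c))
      (A + 10 ^ 8 * (1 + 1 / m) ^ 4 * g * w + 100 * w / (P.s1 - P.ta)) := by
  have hl : 0 < P.s1 - P.ta := by linarith [H.h1]
  have hL := XGap_L H
  have hw := H.hw
  have hg := XGap_g0 H
  have hK := XGap_K H
  have hcast : (((P.s1 - P.ta : ℝ) : ℂ)⁻¹) = (((P.s1 - P.ta)⁻¹ : ℝ) : ℂ) := by push_cast; rfl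
  have hnorm : ‖(((P.s1 - P.ta : ℝ) : ℂ)⁻¹)‖ = (P.s1 - P.ta)⁻¹ := by
    rw [norm_inv, Complex.norm_real, Real.norm_eq_abs, abs_of_pos hl]
  obtain ⟨Q, hQ⟩ := ramp_good H hh h3m hk0 hexp S R hy (s := P.ta) (t := P.s1) le_rfl H.h1
    (H.h2.trans H.h3).le (Wt := fun j => (((P.s1 - P.ta : ℝ) : ℂ)⁻¹) • P.W0 j)
    (α := (P.s1 - P.ta)⁻¹ * (32 * w)) (fun j => td_W_left S H j)
    (fun j => by
      have h1 := Bd.smul (((P.s1 - P.ta : ℝ) : ℂ)⁻¹) ((W0_bd0 H j).to_cr (XGap_r H))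
      rwa [hnorm] at h1)
    (fun j => by rw [map_smul, XGap_W0_mean H, smul_zero])
    (by rw [XGap_dvg_smul, W0_div, smul_zero])
    (fun j => by rw [map_smul, XGap_W0_Pnz])
    (fun j => (XGap_W0_lev H j).smul _)
    (fun j => by
      rw [hcast]
      exact (XGap_W0_real H j).smul)
    (fun j => (XGap_W0_cl H j).smul _)
  refine ⟨Q, XGap_mono hQ ?_ ?_⟩
  · have e1 : w / (P.s1 - P.ta) = (P.s1 - P.ta)⁻¹ * w := by rw [div_eq_inv_mul]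
    have e2 : 0 ≤ (P.s1 - P.ta)⁻¹ * w := by positivity
    have e3 : 0 ≤ (1 + 1 / m) ^ 2 * g * w := by positivity
    have e4 : 0 ≤ (P.L : ℝ)⁻¹ := by positivity
    have e5 : 24 * (103 / 100 * ((P.s1 - P.ta)⁻¹ * (32 * w)) + 10 ^ 5 * (1 + 1 / m) ^ 2 * g * w) ≤
        10 ^ 8 * (w / (P.s1 - P.ta) + (1 + 1 / m) ^ 2 * g * w) := by
      rw [e1]
      nlinarith
    have e6 := mul_le_mul_of_nonneg_left e5 e4
    calc _ = (P.L : ℝ)⁻¹ * (24 * (103 / 100 * ((P.s1 - P.ta)⁻¹ * (32 * w)) +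
          10 ^ 5 * (1 + 1 / m) ^ 2 * g * w)) := by ring
      _ ≤ _ := e6
      _ = _ := by ring
  · have e1 : 100 * w / (P.s1 - P.ta) = 100 * ((P.s1 - P.ta)⁻¹ * w) := by
      rw [div_eq_inv_mul]
      ring
    have e2 : 0 ≤ (P.s1 - P.ta)⁻¹ * w := by positivity
    rw [e1]
    nlinarith

/-- Last ramp. -/
theorem ramp_right (H : SBH P lam g σ ρ c A ρ0 m w η)
    (hh : 10 ^ 8 * (1 + 1 / m) ^ 5 * (P.tb - P.ta) * g ≤ 1)
    (h3m : 3 * m ≤ ρ0) (hk0 : P.k0 0 ≠ 0 ∨ P.k0 1 ≠ 0) (hexp : Real.exp (-(m * P.L / (4 * lam))) ≤ 1 / P.L)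
    (S : SB0 P lam g ρ0 m w ζ E W a q) (R : SBR P (10 ^ 7) lam g ρ0 m w η ζ E W a q) {y : ℝ}
    (hy : ∀ j, Bd 1 (P.r ρ0 m) (ζ j) y) :
    ∃ Q : Mat, Good (P.rampD ζ E W q Q P.s2 P.tb) P.s2 P.tb (2 * P.L)
      (10 ^ 8 * (P.L * w + (1 + 1 / m) ^ 2 * g))
      (10 ^ 8 / P.L * (w / (P.tb - P.s2) + (1 + 1 / m) ^ 2 * g * w))
      (ρ0 - 2 * m) (c + lam * y * (1 + 2 * c))
      (A + 10 ^ 8 * (1 + 1 / m) ^ 4 * g * w + 100 * w / (P.tb - P.s2)) := by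
  have hl : 0 < P.tb - P.s2 := by linarith [H.h3]
  have hL := XGap_L H
  have hw := H.hw
  have hm := H.hm
  have hg := XGap_g0 H
  have hK := XGap_K H
  have hab := XGap_tab H
  have hcast : (((P.tb - P.s2 : ℝ) : ℂ)⁻¹) = (((P.tb - P.s2)⁻¹ : ℝ) : ℂ) := by push_cast; rfl
  have hnorm : ‖(((P.tb - P.s2 : ℝ) : ℂ)⁻¹)‖ = (P.tb - P.s2)⁻¹ := by
    rw [norm_inv, Complex.norm_real, Real.norm_eq_abs, abs_of_pos hl]
  have bI : ∀ j, Bd 0 (cr (ρ0 - m)) (frz P.s2 (intg P.s1 P.s2 (osc P.d.i (a j)))) w := by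
    intro j
    have e1 : Bd 0 (P.r ρ0 m) (osc P.d.i (a j)) (10 ^ 6 * (1 + 1 / m) ^ 2 * g * w) :=
      (S.na j).osc P.d.i
    have e2 := Bd.intg_gain H.h1.le H.h2.le H.h3.le hab hm e1
    have e3 := (e2.weaken (Nat.zero_le 1) (fun _ => le_rfl)).frz P.s2
    refine (e3.weaken le_rfl fun _ => XGap_r H P.s2).mono ?_
    have e4 : (P.tb - P.ta) * (1 + 1 / m) * (10 ^ 6 * (1 + 1 / m) ^ 2 * g * w) =
        10 ^ 6 * ((1 + 1 / m) ^ 3 * (P.tb - P.ta) * g) * w := by ring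
    rw [e4]
    have e5 : (1 + 1 / m) ^ 3 ≤ (1 + 1 / m) ^ 5 := pow_le_pow_right₀ hK (by norm_num)
    have e6 : 0 ≤ (P.tb - P.ta) * g := mul_nonneg (by linarith) hg.le
    have e7 : (1 + 1 / m) ^ 3 * ((P.tb - P.ta) * g) ≤ (1 + 1 / m) ^ 5 * ((P.tb - P.ta) * g) :=
      mul_le_mul_of_nonneg_right e5 e6
    have e8 : 10 ^ 6 * ((1 + 1 / m) ^ 3 * (P.tb - P.ta) * g) ≤ 1 := by nlinarith
    calc 10 ^ 6 * ((1 + 1 / m) ^ 3 * (P.tb - P.ta) * g) * w ≤ 1 * w :=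
          mul_le_mul_of_nonneg_right e8 hw.le
      _ = w := one_mul w
  obtain ⟨Q, hQ⟩ := ramp_good H hh h3m hk0 hexp S R hy (s := P.s2) (t := P.tb)
    (H.h1.trans H.h2).le H.h3 le_rfl
    (Wt := fun j => -((((P.tb - P.s2 : ℝ) : ℂ)⁻¹) •
      (P.W0 j + frz P.s2 (intg P.s1 P.s2 (osc P.d.i (a j))))))
    (α := (P.tb - P.s2)⁻¹ * (32 * w + w)) (fun j => td_W_right S H j)
    (fun j => by
      have h1 := (Bd.smul (((P.tb - P.s2 : ℝ) : ℂ)⁻¹)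
        (((W0_bd0 H j).to_cr (XGap_r H)).add (bI j))).neg
      rwa [hnorm] at h1)
    (fun j => by
      have h1 : mean P.d.i (frz P.s2 (intg P.s1 P.s2 (osc P.d.i (a j)))) = 0 := by
        have h2 : frz P.s2 (mean P.d.i (intg P.s1 P.s2 (osc P.d.i (a j)))) =
            mean P.d.i (frz P.s2 (intg P.s1 P.s2 (osc P.d.i (a j)))) := tcomp_mlt _ _ _
        rw [← h2, ← intg_mean, mean_osc, map_zero]
        exact tcomp_zero _
      rw [map_neg, map_smul, map_add, XGap_W0_mean H, h1, add_zero, smul_zero, neg_zero])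
    (by
      have h1 : dvg P.κ' (fun j => frz P.s2 (intg P.s1 P.s2 (osc P.d.i (a j)))) = 0 := by
        unfold dvg
        have h2 : ∀ j, D P.κ' j (frz P.s2 (intg P.s1 P.s2 (osc P.d.i (a j)))) =
            frz P.s2 (intg P.s1 P.s2 (osc P.d.i (D P.κ' j (a j)))) := by
          intro j
          rw [osc_D, intg_D]
          exact (tcomp_D _ _ _ _).symm
        rw [Finset.sum_congr rfl fun j _ => h2 j]
        have h3 : ∑ j, frz P.s2 (intg P.s1 P.s2 (osc P.d.i (D P.κ' j (a j)))) =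
            frz P.s2 (∑ j, intg P.s1 P.s2 (osc P.d.i (D P.κ' j (a j)))) :=
          (tcomp_sum _ _ _).symm
        have h5 : ∑ j, D P.κ' j (a j) = 0 := div_a S
        rw [h3, ← map_sum, ← map_sum, h5, map_zero, map_zero]
        exact tcomp_zero _
      have h6 : dvg P.κ' P.W0 = 0 := W0_div P
      unfold dvg at h1 h6 ⊢
      simp only [map_neg, map_smul, map_add, Finset.sum_neg_distrib, ← Finset.smul_sum,
        Finset.sum_add_distrib, h1, h6, add_zero, smul_zero, neg_zero])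
    (fun j => by
      have h1 : Pnz P.κ' (frz P.s2 (intg P.s1 P.s2 (osc P.d.i (a j)))) =
          frz P.s2 (intg P.s1 P.s2 (osc P.d.i (a j))) := by
        have h2 : frz P.s2 (Pnz P.κ' (intg P.s1 P.s2 (osc P.d.i (a j)))) =
            Pnz P.κ' (frz P.s2 (intg P.s1 P.s2 (osc P.d.i (a j)))) := tcomp_mlt _ _ _
        have h3 : intg P.s1 P.s2 (Pnz P.κ' (osc P.d.i (a j))) =
            Pnz P.κ' (intg P.s1 P.s2 (osc P.d.i (a j))) := intg_mlt _ _ _ _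
        rw [← h2, ← h3, ← osc_Pnz, Pnz_a S]
      rw [map_neg, map_smul, map_add, XGap_W0_Pnz, h1])
    (fun j => (((XGap_W0_lev H j).add
      (Lev.tcomp _ (Lev.intg _ _ (Lev.mlt _ (S.la j))))).smul _).neg)
    (fun j => by
      rw [hcast]
      exact (((XGap_W0_real H j).add ((S.ra j).osc.intg.frz)).smul).neg)
    (fun j => (((XGap_W0_cl H j).add (Cl.frz _ _ _ _)).smul _).neg)
  refine ⟨Q, XGap_mono hQ ?_ ?_⟩
  · have e1 : w / (P.tb - P.s2) = (P.tb - P.s2)⁻¹ * w := by rw [div_eq_inv_mul]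
    have e2 : 0 ≤ (P.tb - P.s2)⁻¹ * w := by positivity
    have e3 : 0 ≤ (1 + 1 / m) ^ 2 * g * w := by positivity
    have e4 : 0 ≤ (P.L : ℝ)⁻¹ := by positivity
    have e5 : 24 * (103 / 100 * ((P.tb - P.s2)⁻¹ * (32 * w + w)) +
        10 ^ 5 * (1 + 1 / m) ^ 2 * g * w) ≤
        10 ^ 8 * (w / (P.tb - P.s2) + (1 + 1 / m) ^ 2 * g * w) := by
      rw [e1]
      nlinarith
    have e6 := mul_le_mul_of_nonneg_left e5 e4
    calc _ = (P.L : ℝ)⁻¹ * (24 * (103 / 100 * ((P.tb - P.s2)⁻¹ * (32 * w + w)) +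
          10 ^ 5 * (1 + 1 / m) ^ 2 * g * w)) := by ring
      _ ≤ _ := e6
      _ = _ := by ring
  · have e1 : 100 * w / (P.tb - P.s2) = 100 * ((P.tb - P.s2)⁻¹ * w) := by
      rw [div_eq_inv_mul]
      ring
    have e2 : 0 ≤ (P.tb - P.s2)⁻¹ * w := by positivity
    rw [e1]
    nlinarith

end

end ES
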