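import Mathlib

/-!
Project ES (Euler, singular times), base algebra.

`Gx`  : finitely supported integer sequences (Fourier index of the lifted torus).
`Ct`  : bounded continuous functions of time with complex values.
`WT`  : rapidly decreasing families of elements of `Ct`, a commutative ring under convolution.
-/

open scoped BoundedContinuousFunction

namespace ES

/-- Index group: finitely supported integer sequences. -/
abbrev Gx := ℕ →₀ ℤ

/-- Time dependent coefficients. -/
abbrev Ct := BoundedContinuousFunction ℝ ℂ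

/-- The length (l^1 norm) of an index. -/
def len (ν : Gx) : ℕ := ν.sum fun _ n => n.natAbs

/-- Rapid decrease. -/
def Rapid (f : Gx → Ct) : Prop :=
  ∀ k : ℕ, Summable fun ν => (1 + (len ν : ℝ)) ^ k * ‖f ν‖

/-- Rapidly decreasing coefficient families. -/
@[ext]
structure WT where
  co : Gx → Ct
  rapid : Rapid co

theorem len_zero : len (0 : Gx) = 0 := by simp [len]

theorem len_neg (ν : Gx) : len (-ν) = len ν := by
  unfold len
  rw [Finsupp.sum_neg_index (by simp)]
  simp

theorem len_add (μ ν : Gx) : len (μ + ν) ≤ len μ + len ν := by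
  classical
  unfold len
  have h1 : (μ + ν).sum (fun _ n => n.natAbs) = ∑ j ∈ μ.support ∪ ν.support, ((μ + ν) j).natAbs :=
    Finsupp.sum_of_support_subset _ Finsupp.support_add _ (by simp)
  have h2 : μ.sum (fun _ n => n.natAbs) = ∑ j ∈ μ.support ∪ ν.support, (μ j).natAbs :=
    Finsupp.sum_of_support_subset _ Finset.subset_union_left _ (by simp)
  have h3 : ν.sum (fun _ n => n.natAbs) = ∑ j ∈ μ.support ∪ ν.support, (ν j).natAbs :=
    Finsupp.sum_of_support_subset _ Finset.subset_union_right _ (by simp)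
  rw [h1, h2, h3, ← Finset.sum_add_distrib]
  exact Finset.sum_le_sum fun j _ => by
    rw [Finsupp.add_apply]; exact Int.natAbs_add_le _ _

theorem rapid_norm {f : Gx → Ct} (hf : Rapid f) : Summable fun ν => ‖f ν‖ := by
  simpa using hf 0

theorem rapid_zero : Rapid 0 := by
  intro k; simpa using summable_zero

theorem rapid_add {f g : Gx → Ct} (hf : Rapid f) (hg : Rapid g) : Rapid (f + g) := by
  intro k
  refine Summable.of_nonneg_of_le (fun ν => by positivity) (fun ν => ?_) ((hf k).add (hg k))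
  rw [← mul_add]
  exact mul_le_mul_of_nonneg_left (norm_add_le _ _) (by positivity)

theorem rapid_neg {f : Gx → Ct} (hf : Rapid f) : Rapid (-f) := by
  intro k; simpa using hf k

theorem rapid_smul (c : ℂ) {f : Gx → Ct} (hf : Rapid f) : Rapid (c • f) := by
  intro k
  have := (hf k).mul_left ‖c‖
  refine this.congr fun ν => ?_
  simp only [Pi.smul_apply, norm_smul]; ring

/-- Convolution. -/
noncomputable def conv (f g : Gx → Ct) (ν : Gx) : Ct := ∑' μ, f μ * g (ν - μ)

theorem rapid_single (φ : Ct) (μ : Gx) : Rapid (Pi.single μ φ) := by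
  intro k
  refine summable_of_ne_finset_zero (s := {μ}) fun ν hν => ?_
  have : ν ≠ μ := by simpa using hν
  simp [Pi.single_apply, this]

/-- Summability on the product, in shifted form. -/
theorem summable_prod_shift {a b : Gx → ℝ} (ha : Summable a) (hb : Summable b)
    (ha0 : ∀ ν, 0 ≤ a ν) (hb0 : ∀ ν, 0 ≤ b ν) :
    Summable fun p : Gx × Gx => a p.2 * b (p.1 - p.2) := by
  have h := ha.mul_of_nonneg hb ha0 hb0
  let e : Gx × Gx ≃ Gx × Gx :=
    { toFun := fun p => (p.2, p.1 - p.2)
      invFun := fun p => (p.1 + p.2, p.1)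
      left_inv := fun p => by ext <;> simp
      right_inv := fun p => by ext <;> simp }
  exact (e.summable_iff (f := fun p : Gx × Gx => a p.1 * b p.2)).2 h

theorem one_add_len_le (ν μ : Gx) :
    (1 + (len ν : ℝ)) ≤ (1 + (len μ : ℝ)) * (1 + (len (ν - μ) : ℝ)) := by
  have h : len ν ≤ len μ + len (ν - μ) := by
    have := len_add μ (ν - μ); simpa using this
  have h' : (len ν : ℝ) ≤ len μ + len (ν - μ) := by exact_mod_cast h
  nlinarith [(Nat.cast_nonneg (len μ) : (0:ℝ) ≤ _), (Nat.cast_nonneg (len (ν - μ)) : (0:ℝ) ≤ _),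
    mul_nonneg (Nat.cast_nonneg (len μ) : (0:ℝ) ≤ _) (Nat.cast_nonneg (len (ν - μ)) : (0:ℝ) ≤ _)]

theorem conv_summable {f g : Gx → Ct} (hf : Rapid f) (hg : Rapid g) (ν : Gx) :
    Summable fun μ => f μ * g (ν - μ) := by
  have h := (summable_prod_shift (rapid_norm hf) (rapid_norm hg) (fun _ => norm_nonneg _)
    (fun _ => norm_nonneg _))
  have h1 : Summable fun μ => ‖f μ‖ * ‖g (ν - μ)‖ := h.prod_factor ν
  exact Summable.of_norm_bounded h1 (fun μ => norm_mul_le _ _)

theorem rapid_conv {f g : Gx → Ct} (hf : Rapid f) (hg : Rapid g) : Rapid (conv f g) := by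
  intro k
  have h := (summable_prod_shift (hf k) (hg k) (fun _ => by positivity) (fun _ => by positivity))
  have h1 := h.prod
  refine Summable.of_nonneg_of_le (fun ν => by positivity) (fun ν => ?_) h1
  have h2 : Summable fun μ => ‖f μ‖ * ‖g (ν - μ)‖ :=
    (summable_prod_shift (rapid_norm hf) (rapid_norm hg) (fun _ => norm_nonneg _)
      (fun _ => norm_nonneg _)).prod_factor ν
  have h3 : ‖conv f g ν‖ ≤ ∑' μ, ‖f μ‖ * ‖g (ν - μ)‖ := by
    refine tsum_of_norm_bounded h2.hasSum fun μ => norm_mul_le _ _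
  have h4 := h.prod_factor ν
  calc (1 + (len ν : ℝ)) ^ k * ‖conv f g ν‖
      ≤ (1 + (len ν : ℝ)) ^ k * ∑' μ, ‖f μ‖ * ‖g (ν - μ)‖ :=
        mul_le_mul_of_nonneg_left h3 (by positivity)
    _ = ∑' μ, (1 + (len ν : ℝ)) ^ k * (‖f μ‖ * ‖g (ν - μ)‖) := by rw [tsum_mul_left]
    _ ≤ _ := by
        refine Summable.tsum_le_tsum (fun μ => ?_) (h2.mul_left _) h4
        have h5 : (1 + (len ν : ℝ)) ^ k ≤ ((1 + (len μ : ℝ)) * (1 + (len (ν - μ) : ℝ))) ^ k :=
          pow_le_pow_left₀ (by positivity) (one_add_len_le ν μ) k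
        calc (1 + (len ν : ℝ)) ^ k * (‖f μ‖ * ‖g (ν - μ)‖)
            ≤ ((1 + (len μ : ℝ)) * (1 + (len (ν - μ) : ℝ))) ^ k * (‖f μ‖ * ‖g (ν - μ)‖) :=
              mul_le_mul_of_nonneg_right h5 (by positivity)
          _ = _ := by rw [mul_pow]; ring

theorem conv_comm (f g : Gx → Ct) : conv f g = conv g f := by
  funext ν
  unfold conv
  rw [← (Equiv.subLeft ν).tsum_eq]
  refine tsum_congr fun μ => ?_
  simp [mul_comm]

theorem conv_add {f g h : Gx → Ct} (hf : Rapid f) (hg : Rapid g) (hh : Rapid h) :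
    conv f (g + h) = conv f g + conv f h := by
  funext ν
  simp only [conv, Pi.add_apply, mul_add]
  exact (conv_summable hf hg ν).tsum_add (conv_summable hf hh ν)

theorem one_conv (f : Gx → Ct) : conv (Pi.single 0 1) f = f := by
  funext ν
  unfold conv
  rw [tsum_eq_single 0]
  · simp
  · intro μ hμ; simp [Pi.single_apply, hμ]

theorem conv_assoc {f g h : Gx → Ct} (hf : Rapid f) (hg : Rapid g) (hh : Rapid h) :
    conv (conv f g) h = conv f (conv g h) := by
  funext ν
  unfold conv
  -- both sides are sums over pairs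
  have hs : Summable fun p : Gx × Gx => f p.2 * g (p.1 - p.2) * h (ν - p.1) := by
    have h0 := summable_prod_shift (rapid_norm hf) (rapid_norm hg) (fun _ => norm_nonneg _)
      (fun _ => norm_nonneg _)
    obtain ⟨C, hC⟩ : ∃ C, ∀ μ, ‖h μ‖ ≤ C := by
      refine ⟨∑' μ, ‖h μ‖, fun μ => ?_⟩
      exact (rapid_norm hh).le_tsum μ (fun _ _ => norm_nonneg _)
    refine Summable.of_norm_bounded (h0.mul_right C) fun p => ?_
    calc ‖f p.2 * g (p.1 - p.2) * h (ν - p.1)‖
        ≤ ‖f p.2 * g (p.1 - p.2)‖ * ‖h (ν - p.1)‖ := norm_mul_le _ _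
      _ ≤ (‖f p.2‖ * ‖g (p.1 - p.2)‖) * C :=
          mul_le_mul (norm_mul_le _ _) (hC _) (norm_nonneg _) (by positivity)
  have e1 : ∑' μ, (∑' lam, f lam * g (μ - lam)) * h (ν - μ)
      = ∑' p : Gx × Gx, f p.2 * g (p.1 - p.2) * h (ν - p.1) := by
    rw [hs.tsum_prod]
    exact tsum_congr fun μ => ((conv_summable hf hg μ).tsum_mul_right _).symm
  have e2 : ∑' p : Gx × Gx, f p.2 * g (p.1 - p.2) * h (ν - p.1)
      = ∑' p : Gx × Gx, f p.1 * (g p.2 * h (ν - p.1 - p.2)) := by
    let e : Gx × Gx ≃ Gx × Gx :=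
      { toFun := fun p => (p.2, p.1 - p.2)
        invFun := fun p => (p.1 + p.2, p.1)
        left_inv := fun p => by ext <;> simp
        right_inv := fun p => by ext <;> simp }
    rw [← e.tsum_eq (fun p : Gx × Gx => f p.1 * (g p.2 * h (ν - p.1 - p.2)))]
    refine tsum_congr fun p => ?_
    change _ = f p.2 * (g (p.1 - p.2) * h (ν - p.2 - (p.1 - p.2)))
    rw [mul_assoc]; congr 3; abel
  have hs2 : Summable fun p : Gx × Gx => f p.1 * (g p.2 * h (ν - p.1 - p.2)) := by
    let e : Gx × Gx ≃ Gx × Gx :=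
      { toFun := fun p => (p.2, p.1 - p.2)
        invFun := fun p => (p.1 + p.2, p.1)
        left_inv := fun p => by ext <;> simp
        right_inv := fun p => by ext <;> simp }
    rw [← e.summable_iff]
    refine hs.congr fun p => ?_
    change _ = f p.2 * (g (p.1 - p.2) * h (ν - p.2 - (p.1 - p.2)))
    rw [mul_assoc]; congr 3; abel
  rw [e1, e2, hs2.tsum_prod]
  refine tsum_congr fun lam => ?_
  rw [← (conv_summable hg hh (ν - lam)).tsum_mul_left]

namespace WT

noncomputable instance : Zero WT := ⟨⟨0, rapid_zero⟩⟩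
noncomputable instance : Add WT := ⟨fun f g => ⟨f.co + g.co, rapid_add f.rapid g.rapid⟩⟩
noncomputable instance : Neg WT := ⟨fun f => ⟨-f.co, rapid_neg f.rapid⟩⟩
noncomputable instance : One WT := ⟨⟨Pi.single 0 1, rapid_single 1 0⟩⟩
noncomputable instance : Mul WT := ⟨fun f g => ⟨conv f.co g.co, rapid_conv f.rapid g.rapid⟩⟩
noncomputable instance : SMul ℂ WT := ⟨fun c f => ⟨c • f.co, rapid_smul c f.rapid⟩⟩

@[simp] theorem co_zero : (0 : WT).co = 0 := rfl
@[simp] theorem co_add (f g : WT) : (f + g).co = f.co + g.co := rfl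
@[simp] theorem co_neg (f : WT) : (-f).co = -f.co := rfl
theorem co_one : (1 : WT).co = Pi.single 0 1 := rfl
@[simp] theorem co_smul (c : ℂ) (f : WT) : (c • f).co = c • f.co := rfl

noncomputable instance : CommRing WT where
  add_assoc f g h := WT.ext (add_assoc _ _ _)
  zero_add f := WT.ext (zero_add _)
  add_zero f := WT.ext (add_zero _)
  add_comm f g := WT.ext (add_comm _ _)
  neg_add_cancel f := WT.ext (neg_add_cancel _)
  mul_assoc f g h := WT.ext (conv_assoc f.rapid g.rapid h.rapid)
  one_mul f := WT.ext (one_conv _)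
  mul_one f := WT.ext (by
    change conv f.co (Pi.single 0 1) = f.co
    rw [conv_comm]; exact one_conv _)
  mul_comm f g := WT.ext (conv_comm _ _)
  left_distrib f g h := WT.ext (conv_add f.rapid g.rapid h.rapid)
  right_distrib f g h := WT.ext (by
    change conv (f.co + g.co) h.co = conv f.co h.co + conv g.co h.co
    rw [conv_comm, conv_add h.rapid f.rapid g.rapid, conv_comm h.co f.co, conv_comm h.co g.co])
  zero_mul f := WT.ext (by
    change conv 0 f.co = 0
    funext ν; simp [conv])
  mul_zero f := WT.ext (by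
    change conv f.co 0 = 0
    funext ν; simp [conv])
  nsmul := nsmulRec
  zsmul := zsmulRec

@[simp] theorem co_sub (f g : WT) : (f - g).co = f.co - g.co := by
  rw [sub_eq_add_neg, sub_eq_add_neg]; rfl

theorem conv_smul (c : ℂ) (f g : Gx → Ct) : conv f (c • g) = c • conv f g := by
  funext ν
  simp only [conv, Pi.smul_apply, mul_smul_comm]
  exact tsum_const_smul'' c

noncomputable instance : Module ℂ WT where
  one_smul f := WT.ext (one_smul ℂ _)
  mul_smul c d f := WT.ext (mul_smul c d _)
  smul_zero c := WT.ext (smul_zero c)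
  smul_add c f g := WT.ext (smul_add c _ _)
  add_smul c d f := WT.ext (add_smul c d _)
  zero_smul f := WT.ext (zero_smul ℂ _)

noncomputable instance : Algebra ℂ WT :=
  Algebra.ofModule
    (fun c f g => WT.ext (by
      change conv (c • f.co) g.co = c • conv f.co g.co
      rw [conv_comm, conv_smul, conv_comm]))
    (fun c f g => WT.ext (conv_smul c f.co g.co))

theorem mul_co (f g : WT) (ν : Gx) : (f * g).co ν = ∑' μ, f.co μ * g.co (ν - μ) := rfl

/-- Pointwise (in time) form of the product. -/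
theorem mul_co_apply (f g : WT) (ν : Gx) (t : ℝ) :
    (f * g).co ν t = ∑' μ, f.co μ t * g.co (ν - μ) t := by
  rw [mul_co]
  have h := conv_summable f.rapid g.rapid ν
  have h2 := (h.hasSum.map (BoundedContinuousFunction.evalCLM ℂ t)
    (BoundedContinuousFunction.evalCLM ℂ t).continuous).tsum_eq
  simpa using h2.symm

end WT

end ES
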