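import Pool.Agent.H16.TSS.ES.Base

/-!
Project ES: operators on `WT`, bounds, time calculus.
-/

open scoped BoundedContinuousFunction

namespace ES

/-! ### Fourier multipliers -/

/-- Polynomial growth of a symbol. -/
def PG (s : Gx → ℂ) : Prop := ∃ (n : ℕ) (C : ℝ), ∀ ν, ‖s ν‖ ≤ C * (1 + (len ν : ℝ)) ^ n

theorem rapid_mlt {s : Gx → ℂ} (hs : PG s) {f : Gx → Ct} (hf : Rapid f) :
    Rapid fun ν => s ν • f ν := by
  obtain ⟨n, C, hC⟩ := hs
  intro k
  refine Summable.of_nonneg_of_le (fun ν => by positivity) (fun ν => ?_)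
    ((hf (k + n)).mul_left |C|)
  rw [norm_smul]
  calc (1 + (len ν : ℝ)) ^ k * (‖s ν‖ * ‖f ν‖)
      ≤ (1 + (len ν : ℝ)) ^ k * ((|C| * (1 + (len ν : ℝ)) ^ n) * ‖f ν‖) := by
        refine mul_le_mul_of_nonneg_left (mul_le_mul_of_nonneg_right ((hC ν).trans ?_)
          (norm_nonneg _)) (by positivity)
        exact mul_le_mul_of_nonneg_right (le_abs_self _) (by positivity)
    _ = |C| * ((1 + (len ν : ℝ)) ^ (k + n) * ‖f ν‖) := by rw [pow_add]; ring

/-- The multiplier operator with symbol `s`. -/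
noncomputable def mlt (s : Gx → ℂ) (hs : PG s) : WT →ₗ[ℂ] WT where
  toFun f := ⟨fun ν => s ν • f.co ν, rapid_mlt hs f.rapid⟩
  map_add' f g := WT.ext (by funext ν; simp)
  map_smul' c f := WT.ext (by funext ν; simp [smul_comm c])

@[simp] theorem mlt_co {s : Gx → ℂ} (hs : PG s) (f : WT) (ν : Gx) :
    (mlt s hs f).co ν = s ν • f.co ν := rfl

theorem pg_of_bounded {s : Gx → ℂ} {C : ℝ} (h : ∀ ν, ‖s ν‖ ≤ C) : PG s :=
  ⟨0, C, fun ν => by simpa using h ν⟩

/-- Frequencies attached to the variables: two integer sequences, bounded. -/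
structure Kp where
  k : Fin 2 → ℕ → ℤ
  bdd : ∃ N : ℕ, ∀ a j, |k a j| ≤ N

/-- The integer frequency attached to an index. -/
def kap (κ : Kp) (a : Fin 2) (ν : Gx) : ℤ := ν.sum fun j n => n * κ.k a j

@[simp] theorem kap_zero (κ : Kp) (a : Fin 2) : kap κ a 0 = 0 := by simp [kap]

theorem kap_add (κ : Kp) (a : Fin 2) (μ ν : Gx) : kap κ a (μ + ν) = kap κ a μ + kap κ a ν := by
  unfold kap
  exact Finsupp.sum_add_index' (by simp) (by intros; ring)

/-- All frequencies are bounded by `lam`. -/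
def KB (κ : Kp) (lam : ℝ) : Prop := ∀ a j, |(κ.k a j : ℝ)| ≤ lam

theorem kap_le {κ : Kp} {lam : ℝ} (h : KB κ lam) (a : Fin 2) (ν : Gx) :
    |(kap κ a ν : ℝ)| ≤ lam * len ν := by
  unfold kap len Finsupp.sum
  push_cast
  rw [Finset.mul_sum]
  refine (Finset.abs_sum_le_sum_abs _ _).trans (Finset.sum_le_sum fun j _ => ?_)
  rw [abs_mul, mul_comm, Nat.cast_natAbs, Int.cast_abs]
  exact mul_le_mul_of_nonneg_right (h a j) (abs_nonneg _)

theorem kap_pg (κ : Kp) (a : Fin 2) : PG fun ν => Complex.I * (kap κ a ν : ℂ) := by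
  obtain ⟨N, hN⟩ := κ.bdd
  have h : KB κ N := fun a j => by exact_mod_cast hN a j
  refine ⟨1, N, fun ν => ?_⟩
  have h1 : ‖Complex.I * (kap κ a ν : ℂ)‖ = |(kap κ a ν : ℝ)| := by
    rw [norm_mul, Complex.norm_I, one_mul]
    rw [← Complex.ofReal_intCast, Complex.norm_real, Real.norm_eq_abs]
  rw [h1, pow_one]
  exact (kap_le h a ν).trans (mul_le_mul_of_nonneg_left (by linarith) (Nat.cast_nonneg _))

/-- Derivation `D_a`. -/
noncomputable def D (κ : Kp) (a : Fin 2) : WT →ₗ[ℂ] WT :=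
  mlt (fun ν => Complex.I * (kap κ a ν : ℂ)) (kap_pg κ a)

theorem abs_apply_le_len (ν : Gx) (i : ℕ) : |((ν i : ℤ) : ℝ)| ≤ len ν := by
  unfold len Finsupp.sum
  by_cases h : i ∈ ν.support
  · push_cast
    have h2 : |((ν i : ℤ) : ℝ)| = ((ν i).natAbs : ℝ) := by rw [Nat.cast_natAbs, Int.cast_abs]
    rw [h2]
    exact Finset.single_le_sum (f := fun j => ((ν j).natAbs : ℝ)) (fun _ _ => by positivity) h
  · have : ν i = 0 := by simpa using h
    rw [this]; simp; positivity

theorem dth_pg (i : ℕ) : PG fun ν => Complex.I * (ν i : ℂ) := by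
  refine ⟨1, 1, fun ν => ?_⟩
  have h1 : ‖Complex.I * (ν i : ℂ)‖ = |((ν i : ℤ) : ℝ)| := by
    rw [norm_mul, Complex.norm_I, one_mul]
    rw [← Complex.ofReal_intCast, Complex.norm_real, Real.norm_eq_abs]
  rw [h1, pow_one, one_mul]
  linarith [abs_apply_le_len ν i]

/-- Derivative in the variable number `i`. -/
noncomputable def dth (i : ℕ) : WT →ₗ[ℂ] WT := mlt (fun ν => Complex.I * (ν i : ℂ)) (dth_pg i)

theorem mean_pg (i : ℕ) : PG fun ν => if ν i = 0 then 1 else 0 :=
  pg_of_bounded (C := 1) fun ν => by split_ifs <;> simp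

/-- Mean in the variable number `i`. -/
noncomputable def mean (i : ℕ) : WT →ₗ[ℂ] WT := mlt (fun ν => if ν i = 0 then 1 else 0) (mean_pg i)

theorem osc_pg (i : ℕ) : PG fun ν => if ν i = 0 then 0 else 1 :=
  pg_of_bounded (C := 1) fun ν => by split_ifs <;> simp

/-- Oscillating part in the variable number `i`. -/
noncomputable def osc (i : ℕ) : WT →ₗ[ℂ] WT := mlt (fun ν => if ν i = 0 then 0 else 1) (osc_pg i)

/-! ### Time operations -/

/-- Function of time only. -/
noncomputable def cst (φ : Ct) : WT := ⟨Pi.single 0 φ, rapid_single φ 0⟩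

/-! ### Bounds -/

/-! ### Reality, levels -/

/-- Depends only on the variables with number `< i`. -/
def Lev (i : ℕ) (f : WT) : Prop := ∀ ν : Gx, (∃ j, i ≤ j ∧ ν j ≠ 0) → f.co ν = 0

/-! ### Exponential and composition -/

/-! ### Evaluation -/

end ES

namespace ES

end ES
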