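import Pool.Agent.H16.TSS.ES.Defs

/-!
Project ES: operators on `WT`, bounds, time calculus.
-/

open scoped BoundedContinuousFunction

namespace ES

/-! ### Fourier multipliers -/

theorem kap_neg (κ : Kp) (a : Fin 2) (ν : Gx) : kap κ a (-ν) = -kap κ a ν := by
  have := kap_add κ a (-ν) ν
  simp at this; linarith

theorem kap_sub (κ : Kp) (a : Fin 2) (μ ν : Gx) : kap κ a (μ - ν) = kap κ a μ - kap κ a ν := by
  rw [sub_eq_add_neg, kap_add, kap_neg]; ring

/-- Square of the Euclidean length of the frequency vector. -/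
noncomputable def ksq (κ : Kp) (ν : Gx) : ℝ := (kap κ 0 ν : ℝ) ^ 2 + (kap κ 1 ν : ℝ) ^ 2

theorem ksq_nonneg (κ : Kp) (ν : Gx) : 0 ≤ ksq κ ν := by unfold ksq; positivity

theorem one_le_ksq {κ : Kp} {ν : Gx} (h : ksq κ ν ≠ 0) : 1 ≤ ksq κ ν := by
  unfold ksq at *
  have h1 : ((kap κ 0 ν ^ 2 + kap κ 1 ν ^ 2 : ℤ) : ℝ) = (kap κ 0 ν : ℝ) ^ 2 + (kap κ 1 ν : ℝ) ^ 2 := by
    push_cast; ring
  rw [← h1] at h ⊢
  have h2 : kap κ 0 ν ^ 2 + kap κ 1 ν ^ 2 ≠ 0 := by exact_mod_cast h
  have h3 : 0 ≤ kap κ 0 ν ^ 2 + kap κ 1 ν ^ 2 := by positivity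
  exact_mod_cast (by omega : 1 ≤ kap κ 0 ν ^ 2 + kap κ 1 ν ^ 2)

theorem kap_sq_le (κ : Kp) (a : Fin 2) (ν : Gx) : (kap κ a ν : ℝ) ^ 2 ≤ ksq κ ν := by
  unfold ksq
  fin_cases a
  · simpa using sq_nonneg (kap κ 1 ν : ℝ)
  · simpa using sq_nonneg (kap κ 0 ν : ℝ)

theorem kk_le (κ : Kp) (a b : Fin 2) (ν : Gx) :
    |(kap κ a ν : ℝ) * (kap κ b ν : ℝ)| ≤ ksq κ ν := by
  have h1 := kap_sq_le κ a ν
  have h2 := kap_sq_le κ b ν
  rw [abs_mul]
  nlinarith [sq_nonneg (|(kap κ a ν : ℝ)| - |(kap κ b ν : ℝ)|), sq_abs (kap κ a ν : ℝ),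
    sq_abs (kap κ b ν : ℝ)]

theorem D_co (κ : Kp) (a : Fin 2) (f : WT) (ν : Gx) :
    (D κ a f).co ν = (Complex.I * (kap κ a ν : ℂ)) • f.co ν := rfl

theorem one_le_abs_int {n : ℤ} (h : n ≠ 0) : (1 : ℝ) ≤ |(n : ℝ)| := by
  exact_mod_cast Int.one_le_abs h

theorem ith_pg (i : ℕ) : PG fun ν => if ν i = 0 then 0 else (Complex.I * (ν i : ℂ))⁻¹ :=
  pg_of_bounded (C := 1) fun ν => by
    split_ifs with h
    · simp
    · rw [norm_inv, norm_mul, Complex.norm_I, one_mul, ← Complex.ofReal_intCast,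
        Complex.norm_real, Real.norm_eq_abs]
      exact inv_le_one_of_one_le₀ (one_le_abs_int h)

/-- Antiderivative (of the oscillating part) in the variable number `i`. -/
noncomputable def ith (i : ℕ) : WT →ₗ[ℂ] WT :=
  mlt (fun ν => if ν i = 0 then 0 else (Complex.I * (ν i : ℂ))⁻¹) (ith_pg i)

theorem norm_kk_div (κ : Kp) (a b : Fin 2) (ν : Gx) :
    ‖((kap κ a ν : ℂ) * (kap κ b ν : ℂ)) / (ksq κ ν : ℂ)‖ ≤ 1 := by
  rw [norm_div, norm_mul, ← Complex.ofReal_intCast, ← Complex.ofReal_intCast, Complex.norm_real,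
    Complex.norm_real, Complex.norm_real, Real.norm_eq_abs, Real.norm_eq_abs, Real.norm_eq_abs,
    abs_of_nonneg (ksq_nonneg κ ν), ← abs_mul]
  exact div_le_one_of_le₀ (kk_le κ a b ν) (ksq_nonneg κ ν)

/-- Entries of the projector on gradients (zero on modes with zero frequency). -/
noncomputable def Pg (κ : Kp) (a b : Fin 2) : WT →ₗ[ℂ] WT :=
  mlt (fun ν => ((kap κ a ν : ℂ) * (kap κ b ν : ℂ)) / (ksq κ ν : ℂ))
    (pg_of_bounded (norm_kk_div κ a b))

/-- Projection on the modes with nonzero frequency. -/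
noncomputable def Pnz (κ : Kp) : WT →ₗ[ℂ] WT :=
  mlt (fun ν => if ksq κ ν = 0 then 0 else 1)
    (pg_of_bounded (C := 1) fun ν => by split_ifs <;> simp)

/-- Entries of the projector on divergence free fields (zero on modes with zero frequency). -/
noncomputable def Ps (κ : Kp) (a b : Fin 2) : WT →ₗ[ℂ] WT :=
  (if a = b then Pnz κ else 0) - Pg κ a b

theorem lin_pg (κ : Kp) : PG fun ν => -((ksq κ ν : ℂ))⁻¹ :=
  pg_of_bounded (C := 1) fun ν => by
    rw [norm_neg, norm_inv, Complex.norm_real, Real.norm_eq_abs, abs_of_nonneg (ksq_nonneg κ ν)]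
    by_cases h : ksq κ ν = 0
    · simp [h]
    · exact inv_le_one_of_one_le₀ (one_le_ksq h)

/-- Inverse of the Laplacian `D_0^2 + D_1^2` (zero on modes with zero frequency). -/
noncomputable def Lin (κ : Kp) : WT →ₗ[ℂ] WT := mlt (fun ν => -((ksq κ ν : ℂ))⁻¹) (lin_pg κ)

/-! ### Time operations -/

/-- Clamp to `[a,b]` (for `a ≤ b`). -/
noncomputable def clp (a b t : ℝ) : ℝ := max a (min b t)

theorem clp_continuous (a b : ℝ) : Continuous (clp a b) := by
  unfold clp; fun_prop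

/-- Composition of the coefficients with a continuous time change. -/
noncomputable def tcomp (g : C(ℝ, ℝ)) (f : WT) : WT :=
  ⟨fun ν => (f.co ν).compContinuous g, by
    intro k
    refine Summable.of_nonneg_of_le (fun ν => by positivity) (fun ν => ?_) (f.rapid k)
    refine mul_le_mul_of_nonneg_left ?_ (by positivity)
    exact BoundedContinuousFunction.norm_compContinuous_le _ _⟩

/-- Clamping in time. -/
noncomputable def tcl (a b : ℝ) (f : WT) : WT := tcomp ⟨clp a b, clp_continuous a b⟩ f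

/-- Freezing at time `t₀`. -/
noncomputable def frz (t₀ : ℝ) (f : WT) : WT := tcomp ⟨fun _ => t₀, continuous_const⟩ f

/-- Coefficientwise time integral from `a`, clamped at `b`. -/
noncomputable def intc (a b : ℝ) (φ : Ct) : Ct :=
  BoundedContinuousFunction.ofNormedAddCommGroup (fun t => ∫ s in a..clp a b t, φ s)
    ((intervalIntegral.continuous_primitive (fun _ _ => φ.continuous.intervalIntegrable _ _) a).comp
      (clp_continuous a b))
    (‖φ‖ * |b - a|) (by
      intro t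
      have h1 : ‖∫ s in a..clp a b t, φ s‖ ≤ ‖φ‖ * |clp a b t - a| :=
        intervalIntegral.norm_integral_le_of_norm_le_const fun s _ => φ.norm_coe_le_norm s
      refine h1.trans (mul_le_mul_of_nonneg_left ?_ (norm_nonneg _))
      unfold clp
      rcases le_total a (min b t) with h | h
      · rw [max_eq_right h]
        rw [abs_of_nonneg (by linarith)]
        exact (by linarith [min_le_left b t] : min b t - a ≤ b - a).trans (le_abs_self _)
      · rw [max_eq_left h]; simp)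

theorem intc_apply (a b : ℝ) (φ : Ct) (t : ℝ) : intc a b φ t = ∫ s in a..clp a b t, φ s := rfl

theorem norm_intc_le (a b : ℝ) (φ : Ct) : ‖intc a b φ‖ ≤ ‖φ‖ * |b - a| := by
  unfold intc
  exact BoundedContinuousFunction.norm_ofNormedAddCommGroup_le _ (by positivity) _

/-- Time integral. -/
noncomputable def intg (a b : ℝ) : WT →ₗ[ℂ] WT where
  toFun f := ⟨fun ν => intc a b (f.co ν), by
    intro k
    refine Summable.of_nonneg_of_le (fun ν => by positivity) (fun ν => ?_)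
      ((f.rapid k).mul_right |b - a|)
    rw [mul_assoc]
    exact mul_le_mul_of_nonneg_left (norm_intc_le _ _ _) (by positivity)⟩
  map_add' f g := WT.ext (by
    funext ν; ext t
    simp only [WT.co_add, Pi.add_apply, BoundedContinuousFunction.coe_add, intc_apply]
    exact intervalIntegral.integral_add ((f.co ν).continuous.intervalIntegrable _ _)
      ((g.co ν).continuous.intervalIntegrable _ _))
  map_smul' c f := WT.ext (by
    funext ν; ext t
    simp only [WT.co_smul, Pi.smul_apply, BoundedContinuousFunction.coe_smul, intc_apply,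
      RingHom.id_apply]
    exact intervalIntegral.integral_smul c _)

theorem intg_co (a b : ℝ) (f : WT) (ν : Gx) (t : ℝ) :
    (intg a b f).co ν t = ∫ s in a..clp a b t, f.co ν s := rfl

/-- Time derivative on the open interval `(a,b)`, coefficientwise. -/
def TD (a b : ℝ) (f g : WT) : Prop :=
  ∀ ν, ∀ t ∈ Set.Ioo a b, HasDerivAt (fun s => f.co ν s) (g.co ν t) t

/-- `f` is constant outside `[a,b]`. -/
def Cl (a b : ℝ) (f : WT) : Prop := tcl a b f = f

/-! ### Bounds -/

/-- `Bd k r f c`: the norm `∑_ν sup_t (1+|ν|)^k e^{r(t)|ν|} |f_ν(t)|` is at most `c`. -/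
def Bd (k : ℕ) (r : ℝ → ℝ) (f : WT) (c : ℝ) : Prop :=
  ∃ m : Gx → ℝ, (∀ ν, 0 ≤ m ν) ∧ Summable m ∧ ∑' ν, m ν ≤ c ∧
    ∀ ν t, (1 + (len ν : ℝ)) ^ k * Real.exp (r t * len ν) * ‖f.co ν t‖ ≤ m ν

/-- Constant radius. -/
abbrev cr (ρ : ℝ) : ℝ → ℝ := fun _ => ρ

/-- Finite norm at radius `ρ`. -/
def Fin0 (ρ : ℝ) (f : WT) : Prop := ∃ c, Bd 0 (cr ρ) f c

/-- The decreasing radius `ρ - m (t-a)/(b-a)`, clamped. -/
noncomputable def rad (ρ m a b : ℝ) : ℝ → ℝ := fun t => ρ - m * ((clp a b t - a) / (b - a))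

/-! ### Reality, levels -/

/-- Real valued. -/
def IsR (f : WT) : Prop := ∀ ν t, f.co (-ν) t = (starRingEnd ℂ) (f.co ν t)

/-! ### Exponential and composition -/

/-- The basis element `e_ν`. -/
noncomputable def eb (ν : Gx) : WT := ⟨Pi.single ν 1, rapid_single 1 ν⟩

/-- Exponential of an element, coefficientwise. -/
noncomputable def texpc (f : WT) (ν : Gx) : Ct := ∑' n : ℕ, ((n.factorial : ℂ)⁻¹) • (f ^ n).co ν

open Classical in
/-- Exponential. -/
noncomputable def texp (f : WT) : WT := if h : Rapid (texpc f) then ⟨texpc f, h⟩ else 0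

/-- `i κ(ν)·ζ`. -/
noncomputable def ikz (κ : Kp) (ζ : Fin 2 → WT) (ν : Gx) : WT :=
  (Complex.I * (kap κ 0 ν : ℂ)) • ζ 0 + (Complex.I * (kap κ 1 ν : ℂ)) • ζ 1

/-- Coefficients of the composition of `f` with `id + ζ`. -/
noncomputable def compc (κ : Kp) (ζ : Fin 2 → WT) (f : WT) (μ : Gx) : Ct :=
  ∑' ν, f.co ν * (texp (ikz κ ζ ν)).co (μ - ν)

open Classical in
/-- Composition of `f` with `id + ζ`. -/
noncomputable def comp (κ : Kp) (ζ : Fin 2 → WT) (f : WT) : WT :=
  if h : Rapid (compc κ ζ f) then ⟨compc κ ζ f, h⟩ else 0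

/-! ### Evaluation -/

/-- Evaluation at a point `z` of the plane and a time. -/
noncomputable def ev (κ : Kp) (f : WT) (z : Fin 2 → ℝ) (t : ℝ) : ℂ :=
  ∑' ν, f.co ν t *
    Complex.exp (Complex.I * ((kap κ 0 ν : ℂ) * (z 0 : ℂ) + (kap κ 1 ν : ℂ) * (z 1 : ℂ)))

/-- Real part of the evaluation. -/
noncomputable def evR (κ : Kp) (f : WT) (z : Fin 2 → ℝ) (t : ℝ) : ℝ := (ev κ f z t).re

end ES

namespace ES

/-- Rotated derivative: `dp 0 = -D_1`, `dp 1 = D_0`. -/
noncomputable def dp (κ : Kp) (a : Fin 2) : WT →ₗ[ℂ] WT := if a = 0 then -D κ 1 else D κ 0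

/-- Frequencies with the entry number `i` replaced by the vector `k`. -/
def upd (κ : Kp) (i : ℕ) (k : Fin 2 → ℤ) : Kp where
  k a := Function.update (κ.k a) i (k a)
  bdd := by
    obtain ⟨N, hN⟩ := κ.bdd
    refine ⟨N + (|k 0| + |k 1|).toNat, fun a j => ?_⟩
    have h0 : 0 ≤ |k 0| + |k 1| := by positivity
    by_cases h : j = i
    · subst h
      simp only [Function.update_self]
      push_cast
      rw [Int.toNat_of_nonneg h0]
      have : |k a| ≤ |k 0| + |k 1| := by
        fin_cases a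
        · simp
        · simp
      have hN' : (0 : ℤ) ≤ N := Nat.cast_nonneg _
      linarith
    · simp only [Function.update_of_ne h]
      push_cast
      rw [Int.toNat_of_nonneg h0]
      have := hN a j
      linarith

/-- Hypotheses under which composition with `id + ζ` is well behaved:
`z ≥ 2 lam ‖ζ‖_r`, radius bounded below. -/
structure CH (κ : Kp) (lam r0 z : ℝ) (r : ℝ → ℝ) (ζ : Fin 2 → WT) : Prop where
  kb : KB κ lam
  lam0 : 0 ≤ lam
  r00 : 0 < r0
  hr : ∀ t, r0 ≤ r t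
  hζ : ∃ y, (∀ a, Bd 0 r (ζ a) y) ∧ 2 * lam * y ≤ z

end ES
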