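import Pool.Agent.H16.TSS.ES.Defs_1
import Pool.Agent.H16.TSS.M01

/-!
ES-LAlg: algebra of the operators on `WT`.
Proof plan: everything is coefficientwise.  For products use `WT.mul_co` (or `WT.mul_co_apply`),
`conv_summable`, `kap_add`/`kap_sub` (the symbol of a derivation is additive in the index) and
`tsum` manipulations.  `mean_mul_left`: if `osc i g = 0` then `g.co μ = 0` for `μ i ≠ 0`, so in
`∑' μ, g.co μ * f.co (ν - μ)` only indices with `(ν - μ) i = ν i` contribute.
-/

namespace ES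

private theorem LAlg_mz {s s' : Gx → ℂ} (hs : PG s) (hs' : PG s')
    (h : ∀ ν, s ν * s' ν = 0) (f : WT) :
    mlt s hs (mlt s' hs' f) = 0 := by
  apply WT.ext
  funext ν
  rw [mlt_co, mlt_co, smul_smul, h, zero_smul]
  rfl

theorem mean_osc (i : ℕ) (f : WT) : mean i (osc i f) = 0 :=
  LAlg_mz _ _ (fun ν => by split_ifs <;> simp) f

theorem osc_mean (i : ℕ) (f : WT) : osc i (mean i f) = 0 :=
  LAlg_mz _ _ (fun ν => by split_ifs <;> simp) f

theorem dth_ith (i : ℕ) (f : WT) : dth i (ith i f) = osc i f :=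
  LAlg_mm _ _ _ (fun ν => by
    split_ifs with h
    · simp
    · have h1 : ((ν i : ℤ) : ℂ) ≠ 0 := by exact_mod_cast h
      have h2 : Complex.I * ((ν i : ℤ) : ℂ) ≠ 0 := mul_ne_zero Complex.I_ne_zero h1
      exact mul_inv_cancel₀ h2) f

theorem ith_dth (i : ℕ) (f : WT) : ith i (dth i f) = osc i f := by
  rw [← dth_ith]
  exact LAlg_comm _ _ f

/-! levels -/

end ES
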