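import Pool.Agent.H16.TSS.M02
import Pool.Agent.H16.TSS.M03

/-!
ES-LBd: calculus of the bounds `Bd k r f c` (see `Defs`), i.e. of the weighted norms
`∑_ν sup_t (1+|ν|)^k e^{r(t)|ν|} |f_ν(t)| ≤ c` in the majorant form.
Products: the majorants are convolved (`one_add_len_le`, `len_add`, `summable_prod_shift`).
-/

open scoped BoundedContinuousFunction

namespace ES

/-- Smaller weights. -/
theorem Bd.weaken {k k' : ℕ} {r r' : ℝ → ℝ} {f : WT} {c : ℝ} (h : Bd k r f c) (hk : k' ≤ k)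
    (hr : ∀ t, r' t ≤ r t) : Bd k' r' f c := by
  obtain ⟨m, hm0, hm, hc', hb⟩ := h
  refine ⟨m, hm0, hm, hc', fun ν t => le_trans ?_ (hb ν t)⟩
  refine mul_le_mul_of_nonneg_right ?_ (norm_nonneg _)
  refine mul_le_mul (pow_le_pow_right₀ (one_le_one_add ν) hk) ?_ (by positivity) (by positivity)
  exact Real.exp_le_exp.mpr (mul_le_mul_of_nonneg_right (hr t) (Nat.cast_nonneg _))

/-- Multipliers with a bound `A (1+|ν|)^n`. -/
theorem Bd.mlt {k n : ℕ} {r : ℝ → ℝ} {f : WT} {c A : ℝ} {s : Gx → ℂ} (hs : PG s)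
    (hA : ∀ ν, ‖s ν‖ ≤ A * (1 + (len ν : ℝ)) ^ n) (hf : Bd (k + n) r f c) :
    Bd k r (ES.mlt s hs f) (A * c) := by
  have hA0 : 0 ≤ A := by
    have h := (norm_nonneg _).trans (hA 0)
    simpa [len_zero] using h
  obtain ⟨m, hm0, hm, hmc, hmb⟩ := hf
  refine ⟨fun ν => A * m ν, fun ν => mul_nonneg hA0 (hm0 ν), hm.mul_left _, ?_, fun ν t => ?_⟩
  · rw [tsum_mul_left]
    exact mul_le_mul_of_nonneg_left hmc hA0
  · have : ‖(ES.mlt s hs f).co ν t‖ = ‖s ν‖ * ‖f.co ν t‖ := by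
      simp
    rw [this]
    calc (1 + (len ν : ℝ)) ^ k * Real.exp (r t * len ν) * (‖s ν‖ * ‖f.co ν t‖)
        ≤ (1 + (len ν : ℝ)) ^ k * Real.exp (r t * len ν) *
          ((A * (1 + (len ν : ℝ)) ^ n) * ‖f.co ν t‖) := by
            refine mul_le_mul_of_nonneg_left ?_ (wt_pos k _ ν).le
            exact mul_le_mul_of_nonneg_right (hA ν) (norm_nonneg _)
      _ = A * ((1 + (len ν : ℝ)) ^ (k + n) * Real.exp (r t * len ν) * ‖f.co ν t‖) := by
            rw [pow_add]; ring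
      _ ≤ _ := mul_le_mul_of_nonneg_left (hmb ν t) hA0

theorem norm_Ikap (κ : Kp) (a : Fin 2) (ν : Gx) :
    ‖Complex.I * (kap κ a ν : ℂ)‖ = |(kap κ a ν : ℝ)| := by
  rw [norm_mul, Complex.norm_I, one_mul]
  rw [← Complex.ofReal_intCast, Complex.norm_real, Real.norm_eq_abs]

private theorem KB_nonneg {κ : Kp} {lam : ℝ} (h : KB κ lam) : 0 ≤ lam :=
  (abs_nonneg _).trans (h 0 0)

theorem Bd.D {k : ℕ} {r : ℝ → ℝ} {f : WT} {c lam : ℝ} {κ : Kp} (hκ : KB κ lam) (a : Fin 2)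
    (hf : Bd (k + 1) r f c) : Bd k r (ES.D κ a f) (lam * c) := by
  refine Bd.mlt (n := 1) (kap_pg κ a) (fun ν => ?_) hf
  rw [norm_Ikap, pow_one]
  exact (kap_le hκ a ν).trans (mul_le_mul_of_nonneg_left (by linarith) (KB_nonneg hκ))

theorem Bd.dp {k : ℕ} {r : ℝ → ℝ} {f : WT} {c lam : ℝ} {κ : Kp} (hκ : KB κ lam) (a : Fin 2)
    (hf : Bd (k + 1) r f c) : Bd k r (ES.dp κ a f) (lam * c) := by
  unfold ES.dp
  split_ifs
  · exact (Bd.D hκ 1 hf).neg
  · exact Bd.D hκ 0 hf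

/-- A margin in the radius controls one power of `1+|ν|`: `(1+x) e^{-m x} ≤ 1 + 1/m`. -/
theorem Bd.margin {k : ℕ} {r r₁ : ℝ → ℝ} {f : WT} {c m : ℝ} (hm : 0 < m)
    (hr : ∀ t, r t + m ≤ r₁ t) (hf : Bd k r₁ f c) : Bd (k + 1) r f ((1 + 1 / m) * c) := by
  obtain ⟨M, hM0, hM, hMc, hMb⟩ := hf
  have h1m : 0 ≤ 1 + 1 / m := by positivity
  refine ⟨fun ν => (1 + 1 / m) * M ν, fun ν => mul_nonneg h1m (hM0 ν), hM.mul_left _, ?_,
    fun ν t => ?_⟩
  · rw [tsum_mul_left]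
    exact mul_le_mul_of_nonneg_left hMc h1m
  · have hx : (0 : ℝ) ≤ (len ν : ℝ) := Nat.cast_nonneg _
    have e1 : (1 + (len ν : ℝ)) * Real.exp (r t * len ν) ≤
        (1 + 1 / m) * Real.exp (r₁ t * len ν) := by
      have h2 : Real.exp (r t * len ν) * Real.exp (m * len ν) ≤ Real.exp (r₁ t * len ν) := by
        rw [← Real.exp_add, ← add_mul]
        exact Real.exp_le_exp.mpr (mul_le_mul_of_nonneg_right (hr t) hx)
      have h3 : 1 + (len ν : ℝ) ≤ (1 + 1 / m) * Real.exp (m * len ν) := by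
        have h4 := Real.add_one_le_exp (m * len ν)
        have h5 : (1 + 1 / m) * (m * len ν + 1) = 1 + (len ν : ℝ) + (m * len ν + 1 / m) := by
          field_simp
          ring
        have h6 : 0 ≤ m * len ν + 1 / m := by positivity
        have h7 := mul_le_mul_of_nonneg_left h4 h1m
        linarith
      calc (1 + (len ν : ℝ)) * Real.exp (r t * len ν)
          ≤ ((1 + 1 / m) * Real.exp (m * len ν)) * Real.exp (r t * len ν) :=
            mul_le_mul_of_nonneg_right h3 (Real.exp_nonneg _)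
        _ = (1 + 1 / m) * (Real.exp (r t * len ν) * Real.exp (m * len ν)) := by ring
        _ ≤ _ := mul_le_mul_of_nonneg_left h2 h1m
    calc (1 + (len ν : ℝ)) ^ (k + 1) * Real.exp (r t * len ν) * ‖f.co ν t‖
        = (1 + (len ν : ℝ)) ^ k * ((1 + (len ν : ℝ)) * Real.exp (r t * len ν)) *
          ‖f.co ν t‖ := by rw [pow_succ]; ring
      _ ≤ (1 + (len ν : ℝ)) ^ k * ((1 + 1 / m) * Real.exp (r₁ t * len ν)) * ‖f.co ν t‖ := by
          refine mul_le_mul_of_nonneg_right ?_ (norm_nonneg _)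
          exact mul_le_mul_of_nonneg_left e1 (by positivity)
      _ = (1 + 1 / m) * ((1 + (len ν : ℝ)) ^ k * Real.exp (r₁ t * len ν) * ‖f.co ν t‖) := by
          ring
      _ ≤ _ := mul_le_mul_of_nonneg_left (hMb ν t) h1m

theorem clp_mem' {a b : ℝ} (hab : a ≤ b) (t : ℝ) : a ≤ clp a b t ∧ clp a b t ≤ b := by
  unfold clp
  exact ⟨le_max_left _ _, max_le hab (min_le_left _ _)⟩

theorem rad_le {ρ m a b : ℝ} (hab : a < b) (hm : 0 ≤ m) (t : ℝ) : rad ρ m a b t ≤ ρ := by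
  unfold rad
  have h1 := (clp_mem' hab.le t).1
  have h2 : 0 < b - a := by linarith
  have h3 : 0 ≤ (clp a b t - a) / (b - a) := div_nonneg (by linarith) h2.le
  have h4 := mul_nonneg hm h3
  linarith

theorem le_rad {ρ m a b : ℝ} (hab : a < b) (hm : 0 ≤ m) (t : ℝ) : ρ - m ≤ rad ρ m a b t := by
  unfold rad
  have h1 := (clp_mem' hab.le t).2
  have h2 : 0 < b - a := by linarith
  have h3 : (clp a b t - a) / (b - a) ≤ 1 := by
    rw [div_le_one h2]
    linarith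
  have h4 := mul_le_mul_of_nonneg_left h3 hm
  linarith

/-- An element with arbitrarily small norm is zero. -/
theorem Bd.eq_zero {k : ℕ} {r : ℝ → ℝ} {f : WT} (h : ∀ c > 0, Bd k r f c) : f = 0 := by
  apply WT.ext
  funext ν
  ext t
  have h1 : ∀ c > 0, (1 + (len ν : ℝ)) ^ k * Real.exp (r t * len ν) * ‖f.co ν t‖ ≤ c := by
    intro c hc
    obtain ⟨M, hM0, hM, hMc, hMb⟩ := h c hc
    exact (hMb ν t).trans ((hM.le_tsum ν fun _ _ => hM0 _).trans hMc)
  have h2 : (1 + (len ν : ℝ)) ^ k * Real.exp (r t * len ν) * ‖f.co ν t‖ ≤ 0 :=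
    le_of_forall_pos_le_add fun ε hε => by simpa using h1 ε hε
  have h3 := wt_pos k (r t) ν
  have h4 : ‖f.co ν t‖ ≤ 0 := by
    by_contra hcon
    push Not at hcon
    have := mul_pos h3 hcon
    linarith
  have h5 : f.co ν t = 0 := norm_le_zero_iff.mp h4
  rw [h5]
  rfl

end ES
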