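import Pool.Agent.H16.TSS.M02

/-!
ES-LCompA: composition with `id + ζ`:
`comp κ ζ f = ∑_ν f_ν e_ν exp(i κ_0(ν) ζ_0 + i κ_1(ν) ζ_1)`.
Hypotheses `CH κ lam r0 z r ζ` (see Defs): `|κ| ≤ lam`, `r ≥ r0 > 0`, `Bd 0 r (ζ a) y`, `2 lam y ≤ z`;
then `exp(ikz ν)` has norm `≤ exp(z |ν|)`, and `comp κ ζ f` is fine as soon as `f` has a finite norm
at the radius `r + z`.
The derivative rules need one more power: `Bd 1 (r+z) f c`.
-/

open scoped BoundedContinuousFunction

namespace ES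

/-! ### auxiliary results -/

theorem cA_le_nat (μ ν : Gx) : (len μ : ℝ) ≤ len ν + len (μ - ν) := by
  have h := len_add ν (μ - ν)
  rw [add_sub_cancel] at h
  exact_mod_cast h

private theorem cA_weight {k : ℕ} {ρ : ℝ} (hρ : 0 ≤ ρ) (μ ν : Gx) :
    (1 + (len μ : ℝ)) ^ k * Real.exp (ρ * len μ) ≤
      ((1 + (len ν : ℝ)) ^ k * Real.exp (ρ * len ν)) *
        ((1 + (len (μ - ν) : ℝ)) ^ k * Real.exp (ρ * len (μ - ν))) := by
  have h1 : (1 + (len μ : ℝ)) ^ k ≤ ((1 + (len ν : ℝ)) * (1 + (len (μ - ν) : ℝ))) ^ k :=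
    pow_le_pow_left₀ (by positivity) (one_add_len_le μ ν) k
  have h2 : Real.exp (ρ * len μ) ≤ Real.exp (ρ * len ν) * Real.exp (ρ * len (μ - ν)) := by
    rw [← Real.exp_add]
    apply Real.exp_le_exp.2
    nlinarith [cA_le_nat μ ν]
  calc (1 + (len μ : ℝ)) ^ k * Real.exp (ρ * len μ)
      ≤ ((1 + (len ν : ℝ)) * (1 + (len (μ - ν) : ℝ))) ^ k *
        (Real.exp (ρ * len ν) * Real.exp (ρ * len (μ - ν))) :=
        mul_le_mul h1 h2 (Real.exp_nonneg _) (by positivity)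
    _ = _ := by rw [mul_pow]; ring

theorem cA_one_le {k : ℕ} {ρ : ℝ} (hρ : 0 ≤ ρ) (μ : Gx) :
    1 ≤ (1 + (len μ : ℝ)) ^ k * Real.exp (ρ * len μ) := by
  have h1 : (1 : ℝ) ≤ (1 + (len μ : ℝ)) ^ k := one_le_pow₀ (by linarith [Nat.cast_nonneg (α := ℝ) (len μ)])
  have h2 : (1 : ℝ) ≤ Real.exp (ρ * len μ) := Real.one_le_exp (by positivity)
  nlinarith

private noncomputable def cA_equiv : Gx × Gx ≃ Gx × Gx where
  toFun p := (p.2, p.1 - p.2)
  invFun p := (p.1 + p.2, p.1)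
  left_inv p := by ext <;> simp
  right_inv p := by ext <;> simp

/-- Superposition of the shifted elements `G ν` with the coefficients of `f`. -/
theorem cA_super {k : ℕ} {r : ℝ → ℝ} {r0 : ℝ} (hr0 : 0 < r0) (hr : ∀ t, r0 ≤ r t) {z : ℝ}
    {f : WT} {c : ℝ} (hf : Bd k (fun t => r t + z) f c) {G : Gx → WT}
    (hG : ∀ ν, Bd k r (G ν) (Real.exp (z * len ν))) :
    (Summable fun p : Gx × Gx => ‖f.co p.2 * (G p.2).co (p.1 - p.2)‖) ∧
      ∃ g : WT, (g.co = fun μ => ∑' ν, f.co ν * (G ν).co (μ - ν)) ∧ Bd k r g c := by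
  obtain ⟨m, hm0, hms, hmc, hmb⟩ := hf
  choose n hn0 hns hnc hnb using hG
  have hexp : ∀ ν : Gx, Real.exp (-(z * len ν)) * Real.exp (z * len ν) = 1 := by
    intro ν
    rw [← Real.exp_add, neg_add_cancel, Real.exp_zero]
  set A : Gx × Gx → ℝ := fun p => m p.1 * Real.exp (-(z * len p.1)) * n p.1 p.2 with hA
  have hA0 : ∀ p, 0 ≤ A p := fun p => mul_nonneg (mul_nonneg (hm0 _) (Real.exp_nonneg _)) (hn0 _ _)
  have hAin : ∀ ν, ∑' lam, A (ν, lam) ≤ m ν := by
    intro ν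
    have e : ∑' lam, A (ν, lam) = m ν * Real.exp (-(z * len ν)) * ∑' lam, n ν lam := by
      rw [← tsum_mul_left]
    rw [e]
    calc m ν * Real.exp (-(z * len ν)) * ∑' lam, n ν lam
        ≤ m ν * Real.exp (-(z * len ν)) * Real.exp (z * len ν) :=
          mul_le_mul_of_nonneg_left (hnc ν) (mul_nonneg (hm0 _) (Real.exp_nonneg _))
      _ = m ν := by rw [mul_assoc, hexp, mul_one]
  have hAs : Summable A := by
    rw [summable_prod_of_nonneg hA0]
    refine ⟨fun ν => ((hns ν).mul_left (m ν * Real.exp (-(z * len ν))) :), ?_⟩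
    exact Summable.of_nonneg_of_le (fun ν => tsum_nonneg fun lam => hA0 _) hAin hms
  have hBs : Summable fun p : Gx × Gx => A (p.2, p.1 - p.2) := by
    have := (cA_equiv.summable_iff (f := A)).2 hAs
    exact this
  have hBt : ∑' p : Gx × Gx, A (p.2, p.1 - p.2) ≤ c := by
    have e : ∑' p : Gx × Gx, A (p.2, p.1 - p.2) = ∑' p, A p := cA_equiv.tsum_eq A
    rw [e, hAs.tsum_prod]
    refine le_trans ?_ hmc
    exact Summable.tsum_le_tsum hAin hAs.prod hms
  have hpt : ∀ (p : Gx × Gx) (t : ℝ), (1 + (len p.1 : ℝ)) ^ k * Real.exp (r t * len p.1) *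
      ‖f.co p.2 t * (G p.2).co (p.1 - p.2) t‖ ≤ A (p.2, p.1 - p.2) := by
    intro p t
    have hrt : 0 ≤ r t := hr0.le.trans (hr t)
    have h1 := cA_weight (k := k) hrt p.1 p.2
    have h2 := hmb p.2 t
    have h3 := hnb p.2 (p.1 - p.2) t
    have h2' : (1 + (len p.2 : ℝ)) ^ k * Real.exp (r t * len p.2) * ‖f.co p.2 t‖ ≤
        m p.2 * Real.exp (-(z * len p.2)) := by
      have e : (1 + (len p.2 : ℝ)) ^ k * Real.exp (r t * len p.2) * ‖f.co p.2 t‖ =
          (1 + (len p.2 : ℝ)) ^ k * Real.exp ((r t + z) * len p.2) * ‖f.co p.2 t‖ *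
            Real.exp (-(z * len p.2)) := by
        rw [show (r t + z) * (len p.2 : ℝ) = r t * len p.2 + z * len p.2 by ring, Real.exp_add]
        calc (1 + (len p.2 : ℝ)) ^ k * Real.exp (r t * len p.2) * ‖f.co p.2 t‖ =
            (1 + (len p.2 : ℝ)) ^ k * Real.exp (r t * len p.2) * ‖f.co p.2 t‖ *
              (Real.exp (-(z * len p.2)) * Real.exp (z * len p.2)) := by rw [hexp, mul_one]
          _ = _ := by ring
      rw [e]
      exact mul_le_mul_of_nonneg_right h2 (Real.exp_nonneg _)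
    rw [norm_mul]
    calc (1 + (len p.1 : ℝ)) ^ k * Real.exp (r t * len p.1) *
          (‖f.co p.2 t‖ * ‖(G p.2).co (p.1 - p.2) t‖)
        ≤ (((1 + (len p.2 : ℝ)) ^ k * Real.exp (r t * len p.2)) *
          ((1 + (len (p.1 - p.2) : ℝ)) ^ k * Real.exp (r t * len (p.1 - p.2)))) *
          (‖f.co p.2 t‖ * ‖(G p.2).co (p.1 - p.2) t‖) :=
          mul_le_mul_of_nonneg_right h1 (by positivity)
      _ = ((1 + (len p.2 : ℝ)) ^ k * Real.exp (r t * len p.2) * ‖f.co p.2 t‖) *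
          ((1 + (len (p.1 - p.2) : ℝ)) ^ k * Real.exp (r t * len (p.1 - p.2)) *
            ‖(G p.2).co (p.1 - p.2) t‖) := by ring
      _ ≤ (m p.2 * Real.exp (-(z * len p.2))) * n p.2 (p.1 - p.2) :=
          mul_le_mul h2' h3 (by positivity) (mul_nonneg (hm0 _) (Real.exp_nonneg _))
  have hnorm : ∀ p : Gx × Gx, ‖f.co p.2 * (G p.2).co (p.1 - p.2)‖ ≤ A (p.2, p.1 - p.2) := by
    intro p
    rw [BoundedContinuousFunction.norm_le (hA0 _)]
    intro t
    have hrt : 0 ≤ r t := hr0.le.trans (hr t)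
    have h1 := cA_one_le (k := k) hrt p.1
    have h2 := hpt p t
    refine le_trans ?_ h2
    rw [BoundedContinuousFunction.mul_apply]
    exact le_mul_of_one_le_left (norm_nonneg _) h1
  have hsum : Summable fun p : Gx × Gx => ‖f.co p.2 * (G p.2).co (p.1 - p.2)‖ :=
    Summable.of_nonneg_of_le (fun _ => norm_nonneg _) hnorm hBs
  refine ⟨hsum, ?_⟩
  have hfac : ∀ μ, Summable fun ν => f.co ν * (G ν).co (μ - ν) := fun μ =>
    (hsum.prod_factor μ).of_norm
  obtain ⟨g, hg, hgb⟩ := exists_WT_of_bd (k := k) hr0 hr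
    (fun μ => ∑' ν, f.co ν * (G ν).co (μ - ν)) (fun μ => ∑' ν, A (ν, μ - ν)) hBs.prod (by
      intro μ t
      have h1 : (∑' ν, f.co ν * (G ν).co (μ - ν)) t =
          ∑' ν, f.co ν t * (G ν).co (μ - ν) t := by
        have h2 := ((hfac μ).hasSum.map (BoundedContinuousFunction.evalCLM ℂ t)
          (BoundedContinuousFunction.evalCLM ℂ t).continuous).tsum_eq
        simpa using h2.symm
      have hW : 0 ≤ (1 + (len μ : ℝ)) ^ k * Real.exp (r t * len μ) := by positivity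
      have h3 : Summable fun ν => (1 + (len μ : ℝ)) ^ k * Real.exp (r t * len μ) *
          ‖f.co ν t * (G ν).co (μ - ν) t‖ :=
        Summable.of_nonneg_of_le (fun ν => by positivity) (fun ν => hpt (μ, ν) t)
          (hBs.prod_factor μ)
      have h4 : Summable fun ν => ‖f.co ν t * (G ν).co (μ - ν) t‖ := by
        refine Summable.of_nonneg_of_le (fun ν => norm_nonneg _) (fun ν => ?_) (hBs.prod_factor μ)
        refine le_trans ?_ (hnorm (μ, ν))
        exact BoundedContinuousFunction.norm_coe_le_norm (f.co ν * (G ν).co (μ - ν)) t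
      rw [h1]
      calc (1 + (len μ : ℝ)) ^ k * Real.exp (r t * len μ) *
            ‖∑' ν, f.co ν t * (G ν).co (μ - ν) t‖
          ≤ (1 + (len μ : ℝ)) ^ k * Real.exp (r t * len μ) *
            ∑' ν, ‖f.co ν t * (G ν).co (μ - ν) t‖ :=
            mul_le_mul_of_nonneg_left (norm_tsum_le_tsum_norm h4) hW
        _ = ∑' ν, (1 + (len μ : ℝ)) ^ k * Real.exp (r t * len μ) *
            ‖f.co ν t * (G ν).co (μ - ν) t‖ := by rw [tsum_mul_left]
        _ ≤ ∑' ν, A (ν, μ - ν) :=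
            Summable.tsum_le_tsum (fun ν => hpt (μ, ν) t) h3 (hBs.prod_factor μ))
  refine ⟨g, hg, hgb.mono ?_⟩
  rw [← hBs.tsum_prod]
  exact hBt

theorem cA_ikz_zero (κ : Kp) (ζ : Fin 2 → WT) : ikz κ ζ 0 = 0 := by
  unfold ikz
  rw [kap_zero, kap_zero]
  simp

theorem cA_cst_one : cst 1 = (1 : WT) := rfl

/-! product -/

end ES
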