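import Pool.Agent.H16.TSS.ES.Defs_1
import Pool.Agent.H16.TSS.ES.LExp

/-!
ES-LExp: the exponential in `WT`.
`texpc f ν = ∑' n, (f^n).co ν / n!`.  With `N_k(f) = ∑ (1+|ν|)^k ‖f_ν‖` one has
`N_k(f^n) ≤ N_k(f)^n`, so the family is rapidly decreasing for every `f`.
Useful device: for a bound `Bd k r f c` the partial sums of the exponential satisfy `Bd k r _ (exp c)`
and the series of differences is dominated by `c^n/n!`.
Additivity: Cauchy product (`tsum_mul_tsum_eq_tsum_sum_antidiagonal_of_summable_norm` in the complete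
ring `Ct`, after exchanging sums), or uniqueness.  Derivations: `∂ (f^n) = n f^(n-1) ∂ f`.
-/

open scoped BoundedContinuousFunction

namespace ES

/-! ### norms and absolutely convergent series -/

theorem rapid_texpc (f : WT) : Rapid (texpc f) := by
  have h := rapid_tsum (a := et f) (fun k => summable_Nk_et k f)
  exact h

private theorem texp_eq (f : WT) : (texp f).co = texpc f := by
  unfold texp
  rw [dif_pos (rapid_texpc f)]

theorem texp_hasSum (f : WT) (ν : Gx) :
    HasSum (fun n : ℕ => ((n.factorial : ℂ)⁻¹) • (f ^ n).co ν) ((texp f).co ν) := by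
  rw [texp_eq]
  exact (summable_co (a := et f) (summable_Nk_et 0 f) ν).hasSum

theorem texp_HS (f : WT) : HS (et f) (texp f) := fun ν => texp_hasSum f ν

theorem texp_zero : texp 0 = 1 := by
  apply WT.ext
  funext ν
  refine (texp_hasSum 0 ν).unique ?_
  have h : HasSum (fun n : ℕ => ((n.factorial : ℂ)⁻¹) • ((0 : WT) ^ n).co ν)
      (((Nat.factorial 0 : ℂ)⁻¹) • ((0 : WT) ^ 0).co ν) := by
    refine hasSum_single 0 fun n hn => ?_
    rw [zero_pow hn, WT.co_zero]
    simp
  simpa using h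

theorem mlt_texp {s : Gx → ℂ} (hs : PG s)
    (hδ : ∀ f g, mlt s hs (f * g) = mlt s hs f * g + f * mlt s hs g)
    (h1 : mlt s hs 1 = 0) (f : WT) : mlt s hs (texp f) = mlt s hs f * texp f := by
  apply WT.ext
  funext ν
  have a1 : HasSum (fun n => (mlt s hs (et f n)).co ν) ((mlt s hs (texp f)).co ν) := by
    have := (texp_HS f ν).const_smul (s ν)
    exact this
  have a2 : HasSum (fun n => (mlt s hs f * et f n).co ν) ((mlt s hs f * texp f).co ν) :=
    HS_mul_left (texp_HS f) (summable_Nk_et 0 f) _ ν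
  have a3 : HasSum (fun n => (mlt s hs (et f (n + 1))).co ν) ((mlt s hs (texp f)).co ν) := by
    rw [hasSum_nat_add_iff (f := fun n => (mlt s hs (et f n)).co ν) 1]
    have h0 : (mlt s hs (et f 0)).co ν = 0 := by
      have : mlt s hs (et f 0) = 0 := by
        unfold et
        rw [pow_zero, map_smul, h1, smul_zero]
      rw [this]
      rfl
    rw [Finset.sum_range_one, h0, add_zero]
    exact a1
  refine a3.unique ?_
  have a4 : (fun n => (mlt s hs (et f (n + 1))).co ν) = fun n => (mlt s hs f * et f n).co ν := by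
    funext n
    rw [et_succ_deriv hδ h1]
  rw [a4]
  exact a2

/-- bound of a series -/
theorem Bd_series {k : ℕ} {r : ℝ → ℝ} {a : ℕ → WT} {A : WT} {e : ℕ → ℝ}
    (h : ∀ n, Bd k r (a n) (e n)) (he : Summable e)
    (hA : ∀ ν t, HasSum (fun n => (a n).co ν t) (A.co ν t)) : Bd k r A (∑' n, e n) := by
  choose m hm0 hm hmc hmb using h
  have he0 : ∀ n, 0 ≤ e n := fun n => (tsum_nonneg (hm0 n)).trans (hmc n)
  have hs : Summable fun n => ∑' ν, m n ν :=
    Summable.of_nonneg_of_le (fun n => tsum_nonneg (hm0 n)) hmc he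
  have h1 : Summable fun p : ℕ × Gx => m p.1 p.2 := by
    rw [summable_prod_of_nonneg (fun p => hm0 p.1 p.2)]
    exact ⟨hm, hs⟩
  have h2 : Summable fun p : Gx × ℕ => m p.2 p.1 :=
    (Equiv.prodComm Gx ℕ).summable_iff.mpr h1
  refine ⟨fun ν => ∑' n, m n ν, fun ν => tsum_nonneg fun n => hm0 n ν, h2.prod, ?_,
    fun ν t => ?_⟩
  · have e1 : ∑' ν, ∑' n, m n ν = ∑' n, ∑' ν, m n ν := by
      rw [← h2.tsum_prod, ← h1.tsum_prod]
      exact (Equiv.prodComm Gx ℕ).tsum_eq (fun p : ℕ × Gx => m p.1 p.2)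
    rw [e1]
    exact Summable.tsum_le_tsum hmc hs he
  · have hW : 0 < (1 + (len ν : ℝ)) ^ k * Real.exp (r t * len ν) := by positivity
    have h3 : Summable fun n => m n ν := h2.prod_factor ν
    have h4 : ∀ n, ‖(a n).co ν t‖ ≤
        ((1 + (len ν : ℝ)) ^ k * Real.exp (r t * len ν))⁻¹ * m n ν := by
      intro n
      rw [inv_mul_eq_div, le_div_iff₀ hW, mul_comm]
      exact hmb n ν t
    have h5 : ‖A.co ν t‖ ≤
        ∑' n, ((1 + (len ν : ℝ)) ^ k * Real.exp (r t * len ν))⁻¹ * m n ν := by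
      rw [← (hA ν t).tsum_eq]
      exact tsum_of_norm_bounded (h3.mul_left _).hasSum h4
    rw [tsum_mul_left, inv_mul_eq_div, le_div_iff₀ hW, mul_comm] at h5
    exact h5

end ES
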