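import Pool.Agent.H16.TSS.ES.LTime
import Pool.Agent.H16.TSS.M04
import Pool.Agent.H16.TSS.M05
import Pool.Agent.H16.TSS.M09

/-!
ES-SEx: existence of the solution of the sub-block system (EW 2, Lemma 2.3) by `fixpt` with
`ι = Fin 5 × Fin 2` (components ζ, E, W, a, q), powers `k = 2,1,1,0,0`, weights
`1/(512 lam K)`, `w`, `w`, `G w`, `G w`, `G = 10^6 K² g`, radius `r = P.r ρ0 m`,
start `x0 = (ζa, Ea, χ W0, 0, 0)`.
 (S1) `N2(T ζ - ζa) ≤ h K N1(comp B + P E) ≤ h K (K g/lam + 3 w) ≤ 4 K² h g / lam` (`Bd.intg_gain`);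
      differences: `≤ h K s (K g/lam + 3w)`.
 (S2),(S3) `N1 ≤ h K N0(a) ≤ h K G w`;  differences `h K s G w`;  `|χ| ≤ 1`.
 (S4) `N0 ≤ 2 (10^5 K² g w + 0.048 G w) ≤ G w / 2`;
      differences `≤ 2 (10^5 s K² g w + 0.0525 s G w) ≤ s G w / 2`.
 The constraint `Q` is the conjunction of the closed conditions of `SB0` (levels, mean of W,
 reality, clamping, and: `b = 0 → W = 0, osc a = 0, osc q = 0`).
-/

open scoped BoundedContinuousFunction

namespace ES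

/-! admissible elements: level, reality, clamping -/

/-- Level, reality, clamping. -/
structure ExOk (a b : ℝ) (n : ℕ) (f : WT) : Prop where
  l : Lev n f
  r : IsR f
  c : Cl a b f

section ok
variable {a b : ℝ} {n : ℕ} {f g : WT}

theorem ExOk.zero : ExOk a b n 0 := ⟨Lev.zero n, IsR.zero, Cl.zero a b⟩

private theorem ExOk.one : ExOk a b n 1 := ⟨Lev.one n, IsR.one, Cl.one a b⟩

theorem ExOk.add (hf : ExOk a b n f) (hg : ExOk a b n g) : ExOk a b n (f + g) :=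
  ⟨hf.l.add hg.l, hf.r.add hg.r, hf.c.add hg.c⟩

theorem ExOk.sub (hf : ExOk a b n f) (hg : ExOk a b n g) : ExOk a b n (f - g) :=
  ⟨hf.l.sub hg.l, hf.r.sub hg.r, hf.c.sub hg.c⟩

theorem ExOk.neg (hf : ExOk a b n f) : ExOk a b n (-f) := ⟨hf.l.neg, hf.r.neg, hf.c.neg⟩

theorem ExOk.mul (hf : ExOk a b n f) (hg : ExOk a b n g) : ExOk a b n (f * g) :=
  ⟨hf.l.mul hg.l, hf.r.mul hg.r, hf.c.mul hg.c⟩

theorem ExOk.two : ExOk a b n 2 := by
  have h : ExOk a b n ((1 : WT) + 1) := ExOk.one.add ExOk.one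
  rwa [one_add_one_eq_two] at h

theorem ExOk.sum {ι : Type*} {s : Finset ι} {x : ι → WT} (h : ∀ j ∈ s, ExOk a b n (x j)) :
    ExOk a b n (∑ j ∈ s, x j) :=
  ⟨Lev.sum s fun j hj => (h j hj).l, IsR.sum s fun j hj => (h j hj).r,
    Cl.sum s fun j hj => (h j hj).c⟩

theorem ExOk.mono {n' : ℕ} (hn : n ≤ n') (hf : ExOk a b n f) : ExOk a b n' f :=
  ⟨hf.l.mono hn, hf.r, hf.c⟩

theorem ExOk.D (κ : Kp) (j : Fin 2) (hf : ExOk a b n f) : ExOk a b n (ES.D κ j f) :=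
  ⟨hf.l.D κ j, hf.r.D, hf.c.D κ j⟩

theorem ExOk.dp (κ : Kp) (j : Fin 2) (hf : ExOk a b n f) : ExOk a b n (ES.dp κ j f) := by
  unfold ES.dp
  split_ifs
  · exact (hf.D κ 1).neg
  · exact hf.D κ 0

theorem ExOk.rsmul (c : ℝ) (hf : ExOk a b n f) : ExOk a b n ((c : ℂ) • f) :=
  ⟨hf.l.smul _, hf.r.smul, hf.c.smul _⟩

theorem ExOk.meanL (hf : ExOk a b (n + 1) f) : ExOk a b n (ES.mean n f) :=
  ⟨hf.l.mean, hf.r.mean, hf.c.mlt (mean_pg n)⟩

theorem ExOk.osc (i : ℕ) (hf : ExOk a b n f) : ExOk a b n (ES.osc i f) :=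
  ⟨hf.l.mlt (osc_pg i), hf.r.osc, hf.c.mlt (osc_pg i)⟩

theorem ExOk.dth (i : ℕ) (hf : ExOk a b n f) : ExOk a b n (ES.dth i f) :=
  ⟨hf.l.mlt (dth_pg i), hf.r.dth, hf.c.mlt (dth_pg i)⟩

theorem ExOk.ith (i : ℕ) (hf : ExOk a b n f) : ExOk a b n (ES.ith i f) :=
  ⟨hf.l.mlt (ith_pg i), hf.r.ith, hf.c.mlt (ith_pg i)⟩

theorem ExOk.Pg (κ : Kp) (i j : Fin 2) (hf : ExOk a b n f) : ExOk a b n (ES.Pg κ i j f) :=
  ⟨hf.l.mlt (pg_of_bounded (norm_kk_div κ i j)), hf.r.Pg,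
    hf.c.mlt (pg_of_bounded (norm_kk_div κ i j))⟩

private theorem ExOk.Pnz (κ : Kp) (hf : ExOk a b n f) : ExOk a b n (ES.Pnz κ f) :=
  ⟨hf.l.mlt _, hf.r.Pnz, hf.c.mlt _⟩

theorem ExOk.Ps (κ : Kp) (i j : Fin 2) (hf : ExOk a b n f) : ExOk a b n (ES.Ps κ i j f) := by
  unfold ES.Ps
  split_ifs
  · rw [LinearMap.sub_apply]
    exact (hf.Pnz κ).sub (hf.Pg κ i j)
  · rw [LinearMap.sub_apply, LinearMap.zero_apply]
    exact ExOk.zero.sub (hf.Pg κ i j)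

theorem ExOk.intg {s₁ s₂ : ℝ} (h1 : a ≤ s₁) (h2 : s₁ ≤ s₂) (h3 : s₂ ≤ b)
    (hf : ExOk a b n f) : ExOk a b n (ES.intg s₁ s₂ f) :=
  ⟨hf.l.intg s₁ s₂, hf.r.intg, Cl.intg_sub h1 h2 h3 f⟩

theorem ExOk.of_frz (hl : Lev n f) (hr : IsR f) (ht : ∀ t₀, frz t₀ f = f) :
    ExOk a b n f := by
  refine ⟨hl, hr, ?_⟩
  have h := Cl.frz a b a f
  rwa [ht a] at h

private theorem ExOk.idm (i j : Fin 2) : ExOk a b n (ES.idm i j) := by
  unfold ES.idm
  split_ifs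
  · exact ExOk.one
  · exact ExOk.zero

private theorem ExOk.grad (κ : Kp) {x : Vec} (hx : ∀ j, ExOk a b n (x j)) (i j : Fin 2) :
    ExOk a b n (ES.grad κ x i j) := (hx i).D κ j

theorem ExOk.Fm (κ : Kp) {x : Vec} (hx : ∀ j, ExOk a b n (x j)) (i j : Fin 2) :
    ExOk a b n (ES.Fm κ x i j) := (ExOk.idm i j).add (ExOk.grad κ hx i j)

theorem ExOk.adj {F : Mat} (hF : ∀ i j, ExOk a b n (F i j)) (i j : Fin 2) :
    ExOk a b n (ES.adj F i j) := by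
  unfold ES.adj
  split_ifs
  · exact hF 1 1
  · exact (hF 0 1).neg
  · exact (hF 1 0).neg
  · exact hF 0 0

theorem ExOk.mulv {F : Mat} {x : Vec} (hF : ∀ i j, ExOk a b n (F i j))
    (hx : ∀ j, ExOk a b n (x j)) (i : Fin 2) : ExOk a b n (ES.mulv F x i) :=
  ExOk.sum fun j _ => (hF i j).mul (hx j)

theorem ExOk.mulvT {F : Mat} {x : Vec} (hF : ∀ i j, ExOk a b n (F i j))
    (hx : ∀ j, ExOk a b n (x j)) (i : Fin 2) : ExOk a b n (ES.mulvT F x i) :=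
  ExOk.sum fun j _ => (hF j i).mul (hx j)

theorem ExOk.mulT {F G : Mat} (hF : ∀ i j, ExOk a b n (F i j))
    (hG : ∀ i j, ExOk a b n (G i j)) (i j : Fin 2) : ExOk a b n (ES.mulT F G i j) :=
  ExOk.sum fun k _ => (hF i k).mul (hG j k)

theorem ExOk.adv (κ : Kp) {x y : Vec} (hx : ∀ j, ExOk a b n (x j))
    (hy : ∀ j, ExOk a b n (y j)) (i : Fin 2) : ExOk a b n (ES.adv κ x y i) :=
  ExOk.sum fun j _ => (hx j).mul ((hy i).D κ j)

theorem ExOk.dvm (κ : Kp) {F : Mat} (hF : ∀ i j, ExOk a b n (F i j)) (i : Fin 2) :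
    ExOk a b n (ES.dvm κ F i) :=
  ExOk.sum fun j _ => (hF i j).D κ j

theorem ExOk.dvg (κ : Kp) {x : Vec} (hx : ∀ j, ExOk a b n (x j)) :
    ExOk a b n (ES.dvg κ x) :=
  ExOk.sum fun j _ => (hx j).D κ j

end ok

/-! the data are admissible -/

section data
variable {d : Dat} {t0 t1 lam g σ ρ c A : ℝ}

theorem ex_F (G : Good d t0 t1 lam g σ ρ c A) (i j : Fin 2) :
    ExOk t0 t1 d.i (d.F i j) :=
  ExOk.Fm d.κ (fun j => ⟨G.levξ j, G.rξ j, G.cξ j⟩) i j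

private theorem ex_M (G : Good d t0 t1 lam g σ ρ c A) (i j : Fin 2) :
    ExOk t0 t1 d.i (d.M i j) :=
  ExOk.adj (ex_F G) i j

theorem ex_B (G : Good d t0 t1 lam g σ ρ c A) (j : Fin 2) :
    ExOk t0 t1 d.i (d.B j) :=
  ExOk.mulv (ex_M G) (fun j => ExOk.sub ⟨G.levv j, G.rv j, G.cv j⟩ ⟨G.levU j, G.rU j, G.cU j⟩) j

theorem ex_G (G : Good d t0 t1 lam g σ ρ c A) (i j : Fin 2) :
    ExOk t0 t1 d.i (d.G i j) :=
  ExOk.grad d.κ (fun j => ⟨G.levv j, G.rv j, G.cv j⟩) i j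

theorem ex_R (G : Good d t0 t1 lam g σ ρ c A) (i j : Fin 2) :
    ExOk t0 t1 d.i (d.R i j) := ⟨G.levR i j, G.rR i j, G.cR i j⟩

variable {m r0 : ℝ} {r : ℝ → ℝ} {ζ : Vec}

theorem ex_bF (H : DH d lam g σ c m r0 r) (i j : Fin 2) :
    Bd 0 (fun t => r t + 2 * m) (d.F i j) (1 + c) := by
  have h1 : Bd 0 (fun t => r t + 2 * m) (idm i j) 1 := by
    unfold idm
    split_ifs
    · exact Bd.one _ _
    · exact Bd.zero _ _ zero_le_one
  exact h1.add (H.bF i j)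

end data

section rhs

end rhs

/-! cutoff and initial wave -/

private theorem ex_trap {ta s1 s2 tb : ℝ} (h1 : ta < s1) (h2 : s1 < s2) (h3 : s2 < tb) (t : ℝ) :
    trapR ta s1 s2 tb (clp ta tb t) = trapR ta s1 s2 tb t := by
  rcases le_total t ta with h | h
  · have e : clp ta tb t = ta := by
      unfold clp
      rw [min_eq_right (by linarith), max_eq_left h]
    rw [e]
    unfold trapR
    have a1 : (ta - ta) / (s1 - ta) = 0 := by simp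
    have a2 : (t - ta) / (s1 - ta) ≤ 0 :=
      div_nonpos_of_nonpos_of_nonneg (by linarith) (by linarith)
    rw [max_eq_left, max_eq_left]
    · exact (min_le_right _ _).trans ((min_le_left _ _).trans a2)
    · exact (min_le_right _ _).trans ((min_le_left _ _).trans a1.le)
  · rcases le_total t tb with h' | h'
    · rw [clp_of_mem ⟨h, h'⟩]
    · have e : clp ta tb t = tb := by
        unfold clp
        rw [min_eq_left h', max_eq_right (by linarith)]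
      rw [e]
      unfold trapR
      have a1 : (tb - tb) / (tb - s2) = 0 := by simp
      have a2 : (tb - t) / (tb - s2) ≤ 0 :=
        div_nonpos_of_nonpos_of_nonneg (by linarith) (by linarith)
      rw [max_eq_left, max_eq_left]
      · exact (min_le_right _ _).trans ((min_le_right _ _).trans a2)
      · exact (min_le_right _ _).trans ((min_le_right _ _).trans a1.le)

theorem ex_chi {P : SB} (h1 : P.ta < P.s1) (h2 : P.s1 < P.s2) (h3 : P.s2 < P.tb) (n : ℕ) :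
    ExOk P.ta P.tb n (cst P.χ) := by
  refine ⟨Lev.cst n _, IsR.cst fun t => ?_, (Cl_iff _).2 fun ν t => ?_⟩
  · show (starRingEnd ℂ) ((trapR P.ta P.s1 P.s2 P.tb t : ℝ) : ℂ) = _
    rw [Complex.conj_ofReal]
    rfl
  · by_cases h : ν = 0
    · subst h
      show (Pi.single (0 : Gx) P.χ : Gx → Ct) 0 (clp P.ta P.tb t) =
        (Pi.single (0 : Gx) P.χ : Gx → Ct) 0 t
      rw [Pi.single_eq_same]
      show ((trapR P.ta P.s1 P.s2 P.tb (clp P.ta P.tb t) : ℝ) : ℂ) =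
        ((trapR P.ta P.s1 P.s2 P.tb t : ℝ) : ℂ)
      rw [ex_trap h1 h2 h3]
    · show (Pi.single (0 : Gx) P.χ : Gx → Ct) ν (clp P.ta P.tb t) =
        (Pi.single (0 : Gx) P.χ : Gx → Ct) ν t
      rw [Pi.single_eq_of_ne h]
      rfl

theorem ex_chi_le (P : SB) (t : ℝ) : ‖P.χ t‖ ≤ 1 := by
  show ‖((trapR P.ta P.s1 P.s2 P.tb t : ℝ) : ℂ)‖ ≤ 1
  rw [Complex.norm_real, Real.norm_eq_abs, abs_of_nonneg (trapR_nonneg _ _ _ _ _)]
  exact trapR_le_one _ _ _ _ _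

theorem ex_eb (a b : ℝ) (ν : Gx) : Cl a b (eb ν) := by
  refine (Cl_iff _).2 fun μ t => ?_
  show (Pi.single ν (1 : Ct) : Gx → Ct) μ (clp a b t) = (Pi.single ν (1 : Ct) : Gx → Ct) μ t
  by_cases h : μ = ν
  · subst h
    rw [Pi.single_eq_same]
    rfl
  · rw [Pi.single_eq_of_ne h]
    rfl

theorem ex_mean_dp (i : ℕ) (κ : Kp) (a : Fin 2) (f : WT) :
    mean i (dp κ a f) = dp κ a (mean i f) := by
  unfold dp
  split_ifs
  · rw [LinearMap.neg_apply, LinearMap.neg_apply, map_neg, mean_D]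
  · exact mean_D i κ 0 f

theorem ex_mean_cst (i : ℕ) (φ : Ct) (f : WT) :
    mean i (cst φ * f) = cst φ * mean i f := mlt_cst_mul (mean_pg i) φ f

/-! the map -/

noncomputable def exE (P : SB) (a : Vec) : Vec := fun j =>
  P.Ea j + intg P.ta P.tb (mean P.d.i (a j))

noncomputable def exW (P : SB) (a : Vec) : Vec := fun j =>
  cst P.χ * (P.W0 j + intg P.s1 P.s2 (osc P.d.i (a j)))

noncomputable def exA (P : SB) (G : Vec) : Vec := fun j => ∑ b, Ps P.κ' j b (G b)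

noncomputable def exQ (P : SB) (G : Vec) : Vec := fun j => ∑ b, Pg P.κ' j b (G b)

/-- The closed constraint. -/
structure ExCn (P : SB) (ζ E W a q : Vec) : Prop where
  oz : ∀ j, ExOk P.ta P.tb P.d.i (ζ j)
  oe : ∀ j, ExOk P.ta P.tb P.d.i (E j)
  ow : ∀ j, ExOk P.ta P.tb (P.d.i + 1) (W j)
  oa : ∀ j, ExOk P.ta P.tb (P.d.i + 1) (a j)
  oq : ∀ j, ExOk P.ta P.tb (P.d.i + 1) (q j)
  om : ∀ j, mean P.d.i (W j) = 0
  b0 : P.b = 0 → ∀ j, W j = 0 ∧ Lev P.d.i (a j) ∧ Lev P.d.i (q j)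

section cn

end cn

/-! closedness -/

theorem ex_eq_zero_cl {x : ℕ → WT} {y : WT} (hx : ∀ k, x k = 0)
    (h : ∀ ν t, Filter.Tendsto (fun k => (x k).co ν t) Filter.atTop (nhds (y.co ν t))) :
    y = 0 := by
  apply WT.ext
  funext ν
  ext t
  have h1 := h ν t
  have h2 : (fun k => (x k).co ν t) = fun _ => (0 : ℂ) := by
    funext k
    rw [hx k]
    rfl
  rw [h2] at h1
  exact tendsto_nhds_unique h1 tendsto_const_nhds

theorem ex_mean_cl {i : ℕ} {x : ℕ → WT} {y : WT} (hx : ∀ k, mean i (x k) = 0)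
    (h : ∀ ν t, Filter.Tendsto (fun k => (x k).co ν t) Filter.atTop (nhds (y.co ν t))) :
    mean i y = 0 := by
  refine ex_eq_zero_cl (x := fun k => mean i (x k)) hx fun ν t => ?_
  exact (h ν t).const_smul (if ν i = 0 then (1 : ℂ) else 0)

/-! indexing by `Fin 5 × Fin 2` -/

noncomputable def exX (ζ E W a q : Vec) : Fin 5 × Fin 2 → WT := fun p =>
  (![ζ, E, W, a, q] : Fin 5 → Vec) p.1 p.2

theorem ex_fin {Φ : Fin 5 × Fin 2 → Prop}
    (h : ∀ j, Φ (0, j) ∧ Φ (1, j) ∧ Φ (2, j) ∧ Φ (3, j) ∧ Φ (4, j)) : ∀ p, Φ p := by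
  rintro ⟨i, j⟩
  obtain ⟨h0, h1, h2, h3, h4⟩ := h j
  fin_cases i
  · exact h0
  · exact h1
  · exact h2
  · exact h3
  · exact h4

def exP : Fin 5 × Fin 2 → ℕ := fun p => (![2, 1, 1, 0, 0] : Fin 5 → ℕ) p.1

noncomputable def exV (u v w : ℝ) : Fin 5 × Fin 2 → ℝ := fun p =>
  (![u, v, v, w, w] : Fin 5 → ℝ) p.1

noncomputable def exC (x : Fin 5 × Fin 2 → WT) (i : Fin 5) : Vec := fun j => x (i, j)

/-! numerical facts, `K = 1 + 1/m` -/

theorem ex_num1 {lam g K h w : ℝ} (hlam : 1 ≤ lam) (hK : 2 ≤ K) (hh0 : 0 ≤ h) (hg : 0 < g)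
    (hlw : lam * w ≤ g) (hh : 10 ^ 8 * K ^ 5 * h * g ≤ 1) :
    h * K * (K * (g / lam) + 2 * w) ≤ 1 / 2 * (1 / (512 * lam * K)) := by
  have hl0 : 0 < lam := by linarith
  have hK0 : 0 < K := by linarith
  have h1 : w ≤ g / lam := by
    rw [le_div_iff₀ hl0]
    linarith
  have h0 : 0 ≤ g / lam := by positivity
  have h2 : K * (g / lam) + 2 * w ≤ 2 * K * (g / lam) := by nlinarith
  have h3 : h * K * (K * (g / lam) + 2 * w) ≤ h * K * (2 * K * (g / lam)) :=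
    mul_le_mul_of_nonneg_left h2 (by positivity)
  refine h3.trans ?_
  have e1 : h * K * (2 * K * (g / lam)) = (2 * K ^ 3 * h * g) * (1 / (lam * K)) := by
    field_simp
  have e2 : 1 / 2 * (1 / (512 * lam * K)) = (1 / 1024) * (1 / (lam * K)) := by
    field_simp
    norm_num
  rw [e1, e2]
  refine mul_le_mul_of_nonneg_right ?_ (by positivity)
  have h4 : K ^ 3 * (h * g) ≤ K ^ 5 * (h * g) :=
    mul_le_mul_of_nonneg_right (pow_le_pow_right₀ (by linarith) (by norm_num)) (by positivity)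
  nlinarith

theorem ex_num2 {g K h w : ℝ} (hK : 2 ≤ K) (hh0 : 0 ≤ h) (hg : 0 < g) (hw : 0 ≤ w)
    (hh : 10 ^ 8 * K ^ 5 * h * g ≤ 1) :
    h * K * (10 ^ 6 * K ^ 2 * g * w) ≤ 1 / 2 * w := by
  have e1 : h * K * (10 ^ 6 * K ^ 2 * g * w) = (10 ^ 6 * K ^ 3 * h * g) * w := by ring
  rw [e1]
  refine mul_le_mul_of_nonneg_right ?_ hw
  have h4 : K ^ 3 * (h * g) ≤ K ^ 5 * (h * g) :=
    mul_le_mul_of_nonneg_right (pow_le_pow_right₀ (by linarith) (by norm_num)) (by positivity)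
  nlinarith

/-- The ball. -/
structure ExBl (P : SB) (lam g m w : ℝ) (r : ℝ → ℝ) (ζ E W a q : Vec) : Prop where
  bz : ∀ j, Bd 2 r (ζ j - P.ζa j) (1 / (512 * lam * (1 + 1 / m)))
  be : ∀ j, Bd 1 r (E j - P.Ea j) w
  bw : ∀ j, Bd 1 r (W j - cst P.χ * P.W0 j) w
  ba : ∀ j, Bd 0 r (a j) (10 ^ 6 * (1 + 1 / m) ^ 2 * g * w)
  bq : ∀ j, Bd 0 r (q j) (10 ^ 6 * (1 + 1 / m) ^ 2 * g * w)

/-- Differences. -/
structure ExDf (lam g m w s : ℝ) (r : ℝ → ℝ) (ζ E W a q ζ' E' W' a' q' : Vec) :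
    Prop where
  dz : ∀ j, Bd 2 r (ζ j - ζ' j) (s * (1 / (512 * lam * (1 + 1 / m))))
  de : ∀ j, Bd 1 r (E j - E' j) (s * w)
  dw : ∀ j, Bd 1 r (W j - W' j) (s * w)
  da : ∀ j, Bd 0 r (a j - a' j) (s * (10 ^ 6 * (1 + 1 / m) ^ 2 * g * w))
  dq : ∀ j, Bd 0 r (q j - q' j) (s * (10 ^ 6 * (1 + 1 / m) ^ 2 * g * w))

section est
variable {P : SB} {lam g σ ρ c A ρ0 m w η s : ℝ} {ζ E W a q ζ' E' W' a' q' : Vec}

theorem ex_gpos (H : SBH P lam g σ ρ c A ρ0 m w η) : 0 < g :=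
  (mul_pos (by linarith [H.hlam]) H.hw).trans_le H.hlw

theorem ex_hab (H : SBH P lam g σ ρ c A ρ0 m w η) : P.ta < P.tb :=
  H.h1.trans (H.h2.trans H.h3)

theorem ex_DZ (_ : SBH P lam g σ ρ c A ρ0 m w η)
    (D : ExDf lam g m w s (P.r ρ0 m) ζ E W a q ζ' E' W' a' q') :
    DZ lam m (P.r ρ0 m) ζ ζ' s := fun j => (D.dz j).mono (le_of_eq (by ring))

end est

end ES
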