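import Pool.Agent.H16.TSS.M28

/-!
ES-SF: bounds and Lipschitz bounds of the right hand side `f` and of `g` of the sub-block system,
and of the initial wave `W0` (EW 2, Lemmas 2.1, 2.2).  `K = 1 + 1/m`, always `lam w ≤ g`,
`σ ≤ w²`.

`f = -2 LL (E+W) - ((E+W)·D)(F'E) - [ (W·D)(F'(E+W)) + bet W · F' dth (E+W) ] - D·(R M'ᵀ)`:
  `N0(2 LL (E+W)) ≤ 2·2·2g·35w`,  `N0(((E+W)·D)(F'E)) ≤ 2·35w·lam·6K·2w`,
  `N0((W·D)(F'(E+W))) ≤ 2·33w·lam·6K·131K w`,  `N0(bet) ≤ 2 lam·129K w`, `N0(F' dth(E+W)) ≤ 1.03·131K w`,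
  `N0(D·(R M'ᵀ)) ≤ 12 K² lam σ`;  the sum is `≤ 10^5 K² g w`.
-/

open scoped BoundedContinuousFunction

namespace ES

/-! private helpers -/

section
variable {P : SB} {lam g σ c m r0 w s : ℝ} {r : ℝ → ℝ} {ζ ζ' E E' W W' a a' q q' : Vec}

theorem g_bd (H : DH P.d lam g σ c m r0 r) (hw : 0 ≤ w) (hlw : lam * w ≤ g) (hσ : σ ≤ w ^ 2)
    (B : BH lam m w r ζ E W) {α : ℝ} (ha : ∀ j, Bd 0 r (a j) α) (hq : ∀ j, Bd 0 r (q j) α)
    (j : Fin 2) :
    Bd 0 r (P.g ζ E W a q j) (10 ^ 5 * (1 + 1 / m) ^ 2 * g * w + 12 / 250 * α) := by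
  have h := ((f_bd H hw hlw hσ B j).sub (H.mulv_FI B.z ha j)).sub (H.mulvT_MI B.z hq j)
  exact Bd.mono h (by linarith)

/-- Mean part of `f` (uses `Lev P.d.i` for `ζ`, `E` and the data, so that `F'`, `LL`, `M'`, `RR`
have no oscillating part, and `mean W = 0`). -/
theorem f_mean_bd (H : DH P.d lam g σ c m r0 r) (hw : 0 ≤ w) (hlw : lam * w ≤ g)
    (hσ : σ ≤ w ^ 2) (B : BH lam m w r ζ E W)
    (hlev : (∀ j, osc P.d.i (ζ j) = 0) ∧ (∀ j, osc P.d.i (E j) = 0) ∧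
      (∀ j, mean P.d.i (W j) = 0) ∧ (∀ a b, osc P.d.i (FF P.d ζ a b) = 0) ∧
      (∀ a b, osc P.d.i (LL P.d ζ a b) = 0) ∧ (∀ a b, osc P.d.i (RR P.d ζ a b) = 0))
    {e : ℝ} (he : ∀ j, Bd 1 r (E j) e) (j : Fin 2) :
    Bd 0 r (mean P.d.i (P.f ζ E W j))
      (8 * g * e + 12 * (1 + 1 / m) * lam * e ^ 2 + 10 ^ 5 * (1 + 1 / m) ^ 2 * lam * w ^ 2) := by
  obtain ⟨-, hoE, hmW, hoF, hoL, -⟩ := hlev
  have hmE : ∀ c, ES.mean P.d.i (E c) = E c := fun c => mean_of_osc (hoE c)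
  -- the mean of `X * W c` vanishes if `X` has no oscillating part
  have hz : ∀ (X : WT) (c : Fin 2), osc P.d.i X = 0 → ES.mean P.d.i (X * W c) = 0 := by
    intro X c hX
    rw [mean_mul_left _ hX, hmW c, mul_zero]
  have hFE : ∀ a, osc P.d.i (mulv (FF P.d ζ) E a) = 0 := by
    intro a
    simp only [mulv, Fin.sum_univ_two, map_add]
    rw [osc_mul_zero _ (hoF a 0) (hoE 0), osc_mul_zero _ (hoF a 1) (hoE 1), add_zero]
  have hDFE : ∀ a b, osc P.d.i (ES.D P.d.κ b (mulv (FF P.d ζ) E a)) = 0 := by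
    intro a b
    rw [osc_D, hFE, map_zero]
  -- first term
  have e1 : ES.mean P.d.i (2 * mulv (LL P.d ζ) (E + W) j) = 2 * mulv (LL P.d ζ) E j := by
    have : 2 * mulv (LL P.d ζ) (E + W) j = (2 * mulv (LL P.d ζ) E j) +
        (LL P.d ζ j 0 * W 0 + LL P.d ζ j 0 * W 0) + (LL P.d ζ j 1 * W 1 + LL P.d ζ j 1 * W 1) := by
      simp only [mulv, Fin.sum_univ_two, Pi.add_apply]; ring
    rw [this]
    simp only [map_add]
    rw [hz _ 0 (hoL j 0), hz _ 1 (hoL j 1)]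
    have h3 : ES.mean P.d.i (2 * mulv (LL P.d ζ) E j) = 2 * mulv (LL P.d ζ) E j := by
      apply mean_of_osc
      rw [two_mul, map_add]
      simp only [mulv, Fin.sum_univ_two, map_add]
      rw [osc_mul_zero _ (hoL j 0) (hoE 0), osc_mul_zero _ (hoL j 1) (hoE 1)]
      simp
    rw [h3]; ring
  -- second term
  have e2 : ES.mean P.d.i (adv P.d.κ (E + W) (mulv (FF P.d ζ) E) j) =
      adv P.d.κ E (mulv (FF P.d ζ) E) j := by
    have : adv P.d.κ (E + W) (mulv (FF P.d ζ) E) j = adv P.d.κ E (mulv (FF P.d ζ) E) j +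
        (ES.D P.d.κ 0 (mulv (FF P.d ζ) E j) * W 0 + ES.D P.d.κ 1 (mulv (FF P.d ζ) E j) * W 1) := by
      simp only [adv, Fin.sum_univ_two, Pi.add_apply]; ring
    rw [this]
    simp only [map_add]
    rw [hz _ 0 (hDFE j 0), hz _ 1 (hDFE j 1)]
    have h3 : ES.mean P.d.i (adv P.d.κ E (mulv (FF P.d ζ) E) j) =
        adv P.d.κ E (mulv (FF P.d ζ) E) j := by
      apply mean_of_osc
      simp only [adv, Fin.sum_univ_two]
      rw [map_add, osc_mul_zero _ (hoE 0) (hDFE j 0), osc_mul_zero _ (hoE 1) (hDFE j 1), add_zero]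
    rw [h3]; ring
  -- third term
  have e3 : ES.mean P.d.i (adv P.d.κ W (mulv (FF P.d ζ) (E + W)) j) =
      ES.mean P.d.i (adv P.d.κ W (mulv (FF P.d ζ) W) j) := by
    have h0 : mulv (FF P.d ζ) (E + W) = mulv (FF P.d ζ) E + mulv (FF P.d ζ) W := by
      funext a
      simp only [mulv, Fin.sum_univ_two, Pi.add_apply]; ring
    have : adv P.d.κ W (mulv (FF P.d ζ) (E + W)) j = adv P.d.κ W (mulv (FF P.d ζ) W) j +
        (ES.D P.d.κ 0 (mulv (FF P.d ζ) E j) * W 0 + ES.D P.d.κ 1 (mulv (FF P.d ζ) E j) * W 1) := by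
      rw [h0]
      simp only [adv, Fin.sum_univ_two, Pi.add_apply, map_add]; ring
    rw [this]
    simp only [map_add]
    rw [hz _ 0 (hDFE j 0), hz _ 1 (hDFE j 1)]
    ring
  have hf : ES.mean P.d.i (P.f ζ E W j) =
      -(2 * mulv (LL P.d ζ) E j) - adv P.d.κ E (mulv (FF P.d ζ) E) j -
      (ES.mean P.d.i (adv P.d.κ W (mulv (FF P.d ζ) W) j) +
      ES.mean P.d.i (P.bet W * mulv (FF P.d ζ) (fun c => ES.dth P.d.i (E c + W c)) j)) -
      ES.mean P.d.i (dvm P.d.κ (mulT (RR P.d ζ) (MM P.d ζ)) j) := by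
    rw [← e1, ← e2, ← e3]
    unfold SB.f
    simp only [map_sub, map_add, map_neg]
  rw [hf]
  have he0 : ∀ j, Bd 0 r (E j) e := fun j => (he j).weaken (Nat.zero_le _) fun _ => le_rfl
  have h1 := SF_two (SF_mulv (SF_r0 H) (fun c => H.bd_LL0 B.z j c) he0)
  have h2 := SF_adv (SF_r0 H) H.kb he0 (H.mulv_F1 B.z he j)
  have h3 := (SF_adv (SF_r0 H) H.kb B.w0 (H.mulv_F1 B.z B.w1 j)).mean P.d.i
  have h4 := (SF_T4 H hw B j).mean P.d.i
  have h5 := (SF_T5 H hσ B j).mean P.d.i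
  refine Bd.mono (((h1.neg.sub h2).sub (h3.add h4)).sub h5) ?_
  have hl := H.hlam
  have h6 : 0 ≤ (1 + 1 / m) ^ 2 * (lam * w * w) := by positivity
  nlinarith

end

end ES
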