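import Pool.Agent.H16.TSS.ES.SDer

/-!
ES-SLip: Lipschitz dependence on `ζ` of the derived functions (EW 2, Lemma 2.2), by `comp_sub_bd`
with `z = m` and `DH.two` / `Bd.margin`.
-/

open scoped BoundedContinuousFunction

namespace ES

section
variable {d : Dat} {lam g σ c m r0 s : ℝ} {r : ℝ → ℝ} {ζ ζ' : Vec}

theorem SLip_hr0 (H : DH d lam g σ c m r0 r) : ∀ t, 0 ≤ r t :=
  fun t => H.r00.le.trans (H.hr t)

/-- difference of a sum of two products -/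
theorem SLip_sum2 {k : ℕ} {r : ℝ → ℝ} (hr0 : ∀ t, 0 ≤ r t) {A A' P P' : Fin 2 → WT}
    {α β : ℝ} {p q : Fin 2 → ℝ} (h1 : ∀ c, Bd k r (A c - A' c) α) (h2 : ∀ c, Bd k r (P c) (p c))
    (h3 : ∀ c, Bd k r (A' c) (q c)) (h4 : ∀ c, Bd k r (P c - P' c) β) :
    Bd k r (∑ c, A c * P c - ∑ c, A' c * P' c) (α * (p 0 + p 1) + β * (q 0 + q 1)) := by
  have e : ∑ c, A c * P c - ∑ c, A' c * P' c
      = ((A 0 - A' 0) * P 0 + A' 0 * (P 0 - P' 0)) + ((A 1 - A' 1) * P 1 + A' 1 * (P 1 - P' 1)) := by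
    rw [Fin.sum_univ_two, Fin.sum_univ_two]; ring
  rw [e]
  refine (((Bd.mul hr0 (h1 0) (h2 0)).add (Bd.mul hr0 (h3 0) (h4 0))).add
    ((Bd.mul hr0 (h1 1) (h2 1)).add (Bd.mul hr0 (h3 1) (h4 1)))).mono (le_of_eq ?_)
  ring

noncomputable def SLip_dl (a b : Fin 2) : ℝ := if a = b then 1 else 0

theorem SLip_idm (k : ℕ) (r : ℝ → ℝ) (a b : Fin 2) : Bd k r (idm a b) (SLip_dl a b) := by
  unfold idm SLip_dl
  split_ifs
  · exact Bd.one k r
  · exact Bd.zero k r le_rfl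

private theorem SLip_dl_sum (b : Fin 2) : SLip_dl 0 b + SLip_dl 1 b = 1 := by
  unfold SLip_dl
  fin_cases b <;> simp

theorem SLip_dl_sum' (a : Fin 2) : SLip_dl a 0 + SLip_dl a 1 = 1 := by
  unfold SLip_dl
  fin_cases a <;> simp

theorem SLip_P1 (H : DH d lam g σ c m r0 r) (hζ : ZH lam m r ζ) (a b : Fin 2) :
    Bd 1 r (Pm d ζ a b) (SLip_dl a b + 1 / (256 * (1 + 1 / m))) := by
  have h := (SLip_idm 1 r a b).add (H.bd_P hζ a b)
  rwa [add_sub_cancel] at h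

theorem SLip_Ki (H : DH d lam g σ c m r0 r) :
    1 / (256 * (1 + 1 / m)) ≤ 1 / 512 := by
  have h := H.K2
  apply one_div_le_one_div_of_le (by norm_num)
  linarith

theorem SLip_P1s (H : DH d lam g σ c m r0 r) (b : Fin 2) :
    (SLip_dl 0 b + 1 / (256 * (1 + 1 / m))) + (SLip_dl 1 b + 1 / (256 * (1 + 1 / m)))
      ≤ 1 + 1 / 256 := by
  have h1 := SLip_dl_sum b
  have h2 := SLip_Ki H
  linarith

theorem SLip_s0 (H : DH d lam g σ c m r0 r) (hs : DZ lam m r ζ ζ' s) : 0 ≤ s := by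
  have h1 := (hs 0).nonneg
  have h2 := H.K2
  have h3 := H.hlam
  have h4 : 0 < 512 * lam * (1 + 1 / m) := by positivity
  by_contra hneg
  have := div_neg_of_neg_of_pos (not_le.1 hneg) h4
  linarith

theorem SLip_ch (H : DH d lam g σ c m r0 r) :
    2 * lam * (1 / (256 * lam * (1 + 1 / m))) ≤ m := by
  have h3 := H.hlam
  have hm := H.hm
  have h2 := H.K2
  have e : 2 * lam * (1 / (256 * lam * (1 + 1 / m))) = m / (128 * (m + 1)) := by
    have : lam ≠ 0 := by linarith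
    have h4 : m ≠ 0 := hm.ne'
    have h5 : m + 1 ≠ 0 := by linarith
    field_simp
    norm_num
  rw [e, div_le_iff₀ (by linarith)]
  nlinarith

theorem SLip_adj (H : DH d lam g σ c m r0 r) {k : ℕ} {e : ℝ}
    (h : ∀ a b, Bd k r (FF d ζ a b - FF d ζ' a b) e) (a b : Fin 2) :
    Bd k r (MM d ζ a b - MM d ζ' a b) e := by
  have _ := H.hm
  unfold MM adj
  split_ifs
  · exact h 1 1
  · have := (h 0 1).neg
    have e1 : -(FF d ζ 0 1 - FF d ζ' 0 1) = -FF d ζ 0 1 - -FF d ζ' 0 1 := by ring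
    rwa [e1] at this
  · have := (h 1 0).neg
    have e1 : -(FF d ζ 1 0 - FF d ζ' 1 0) = -FF d ζ 1 0 - -FF d ζ' 1 0 := by ring
    rwa [e1] at this
  · exact h 0 0

theorem DH.lip_P (H : DH d lam g σ c m r0 r) (hs : DZ lam m r ζ ζ' s) (a b : Fin 2) :
    Bd 1 r (Pm d ζ a b - Pm d ζ' a b) (s / (512 * (1 + 1 / m))) := by
  have e : Pm d ζ a b - Pm d ζ' a b = D d.κ b (ζ a - ζ' a) := by
    unfold Pm Fm grad
    rw [map_sub]; ring
  rw [e]
  refine (Bd.D H.kb b (hs a)).mono (le_of_eq ?_)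
  have h3 := H.hlam
  have h2 := H.K2
  have h4 : lam ≠ 0 := by linarith
  field_simp

end

end ES
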