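import Pool.Agent.H16.TSS.ES.LCompB_1
import Pool.Agent.H16.TSS.ES.SDer_1
import Pool.Agent.H16.TSS.ES.SLip

/-!
ES-SLip: Lipschitz dependence on `ζ` of the derived functions (EW 2, Lemma 2.2), by `comp_sub_bd`
with `z = m` and `DH.two` / `Bd.margin`.
-/

open scoped BoundedContinuousFunction

namespace ES

section
variable {d : Dat} {lam g σ c m r0 s : ℝ} {r : ℝ → ℝ} {ζ ζ' : Vec}

private theorem SLip_compF (H : DH d lam g σ c m r0 r) (hζ : ZH lam m r ζ)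
    (hζ' : ZH lam m r ζ') (a b : Fin 2) :
    comp d.κ ζ (d.F a b) - comp d.κ ζ' (d.F a b)
      = comp d.κ ζ (grad d.κ d.ξ a b) - comp d.κ ζ' (grad d.κ d.ξ a b) := by
  rw [← H.comp_F hζ a b, ← H.comp_F hζ' a b]
  ring

/-- General composition differences. -/
theorem DH.lip_comp0 (H : DH d lam g σ c m r0 r) (hζ : ZH lam m r ζ) (hζ' : ZH lam m r ζ')
    (hs : DZ lam m r ζ ζ' s) {f : WT} {e : ℝ} (hf : Bd 0 (fun t => r t + 2 * m) f e) :
    Bd 0 r (comp d.κ ζ f - comp d.κ ζ' f) (s * e / 256) := by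
  have h1 : Bd 1 (fun t => r t + m) f ((1 + 1 / m) * e) :=
    Bd.margin H.hm (fun t => by linarith) hf
  have h := comp_sub_bd (k := 0) (H.ch hζ) (H.ch hζ')
    (fun a => (hζ a).weaken (Nat.zero_le _) (fun _ => le_rfl))
    (fun a => (hζ' a).weaken (Nat.zero_le _) (fun _ => le_rfl)) (SLip_ch H)
    (fun a => (hs a).weaken (Nat.zero_le _) (fun _ => le_rfl)) h1
  refine h.mono (le_of_eq ?_)
  have h3 := H.hlam
  have h2 := H.K2
  have h4 : lam ≠ 0 := by linarith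
  have h5 : (1 + 1 / m) ≠ 0 := by linarith
  generalize 1 + 1 / m = K at *
  field_simp
  ring

theorem DH.lip_comp1 (H : DH d lam g σ c m r0 r) (hζ : ZH lam m r ζ) (hζ' : ZH lam m r ζ')
    (hs : DZ lam m r ζ ζ' s) {f : WT} {e : ℝ} (hf : Bd 0 (fun t => r t + 2 * m) f e) :
    Bd 1 r (comp d.κ ζ f - comp d.κ ζ' f) (s * (1 + 1 / m) * e / 64) := by
  have h1 := H.two hf
  have h := comp_sub_bd (k := 1) (H.ch hζ) (H.ch hζ')
    (fun a => (hζ a).weaken (by norm_num) (fun _ => le_rfl))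
    (fun a => (hζ' a).weaken (by norm_num) (fun _ => le_rfl)) (SLip_ch H)
    (fun a => (hs a).weaken (by norm_num) (fun _ => le_rfl)) h1
  refine h.mono (le_of_eq ?_)
  have h3 := H.hlam
  have h2 := H.K2
  have h4 : lam ≠ 0 := by linarith
  have h5 : (1 + 1 / m) ≠ 0 := by linarith
  generalize 1 + 1 / m = K at *
  field_simp
  ring

theorem DH.lip_FF0 (H : DH d lam g σ c m r0 r) (hζ : ZH lam m r ζ) (hζ' : ZH lam m r ζ')
    (hs : DZ lam m r ζ ζ' s) (a b : Fin 2) :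
    Bd 0 r (FF d ζ a b - FF d ζ' a b) (s / 900) := by
  have hs0 := SLip_s0 H hs
  have hc0 := H.hc0
  have hc := H.hc
  have h1 : ∀ j, Bd 0 r (comp d.κ ζ (d.F a j) - comp d.κ ζ' (d.F a j)) (s * c / 256) := by
    intro j
    rw [SLip_compF H hζ hζ' a j]
    exact H.lip_comp0 hζ hζ' hs (H.bF a j)
  have h2 : ∀ j, Bd 0 r (Pm d ζ j b) (SLip_dl j b + 1 / (256 * (1 + 1 / m))) := fun j =>
    (SLip_P1 H hζ j b).weaken (Nat.zero_le _) (fun _ => le_rfl)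
  have h3 : ∀ j, Bd 0 r (comp d.κ ζ' (d.F a j)) (SLip_dl a j + c) := by
    intro j
    have h := (SLip_idm 0 r a j).add (H.bd_compF0 hζ' a j)
    rwa [add_sub_cancel] at h
  have h4 : ∀ j, Bd 0 r (Pm d ζ j b - Pm d ζ' j b) (s / (512 * (1 + 1 / m))) := fun j =>
    (H.lip_P hs j b).weaken (Nat.zero_le _) (fun _ => le_rfl)
  refine (SLip_sum2 (SLip_hr0 H) h1 h2 h3 h4).mono ?_
  have e1 := SLip_P1s H b
  have e2 := SLip_dl_sum' a
  have e3 := SLip_Ki H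
  have e4 : s / (512 * (1 + 1 / m)) ≤ s / 1024 := by
    have : s / (512 * (1 + 1 / m)) = s / 2 * (1 / (256 * (1 + 1 / m))) := by
      have h5 := H.K2
      generalize 1 + 1 / m = K at *
      field_simp
      ring
    rw [this]
    nlinarith
  have e5 : s * c / 256 * ((SLip_dl 0 b + 1 / (256 * (1 + 1 / m)))
      + (SLip_dl 1 b + 1 / (256 * (1 + 1 / m)))) ≤ s * (1 / 100) / 256 * (1 + 1 / 256) := by
    refine mul_le_mul ?_ e1 ?_ (by positivity)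
    · have := mul_le_mul_of_nonneg_left hc hs0
      linarith
    · have := (h2 0).nonneg
      have := (h2 1).nonneg
      linarith
  have e6 : s / (512 * (1 + 1 / m)) * ((SLip_dl a 0 + c) + (SLip_dl a 1 + c))
      ≤ s / 1024 * (1 + 2 * (1 / 100)) := by
    refine mul_le_mul e4 (by linarith) ?_ (by positivity)
    have := (h3 0).nonneg
    have := (h3 1).nonneg
    linarith
  linarith

theorem DH.lip_FF1 (H : DH d lam g σ c m r0 r) (hζ : ZH lam m r ζ) (hζ' : ZH lam m r ζ')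
    (hs : DZ lam m r ζ ζ' s) (a b : Fin 2) :
    Bd 1 r (FF d ζ a b - FF d ζ' a b) (s * (1 + 1 / m)) := by
  have hs0 := SLip_s0 H hs
  have hc0 := H.hc0
  have hc := H.hc
  have hK := H.K2
  have h1 : ∀ j, Bd 1 r (comp d.κ ζ (d.F a j) - comp d.κ ζ' (d.F a j))
      (s * (1 + 1 / m) * c / 64) := by
    intro j
    rw [SLip_compF H hζ hζ' a j]
    exact H.lip_comp1 hζ hζ' hs (H.bF a j)
  have h2 : ∀ j, Bd 1 r (Pm d ζ j b) (SLip_dl j b + 1 / (256 * (1 + 1 / m))) := fun j =>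
    SLip_P1 H hζ j b
  have h3 : ∀ j : Fin 2, Bd 1 r (comp d.κ ζ' (d.F a j)) (1 + 1 / m) := fun j =>
    H.bd_compF1 hζ' a j
  have h4 : ∀ j, Bd 1 r (Pm d ζ j b - Pm d ζ' j b) (s / (512 * (1 + 1 / m))) := fun j =>
    H.lip_P hs j b
  refine (SLip_sum2 (q := fun _ => 1 + 1 / m) (SLip_hr0 H) h1 h2 h3 h4).mono ?_
  have e1 := SLip_P1s H b
  have e5 : s * (1 + 1 / m) * c / 64 * ((SLip_dl 0 b + 1 / (256 * (1 + 1 / m)))
      + (SLip_dl 1 b + 1 / (256 * (1 + 1 / m))))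
      ≤ s * (1 + 1 / m) * (1 / 100) / 64 * (1 + 1 / 256) := by
    refine mul_le_mul ?_ e1 ?_ (by positivity)
    · have := mul_le_mul_of_nonneg_left hc (mul_nonneg hs0 (by linarith : 0 ≤ 1 + 1 / m))
      linarith
    · have := (h2 0).nonneg
      have := (h2 1).nonneg
      linarith
  have e6 : s / (512 * (1 + 1 / m)) * ((1 + 1 / m) + (1 + 1 / m)) = s / 256 := by
    generalize 1 + 1 / m = K at *
    field_simp
    ring
  have e7 : s * 2 ≤ s * (1 + 1 / m) := mul_le_mul_of_nonneg_left hK hs0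
  linarith

theorem DH.lip_MM0 (H : DH d lam g σ c m r0 r) (hζ : ZH lam m r ζ) (hζ' : ZH lam m r ζ')
    (hs : DZ lam m r ζ ζ' s) (a b : Fin 2) :
    Bd 0 r (MM d ζ a b - MM d ζ' a b) (s / 900) := SLip_adj H (H.lip_FF0 hζ hζ' hs) a b

theorem DH.lip_MM1 (H : DH d lam g σ c m r0 r) (hζ : ZH lam m r ζ) (hζ' : ZH lam m r ζ')
    (hs : DZ lam m r ζ ζ' s) (a b : Fin 2) :
    Bd 1 r (MM d ζ a b - MM d ζ' a b) (s * (1 + 1 / m)) := SLip_adj H (H.lip_FF1 hζ hζ' hs) a b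

theorem DH.lip_LL0 (H : DH d lam g σ c m r0 r) (hζ : ZH lam m r ζ) (hζ' : ZH lam m r ζ')
    (hs : DZ lam m r ζ ζ' s) (a b : Fin 2) :
    Bd 0 r (LL d ζ a b - LL d ζ' a b) (s * g) := by
  have hs0 := SLip_s0 H hs
  have hg := H.hg
  have hK := H.K2
  have h1 : ∀ j, Bd 0 r (comp d.κ ζ (d.G a j) - comp d.κ ζ' (d.G a j)) (s * g / 256) :=
    fun j => H.lip_comp0 hζ hζ' hs (H.bG a j)
  have h2 : ∀ j, Bd 0 r (Pm d ζ j b) (SLip_dl j b + 1 / (256 * (1 + 1 / m))) := fun j =>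
    (SLip_P1 H hζ j b).weaken (Nat.zero_le _) (fun _ => le_rfl)
  have h3 : ∀ j : Fin 2, Bd 0 r (comp d.κ ζ' (d.G a j)) g := fun j => H.comp0 hζ' (H.bG a j)
  have h4 : ∀ j, Bd 0 r (Pm d ζ j b - Pm d ζ' j b) (s / (512 * (1 + 1 / m))) := fun j =>
    (H.lip_P hs j b).weaken (Nat.zero_le _) (fun _ => le_rfl)
  refine (SLip_sum2 (q := fun _ => g) (SLip_hr0 H) h1 h2 h3 h4).mono ?_
  have e1 := SLip_P1s H b
  have e4 : s / (512 * (1 + 1 / m)) ≤ s / 1024 := by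
    apply div_le_div_of_nonneg_left hs0 (by norm_num)
    linarith
  have hsg : 0 ≤ s * g := mul_nonneg hs0 hg
  have e5 : s * g / 256 * ((SLip_dl 0 b + 1 / (256 * (1 + 1 / m)))
      + (SLip_dl 1 b + 1 / (256 * (1 + 1 / m)))) ≤ s * g / 256 * (1 + 1 / 256) :=
    mul_le_mul_of_nonneg_left e1 (by positivity)
  have e6 : s / (512 * (1 + 1 / m)) * (g + g) ≤ s / 1024 * (g + g) :=
    mul_le_mul_of_nonneg_right e4 (by positivity)
  linarith

theorem DH.lip_RM1 (H : DH d lam g σ c m r0 r) (hζ : ZH lam m r ζ) (hζ' : ZH lam m r ζ')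
    (hs : DZ lam m r ζ ζ' s) (a b : Fin 2) :
    Bd 1 r (mulT (RR d ζ) (MM d ζ) a b - mulT (RR d ζ') (MM d ζ') a b)
      (3 * s * (1 + 1 / m) ^ 2 * σ) := by
  have hs0 := SLip_s0 H hs
  have hσ := H.hσ
  have hK := H.K2
  have h1 : ∀ j, Bd 1 r (RR d ζ a j - RR d ζ' a j) (s * (1 + 1 / m) * σ / 64) := fun j =>
    H.lip_comp1 hζ hζ' hs (H.bR a j)
  have h2 : ∀ j : Fin 2, Bd 1 r (MM d ζ b j) (3 * (1 + 1 / m)) := fun j => H.bd_MM1 hζ b j
  have h3 : ∀ j : Fin 2, Bd 1 r (RR d ζ' a j) ((1 + 1 / m) * σ) := fun j => H.bd_RR1 hζ' a j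
  have h4 : ∀ j, Bd 1 r (MM d ζ b j - MM d ζ' b j) (s * (1 + 1 / m)) := fun j =>
    H.lip_MM1 hζ hζ' hs b j
  refine (SLip_sum2 (p := fun _ => 3 * (1 + 1 / m)) (q := fun _ => (1 + 1 / m) * σ)
    (SLip_hr0 H) h1 h2 h3 h4).mono ?_
  have h5 : 0 ≤ s * (1 + 1 / m) ^ 2 * σ := by positivity
  have h6 : s * (1 + 1 / m) * σ / 64 * (3 * (1 + 1 / m) + 3 * (1 + 1 / m))
      + s * (1 + 1 / m) * ((1 + 1 / m) * σ + (1 + 1 / m) * σ)
      = (2 + 6 / 64) * (s * (1 + 1 / m) ^ 2 * σ) := by ring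
  rw [h6]
  linarith

theorem DH.lip_dvm (H : DH d lam g σ c m r0 r) (hζ : ZH lam m r ζ) (hζ' : ZH lam m r ζ')
    (hs : DZ lam m r ζ ζ' s) (a : Fin 2) :
    Bd 0 r (dvm d.κ (mulT (RR d ζ) (MM d ζ)) a - dvm d.κ (mulT (RR d ζ') (MM d ζ')) a)
      (6 * s * (1 + 1 / m) ^ 2 * lam * σ) := by
  have e : dvm d.κ (mulT (RR d ζ) (MM d ζ)) a - dvm d.κ (mulT (RR d ζ') (MM d ζ')) a
      = D d.κ 0 (mulT (RR d ζ) (MM d ζ) a 0 - mulT (RR d ζ') (MM d ζ') a 0)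
        + D d.κ 1 (mulT (RR d ζ) (MM d ζ) a 1 - mulT (RR d ζ') (MM d ζ') a 1) := by
    unfold dvm
    rw [Fin.sum_univ_two, Fin.sum_univ_two, map_sub, map_sub]
    ring
  rw [e]
  refine ((Bd.D H.kb 0 (H.lip_RM1 hζ hζ' hs a 0)).add
    (Bd.D H.kb 1 (H.lip_RM1 hζ hζ' hs a 1))).mono (le_of_eq ?_)
  ring

theorem DH.lip_B1 (H : DH d lam g σ c m r0 r) (hζ : ZH lam m r ζ) (hζ' : ZH lam m r ζ')
    (hs : DZ lam m r ζ ζ' s) (a : Fin 2) :
    Bd 1 r (comp d.κ ζ (d.B a) - comp d.κ ζ' (d.B a)) (s * (1 + 1 / m) * (g / lam)) := by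
  have hs0 := SLip_s0 H hs
  have hg := H.hg
  have hl := H.hlam
  have hK := H.K2
  refine (H.lip_comp1 hζ hζ' hs (H.bB a)).mono ?_
  have h : 0 ≤ s * (1 + 1 / m) * (g / lam) := by positivity
  linarith

end

end ES
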