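import Pool.Agent.H16.TSS.ES.SF_1
import Pool.Agent.H16.TSS.ES.SF_2
import Pool.Agent.H16.TSS.M31

/-!
ES-SEx: existence of the solution of the sub-block system (EW 2, Lemma 2.3) by `fixpt` with
`ι = Fin 5 × Fin 2` (components ζ, E, W, a, q), powers `k = 2,1,1,0,0`, weights
`1/(512 lam K)`, `w`, `w`, `G w`, `G w`, `G = 10^6 K² g`, radius `r = P.r ρ0 m`,
start `x0 = (ζa, Ea, χ W0, 0, 0)`.
 (S1) `N2(T ζ - ζa) ≤ h K N1(comp B + P E) ≤ h K (K g/lam + 3 w) ≤ 4 K² h g / lam` (`Bd.intg_gain`);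
      differences: `≤ h K s (K g/lam + 3w)`.
 (S2),(S3) `N1 ≤ h K N0(a) ≤ h K G w`;  differences `h K s G w`;  `|χ| ≤ 1`.
 (S4) `N0 ≤ 2 (10^5 K² g w + 0.048 G w) ≤ G w / 2`;
      differences `≤ 2 (10^5 s K² g w + 0.0525 s G w) ≤ s G w / 2`.
 The constraint `Q` is the conjunction of the closed conditions of `SB0` (levels, mean of W,
 reality, clamping, and: `b = 0 → W = 0, osc a = 0, osc q = 0`).
-/

open scoped BoundedContinuousFunction

namespace ES

/-! admissible elements: level, reality, clamping -/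

section ok

end ok

/-! the data are admissible -/

section data

end data

section rhs

end rhs

/-! cutoff and initial wave -/

/-! the map -/

section cn

end cn

/-! closedness -/

/-! indexing by `Fin 5 × Fin 2` -/

/-! numerical facts, `K = 1 + 1/m` -/

section est
variable {P : SB} {lam g σ ρ c A ρ0 m w η s : ℝ} {ζ E W a q ζ' E' W' a' q' : Vec}

private theorem ex_dG (H : SBH P lam g σ ρ c A ρ0 m w η) (hs : 0 ≤ s)
    (B : ExBl P lam g m w (P.r ρ0 m) ζ E W a q) (B' : ExBl P lam g m w (P.r ρ0 m) ζ' E' W' a' q')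
    (D : ExDf lam g m w s (P.r ρ0 m) ζ E W a q ζ' E' W' a' q') (j : Fin 2) :
    Bd 0 (P.r ρ0 m) (P.g ζ E W a q j - P.g ζ' E' W' a' q' j)
      (s / 4 * (10 ^ 6 * (1 + 1 / m) ^ 2 * g * w)) := by
  have h := g_lip (q := q) (q' := q') H.dh H.hw.le H.hlw H.hσ (ex_BH H B) (ex_BH H B') hs
    (ex_DZ H D) D.de D.dw B.ba B.bq D.da D.dq j
  refine h.mono ?_
  have hg0 := ex_gpos H
  have hw0 := H.hw
  have : 0 ≤ s * ((1 + 1 / m) ^ 2 * g * w) := by positivity
  nlinarith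

/-- The bound at the start. -/
private theorem ex_G0 (H : SBH P lam g σ ρ c A ρ0 m w η)
    (B : ExBl P lam g m w (P.r ρ0 m) ζ E W 0 0) (j : Fin 2) :
    Bd 0 (P.r ρ0 m) (P.g ζ E W 0 0 j) (1 / 4 * (10 ^ 6 * (1 + 1 / m) ^ 2 * g * w)) := by
  have h := g_bd (a := 0) (q := 0) (α := 0) H.dh H.hw.le H.hlw H.hσ (ex_BH H B)
    (fun _ => Bd.zero _ _ le_rfl) (fun _ => Bd.zero _ _ le_rfl) j
  refine h.mono ?_
  have hg0 := ex_gpos H
  have hw0 := H.hw
  have : 0 ≤ ((1 + 1 / m) ^ 2 * g * w) := by positivity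
  nlinarith

end est

theorem sb_exists0 (P : SB) {lam g σ ρ c A ρ0 m w η : ℝ} (H : SBH P lam g σ ρ c A ρ0 m w η)
    (hh : 10 ^ 8 * (1 + 1 / m) ^ 5 * (P.tb - P.ta) * g ≤ 1) :
    ∃ ζ E W a q : Vec, SB0 P lam g ρ0 m w ζ E W a q := by
  have hg0 := ex_gpos H
  have hw0 := H.hw
  have hl0 : 0 < lam := by linarith [H.hlam]
  have hK2 : 2 ≤ 1 + 1 / m := H.dh.K2
  have hK0 : 0 < 1 + 1 / m := by linarith
  have hu : 0 < 1 / (512 * lam * (1 + 1 / m)) := by positivity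
  have hGw : 0 < 10 ^ 6 * (1 + 1 / m) ^ 2 * g * w := by positivity
  let wt : Fin 5 × Fin 2 → ℝ :=
    exV (1 / (512 * lam * (1 + 1 / m))) w (10 ^ 6 * (1 + 1 / m) ^ 2 * g * w)
  let T : (Fin 5 × Fin 2 → WT) → (Fin 5 × Fin 2 → WT) := fun x =>
    exX (exZ P (exC x 0) (exC x 1)) (exE P (exC x 3)) (exW P (exC x 3))
      (exA P (P.g (exC x 0) (exC x 1) (exC x 2) (exC x 3) (exC x 4)))
      (exQ P (P.g (exC x 0) (exC x 1) (exC x 2) (exC x 3) (exC x 4)))
  let x0 : Fin 5 × Fin 2 → WT := exX P.ζa P.Ea (fun j => cst P.χ * P.W0 j) 0 0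
  let Q : (Fin 5 × Fin 2 → WT) → Prop := fun x =>
    ExCn P (exC x 0) (exC x 1) (exC x 2) (exC x 3) (exC x 4)
  have hwt : ∀ p, 0 < wt p := ex_fin fun j => ⟨hu, hw0, hw0, hGw, hGw⟩
  have toBl : ∀ x, BdV exP wt (P.r ρ0 m) (x - x0) 1 →
      ExBl P lam g m w (P.r ρ0 m) (exC x 0) (exC x 1) (exC x 2) (exC x 3) (exC x 4) := by
    intro x hx
    refine ⟨fun j => ?_, fun j => ?_, fun j => ?_, fun j => ?_, fun j => ?_⟩
    · have h : Bd 2 (P.r ρ0 m) (exC x 0 j - P.ζa j) (1 * (1 / (512 * lam * (1 + 1 / m)))) :=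
        hx (0, j)
      rwa [one_mul] at h
    · have h : Bd 1 (P.r ρ0 m) (exC x 1 j - P.Ea j) (1 * w) := hx (1, j)
      rwa [one_mul] at h
    · have h : Bd 1 (P.r ρ0 m) (exC x 2 j - cst P.χ * P.W0 j) (1 * w) := hx (2, j)
      rwa [one_mul] at h
    · have h : Bd 0 (P.r ρ0 m) (exC x 3 j - 0) (1 * (10 ^ 6 * (1 + 1 / m) ^ 2 * g * w)) :=
        hx (3, j)
      rwa [one_mul, sub_zero] at h
    · have h : Bd 0 (P.r ρ0 m) (exC x 4 j - 0) (1 * (10 ^ 6 * (1 + 1 / m) ^ 2 * g * w)) :=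
        hx (4, j)
      rwa [one_mul, sub_zero] at h
  have toDf : ∀ x y s, BdV exP wt (P.r ρ0 m) (x - y) s →
      ExDf lam g m w s (P.r ρ0 m) (exC x 0) (exC x 1) (exC x 2) (exC x 3) (exC x 4)
        (exC y 0) (exC y 1) (exC y 2) (exC y 3) (exC y 4) := by
    intro x y s h
    exact ⟨fun j => h (0, j), fun j => h (1, j), fun j => h (2, j), fun j => h (3, j),
      fun j => h (4, j)⟩
  have hQ0 : Q x0 := ex_start H
  have hQT : ∀ x, BdV exP wt (P.r ρ0 m) (x - x0) 1 → Q x → Q (T x) := fun x hx hQ =>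
    ex_pres H hQ (ex_BH H (toBl x hx)).z
  have hQcl : ∀ (x : ℕ → (Fin 5 × Fin 2) → WT) (y : (Fin 5 × Fin 2) → WT), (∀ n, Q (x n)) →
      (∀ j ν t, Filter.Tendsto (fun n => (x n j).co ν t) Filter.atTop (nhds ((y j).co ν t))) →
      Q y := by
    intro x y hx h
    refine ⟨fun j => ex_ok_cl (fun k => (hx k).oz j) (h (0, j)),
      fun j => ex_ok_cl (fun k => (hx k).oe j) (h (1, j)),
      fun j => ex_ok_cl (fun k => (hx k).ow j) (h (2, j)),
      fun j => ex_ok_cl (fun k => (hx k).oa j) (h (3, j)),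
      fun j => ex_ok_cl (fun k => (hx k).oq j) (h (4, j)),
      fun j => ex_mean_cl (fun k => (hx k).om j) (h (2, j)), fun h0 j => ⟨?_, ?_, ?_⟩⟩
    · exact ex_eq_zero_cl (fun k => ((hx k).b0 h0 j).1) (h (2, j))
    · exact Lev_of_tendsto (fun k => ((hx k).b0 h0 j).2.1) (h (3, j))
    · exact Lev_of_tendsto (fun k => ((hx k).b0 h0 j).2.2) (h (4, j))
  have hx00 : BdV exP wt (P.r ρ0 m) (x0 - x0) 1 := fun p => by
    rw [sub_self]
    exact Bd.zero _ _ (mul_nonneg zero_le_one (hwt p).le)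
  have hT0 : BdV exP wt (P.r ρ0 m) (T x0 - x0) (1 / 2) := by
    have hB0 := toBl x0 hx00
    have hG := ex_G0 H (ζ := P.ζa) (E := P.Ea) (W := fun j => cst P.χ * P.W0 j) hB0
    have hG' : ∀ j, Bd 0 (P.r ρ0 m)
        (P.g P.ζa P.Ea (fun j => cst P.χ * P.W0 j) 0 0 j - (0 : Vec) j)
        (1 / 4 * (10 ^ 6 * (1 + 1 / m) ^ 2 * g * w)) := fun j => by
      have : P.g P.ζa P.Ea (fun j => cst P.χ * P.W0 j) 0 0 j - (0 : Vec) j =
          P.g P.ζa P.Ea (fun j => cst P.χ * P.W0 j) 0 0 j := by simp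
      rw [this]
      exact hG j
    refine ex_fin fun j => ⟨?_, ?_, ?_, ?_, ?_⟩
    · exact ex_dZ0 H hh (ex_BH H hB0).z
        (fun j => ((H.eb' j).weaken le_rfl (ex_rle H)).mono H.hη) j
    · show Bd 1 (P.r ρ0 m) (exE P 0 j - P.Ea j) (1 / 2 * w)
      have : exE P 0 j - P.Ea j = 0 := by
        unfold exE
        simp
      rw [this]
      exact Bd.zero _ _ (by positivity)
    · show Bd 1 (P.r ρ0 m) (exW P 0 j - cst P.χ * P.W0 j) (1 / 2 * w)
      have : exW P 0 j - cst P.χ * P.W0 j = 0 := by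
        unfold exW
        simp
      rw [this]
      exact Bd.zero _ _ (by positivity)
    · have h := ex_sumPs (κ := P.κ') hG' j
      have h0 : (∑ b, Ps P.κ' j b ((0 : Vec) b)) = 0 := by simp
      rw [h0] at h
      exact h.mono (le_of_eq (by
        show _ = 1 / 2 * (10 ^ 6 * (1 + 1 / m) ^ 2 * g * w)
        ring))
    · have h := ex_sumPg (κ := P.κ') hG' j
      have h0 : (∑ b, Pg P.κ' j b ((0 : Vec) b)) = 0 := by simp
      rw [h0] at h
      exact h.mono (le_of_eq (by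
        show _ = 1 / 2 * (10 ^ 6 * (1 + 1 / m) ^ 2 * g * w)
        ring))
  have hL : ∀ x y s, Q x → Q y → 0 ≤ s → BdV exP wt (P.r ρ0 m) (x - x0) 1 →
      BdV exP wt (P.r ρ0 m) (y - x0) 1 → BdV exP wt (P.r ρ0 m) (x - y) s →
      BdV exP wt (P.r ρ0 m) (T x - T y) (s / 2) := by
    intro x y s _ _ hs hx hy hxy
    have hBx := toBl x hx
    have hBy := toBl y hy
    have hD := toDf x y s hxy
    have hG := ex_dG H hs hBx hBy hD
    refine ex_fin fun j => ⟨?_, ?_, ?_, ?_, ?_⟩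
    · exact ex_dZ H hh hs hBx hBy hD j
    · exact ex_dE H hh hs hD.da j
    · exact ex_dW H hh hs hD.da j
    · exact (ex_sumPs (κ := P.κ') hG j).mono (le_of_eq (by
        show _ = s / 2 * (10 ^ 6 * (1 + 1 / m) ^ 2 * g * w)
        ring))
    · exact (ex_sumPg (κ := P.κ') hG j).mono (le_of_eq (by
        show _ = s / 2 * (10 ^ 6 * (1 + 1 / m) ^ 2 * g * w)
        ring))
  obtain ⟨x, hTx, hQ, hB⟩ := fixpt exP wt hwt (r := P.r ρ0 m) H.hm H.dh.hr T x0 Q hQ0 hQT hQcl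
    hT0 hL
  have B := toBl x hB
  have hC : ExCn P (exC x 0) (exC x 1) (exC x 2) (exC x 3) (exC x 4) := hQ
  refine ⟨exC x 0, exC x 1, exC x 2, exC x 3, exC x 4, ?_⟩
  exact
    { sol :=
        { hζ := fun j => (congrFun hTx (0, j)).symm
          hE := fun j => (congrFun hTx (1, j)).symm
          hW := fun j => (congrFun hTx (2, j)).symm
          ha := fun j => (congrFun hTx (3, j)).symm
          hq := fun j => (congrFun hTx (4, j)).symm }
      lζ := fun j => (hC.oz j).l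
      lE := fun j => (hC.oe j).l
      lW := fun j => (hC.ow j).l
      la := fun j => (hC.oa j).l
      lq := fun j => (hC.oq j).l
      mW := hC.om
      rζ := fun j => (hC.oz j).r
      rE := fun j => (hC.oe j).r
      rW := fun j => (hC.ow j).r
      ra := fun j => (hC.oa j).r
      rq := fun j => (hC.oq j).r
      cζ := fun j => (hC.oz j).c
      cE := fun j => (hC.oe j).c
      cW := fun j => (hC.ow j).c
      ca := fun j => (hC.oa j).c
      cq := fun j => (hC.oq j).c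
      b0 := fun h0 j => ⟨(hC.b0 h0 j).1, (hC.b0 h0 j).2.1.osc le_rfl, (hC.b0 h0 j).2.2.osc le_rfl⟩
      nζ := B.bz
      nE := B.be
      nW := B.bw
      na := B.ba
      nq := B.bq }

end ES
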