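import Pool.Agent.H16.TSS.ES.SLip_1
import Pool.Agent.H16.TSS.M28

/-!
ES-SF: bounds and Lipschitz bounds of the right hand side `f` and of `g` of the sub-block system,
and of the initial wave `W0` (EW 2, Lemmas 2.1, 2.2).  `K = 1 + 1/m`, always `lam w ≤ g`,
`σ ≤ w²`.

`f = -2 LL (E+W) - ((E+W)·D)(F'E) - [ (W·D)(F'(E+W)) + bet W · F' dth (E+W) ] - D·(R M'ᵀ)`:
  `N0(2 LL (E+W)) ≤ 2·2·2g·35w`,  `N0(((E+W)·D)(F'E)) ≤ 2·35w·lam·6K·2w`,
  `N0((W·D)(F'(E+W))) ≤ 2·33w·lam·6K·131K w`,  `N0(bet) ≤ 2 lam·129K w`, `N0(F' dth(E+W)) ≤ 1.03·131K w`,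
  `N0(D·(R M'ᵀ)) ≤ 12 K² lam σ`;  the sum is `≤ 10^5 K² g w`.
-/

open scoped BoundedContinuousFunction

namespace ES

/-! private helpers -/

section
variable {P : SB} {lam g σ c m r0 w s : ℝ} {r : ℝ → ℝ} {ζ ζ' E E' W W' a a' q q' : Vec}

/-- differences -/
private theorem SF_dFE {d : Dat} (H : DH d lam g σ c m r0 r)
    (B : BH lam m w r ζ E W) (B' : BH lam m w r ζ' E' W')
    (hζ : DZ lam m r ζ ζ' s) (hE : ∀ j, Bd 1 r (E j - E' j) (s * w)) (j : Fin 2) :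
    Bd 1 r (mulv (FF d ζ) E j - mulv (FF d ζ') E' j) (10 * (1 + 1 / m) * (s * w)) := by
  rw [SF_mulv_sub]
  exact ((H.mulv_F1 B.z (x := E - E') hE j).add
    (SF_mulv (SF_r0 H) (fun c => H.lip_FF1 B.z B'.z hζ j c) B'.e)).mono (le_of_eq (by ring))

private theorem SF_dFEW {d : Dat} (H : DH d lam g σ c m r0 r) (hw : 0 ≤ w) (hs0 : 0 ≤ s)
    (B : BH lam m w r ζ E W) (B' : BH lam m w r ζ' E' W')
    (hζ : DZ lam m r ζ ζ' s) (hE : ∀ j, Bd 1 r (E j - E' j) (s * w))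
    (hW : ∀ j, Bd 1 r (W j - W' j) (s * w)) (j : Fin 2) :
    Bd 1 r (mulv (FF d ζ) (E + W) j - mulv (FF d ζ') (E' + W') j)
      (268 * (1 + 1 / m) ^ 2 * (s * w)) := by
  rw [SF_mulv_sub]
  refine ((H.mulv_F1 B.z (SF_dEW1 hE hW) j).add
    (SF_mulv (SF_r0 H) (fun c => H.lip_FF1 B.z B'.z hζ j c) (SF_EW1 H hw B'))).mono ?_
  have h1 : 0 ≤ (1 + 1 / m) * (s * w) :=
    mul_nonneg (by linarith [H.K2]) (mul_nonneg hs0 hw)
  have h2 := mul_le_mul_of_nonneg_right H.K2 h1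
  nlinarith

private theorem SF_dT1 {d : Dat} (H : DH d lam g σ c m r0 r)
    (B : BH lam m w r ζ E W) (B' : BH lam m w r ζ' E' W')
    (hζ : DZ lam m r ζ ζ' s) (hE : ∀ j, Bd 1 r (E j - E' j) (s * w))
    (hW : ∀ j, Bd 1 r (W j - W' j) (s * w)) (j : Fin 2) :
    Bd 0 r (2 * mulv (LL d ζ) (E + W) j - 2 * mulv (LL d ζ') (E' + W') j)
      (156 * (s * (g * w))) := by
  rw [← mul_sub, SF_mulv_sub]
  refine (SF_two ((SF_mulv (SF_r0 H) (fun c => H.bd_LL0 B.z j c)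
    (fun c => (SF_dEW1 hE hW c).weaken (Nat.zero_le _) fun _ => le_rfl)).add
    (SF_mulv (SF_r0 H) (fun c => H.lip_LL0 B.z B'.z hζ j c) (SF_EW0 B')))).mono ?_
  linarith

private theorem SF_dT2 {d : Dat} (H : DH d lam g σ c m r0 r)
    (B : BH lam m w r ζ E W) (B' : BH lam m w r ζ' E' W')
    (hζ : DZ lam m r ζ ζ' s) (hE : ∀ j, Bd 1 r (E j - E' j) (s * w))
    (hW : ∀ j, Bd 1 r (W j - W' j) (s * w)) (j : Fin 2) :
    Bd 0 r (adv d.κ (E + W) (mulv (FF d ζ) E) j - adv d.κ (E' + W') (mulv (FF d ζ') E') j)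
      (748 * (1 + 1 / m) * (s * (lam * w * w))) := by
  rw [SF_adv_sub]
  refine ((SF_adv (SF_r0 H) H.kb
      (fun c => (SF_dEW1 hE hW c).weaken (Nat.zero_le _) fun _ => le_rfl) (SF_FE H B j)).add
    (SF_adv (SF_r0 H) H.kb (SF_EW0 B') (SF_dFE H B B' hζ hE j))).mono ?_
  exact le_of_eq (by ring)

private theorem SF_dT3 {d : Dat} (H : DH d lam g σ c m r0 r) (hw : 0 ≤ w) (hs0 : 0 ≤ s)
    (B : BH lam m w r ζ E W) (B' : BH lam m w r ζ' E' W')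
    (hζ : DZ lam m r ζ ζ' s) (hE : ∀ j, Bd 1 r (E j - E' j) (s * w))
    (hW : ∀ j, Bd 1 r (W j - W' j) (s * w)) (j : Fin 2) :
    Bd 0 r (adv d.κ W (mulv (FF d ζ) (E + W)) j - adv d.κ W' (mulv (FF d ζ') (E' + W')) j)
      (19260 * (1 + 1 / m) ^ 2 * (s * (lam * w * w))) := by
  rw [SF_adv_sub]
  refine ((SF_adv (x := W - W') (SF_r0 H) H.kb
      (fun c => (hW c).weaken (Nat.zero_le _) fun _ => le_rfl) (SF_FEW H hw B j)).add
    (SF_adv (SF_r0 H) H.kb B'.w0 (SF_dFEW H hw hs0 B B' hζ hE hW j))).mono ?_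
  exact le_of_eq (by ring)

private theorem SF_dT4 (H : DH P.d lam g σ c m r0 r) (hw : 0 ≤ w) (hs0 : 0 ≤ s)
    (B : BH lam m w r ζ E W) (B' : BH lam m w r ζ' E' W')
    (hζ : DZ lam m r ζ ζ' s) (hE : ∀ j, Bd 1 r (E j - E' j) (s * w))
    (hW : ∀ j, Bd 1 r (W j - W' j) (s * w)) (j : Fin 2) :
    Bd 0 r (P.bet W * mulv (FF P.d ζ) (fun c => ES.dth P.d.i (E c + W c)) j -
        P.bet W' * mulv (FF P.d ζ') (fun c => ES.dth P.d.i (E' c + W' c)) j)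
      (479 * (1 + 1 / m) ^ 2 * (s * (lam * w * w))) := by
  have e : ∀ x x' y y' : WT, x * y - x' * y' = (x - x') * y + x' * (y - y') := by
    intro x x' y y'; ring
  rw [e, SF_bet_sub, SF_mulv_sub]
  have h1 : Bd 0 r (P.bet (W - W')) (2 * lam * (s * w)) := SF_bet H.kb hW
  have h2 : ∀ c, Bd 0 r (((fun c => ES.dth P.d.i (E c + W c)) -
      fun c => ES.dth P.d.i (E' c + W' c)) c) (2 * (s * w)) := by
    intro c
    have := (SF_dEW1 hE hW c).dth P.d.i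
    have e2 : ((fun c => ES.dth P.d.i (E c + W c)) -
      fun c => ES.dth P.d.i (E' c + W' c)) c = ES.dth P.d.i ((E + W - (E' + W')) c) := by
      simp only [Pi.sub_apply, Pi.add_apply, map_sub]
    rw [e2]; exact this
  refine ((h1.mul (SF_r0 H) (SF_Fdth H hw B P.d.i j)).add
    ((SF_bet H.kb B'.w1).mul (SF_r0 H) ((H.mulv_F0 B.z h2 j).add
      (SF_mulv (SF_r0 H) (fun c => H.lip_FF0 B.z B'.z hζ j c) (SF_dth H hw B' P.d.i))))).mono ?_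
  have hl := H.hlam
  have hK := H.K2
  have hX : 0 ≤ s * (lam * w * w) := by positivity
  have hKX : 0 ≤ (1 + 1 / m) * (s * (lam * w * w)) := mul_nonneg (by linarith) hX
  have h3 := mul_le_mul_of_nonneg_right hK hKX
  have h4 : 0 ≤ (1 + 1 / m) ^ 2 * (s * (lam * w * w)) := mul_nonneg (sq_nonneg _) hX
  nlinarith

private theorem SF_dT5 {d : Dat} (H : DH d lam g σ c m r0 r) (hσ : σ ≤ w ^ 2) (hs0 : 0 ≤ s)
    (B : BH lam m w r ζ E W) (B' : BH lam m w r ζ' E' W')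
    (hζ : DZ lam m r ζ ζ' s) (j : Fin 2) :
    Bd 0 r (dvm d.κ (mulT (RR d ζ) (MM d ζ)) j - dvm d.κ (mulT (RR d ζ') (MM d ζ')) j)
      (6 * (1 + 1 / m) ^ 2 * (s * (lam * w * w))) := by
  refine (H.lip_dvm B.z B'.z hζ j).mono ?_
  have h1 : 0 ≤ 6 * s * (1 + 1 / m) ^ 2 * lam := by
    have := H.hlam
    positivity
  calc 6 * s * (1 + 1 / m) ^ 2 * lam * σ ≤ 6 * s * (1 + 1 / m) ^ 2 * lam * w ^ 2 :=
        mul_le_mul_of_nonneg_left hσ h1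
    _ = _ := by ring

theorem f_lip (H : DH P.d lam g σ c m r0 r) (hw : 0 ≤ w) (hlw : lam * w ≤ g) (hσ : σ ≤ w ^ 2)
    (B : BH lam m w r ζ E W) (B' : BH lam m w r ζ' E' W') (hs0 : 0 ≤ s)
    (hζ : DZ lam m r ζ ζ' s) (hE : ∀ j, Bd 1 r (E j - E' j) (s * w))
    (hW : ∀ j, Bd 1 r (W j - W' j) (s * w)) (j : Fin 2) :
    Bd 0 r (P.f ζ E W j - P.f ζ' E' W' j) (10 ^ 5 * s * (1 + 1 / m) ^ 2 * g * w) := by
  have h := (((SF_dT1 H B B' hζ hE hW j).neg.sub (SF_dT2 H B B' hζ hE hW j)).sub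
    ((SF_dT3 H hw hs0 B B' hζ hE hW j).add (SF_dT4 H hw hs0 B B' hζ hE hW j))).sub
    (SF_dT5 H hσ hs0 B B' hζ j)
  have e : P.f ζ E W j - P.f ζ' E' W' j =
      -(2 * mulv (LL P.d ζ) (E + W) j - 2 * mulv (LL P.d ζ') (E' + W') j) -
      (adv P.d.κ (E + W) (mulv (FF P.d ζ) E) j - adv P.d.κ (E' + W') (mulv (FF P.d ζ') E') j) -
      (adv P.d.κ W (mulv (FF P.d ζ) (E + W)) j - adv P.d.κ W' (mulv (FF P.d ζ') (E' + W')) j +
      (P.bet W * mulv (FF P.d ζ) (fun c => ES.dth P.d.i (E c + W c)) j -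
        P.bet W' * mulv (FF P.d ζ') (fun c => ES.dth P.d.i (E' c + W' c)) j)) -
      (dvm P.d.κ (mulT (RR P.d ζ) (MM P.d ζ)) j -
        dvm P.d.κ (mulT (RR P.d ζ') (MM P.d ζ')) j) := by
    unfold SB.f; ring
  rw [e]
  refine Bd.mono h ?_
  have hl := H.hlam
  have h1 := SF_num (K := 1 + 1 / m) (X := s * (lam * w * w)) (Y := s * (g * w)) H.K2
    (by positivity) (mul_le_mul_of_nonneg_left (mul_le_mul_of_nonneg_right hlw hw) hs0)
    (c0 := 156) (c1 := 748) (c2 := 19745) (C := 10 ^ 5)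
    (by norm_num) (by norm_num) (by norm_num) (by norm_num)
  linarith

theorem g_lip (H : DH P.d lam g σ c m r0 r) (hw : 0 ≤ w) (hlw : lam * w ≤ g) (hσ : σ ≤ w ^ 2)
    (B : BH lam m w r ζ E W) (B' : BH lam m w r ζ' E' W') (hs0 : 0 ≤ s)
    (hζ : DZ lam m r ζ ζ' s) (hE : ∀ j, Bd 1 r (E j - E' j) (s * w))
    (hW : ∀ j, Bd 1 r (W j - W' j) (s * w)) {α : ℝ} (ha : ∀ j, Bd 0 r (a j) α)
    (hq : ∀ j, Bd 0 r (q j) α) (ha' : ∀ j, Bd 0 r (a j - a' j) (s * α))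
    (hq' : ∀ j, Bd 0 r (q j - q' j) (s * α)) (j : Fin 2) :
    Bd 0 r (P.g ζ E W a q j - P.g ζ' E' W' a' q' j)
      (10 ^ 5 * s * (1 + 1 / m) ^ 2 * g * w + 12 / 250 * (s * α) + 4 / 900 * (s * α)) := by
  have e : P.g ζ E W a q j - P.g ζ' E' W' a' q' j =
      (P.f ζ E W j - P.f ζ' E' W' j) -
      ((mulv (FF P.d ζ') (a - a') j - (a - a') j) +
        mulv (fun a b => FF P.d ζ a b - FF P.d ζ' a b) a j) -
      ((mulvT (MM P.d ζ') (q - q') j - (q - q') j) +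
        mulvT (fun a b => MM P.d ζ a b - MM P.d ζ' a b) q j) := by
    simp only [SB.g, mulv, mulvT, Fin.sum_univ_two, Pi.sub_apply]; ring
  rw [e]
  have h1 := f_lip H hw hlw hσ B B' hs0 hζ hE hW j
  have h2 := H.mulv_FI B'.z (x := a - a') ha' j
  have h3 := SF_mulv (a := j) (X := fun a b => FF P.d ζ a b - FF P.d ζ' a b) (SF_r0 H)
    (fun c => H.lip_FF0 B.z B'.z hζ j c) ha
  have h4 := H.mulvT_MI B'.z (x := q - q') hq' j
  have h5 := SF_mulvT (a := j) (X := fun a b => MM P.d ζ a b - MM P.d ζ' a b) (SF_r0 H)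
    (fun c => H.lip_MM0 B.z B'.z hζ c j) hq
  refine Bd.mono ((h1.sub (h2.add h3)).sub (h4.add h5)) ?_
  linarith

end

end ES
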